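import Pool.Agent.Lib_MP_7c0803_hon.Defs

/-!
# [HON-A0] Representatives of a sublattice

(1) `reps_box`: for `0 < d`, `0 < m` the box `{(x, y) | 0 ≤ x < d, 0 ≤ y < m}` (as a `Finset`, e.g. `(Ico 0 d) ×ˢ (Ico 0 m)`) is a set of
representatives modulo `Lt (d, 0) (s, m)`: for `x` take `j = x.2 / m`, `y.2 = x.2 % m`, `y.1 = (x.1 - s j) % d`; uniqueness: a vector
`i (d, 0) + j (s, m)` with `|j m| < m` has `j = 0`, then `|i d| < d` gives `i = 0` (use `mem_Lt'`).

(2) `exists_hnf`: Hermite normal form: every `Lt u v` with `0 < dt u v` is `Lt (d, 0) (s, m)` with `0 < d`, `0 < m`, `d m = dt u v`.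
Proof: let `m = gcd (u.2, v.2) > 0` (not both zero since `dt u v ≠ 0`), `u.2 = m a`, `v.2 = m b`, Bezout `x u.2 + y v.2 = m`
(so `x a + y b = 1`).  The unimodular change `(b, -a), (x, y)` (determinant `b y + a x = 1`) gives `b u - a v = (b u.1 - a v.1, 0)` and
`x u + y v = (s, m)`; `m (b u.1 - a v.1) = v.2 u.1 - u.2 v.1 = dt u v > 0`.  Use `Lt_eq` in `Lib_MP_7c0803_tor/Basis.lean` or `mem_Lt'` directly.

(3) `exists_reps` from (1) and (2).
-/

set_option autoImplicit false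

open Finset Function

namespace Pool.Agent.PP

universe u

/-- a multiple of `m` with absolute value less than `m` is zero -/
private lemma A0_zero {m j : ℤ} (hm : 0 < m) (h1 : j * m < m) (h2 : -m < j * m) : j = 0 := by
  have h3 : j < 1 := by
    by_contra h
    nlinarith
  have h4 : -1 < j := by
    by_contra h
    nlinarith
  omega

theorem reps_box (d m : ℤ) (s : ℤ) (hd : 0 < d) (hm : 0 < m) :
    Reps (Lt (d, 0) (s, m)) ((Ico (0 : ℤ) d) ×ˢ (Ico (0 : ℤ) m)) := by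
  intro x
  refine ⟨((x.1 - s * (x.2 / m)) % d, x.2 % m), ⟨?_, ?_⟩, ?_⟩
  · simp only [Finset.mem_product, Finset.mem_Ico]
    exact ⟨⟨Int.emod_nonneg _ hd.ne', Int.emod_lt_of_pos _ hd⟩,
      Int.emod_nonneg _ hm.ne', Int.emod_lt_of_pos _ hm⟩
  · rw [mem_Lt']
    refine ⟨(x.1 - s * (x.2 / m)) / d, x.2 / m, ?_, ?_⟩
    · have h1 := Int.emod_add_mul_ediv (x.1 - s * (x.2 / m)) d
      simp only [Prod.fst_sub]
      linarith
    · have h1 := Int.emod_add_mul_ediv x.2 m
      simp only [Prod.snd_sub]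
      linarith
  · rintro ⟨y1, y2⟩ ⟨hy1, hy2⟩
    simp only [Finset.mem_product, Finset.mem_Ico] at hy1
    obtain ⟨⟨a1, a2⟩, a3, a4⟩ := hy1
    rw [mem_Lt'] at hy2
    obtain ⟨i, j, h1, h2⟩ := hy2
    simp only [Prod.fst_sub, Prod.snd_sub] at h1 h2
    have e1 := Int.emod_add_mul_ediv x.2 m
    have e2 := Int.emod_nonneg x.2 hm.ne'
    have e3 := Int.emod_lt_of_pos x.2 hm
    have k1 : j - x.2 / m = 0 := A0_zero hm (by linarith) (by linarith)
    have k2 : j = x.2 / m := by linarith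
    subst k2
    have k3 : y2 = x.2 % m := by linarith
    have f1 := Int.emod_add_mul_ediv (x.1 - s * (x.2 / m)) d
    have f2 := Int.emod_nonneg (x.1 - s * (x.2 / m)) hd.ne'
    have f3 := Int.emod_lt_of_pos (x.1 - s * (x.2 / m)) hd
    have k4 : i - (x.1 - s * (x.2 / m)) / d = 0 := A0_zero hd (by linarith) (by linarith)
    have k5 : i = (x.1 - s * (x.2 / m)) / d := by linarith
    have k6 : y1 = (x.1 - s * (x.2 / m)) % d := by
      rw [k5] at h1
      linarith
    rw [k3, k6]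

theorem exists_hnf (u v : ℤ × ℤ) (hd : 0 < dt u v) :
    ∃ d m s : ℤ, 0 < d ∧ 0 < m ∧ d * m = dt u v ∧ Lt u v = Lt (d, 0) (s, m) := by
  unfold dt at hd ⊢
  have hg : 0 < (Int.gcd u.2 v.2 : ℤ) := by
    have h1 : Int.gcd u.2 v.2 ≠ 0 := by
      intro h
      rw [Int.gcd_eq_zero_iff] at h
      rw [h.1, h.2] at hd
      simp at hd
    omega
  obtain ⟨a, ha⟩ : (Int.gcd u.2 v.2 : ℤ) ∣ u.2 := Int.gcd_dvd_left ..
  obtain ⟨b, hb⟩ : (Int.gcd u.2 v.2 : ℤ) ∣ v.2 := Int.gcd_dvd_right ..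
  have hB := Int.gcd_eq_gcd_ab u.2 v.2
  set m : ℤ := (Int.gcd u.2 v.2 : ℤ) with hm
  set x := Int.gcdA u.2 v.2
  set y := Int.gcdB u.2 v.2
  have h1 : a * x + b * y = 1 := by
    have h2 : m * (a * x + b * y) = m * 1 := by
      rw [mul_one]
      calc m * (a * x + b * y) = (m * a) * x + (m * b) * y := by ring
        _ = u.2 * x + v.2 * y := by rw [← ha, ← hb]
        _ = m := hB.symm
    exact mul_left_cancel₀ hg.ne' h2
  have h2 : (b * u.1 - a * v.1) * m = u.1 * v.2 - u.2 * v.1 := by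
    calc (b * u.1 - a * v.1) * m = u.1 * (m * b) - (m * a) * v.1 := by ring
      _ = _ := by rw [← ha, ← hb]
  refine ⟨b * u.1 - a * v.1, m, x * u.1 + y * v.1, ?_, hg, h2, ?_⟩
  · rw [← h2] at hd
    exact pos_of_mul_pos_left hd hg.le
  · ext w
    rw [mem_Lt', mem_Lt']
    constructor
    · rintro ⟨i, j, e1, e2⟩
      refine ⟨i * y - j * x, i * a + j * b, ?_, ?_⟩
      · simp only
        rw [← e1]
        linear_combination (i * u.1 + j * v.1) * h1
      · simp only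
        rw [← e2, ha, hb]
        ring
    · rintro ⟨i, j, e1, e2⟩
      simp only at e1 e2
      refine ⟨i * b + j * x, j * y - i * a, ?_, ?_⟩
      · rw [← e1]
        ring
      · rw [← e2]
        calc (i * b + j * x) * u.2 + (j * y - i * a) * v.2
            = i * (b * u.2 - a * v.2) + j * (u.2 * x + v.2 * y) := by ring
          _ = i * (b * (m * a) - a * (m * b)) + j * m := by rw [← ha, ← hb, ← hB]
          _ = i * 0 + j * m := by ring

theorem exists_reps (u v : ℤ × ℤ) (hd : 0 < dt u v) :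
    ∃ F : Finset (ℤ × ℤ), (F.card : ℤ) = dt u v ∧ Reps (Lt u v) F := by
  obtain ⟨d, m, s, h1, h2, h3, h4⟩ := exists_hnf u v hd
  refine ⟨(Ico (0 : ℤ) d) ×ˢ (Ico (0 : ℤ) m), ?_, ?_⟩
  · rw [Finset.card_product, Int.card_Ico, Int.card_Ico, ← h3]
    push_cast
    rw [sub_zero, sub_zero, Int.toNat_of_nonneg h1.le, Int.toNat_of_nonneg h2.le]
  · rw [h4]
    exact reps_box d m s h1 h2

end Pool.Agent.PP
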