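import Pool.Agent.Lib_MP_7c0803_hon.Defs

/-!
# [HON-A1] A periodic colouring of the plane honeycomb with odd parity

`reps_sum`: the sum of a periodic function over representatives is the sum over the quotient of `f (Quotient.out q)`; so it does not
depend on the representatives and is invariant under translations.  (Bijection `F ≃ (ℤ × ℤ) ⧸ L`, `y ↦ ↑y`; `QuotientAddGroup.eq` says
`(↑a = ↑b) ↔ -a + b ∈ L`.)

`npc_of_col`: given `B` and `i : UIso B (HT L)`; `E` is finite, so `((ℤ × ℤ) ⧸ L) × Fin 3` is finite, so the quotient is finite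
(`Finite.of_equiv`, `Finite.prod_left`), take `Fintype.ofFinite`.  Two colourings of `HT L`: `c0 (q, i) = i` and `c1 (q, i) =` the value of
`c · i` on `q` (`Quotient.out`, or `QuotientAddGroup` lift with `hper`).  `HT L = HG ↑(1, 0) ↑(0, 1)`, `(HT L).s (x, i) = (x, i + 1)`,
`(HT L).t (x, i) = (x + δ i - δ (i + 1), i + 1)`; with `y = x + δ i` the `t`-neighbour of `(y - δ i, i)` is `(y - δ (i + 1), i + 1)`.  Both are
proper (`hc`; for `c0`: `i + 1 ≠ i`).  `(HT L).par c1 = ∑ q, pb + ∑ q, pw` (sums over `(q, i)` with `Fintype.sum_prod_type`, in the second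
sum substitute `x = y - δ i` for every `i`) `= ∑ x ∈ F, (pb c x + pw c x) = 1`, and the same computation for `c0` gives `2 |quotient| = 0`
(every `pb`, `pw` is `1`).  So `¬ (HT L).PC`, and `UIso.PC` (in `Lib_MP_7c0803_tor/Iso.lean`) gives `¬ B.PC`.
-/

set_option autoImplicit false

open Finset Function

namespace Pool.Agent.PP

universe u

theorem reps_sum {M : Type*} [AddCommMonoid M] (L : AddSubgroup (ℤ × ℤ)) (F F' : Finset (ℤ × ℤ)) (hF : Reps L F) (hF' : Reps L F')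
    (f : ℤ × ℤ → M) (hf : ∀ x, ∀ l ∈ L, f (x + l) = f x) : ∑ x ∈ F, f x = ∑ x ∈ F', f x := by
  have h1 : ∀ x, ∃ y, y ∈ F' ∧ x - y ∈ L := fun x => (hF' x).exists
  choose r hr hrL using h1
  refine Finset.sum_bij (fun x _ => r x) (fun x _ => hr x) ?_ ?_ ?_
  · intro x hx y hy hxy
    have h2 : x - y ∈ L := by
      have h3 := L.sub_mem (hrL x) (hrL y)
      have h4 : x - r x - (y - r y) = x - y := by
        have h5 : r x = r y := hxy
        rw [h5]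
        abel
      rwa [h4] at h3
    exact (hF x).unique ⟨hx, by rw [sub_self]; exact L.zero_mem⟩ ⟨hy, h2⟩
  · intro b hb
    obtain ⟨y, hy, hyL⟩ := (hF b).exists
    refine ⟨y, hy, (hF' y).unique ⟨hr y, hrL y⟩ ⟨hb, ?_⟩⟩
    have := L.neg_mem hyL
    rwa [neg_sub] at this
  · intro x _
    have h2 := hf (r x) (x - r x) (hrL x)
    rw [add_sub_cancel] at h2
    exact h2

theorem reps_shift {M : Type*} [AddCommMonoid M] (L : AddSubgroup (ℤ × ℤ)) (F : Finset (ℤ × ℤ)) (hF : Reps L F)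
    (f : ℤ × ℤ → M) (hf : ∀ x, ∀ l ∈ L, f (x + l) = f x) (a : ℤ × ℤ) : ∑ x ∈ F, f (x + a) = ∑ x ∈ F, f x := by
  have h1 : ∑ x ∈ F, f (x + a) = ∑ x ∈ F.map (Equiv.addRight a).toEmbedding, f x := by
    rw [Finset.sum_map]
    rfl
  rw [h1]
  refine reps_sum L _ F ?_ hF f hf
  intro x
  obtain ⟨y, ⟨hy, hyL⟩, hu⟩ := hF (x - a)
  refine ⟨y + a, ⟨?_, ?_⟩, ?_⟩
  · exact Finset.mem_map.2 ⟨y, hy, rfl⟩
  · have h2 : x - (y + a) = x - a - y := by abel
    rw [h2]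
    exact hyL
  · rintro z ⟨hz, hzL⟩
    obtain ⟨w, hw, rfl⟩ := Finset.mem_map.1 hz
    have h2 : w = y := hu w ⟨hw, by
      have h3 : x - a - w = x - (w + a) := by abel
      rw [h3]
      exact hzL⟩
    rw [h2]
    rfl

/-- the sum over the quotient is the sum over representatives -/
private lemma A1_sum {M : Type*} [AddCommMonoid M] (L : AddSubgroup (ℤ × ℤ)) [Fintype ((ℤ × ℤ) ⧸ L)] (F : Finset (ℤ × ℤ))
    (hF : Reps L F) (g : (ℤ × ℤ) ⧸ L → M) : ∑ q, g q = ∑ x ∈ F, g ((x : ℤ × ℤ) : (ℤ × ℤ) ⧸ L) := by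
  symm
  refine Finset.sum_bij (fun x _ => ((x : ℤ × ℤ) : (ℤ × ℤ) ⧸ L)) (fun x _ => Finset.mem_univ _) ?_ ?_ (fun x _ => rfl)
  · intro x hx y hy hxy
    have h2 : x - y ∈ L := by
      have h3 := QuotientAddGroup.eq.1 hxy
      have h4 := L.neg_mem h3
      have h5 : -(-x + y) = x - y := by abel
      rwa [h5] at h4
    exact (hF x).unique ⟨hx, by rw [sub_self]; exact L.zero_mem⟩ ⟨hy, h2⟩
  · intro q _
    induction q using QuotientAddGroup.induction_on with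
    | H x =>
      obtain ⟨y, hy, hyL⟩ := (hF x).exists
      refine ⟨y, hy, QuotientAddGroup.eq.2 ?_⟩
      have h5 : -y + x = x - y := by abel
      rw [h5]
      exact hyL

/-- the colouring of the torus -/
private noncomputable def A1_C (L : AddSubgroup (ℤ × ℤ)) (c : ℤ × ℤ → Fin 3 → Fin 3) (p : ((ℤ × ℤ) ⧸ L) × Fin 3) : Fin 3 :=
  c (Quotient.out p.1) p.2

private lemma A1_C_mk (L : AddSubgroup (ℤ × ℤ)) (c : ℤ × ℤ → Fin 3 → Fin 3)
    (hper : ∀ x, ∀ l ∈ L, ∀ i, c (x + l) i = c x i) (x : ℤ × ℤ) (i : Fin 3) :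
    A1_C L c (((x : ℤ × ℤ) : (ℤ × ℤ) ⧸ L), i) = c x i := by
  unfold A1_C
  have h1 : ((Quotient.out ((x : ℤ × ℤ) : (ℤ × ℤ) ⧸ L) : ℤ × ℤ) : (ℤ × ℤ) ⧸ L) = ((x : ℤ × ℤ) : (ℤ × ℤ) ⧸ L) :=
    QuotientAddGroup.out_eq' _
  have h2 := QuotientAddGroup.eq.1 h1.symm
  have h3 := hper x _ h2 i
  rw [add_neg_cancel_left] at h3
  exact h3

private lemma A1_dl (L : AddSubgroup (ℤ × ℤ)) (i : Fin 3) :
    dl (((1, 0) : ℤ × ℤ) : (ℤ × ℤ) ⧸ L) (((0, 1) : ℤ × ℤ) : (ℤ × ℤ) ⧸ L) i = ((dd i : ℤ × ℤ) : (ℤ × ℤ) ⧸ L) :=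
  (dl_map (QuotientAddGroup.mk' L) (1, 0) (0, 1) i).symm

private lemma A1_t (L : AddSubgroup (ℤ × ℤ)) (x : ℤ × ℤ) (i : Fin 3) :
    (HT L).t (((x : ℤ × ℤ) : (ℤ × ℤ) ⧸ L), i) = (((x + dd i - dd (i + 1) : ℤ × ℤ) : (ℤ × ℤ) ⧸ L), i + 1) := by
  unfold HT
  rw [HG_t, A1_dl, A1_dl]
  rfl

private lemma A1_P (L : AddSubgroup (ℤ × ℤ)) (c : ℤ × ℤ → Fin 3 → Fin 3) (hc : PCol c)
    (hper : ∀ x, ∀ l ∈ L, ∀ i, c (x + l) i = c x i) : (HT L).P (A1_C L c) := by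
  rintro ⟨q, i⟩
  induction q using QuotientAddGroup.induction_on with
  | H x =>
    constructor
    · have h1 : (HT L).s (((x : ℤ × ℤ) : (ℤ × ℤ) ⧸ L), i) = (((x : ℤ × ℤ) : (ℤ × ℤ) ⧸ L), i + 1) := rfl
      rw [h1, A1_C_mk L c hper, A1_C_mk L c hper]
      exact hc.1 x i
    · rw [A1_t, A1_C_mk L c hper, A1_C_mk L c hper]
      have := hc.2 (x + dd i) i
      rwa [add_sub_cancel_right] at this

private lemma A1_par (L : AddSubgroup (ℤ × ℤ)) [Fintype ((ℤ × ℤ) ⧸ L)] (c : ℤ × ℤ → Fin 3 → Fin 3)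
    (hper : ∀ x, ∀ l ∈ L, ∀ i, c (x + l) i = c x i) (F : Finset (ℤ × ℤ)) (hF : Reps L F) :
    (HT L).par (A1_C L c) = ∑ x ∈ F, (pb c x + pw c x) := by
  unfold CB.par
  rw [Finset.sum_add_distrib]
  congr 1
  · rw [Fintype.sum_prod_type, A1_sum L F hF]
    refine Finset.sum_congr rfl fun x _ => ?_
    unfold pb
    refine Finset.sum_congr rfl fun i _ => ?_
    have h1 : (HT L).s (((x : ℤ × ℤ) : (ℤ × ℤ) ⧸ L), i) = (((x : ℤ × ℤ) : (ℤ × ℤ) ⧸ L), i + 1) := rfl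
    rw [h1, A1_C_mk L c hper, A1_C_mk L c hper]
  · unfold pw
    rw [Fintype.sum_prod_type]
    refine Finset.sum_comm.trans (Eq.trans ?_ Finset.sum_comm)
    refine Finset.sum_congr rfl fun i _ => ?_
    have h0 := reps_shift L F hF (fun x => sg (c (x - dd (i + 1)) (i + 1) - c (x - dd i) i)) (by
      intro x l hl
      have h1 : x + l - dd (i + 1) = x - dd (i + 1) + l := by abel
      have h2 : x + l - dd i = x - dd i + l := by abel
      show sg (c (x + l - dd (i + 1)) (i + 1) - c (x + l - dd i) i) = _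
      rw [h1, h2, hper _ l hl, hper _ l hl]) (dd i)
    rw [← h0, A1_sum L F hF]
    refine Finset.sum_congr rfl fun x _ => ?_
    show _ = sg (c (x + dd i - dd (i + 1)) (i + 1) - c (x + dd i - dd i) i)
    rw [A1_t, A1_C_mk L c hper, A1_C_mk L c hper, add_sub_cancel_right]

theorem npc_of_col (L : AddSubgroup (ℤ × ℤ)) (c : ℤ × ℤ → Fin 3 → Fin 3) (hc : PCol c)
    (hper : ∀ x, ∀ l ∈ L, ∀ i, c (x + l) i = c x i) (F : Finset (ℤ × ℤ)) (hF : Reps L F)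
    (hp : ∑ x ∈ F, (pb c x + pw c x) = 1) : NPC.{u} L := by
  rintro E hE B ⟨i⟩ hPC
  have : Finite (((ℤ × ℤ) ⧸ L) × Fin 3) := Finite.of_equiv E i.j
  have : Finite ((ℤ × ℤ) ⧸ L) := Finite.prod_left (Fin 3)
  have : Fintype ((ℤ × ℤ) ⧸ L) := Fintype.ofFinite _
  have h1 : (HT L).PC := i.PC.1 hPC
  have h2 := h1 _ _ (A1_P L c hc hper) (A1_P L (fun _ i => i) ⟨fun _ i => fin3_add_ne i, fun _ i => fin3_add_ne i⟩
    (fun _ _ _ _ => rfl))
  rw [A1_par L c hper F hF, A1_par L _ (fun _ _ _ _ => rfl) F hF, hp] at h2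
  have h3 : ∑ x ∈ F, (pb (fun _ i => i) x + pw (fun _ i => i) x) = 0 := by
    refine Finset.sum_eq_zero fun x _ => ?_
    show (∑ i : Fin 3, sg (i + 1 - i)) + (∑ i : Fin 3, sg (i + 1 - i)) = 0
    decide
  rw [h3] at h2
  exact one_ne_zero h2

end Pool.Agent.PP
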