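import Pool.Agent.Lib_MP_7c0803_hon.A1

/-!
# [HON-A2] Discrete Stokes formula

`n = dt u v`.  `p x = n k x - (ku (dt x v) + kv (dt u x))` and `r x = n b x - (bu (dt x v) + bv (dt u x))` are `Lt u v`-periodic
(`dt (x + u) v = dt x v + n`, `dt u (x + u) = dt u x`, ...).  `n² ar k b = ar (n k) (n b)` with `n k = p + linear`, `n b = r + linear`; `ar` is
bilinear in `(k, b)`.
* linear × linear: with `l x = A x.1 + B x.2`, `l' x = A' x.1 + B' x.2`: `ar l l' x = - 2 (A B' - A' B)`, where for `l x = ku (dt x v) + kv (dt u x)`: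
  `A = ku v.2 - kv u.2`, `B = - ku v.1 + kv u.1`; `A B' - A' B = n (ku bv - kv bu)`.
* `p` × linear and linear × `r`: `ar` is a sum of differences of values of `p` at shifted points times constants, the sum over `F` is `0` by
  `reps_shift`.
* `p` × `r`: `ar p r x = (h (x + ee 0) - h x) + (g x - g (x + ee 1))` with `h x = p x * r (x + ee 1) - r x * p (x + ee 1)`,
  `g x = p x * r (x + ee 0) - r x * p (x + ee 0)`; both sums are `0` by `reps_shift`.
Altogether `n² ∑ ar k b = - 2 n · n (ku bv - kv bu)` (`F.card = n`, from `hF` and `hcard`), so `∑ ar k b = 2 (bu kv - bv ku)`.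
-/

set_option autoImplicit false

open Finset Function

namespace Pool.Agent.PP

universe u

/-- twice the signed area of the image of the parallelogram at `x` -/
def ar (k b : ℤ × ℤ → ℤ) (x : ℤ × ℤ) : ℤ :=
  ((k (x + ee 0) - k x) * (b (x + ee 0 + ee 1) - b (x + ee 0)) - (b (x + ee 0) - b x) * (k (x + ee 0 + ee 1) - k (x + ee 0))) -
  ((k (x + ee 1) - k x) * (b (x + ee 0 + ee 1) - b (x + ee 1)) - (b (x + ee 1) - b x) * (k (x + ee 0 + ee 1) - k (x + ee 1)))

private lemma a2_per (u v : ℤ × ℤ) (p : ℤ × ℤ → ℤ) (hu : ∀ x, p (x + u) = p x)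
    (hv : ∀ x, p (x + v) = p x) : ∀ x, ∀ l ∈ Lt u v, p (x + l) = p x := by
  intro x l hl
  have key : ∀ l ∈ Lt u v, ∀ x, p (x + l) = p x := by
    intro l hl
    unfold Lt at hl
    induction hl using AddSubgroup.closure_induction with
    | mem y hy =>
      rcases hy with rfl | hy
      · exact hu
      · rw [Set.mem_singleton_iff] at hy
        subst hy
        exact hv
    | zero => intro x; rw [add_zero]
    | add a b _ _ ha hb => intro x; rw [← add_assoc, hb, ha]
    | neg a _ ha => intro x; rw [← ha (x + -a), neg_add_cancel_right]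
  exact key l hl x

private lemma a2_sum (u v : ℤ × ℤ) (F : Finset (ℤ × ℤ)) (hF : Reps (Lt u v) F) (p : ℤ × ℤ → ℤ)
    (hp : ∀ x, ∀ l ∈ Lt u v, p (x + l) = p x) (a : ℤ × ℤ) :
    ∑ x ∈ F, p (x + a) = ∑ x ∈ F, p x :=
  reps_shift (Lt u v) F hF p hp a

theorem stokes (u v : ℤ × ℤ) (hd : 0 < dt u v) (F : Finset (ℤ × ℤ)) (hF : Reps (Lt u v) F) (hcard : (F.card : ℤ) = dt u v)
    (k b : ℤ × ℤ → ℤ) (ku kv bu bv : ℤ) (h1 : ∀ x, k (x + u) = k x + ku) (h2 : ∀ x, k (x + v) = k x + kv)
    (h3 : ∀ x, b (x + u) = b x + bu) (h4 : ∀ x, b (x + v) = b x + bv) :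
    ∑ x ∈ F, ar k b x = 2 * (bu * kv - bv * ku) := by
  set n : ℤ := dt u v with hn
  set p : ℤ × ℤ → ℤ := fun x => n * k x - (ku * dt x v + kv * dt u x) with hp
  set r : ℤ × ℤ → ℤ := fun x => n * b x - (bu * dt x v + bv * dt u x) with hr
  have hpu : ∀ x, p (x + u) = p x := by
    intro x
    simp only [hp, h1, hn, dt, Prod.fst_add, Prod.snd_add]
    ring
  have hpv : ∀ x, p (x + v) = p x := by
    intro x
    simp only [hp, h2, hn, dt, Prod.fst_add, Prod.snd_add]
    ring
  have hru : ∀ x, r (x + u) = r x := by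
    intro x
    simp only [hr, h3, hn, dt, Prod.fst_add, Prod.snd_add]
    ring
  have hrv : ∀ x, r (x + v) = r x := by
    intro x
    simp only [hr, h4, hn, dt, Prod.fst_add, Prod.snd_add]
    ring
  have hpL := a2_per u v p hpu hpv
  have hrL := a2_per u v r hru hrv
  set P : ℤ × ℤ → ℤ := fun x => p x * r (x + ee 1) - p (x + ee 1) * r x with hP
  set Q : ℤ × ℤ → ℤ := fun x => p x * r (x + ee 0) - p (x + ee 0) * r x with hQ
  have hPL : ∀ x, ∀ l ∈ Lt u v, P (x + l) = P x := by
    intro x l hl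
    have e1 : x + l + ee 1 = x + ee 1 + l := by abel
    simp only [hP, e1, hpL _ l hl, hrL _ l hl]
  have hQL : ∀ x, ∀ l ∈ Lt u v, Q (x + l) = Q x := by
    intro x l hl
    have e1 : x + l + ee 0 = x + ee 0 + l := by abel
    simp only [hQ, e1, hpL _ l hl, hrL _ l hl]
  set E : ℤ := ku * v.2 - kv * u.2 with hE
  set G : ℤ := ku * v.1 - kv * u.1 with hG
  set E' : ℤ := bu * v.2 - bv * u.2 with hE'
  set G' : ℤ := bu * v.1 - bv * u.1 with hG'
  have key : ∀ x, n ^ 2 * ar k b x =
      ((P (x + ee 0) - P x) - (Q (x + ee 1) - Q x)) +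
      ((p (x + ee 0) - p x) * G' - E' * (p (x + (ee 0 + ee 1)) - p (x + ee 0)) -
        (p (x + ee 1) - p x) * E' + G' * (p (x + (ee 0 + ee 1)) - p (x + ee 1))) +
      (E * (r (x + (ee 0 + ee 1)) - r (x + ee 0)) - (r (x + ee 0) - r x) * G -
        G * (r (x + (ee 0 + ee 1)) - r (x + ee 1)) + (r (x + ee 1) - r x) * E) +
      2 * (E * G' - E' * G) := by
    intro x
    have e3 : x + ee 1 + ee 0 = x + (ee 0 + ee 1) := by abel
    have e4 : x + ee 0 + ee 1 = x + (ee 0 + ee 1) := by abel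
    simp only [hP, hQ, ar, e3, e4]
    have k0 : n * k x = p x + (ku * dt x v + kv * dt u x) := by simp only [hp]; ring
    have k1 : n * k (x + ee 0) = p (x + ee 0) + (ku * dt x v + kv * dt u x) + E := by
      simp only [hp, hE, dt, ee_zero, Prod.fst_add, Prod.snd_add]; ring
    have k2 : n * k (x + ee 1) = p (x + ee 1) + (ku * dt x v + kv * dt u x) + G := by
      simp only [hp, hG, dt, ee_one, Prod.fst_add, Prod.snd_add]; ring
    have k3 : n * k (x + (ee 0 + ee 1)) =
        p (x + (ee 0 + ee 1)) + (ku * dt x v + kv * dt u x) + E + G := by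
      simp only [hp, hE, hG, dt, ee_zero, ee_one, Prod.fst_add, Prod.snd_add]; ring
    have b0 : n * b x = r x + (bu * dt x v + bv * dt u x) := by simp only [hr]; ring
    have b1 : n * b (x + ee 0) = r (x + ee 0) + (bu * dt x v + bv * dt u x) + E' := by
      simp only [hr, hE', dt, ee_zero, Prod.fst_add, Prod.snd_add]; ring
    have b2 : n * b (x + ee 1) = r (x + ee 1) + (bu * dt x v + bv * dt u x) + G' := by
      simp only [hr, hG', dt, ee_one, Prod.fst_add, Prod.snd_add]; ring
    have b3 : n * b (x + (ee 0 + ee 1)) =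
        r (x + (ee 0 + ee 1)) + (bu * dt x v + bv * dt u x) + E' + G' := by
      simp only [hr, hE', hG', dt, ee_zero, ee_one, Prod.fst_add, Prod.snd_add]; ring
    generalize ku * dt x v + kv * dt u x = l at *
    generalize bu * dt x v + bv * dt u x = l' at *
    generalize p x = p0 at *
    generalize p (x + ee 0) = p1 at *
    generalize p (x + ee 1) = p2 at *
    generalize p (x + (ee 0 + ee 1)) = p3 at *
    generalize r x = r0 at *
    generalize r (x + ee 0) = r1 at *
    generalize r (x + ee 1) = r2 at *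
    generalize r (x + (ee 0 + ee 1)) = r3 at *
    generalize k x = a0 at *
    generalize k (x + ee 0) = a1 at *
    generalize k (x + ee 1) = a2 at *
    generalize k (x + (ee 0 + ee 1)) = a3 at *
    generalize b x = c0 at *
    generalize b (x + ee 0) = c1 at *
    generalize b (x + ee 1) = c2 at *
    generalize b (x + (ee 0 + ee 1)) = c3 at *
    have h5 : n ^ 2 * (((a1 - a0) * (c3 - c1) - (c1 - c0) * (a3 - a1)) -
        ((a2 - a0) * (c3 - c2) - (c2 - c0) * (a3 - a2))) =
        ((n * a1 - n * a0) * (n * c3 - n * c1) - (n * c1 - n * c0) * (n * a3 - n * a1)) -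
        ((n * a2 - n * a0) * (n * c3 - n * c2) - (n * c2 - n * c0) * (n * a3 - n * a2)) := by
      ring
    rw [h5, k0, k1, k2, k3, b0, b1, b2, b3]
    ring
  have hs1 := a2_sum u v F hF P hPL (ee 0)
  have hs2 := a2_sum u v F hF Q hQL (ee 1)
  have hp0 := a2_sum u v F hF p hpL (ee 0)
  have hp1 := a2_sum u v F hF p hpL (ee 1)
  have hp2 := a2_sum u v F hF p hpL (ee 0 + ee 1)
  have hr0 := a2_sum u v F hF r hrL (ee 0)
  have hr1 := a2_sum u v F hF r hrL (ee 1)
  have hr2 := a2_sum u v F hF r hrL (ee 0 + ee 1)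
  have hsum : n ^ 2 * ∑ x ∈ F, ar k b x = n * (2 * (E * G' - E' * G)) := by
    rw [Finset.mul_sum, Finset.sum_congr rfl fun x _ => key x]
    simp only [Finset.sum_add_distrib, Finset.sum_sub_distrib, ← Finset.mul_sum,
      ← Finset.sum_mul, Finset.sum_const, nsmul_eq_mul, hcard]
    rw [hs1, hs2, hp0, hp1, hp2, hr0, hr1, hr2]
    ring
  have hEG : E * G' - E' * G = n * (bu * kv - bv * ku) := by
    simp only [hE, hG, hE', hG', hn, dt]
    ring
  rw [hEG] at hsum
  have hn0 : n ^ 2 ≠ 0 := pow_ne_zero 2 hd.ne'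
  apply mul_left_cancel₀ hn0
  rw [hsum]
  ring

end Pool.Agent.PP
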