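import Pool.Agent.Lib_MP_7c0803_hon.A0
import Pool.Agent.Lib_MP_7c0803_hon.A1
import Pool.Agent.Lib_MP_7c0803_hon.A2

/-!
# [HON-A3] A pair of heights of odd type

Colour of the step `x → x + ee i`: `0` if `k` falls by `2`, `1` if `b` rises, `2` if `b` falls.  The edge `(x, 2)` has the colour of the step
`(x, ee 0)`, `(x, 1)` of `(x + (1, 0), ee 1)`, `(x, 0)` of `(x + (1, -1), ee 2)`.  The three steps around the triangle of an `X`-vertex `x`
(`x → x + (1, 0) → x + (1, -1) → x`) and of a `Y`-vertex `y` (`y → y + (0, -1) → y + (1, -1) → y`, edges `(y - (1, 0), 1)`, `(y - (0, 1), 2)`, `(y, 0)`)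
add up to `0`, and `(-2, 0), (1, 1), (1, -1)` is then used exactly once each: `PCol`.  Periodicity: `k (x + l) - k x` does not depend on `x`
for `l ∈ Lt u v` (induction with `mem_Lt'`), same for `b`.
With `w 0 = (-2, 0)`, `w 1 = (1, 1)`, `w 2 = (1, -1)`: `det (w a) (w (a + 1)) = -2`, so in `ar k b x` the first bracket is `2` if `pb c x = 1` and
`-2` if `pb c x = 0`, the second is `-2` if `pw c x = 1` and `2` if `pw c x = 0` (finite check over the colours).  So with `π x ∈ {0, 1, 2}` the integer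
`[pb c x = 1] + [pw c x = 1]`: `ar k b x = 4 π x - 4`, and by `stokes`: `4 ∑ π x = 4 n + 2 (bu kv - bv ku)`, i.e. `∑ π x = n + (bu kv - bv ku) / 2`, odd by
`hodd`.  Cast to `ZMod 2` and use `npc_of_col`.
-/

set_option autoImplicit false

open Finset Function

namespace Pool.Agent.PP

universe u

/-- first coordinate of the step of a colour -/
private def A3wk (a : Fin 3) : ℤ := if a = 0 then -2 else 1

/-- second coordinate of the step of a colour -/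
private def A3wb (a : Fin 3) : ℤ := if a = 0 then 0 else if a = 1 then 1 else -1

private lemma A3_tri : ∀ α β γ : Fin 3, A3wk α + A3wk β + A3wk γ = 0 → A3wb α + A3wb β + A3wb γ = 0 →
    β ≠ γ ∧ α ≠ β ∧ γ ≠ α := by decide

private lemma A3_pb : ∀ α β γ : Fin 3, A3wk α + A3wk β + A3wk γ = 0 → A3wb α + A3wb β + A3wb γ = 0 →
    (sg (β - γ) + sg (α - β) + sg (γ - α) = 1 ∧ A3wk α * A3wb β - A3wb α * A3wk β = 2) ∨
    (sg (β - γ) + sg (α - β) + sg (γ - α) = 0 ∧ A3wk α * A3wb β - A3wb α * A3wk β = -2) := by decide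

/-- the colour of a step -/
private noncomputable def A3st (k b : ℤ × ℤ → ℤ) (x : ℤ × ℤ) (i : Fin 3) : Fin 3 :=
  if k (x + ee i) = k x - 2 then 0 else if b (x + ee i) = b x + 1 then 1 else 2

private lemma A3_st {k b : ℤ × ℤ → ℤ} (h : HPair k b) (x : ℤ × ℤ) (i : Fin 3) :
    k (x + ee i) - k x = A3wk (A3st k b x i) ∧ b (x + ee i) - b x = A3wb (A3st k b x i) := by
  rcases h x i with ⟨h1, h2⟩ | ⟨h1, h2 | h2⟩
  · have h3 : A3st k b x i = 0 := by
      unfold A3st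
      rw [if_pos h1]
    rw [h3, h1, h2]
    exact ⟨by rw [sub_sub_cancel_left]; rfl, by rw [sub_self]; rfl⟩
  · have h3 : A3st k b x i = 1 := by
      unfold A3st
      rw [if_neg (by omega), if_pos h2]
    rw [h3, h1, h2]
    exact ⟨by rw [add_sub_cancel_left]; rfl, by rw [add_sub_cancel_left]; rfl⟩
  · have h3 : A3st k b x i = 2 := by
      unfold A3st
      rw [if_neg (by omega), if_neg (by omega)]
    rw [h3, h1, h2]
    exact ⟨by rw [add_sub_cancel_left]; rfl, by rw [sub_sub_cancel_left]; rfl⟩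

/-- the colouring -/
private noncomputable def A3c (k b : ℤ × ℤ → ℤ) (x : ℤ × ℤ) (i : Fin 3) : Fin 3 :=
  if i = 0 then A3st k b (x + (1, -1)) 2 else if i = 1 then A3st k b (x + (1, 0)) 1 else A3st k b x 0

private lemma A3_X {k b : ℤ × ℤ → ℤ} (h : HPair k b) (x : ℤ × ℤ) :
    A3wk (A3st k b x 0) + A3wk (A3st k b (x + (1, 0)) 1) + A3wk (A3st k b (x + (1, -1)) 2) = 0 ∧
    A3wb (A3st k b x 0) + A3wb (A3st k b (x + (1, 0)) 1) + A3wb (A3st k b (x + (1, -1)) 2) = 0 := by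
  obtain ⟨h1, h1'⟩ := A3_st h x 0
  obtain ⟨h2, h2'⟩ := A3_st h (x + (1, 0)) 1
  obtain ⟨h3, h3'⟩ := A3_st h (x + (1, -1)) 2
  have e1 : x + ee 0 = x + (1, 0) := rfl
  have e2 : x + (1, 0) + ee 1 = x + (1, -1) := by
    rw [add_assoc]; rfl
  have e3 : x + (1, -1) + ee 2 = x := by
    rw [add_assoc]
    exact add_zero x
  rw [e1] at h1 h1'
  rw [e2] at h2 h2'
  rw [e3] at h3 h3'
  constructor <;> omega

private lemma A3_Y {k b : ℤ × ℤ → ℤ} (h : HPair k b) (x : ℤ × ℤ) :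
    A3wk (A3st k b x 1) + A3wk (A3st k b (x + (0, -1)) 0) + A3wk (A3st k b (x + (1, -1)) 2) = 0 ∧
    A3wb (A3st k b x 1) + A3wb (A3st k b (x + (0, -1)) 0) + A3wb (A3st k b (x + (1, -1)) 2) = 0 := by
  obtain ⟨h1, h1'⟩ := A3_st h x 1
  obtain ⟨h2, h2'⟩ := A3_st h (x + (0, -1)) 0
  obtain ⟨h3, h3'⟩ := A3_st h (x + (1, -1)) 2
  have e1 : x + ee 1 = x + (0, -1) := rfl
  have e2 : x + (0, -1) + ee 0 = x + (1, -1) := by
    rw [add_assoc]; rfl
  have e3 : x + (1, -1) + ee 2 = x := by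
    rw [add_assoc]
    exact add_zero x
  rw [e1] at h1 h1'
  rw [e2] at h2 h2'
  rw [e3] at h3 h3'
  constructor <;> omega

private lemma A3_c0 (k b : ℤ × ℤ → ℤ) (x : ℤ × ℤ) : A3c k b x 0 = A3st k b (x + (1, -1)) 2 := rfl
private lemma A3_c1 (k b : ℤ × ℤ → ℤ) (x : ℤ × ℤ) : A3c k b x 1 = A3st k b (x + (1, 0)) 1 := rfl
private lemma A3_c2 (k b : ℤ × ℤ → ℤ) (x : ℤ × ℤ) : A3c k b x 2 = A3st k b x 0 := rfl

private lemma A3_d0 (k b : ℤ × ℤ → ℤ) (y : ℤ × ℤ) : A3c k b (y - dd 0) 0 = A3st k b (y + (1, -1)) 2 := by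
  rw [A3_c0, dd_zero, sub_zero]
private lemma A3_d1 (k b : ℤ × ℤ → ℤ) (y : ℤ × ℤ) : A3c k b (y - dd 1) 1 = A3st k b y 1 := by
  rw [A3_c1, dd_one, sub_add_cancel]
private lemma A3_d2 (k b : ℤ × ℤ → ℤ) (y : ℤ × ℤ) : A3c k b (y - dd 2) 2 = A3st k b (y + (0, -1)) 0 := by
  rw [A3_c2, dd_two, sub_eq_add_neg]
  rfl

private lemma A3_pcol {k b : ℤ × ℤ → ℤ} (h : HPair k b) : PCol (A3c k b) := by
  constructor
  · intro x
    have h1 := A3_tri _ _ _ (A3_X h x).1 (A3_X h x).2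
    have e0 : A3c k b x (0 + 1) ≠ A3c k b x 0 := h1.1
    have e1 : A3c k b x (1 + 1) ≠ A3c k b x 1 := h1.2.1
    have e2 : A3c k b x (2 + 1) ≠ A3c k b x 2 := h1.2.2
    intro i
    fin_cases i
    · exact e0
    · exact e1
    · exact e2
  · intro y
    have h1 := A3_tri _ _ _ (A3_Y h y).1 (A3_Y h y).2
    have e0 : A3c k b (y - dd (0 + 1)) (0 + 1) ≠ A3c k b (y - dd 0) 0 := by
      have := h1.2.2
      show A3c k b (y - dd 1) 1 ≠ _
      rw [A3_d0, A3_d1]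
      exact this.symm
    have e1 : A3c k b (y - dd (1 + 1)) (1 + 1) ≠ A3c k b (y - dd 1) 1 := by
      show A3c k b (y - dd 2) 2 ≠ _
      rw [A3_d1, A3_d2]
      exact h1.2.1.symm
    have e2 : A3c k b (y - dd (2 + 1)) (2 + 1) ≠ A3c k b (y - dd 2) 2 := by
      show A3c k b (y - dd 0) 0 ≠ _
      rw [A3_d0, A3_d2]
      exact h1.1.symm
    intro i
    fin_cases i
    · exact e0
    · exact e1
    · exact e2

/-- the local formula -/
private lemma A3_local {k b : ℤ × ℤ → ℤ} (h : HPair k b) (x : ℤ × ℤ) :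
    ∃ π : ℤ, ar k b x + 4 = 4 * π ∧ pb (A3c k b) x + pw (A3c k b) x = (π : ZMod 2) := by
  have e1 : x + ee 0 = x + (1, 0) := rfl
  have e2 : x + (1, 0) + ee 1 = x + (1, -1) := by
    rw [add_assoc]; rfl
  have e3 : x + ee 1 = x + (0, -1) := rfl
  have e4 : x + (0, -1) + ee 0 = x + (1, -1) := by
    rw [add_assoc]; rfl
  obtain ⟨s1, s1'⟩ := A3_st h x 0
  obtain ⟨s2, s2'⟩ := A3_st h (x + (1, 0)) 1
  obtain ⟨s3, s3'⟩ := A3_st h x 1
  obtain ⟨s4, s4'⟩ := A3_st h (x + (0, -1)) 0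
  have har : ar k b x = (A3wk (A3st k b x 0) * A3wb (A3st k b (x + (1, 0)) 1) -
      A3wb (A3st k b x 0) * A3wk (A3st k b (x + (1, 0)) 1)) -
      (A3wk (A3st k b x 1) * A3wb (A3st k b (x + (0, -1)) 0) -
      A3wb (A3st k b x 1) * A3wk (A3st k b (x + (0, -1)) 0)) := by
    rw [← s1, ← s1', ← s2, ← s2', ← s3, ← s3', ← s4, ← s4']
    unfold ar
    rw [e1, e2, e3, e4]
  have hpb : pb (A3c k b) x = sg (A3st k b (x + (1, 0)) 1 - A3st k b (x + (1, -1)) 2) +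
      sg (A3st k b x 0 - A3st k b (x + (1, 0)) 1) + sg (A3st k b (x + (1, -1)) 2 - A3st k b x 0) := by
    unfold pb
    rw [Fin.sum_univ_three]
    rfl
  have hpw : pw (A3c k b) x = sg (A3st k b x 1 - A3st k b (x + (1, -1)) 2) +
      sg (A3st k b (x + (0, -1)) 0 - A3st k b x 1) + sg (A3st k b (x + (1, -1)) 2 - A3st k b (x + (0, -1)) 0) := by
    unfold pw
    rw [Fin.sum_univ_three]
    show sg (A3c k b (x - dd 1) 1 - A3c k b (x - dd 0) 0) + sg (A3c k b (x - dd 2) 2 - A3c k b (x - dd 1) 1) +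
      sg (A3c k b (x - dd 0) 0 - A3c k b (x - dd 2) 2) = _
    rw [A3_d0, A3_d1, A3_d2]
  have hX := A3_pb _ _ _ (A3_X h x).1 (A3_X h x).2
  have hY' : ∀ α β γ : Fin 3, A3wk α + A3wk β + A3wk γ = 0 → A3wb α + A3wb β + A3wb γ = 0 →
    (sg (α - γ) + sg (β - α) + sg (γ - β) = 1 ∧ A3wk α * A3wb β - A3wb α * A3wk β = -2) ∨
    (sg (α - γ) + sg (β - α) + sg (γ - β) = 0 ∧ A3wk α * A3wb β - A3wb α * A3wk β = 2) := by decide
  have hY := hY' _ _ _ (A3_Y h x).1 (A3_Y h x).2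
  rw [har, hpb, hpw]
  rcases hX with ⟨a1, a2⟩ | ⟨a1, a2⟩ <;> rcases hY with ⟨b1, b2⟩ | ⟨b1, b2⟩
  · exact ⟨2, by rw [a2, b2]; norm_num, by rw [a1, b1]; rfl⟩
  · exact ⟨1, by rw [a2, b2]; norm_num, by rw [a1, b1]; rfl⟩
  · exact ⟨1, by rw [a2, b2]; norm_num, by rw [a1, b1]; rfl⟩
  · exact ⟨0, by rw [a2, b2]; norm_num, by rw [a1, b1]; rfl⟩

/-- quasi-periodicity along the lattice -/
private lemma A3_qp (u v : ℤ × ℤ) (k : ℤ × ℤ → ℤ) (ku kv : ℤ) (h1 : ∀ x, k (x + u) = k x + ku)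
    (h2 : ∀ x, k (x + v) = k x + kv) : ∀ l ∈ Lt u v, ∃ c : ℤ, ∀ x, k (x + l) = k x + c := by
  intro l hl
  unfold Lt at hl
  induction hl using AddSubgroup.closure_induction with
  | mem y hy =>
    rcases hy with rfl | hy
    · exact ⟨ku, h1⟩
    · rw [Set.mem_singleton_iff] at hy
      subst hy
      exact ⟨kv, h2⟩
  | zero => exact ⟨0, fun x => by rw [add_zero, add_zero]⟩
  | add y z _ _ hy hz =>
    obtain ⟨c, hc⟩ := hy
    obtain ⟨d, hd⟩ := hz
    exact ⟨c + d, fun x => by rw [← add_assoc, hd, hc, add_assoc]⟩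
  | neg y _ hy =>
    obtain ⟨c, hc⟩ := hy
    refine ⟨-c, fun x => ?_⟩
    have h3 := hc (x + -y)
    rw [neg_add_cancel_right] at h3
    omega

private lemma A3_per (u v : ℤ × ℤ) (k b : ℤ × ℤ → ℤ) (ku kv bu bv : ℤ) (h1 : ∀ x, k (x + u) = k x + ku)
    (h2 : ∀ x, k (x + v) = k x + kv) (h3 : ∀ x, b (x + u) = b x + bu) (h4 : ∀ x, b (x + v) = b x + bv) :
    ∀ x, ∀ l ∈ Lt u v, ∀ i, A3c k b (x + l) i = A3c k b x i := by
  have hst : ∀ l ∈ Lt u v, ∀ x i, A3st k b (x + l) i = A3st k b x i := by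
    intro l hl x i
    obtain ⟨c, hc⟩ := A3_qp u v k ku kv h1 h2 l hl
    obtain ⟨d, hd⟩ := A3_qp u v b bu bv h3 h4 l hl
    have e1 : k (x + l + ee i) = k (x + ee i) + c := by
      rw [add_right_comm, hc]
    have e2 : b (x + l + ee i) = b (x + ee i) + d := by
      rw [add_right_comm, hd]
    have f1 : (k (x + l + ee i) = k (x + l) - 2) ↔ (k (x + ee i) = k x - 2) := by
      rw [e1, hc]
      constructor <;> intro h <;> omega
    have f2 : (b (x + l + ee i) = b (x + l) + 1) ↔ (b (x + ee i) = b x + 1) := by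
      rw [e2, hd]
      constructor <;> intro h <;> omega
    unfold A3st
    simp only [f1, f2]
  intro x l hl i
  unfold A3c
  rw [add_right_comm x l, add_right_comm x l, hst l hl, hst l hl, hst l hl]

theorem npc_of_hpair (u v : ℤ × ℤ) (hd : 0 < dt u v) (k b : ℤ × ℤ → ℤ) (h : HPair k b) (ku kv bu bv : ℤ)
    (h1 : ∀ x, k (x + u) = k x + ku) (h2 : ∀ x, k (x + v) = k x + kv)
    (h3 : ∀ x, b (x + u) = b x + bu) (h4 : ∀ x, b (x + v) = b x + bv)
    (hodd : ∃ m : ℤ, 2 * dt u v + (bu * kv - bv * ku) = 4 * m + 2) : NPC.{u} (Lt u v) := by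
  obtain ⟨F, hcard, hF⟩ := exists_reps u v hd
  obtain ⟨m, hm⟩ := hodd
  choose π hπ1 hπ2 using fun x => A3_local h x
  have hs := stokes u v hd F hF hcard k b ku kv bu bv h1 h2 h3 h4
  have hsum : ∑ x ∈ F, (ar k b x + 4) = ∑ x ∈ F, 4 * π x := Finset.sum_congr rfl fun x _ => hπ1 x
  rw [Finset.sum_add_distrib, hs, ← Finset.mul_sum, Finset.sum_const, nsmul_eq_mul, hcard] at hsum
  have hπs : ∑ x ∈ F, π x = 2 * m + 1 := by linarith
  refine npc_of_col (Lt u v) (A3c k b) (A3_pcol h) (A3_per u v k b ku kv bu bv h1 h2 h3 h4) F hF ?_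
  rw [Finset.sum_congr rfl fun x _ => hπ2 x, ← Int.cast_sum, hπs]
  push_cast
  have h2 : (2 : ZMod 2) = 0 := rfl
  rw [h2, zero_mul, zero_add]

end Pool.Agent.PP
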