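import Pool.Agent.Lib_MP_7c0803_hon.Defs

/-!
# [HON-B] McShane extension

`k x = inf {s.2 + gau (x - s.1) | s ∈ S}`.  `gau` is subadditive (`gau (x + y) ≤ gau x + gau y`), `gau 0 = 0`, `gau (ee i) = 1`, `gau (- ee i) = 2`,
`gau x ≡ x.1 - x.2 mod 3`.  Fix `s₀ ∈ S`: for `s ∈ S`, `s₀.2 - s.2 ≤ gau (s₀.1 - s.1) ≤ gau (s₀.1 - x) + gau (x - s.1)`, so the values are bounded below by
`s₀.2 - gau (s₀.1 - x)` and the infimum is attained (`Int.exists_least_of_bdd`).  Choose for every `x` an `s ∈ S` with minimal value.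
* `k s.1 = s.2` for `s ∈ S`: `≤` by `gau 0 = 0`, `≥` by `h2`.
* `k (x + ee i) ≤ k x + 1`, `k x ≤ k (x + ee i) + 2`, and `k x ≡ x.1 - x.2 mod 3` (the minimiser has this residue), `(ee i).1 - (ee i).2 ≡ 1 mod 3`:
  the difference is `-2` or `1`.
* equivariance: if `S` is invariant under `(z, κ) ↦ (z + w, κ + c)` and its inverse then `k (x + w) = k x + c` (compare the minimisers).
-/

set_option autoImplicit false

namespace Pool.Agent.PP

private lemma HB_gau_add (x y : ℤ × ℤ) : gau (x + y) ≤ gau x + gau y := by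
  unfold gau
  rw [Prod.fst_add, Prod.snd_add]
  omega

private lemma HB_gau_zero : gau 0 = 0 := rfl

private lemma HB_gau_ee (i : Fin 3) : gau (ee i) = 1 := by
  fin_cases i <;> rfl

private lemma HB_gau_neg_ee (i : Fin 3) : gau (-ee i) = 2 := by
  fin_cases i <;> rfl

private lemma HB_gau_mod (x : ℤ × ℤ) : ∃ m : ℤ, gau x = x.1 - x.2 + 3 * m := by
  unfold gau
  rcases max_choice (max (x.1 - x.2) (-2 * x.1 - x.2)) (x.1 + 2 * x.2) with h | h
  · rw [h]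
    rcases max_choice (x.1 - x.2) (-2 * x.1 - x.2) with h' | h'
    · rw [h']
      exact ⟨0, by ring⟩
    · rw [h']
      exact ⟨-x.1, by ring⟩
  · rw [h]
    exact ⟨x.2, by ring⟩

private lemma HB_ee_mod (i : Fin 3) : ∃ m : ℤ, (ee i).1 - (ee i).2 = 1 + 3 * m := by
  fin_cases i
  · exact ⟨0, rfl⟩
  · exact ⟨0, rfl⟩
  · exact ⟨-1, rfl⟩

theorem mcshane (S : Set ((ℤ × ℤ) × ℤ)) (hne : S.Nonempty) (h1 : ∀ s ∈ S, ∃ m : ℤ, s.2 = s.1.1 - s.1.2 + 3 * m)
    (h2 : ∀ s ∈ S, ∀ s' ∈ S, s.2 - s'.2 ≤ gau (s.1 - s'.1)) :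
    ∃ k : ℤ × ℤ → ℤ, (∀ s ∈ S, k s.1 = s.2) ∧ (∀ x i, k (x + ee i) = k x - 2 ∨ k (x + ee i) = k x + 1) ∧
      ∀ (w : ℤ × ℤ) (c : ℤ), (∀ s ∈ S, (s.1 + w, s.2 + c) ∈ S) → (∀ s ∈ S, (s.1 - w, s.2 - c) ∈ S) → ∀ x, k (x + w) = k x + c := by
  classical
  obtain ⟨s₀, hs₀⟩ := hne
  have key : ∀ x : ℤ × ℤ, ∃ s ∈ S, ∀ s' ∈ S, s.2 + gau (x - s.1) ≤ s'.2 + gau (x - s'.1) := by
    intro x
    obtain ⟨v, ⟨s, hs, hsv⟩, hmin⟩ := Int.exists_least_of_bdd
      (P := fun v => ∃ s ∈ S, s.2 + gau (x - s.1) = v)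
      ⟨s₀.2 - gau (s₀.1 - x), by
        rintro v ⟨s, hs, rfl⟩
        have e1 := h2 s₀ hs₀ s hs
        have e2 := HB_gau_add (s₀.1 - x) (x - s.1)
        rw [sub_add_sub_cancel] at e2
        linarith⟩
      ⟨_, s₀, hs₀, rfl⟩
    refine ⟨s, hs, fun s' hs' => ?_⟩
    rw [hsv]
    exact hmin _ ⟨s', hs', rfl⟩
  choose σ hσ hmin using key
  set k : ℤ × ℤ → ℤ := fun x => (σ x).2 + gau (x - (σ x).1) with hk
  have hle : ∀ x, ∀ s ∈ S, k x ≤ s.2 + gau (x - s.1) := fun x s hs => hmin x s hs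
  have hmod : ∀ x, ∃ m : ℤ, k x = x.1 - x.2 + 3 * m := by
    intro x
    obtain ⟨m, hm⟩ := h1 (σ x) (hσ x)
    obtain ⟨m', hm'⟩ := HB_gau_mod (x - (σ x).1)
    rw [Prod.fst_sub, Prod.snd_sub] at hm'
    refine ⟨m + m', ?_⟩
    rw [hk]
    simp only
    rw [hm, hm']
    ring
  refine ⟨k, ?_, ?_, ?_⟩
  · intro s hs
    refine le_antisymm ?_ ?_
    · have e1 := hle s.1 s hs
      rw [sub_self, HB_gau_zero, add_zero] at e1
      exact e1
    · have e1 := h2 s hs (σ s.1) (hσ s.1)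
      rw [hk]
      simp only
      linarith
  · intro x i
    have e1 : k (x + ee i) ≤ k x + 1 := by
      have f1 := hle (x + ee i) (σ x) (hσ x)
      have f2 := HB_gau_add (x - (σ x).1) (ee i)
      rw [HB_gau_ee, show x - (σ x).1 + ee i = x + ee i - (σ x).1 by abel] at f2
      have f3 : k x = (σ x).2 + gau (x - (σ x).1) := rfl
      linarith
    have e2 : k x ≤ k (x + ee i) + 2 := by
      have f1 := hle x (σ (x + ee i)) (hσ (x + ee i))
      have f2 := HB_gau_add (x + ee i - (σ (x + ee i)).1) (-ee i)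
      rw [HB_gau_neg_ee, show x + ee i - (σ (x + ee i)).1 + -ee i = x - (σ (x + ee i)).1 by abel]
        at f2
      have f3 : k (x + ee i) = (σ (x + ee i)).2 + gau (x + ee i - (σ (x + ee i)).1) := rfl
      linarith
    obtain ⟨m, hm⟩ := hmod x
    obtain ⟨m', hm'⟩ := hmod (x + ee i)
    obtain ⟨m'', hm''⟩ := HB_ee_mod i
    rw [Prod.fst_add, Prod.snd_add] at hm'
    omega
  · intro w c hw hw' x
    refine le_antisymm ?_ ?_
    · have f1 := hle (x + w) _ (hw (σ x) (hσ x))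
      have f2 : k x = (σ x).2 + gau (x - (σ x).1) := rfl
      simp only [add_sub_add_right_eq_sub] at f1
      linarith
    · have f1 := hle x _ (hw' (σ (x + w)) (hσ (x + w)))
      have f2 : k (x + w) = (σ (x + w)).2 + gau (x + w - (σ (x + w)).1) := rfl
      have f3 : x - ((σ (x + w)).1 - w) = x + w - (σ (x + w)).1 := by abel
      simp only [f3] at f1
      linarith

end Pool.Agent.PP
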