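import Pool.Agent.Lib_MP_7c0803_hon.A3
import Pool.Agent.Lib_MP_7c0803_hon.B
import Pool.Agent.Lib_MP_7c0803_tor.Bound

/-!
# [HON-C1] Lattices of odd index from an even functional

`odd_core`: `S = {(i u + j v, i gu + j gv)}`, `mcshane` gives `k` (condition `h2`: for `l = i u + j v` with `n = dt u v`:
`n (i gu + j gv) = a l.1 + b l.2` where `a = gu v.2 - gv u.2`, `b = gv u.1 - gu v.1`; from `T1 : a ≤ n`, `T2 : - n ≤ b`, `T3 : b - a ≤ n` it follows that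
`a l.1 + b l.2 ≤ n gau l`: the triangle `θ.1 ≤ 1, θ.2 ≥ -1, θ.2 - θ.1 ≤ 1` has the vertices `(1, -1), (-2, -1), (1, 2)`, whose values are the three entries
of `gau`; write `(a, b) = λ₀ (1, -1) + λ₁ (-2, -1) + λ₂ (1, 2)` with `3 λ₁ = n - a`, `3 λ₂ = n + b`, `3 λ₀ = n + a - b`, all `≥ 0`, sum `n`: nlinarith.)
`k (x + u) = k x + gu`, `k (x + v) = k x + gv`.  Put `b x = k x % 2` (in `{0, 1}`): `k` falls by `2`: `b` unchanged; `k` rises by `1`: `b` changes by `± 1`.  `b` is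
periodic because `gu`, `gv` are even.  `npc_of_hpair` with `bu = bv = 0`: `2 n = 4 m + 2` as `n` is odd.

# [HON-C2] The functional exists

`npc_odd`: `u = (p, q)`, `0 ≤ q ≤ p`, `s = p + q ≥ 3`, `n = dt u v` odd, `3 s² ≤ 4 n`.  Let `gu = 0, -2, 2` if `p - q ≡ 0, 1, 2 mod 3` (then `gu` is even and
`≡ p - q mod 3`).  The conditions for `gv = g`: `T2`: `p g ≥ gu v.1 - n`; `T3`: `(p + q) g ≤ n + gu (v.1 + v.2)`; `T1`: `q g ≥ gu v.2 - n`, which follows from `T2`: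
multiply by `p > 0`: `p q g ≥ q gu v.1 - q n` and `q gu v.1 - q n - (p gu v.2 - p n) = - gu n + (p - q) n = (p - q - gu) n ≥ 0` since `gu ≤ p - q`
(`p - q ≥ 2` if `p - q ≡ 2`).  The real interval `[(gu v.1 - n) / p, (n + gu (v.1 + v.2)) / s]` has length `n (p + s + gu) / (p s)`, so if
`6 p s ≤ n (p + s + gu)` it contains an integer `g` even and `≡ v.1 - v.2 mod 3` (one residue class mod `6`; take for instance the largest
`g ≤ (n + gu (v.1 + v.2)) / s` in the class).  `6 p s ≤ n (p + s + gu)` holds except for `(p, q) = (2, 1)`, `n ≤ 11`: from `3 s² ≤ 4 n` it suffices that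
`8 p ≤ s (p + s + gu)`; true for `s ≥ 8` (`gu ≥ -2`, `p ≤ s`); for `3 ≤ s ≤ 7` go through the pairs `(p, q)` (`interval_cases`), using `n ≥ 3 s² / 4` and `n` odd:
`(3, 0)`: `gu = 0`, `n (6) ≥ 54`, `n ≥ 9` since `n = 3 v.2` is odd and `≥ 7`; `(2, 1)`: `gu = -2`: `3 n ≥ 36`, `n ≥ 12`; `(4, 0)`: `n = 4 v.2` is even; `(3, 1)`: `gu = 2`,
`9 n ≥ 72`; `(2, 2)`: `gu = 0`, `6 n ≥ 48`, `n` is even anyway; ... (all the others hold).
-/

set_option autoImplicit false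

namespace Pool.Agent.PP

universe u

theorem odd_core (u v : ℤ × ℤ) (hd : 0 < dt u v) (hodd : ∃ m : ℤ, dt u v = 2 * m + 1) (gu gv : ℤ) (eu : ∃ m : ℤ, gu = 2 * m)
    (ev : ∃ m : ℤ, gv = 2 * m) (cu : ∃ m : ℤ, gu = u.1 - u.2 + 3 * m) (cv : ∃ m : ℤ, gv = v.1 - v.2 + 3 * m)
    (T1 : gu * v.2 - gv * u.2 ≤ dt u v) (T2 : - dt u v ≤ gv * u.1 - gu * v.1)
    (T3 : (gv * u.1 - gu * v.1) - (gu * v.2 - gv * u.2) ≤ dt u v) : NPC.{u} (Lt u v) := by
  obtain ⟨mu, hmu⟩ := cu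
  obtain ⟨mv, hmv⟩ := cv
  obtain ⟨eu, heu⟩ := eu
  obtain ⟨ev, hev⟩ := ev
  let S : Set ((ℤ × ℤ) × ℤ) :=
    {s | ∃ i j : ℤ, s.1.1 = i * u.1 + j * v.1 ∧ s.1.2 = i * u.2 + j * v.2 ∧ s.2 = i * gu + j * gv}
  have hS : ∀ s, s ∈ S ↔ ∃ i j : ℤ, s.1.1 = i * u.1 + j * v.1 ∧ s.1.2 = i * u.2 + j * v.2 ∧ s.2 = i * gu + j * gv :=
    fun s => Iff.rfl
  have h1 : ∀ s ∈ S, ∃ m : ℤ, s.2 = s.1.1 - s.1.2 + 3 * m := by
    intro s hs
    obtain ⟨i, j, a, b, c⟩ := (hS s).1 hs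
    exact ⟨i * mu + j * mv, by rw [a, b, c, hmu, hmv]; ring⟩
  have h2 : ∀ s ∈ S, ∀ s' ∈ S, s.2 - s'.2 ≤ gau (s.1 - s'.1) := by
    intro s hs s' hs'
    obtain ⟨i, j, a, b, c⟩ := (hS s).1 hs
    obtain ⟨i', j', a', b', c'⟩ := (hS s').1 hs'
    set X : ℤ := (s.1 - s'.1).1 with hX
    set Y : ℤ := (s.1 - s'.1).2 with hY
    have eX : X = (i - i') * u.1 + (j - j') * v.1 := by rw [hX, Prod.fst_sub, a, a']; ring
    have eY : Y = (i - i') * u.2 + (j - j') * v.2 := by rw [hY, Prod.snd_sub, b, b']; ring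
    have key : dt u v * (s.2 - s'.2) = (gu * v.2 - gv * u.2) * X + (gv * u.1 - gu * v.1) * Y := by
      rw [eX, eY, c, c']; unfold dt; ring
    have g1 : X - Y ≤ gau (s.1 - s'.1) := by unfold gau; simp [← hX, ← hY]
    have g2 : -2 * X - Y ≤ gau (s.1 - s'.1) := by unfold gau; simp [← hX, ← hY]
    have g3 : X + 2 * Y ≤ gau (s.1 - s'.1) := by unfold gau; simp [← hX, ← hY]
    set G := gau (s.1 - s'.1) with hG
    set n := dt u v with hn
    set A := gu * v.2 - gv * u.2 with hA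
    set B := gv * u.1 - gu * v.1 with hB
    have p1 : 0 ≤ (n - A) * (G - (-2 * X - Y)) := mul_nonneg (by linarith) (by linarith)
    have p2 : 0 ≤ (n + B) * (G - (X + 2 * Y)) := mul_nonneg (by linarith) (by linarith)
    have p3 : 0 ≤ (n + A - B) * (G - (X - Y)) := mul_nonneg (by linarith) (by linarith)
    have : n * (s.2 - s'.2) ≤ n * G := by nlinarith
    exact le_of_mul_le_mul_left this hd
  obtain ⟨k, -, k2, k3⟩ := mcshane S ⟨((0, 0), 0), (hS _).2 ⟨0, 0, by simp⟩⟩ h1 h2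
  have ku : ∀ x, k (x + u) = k x + gu := by
    refine k3 u gu ?_ ?_
    · intro s hs
      obtain ⟨i, j, a, b, c⟩ := (hS s).1 hs
      refine (hS _).2 ⟨i + 1, j, ?_, ?_, ?_⟩
      · simp only [Prod.fst_add, a]; ring
      · simp only [Prod.snd_add, b]; ring
      · simp only [c]; ring
    · intro s hs
      obtain ⟨i, j, a, b, c⟩ := (hS s).1 hs
      refine (hS _).2 ⟨i - 1, j, ?_, ?_, ?_⟩
      · simp only [Prod.fst_sub, a]; ring
      · simp only [Prod.snd_sub, b]; ring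
      · simp only [c]; ring
  have kv : ∀ x, k (x + v) = k x + gv := by
    refine k3 v gv ?_ ?_
    · intro s hs
      obtain ⟨i, j, a, b, c⟩ := (hS s).1 hs
      refine (hS _).2 ⟨i, j + 1, ?_, ?_, ?_⟩
      · simp only [Prod.fst_add, a]; ring
      · simp only [Prod.snd_add, b]; ring
      · simp only [c]; ring
    · intro s hs
      obtain ⟨i, j, a, b, c⟩ := (hS s).1 hs
      refine (hS _).2 ⟨i, j - 1, ?_, ?_, ?_⟩
      · simp only [Prod.fst_sub, a]; ring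
      · simp only [Prod.snd_sub, b]; ring
      · simp only [c]; ring
  refine npc_of_hpair u v hd k (fun x => k x % 2) ?_ gu gv 0 0 ku kv ?_ ?_ ?_
  · intro x i
    rcases k2 x i with h | h
    · left
      refine ⟨h, ?_⟩
      simp only [h]
      omega
    · right
      refine ⟨h, ?_⟩
      simp only [h]
      omega
  · intro x
    simp only [ku x, heu]
    omega
  · intro x
    simp only [kv x, hev]
    omega
  · obtain ⟨m, hm⟩ := hodd
    exact ⟨m, by rw [hm]; ring⟩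

theorem npc_odd (u v : ℤ × ℤ) (hq : 0 ≤ u.2) (hqp : u.2 ≤ u.1) (hp : 0 < u.1) (hd : 0 < dt u v) (hs : 3 ≤ u.1 + u.2)
    (hodd : ∃ m : ℤ, dt u v = 2 * m + 1) (hb : 3 * (u.1 + u.2) ^ 2 ≤ 4 * dt u v) (hx : ¬ (u = (2, 1) ∧ dt u v ≤ 11)) :
    NPC.{u} (Lt u v) := by
  obtain ⟨p, q⟩ := u
  obtain ⟨v1, v2⟩ := v
  simp only at hq hqp hp hs hb
  obtain ⟨n, hn⟩ : ∃ n, n = dt (p, q) (v1, v2) := ⟨_, rfl⟩
  have hn' : n = p * v2 - q * v1 := hn
  rw [← hn] at hd hodd hb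
  -- the functional at `u`
  obtain ⟨gu, eu, cu, hgu, hgu2⟩ : ∃ gu : ℤ, (∃ m : ℤ, gu = 2 * m) ∧ (∃ m : ℤ, gu = p - q + 3 * m) ∧ gu ≤ p - q ∧
      6 * (p * (p + q)) ≤ n * (p + (p + q) + gu) := by
    have key : ∀ gu : ℤ, -2 ≤ gu → 8 ≤ p + q → 6 * (p * (p + q)) ≤ n * (p + (p + q) + gu) := by
      intro gu h1 h2
      have h3 : 8 * p ≤ (p + q) * (p + (p + q) + gu) := by nlinarith
      have h4 : 0 ≤ p + (p + q) + gu := by omega
      have h5 : 3 * (p + q) ^ 2 * (p + (p + q) + gu) ≤ 4 * n * (p + (p + q) + gu) :=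
        mul_le_mul_of_nonneg_right hb h4
      have h6 : 3 * (p + q) * (8 * p) ≤ 3 * (p + q) * ((p + q) * (p + (p + q) + gu)) :=
        mul_le_mul_of_nonneg_left h3 (by omega)
      nlinarith
    obtain ⟨m0, hm0⟩ := hodd
    by_cases h8 : 8 ≤ p + q
    · have h3 : (p - q) % 3 = 0 ∨ (p - q) % 3 = 1 ∨ (p - q) % 3 = 2 := by omega
      rcases h3 with h3 | h3 | h3
      · exact ⟨0, ⟨0, by norm_num⟩, ⟨-((p - q) / 3), by omega⟩, by omega, key 0 (by norm_num) h8⟩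
      · exact ⟨-2, ⟨-1, by norm_num⟩, ⟨-((p - q) / 3) - 1, by omega⟩, by omega, key (-2) (by norm_num) h8⟩
      · exact ⟨2, ⟨1, by norm_num⟩, ⟨-((p - q) / 3), by omega⟩, by omega, key 2 (by norm_num) h8⟩
    · have hp7 : p ≤ 7 := by omega
      have hq7 : q ≤ 3 := by omega
      have h3 : (p - q) % 3 = 0 ∨ (p - q) % 3 = 1 ∨ (p - q) % 3 = 2 := by omega
      rcases h3 with h3 | h3 | h3
      · refine ⟨0, ⟨0, by norm_num⟩, ⟨-((p - q) / 3), by omega⟩, by omega, ?_⟩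
        clear key
        interval_cases p <;> interval_cases q <;> omega
      · refine ⟨-2, ⟨-1, by norm_num⟩, ⟨-((p - q) / 3) - 1, by omega⟩, by omega, ?_⟩
        clear key
        have hx' : ¬ (p = 2 ∧ q = 1 ∧ n ≤ 11) := by
          rintro ⟨rfl, rfl, h⟩
          exact hx ⟨rfl, by rw [← hn]; exact h⟩
        clear hx
        interval_cases p <;> interval_cases q <;> omega
      · refine ⟨2, ⟨1, by norm_num⟩, ⟨-((p - q) / 3), by omega⟩, by omega, ?_⟩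
        clear key
        interval_cases p <;> interval_cases q <;> omega
  -- the functional at `v`
  have hs0 : 0 < p + q := by omega
  obtain ⟨U, hU⟩ : ∃ U, U = (n + gu * (v1 + v2)) / (p + q) := ⟨_, rfl⟩
  have hU1 : (p + q) * U ≤ n + gu * (v1 + v2) := by
    have := Int.mul_ediv_self_le (x := n + gu * (v1 + v2)) hs0.ne'
    rw [hU]
    exact this
  have hU2 : n + gu * (v1 + v2) < (p + q) * U + (p + q) := by
    have := Int.lt_mul_ediv_self_add (x := n + gu * (v1 + v2)) hs0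
    rw [hU]
    exact this
  obtain ⟨t, ht⟩ : ∃ t, t = (U - 4 * (v1 - v2)) / 6 := ⟨_, rfl⟩
  have hg1 : 4 * (v1 - v2) + 6 * t ≤ U := by omega
  have hg2 : U ≤ 4 * (v1 - v2) + 6 * t + 5 := by omega
  obtain ⟨g, hg⟩ : ∃ g, g = 4 * (v1 - v2) + 6 * t := ⟨_, rfl⟩
  rw [← hg] at hg1 hg2
  have hT3 : (p + q) * g ≤ n + gu * (v1 + v2) :=
    (mul_le_mul_of_nonneg_left hg1 hs0.le).trans hU1
  have hlow : n + gu * (v1 + v2) + 1 ≤ (p + q) * g + 6 * (p + q) := by
    have := mul_le_mul_of_nonneg_left hg2 hs0.le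
    nlinarith
  have hT2 : gu * v1 - n ≤ p * g := by
    have h1 : p * (n + gu * (v1 + v2) + 1) ≤ p * ((p + q) * g + 6 * (p + q)) :=
      mul_le_mul_of_nonneg_left hlow hp.le
    have h2 : (p + q) * (gu * v1 - n) ≤ (p + q) * (p * g) := by
      have h3 : p * (n + gu * (v1 + v2)) - (p + q) * (gu * v1 - n) = n * (p + (p + q) + gu) := by
        rw [hn']
        ring
      nlinarith
    exact le_of_mul_le_mul_left h2 hs0
  have hT1 : gu * v2 - n ≤ q * g := by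
    have h1 : q * (gu * v1 - n) ≤ q * (p * g) := mul_le_mul_of_nonneg_left hT2 hq
    have h2 : p * (gu * v2 - n) ≤ p * (q * g) := by
      have h3 : q * (gu * v1 - n) - p * (gu * v2 - n) = (p - q - gu) * n := by
        rw [hn']
        ring
      have h4 : 0 ≤ (p - q - gu) * n := mul_nonneg (by omega) hd.le
      nlinarith
    exact le_of_mul_le_mul_left h2 hp
  have hd' : 0 < dt (p, q) (v1, v2) := by
    rw [← hn]
    exact hd
  refine odd_core (p, q) (v1, v2) hd' (by rw [← hn]; exact hodd) gu g eu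
    ⟨2 * (v1 - v2) + 3 * t, by rw [hg]; ring⟩ cu ⟨v1 - v2 + 2 * t, by rw [hg]; ring⟩ ?_ ?_ ?_
  · show gu * v2 - g * q ≤ dt (p, q) (v1, v2)
    rw [← hn]
    linarith
  · show -dt (p, q) (v1, v2) ≤ g * p - gu * v1
    rw [← hn]
    linarith
  · show (g * p - gu * v1) - (gu * v2 - g * q) ≤ dt (p, q) (v1, v2)
    rw [← hn]
    linarith

end Pool.Agent.PP
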