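import Pool.Agent.Lib_MP_7c0803_hon.I

/-!
# Certificates of chains for `3 ≤ p + q ≤ 18` (generated)

Entry: `p q w t x1 x2 D y1 y2 D' lo hi lo' hi' C F`.
-/

set_option autoImplicit false
set_option maxRecDepth 100000

namespace Pool.Agent.PP

def certs : List Cert :=
  [⟨2, 1, [0, 1, 0], 1, (-3), 0, 3, (-1), (-2), 2, (-3), 3, (-3), 3, 1, 22⟩,
   ⟨4, 0, [0, 1, 0, 0, 2], 1, (-2), 2, 4, (-2), (-4), 4, (-12), 0, (-6), 6, 4, 32⟩,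
   ⟨3, 1, [1, 0, 2, 0, 1], (-1), 1, 5, 4, 3, (-3), 3, (-6), 6, (-9), 9, 3, 20⟩,
   ⟨5, 0, [1, 0, 2, 0, 2, 0, 1], (-1), 2, 7, 5, 2, (-5), 5, (-9), 9, (-15), 15, 5, 33⟩,
   ⟨4, 1, [0, 0, 1, 0, 0], 3, (-7), (-2), 5, (-5), (-4), 4, (-6), 6, (-6), 6, 2, 76⟩,
   ⟨3, 2, [0, 1, 0, 1, 0], 1, (-4), 1, 5, 0, (-3), 3, (-6), 6, (-6), 6, 2, 31⟩,
   ⟨6, 0, [0, 0, 1, 0, 0, 0, 2], 3, (-6), 0, 6, (-6), (-6), 6, (-18), 0, (-12), 6, 6, 72⟩,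
   ⟨5, 1, [0, 1, 0, 2, 0, 1, 0], 1, (-3), 3, 6, (-1), (-5), 5, (-9), 9, (-9), 9, 4, 42⟩,
   ⟨4, 2, [1, 0, 1, 0, 2, 0, 1], (-1), 0, 6, 6, 4, (-4), 4, (-12), 6, (-12), 12, 6, 30⟩,
   ⟨3, 3, [1, 1, 0, 2, 0, 1, 1], (-3), 3, 9, 6, 3, 3, 3, (-9), 9, (-6), 6, 6, 78⟩,
   ⟨7, 0, [0, 1, 0, 2, 0, 1, 0, 0, 2], 1, (-2), 5, 7, (-2), (-7), 7, (-21), 6, (-12), 15, 7, 56⟩,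
   ⟨6, 1, [1, 0, 2, 0, 1, 0, 2, 0, 1], (-1), 1, 8, 7, 3, (-6), 6, (-12), 12, (-18), 18, 6, 44⟩,
   ⟨5, 2, [0, 1, 0, 0, 0, 1, 0], 3, (-8), (-1), 7, (-4), (-5), 5, (-9), 9, (-9), 9, 3, 71⟩,
   ⟨4, 3, [0, 1, 0, 1, 0, 1, 0], 1, (-5), 2, 7, 1, (-4), 4, (-9), 9, (-9), 9, 3, 41⟩,
   ⟨8, 0, [1, 0, 2, 0, 2, 0, 1, 0, 2, 0, 1], (-1), 2, 10, 8, 2, (-8), 8, (-12), 18, (-24), 24, 8, 56⟩,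
   ⟨7, 1, [0, 1, 0, 0, 2, 0, 0, 1, 0], 3, (-7), 1, 8, (-5), (-7), 7, (-12), 12, (-12), 12, 6, 78⟩,
   ⟨6, 2, [0, 1, 0, 0, 1, 0, 2, 0, 1], 1, (-4), 4, 8, 0, (-6), 6, (-24), 0, (-18), 6, 6, 52⟩,
   ⟨5, 3, [1, 0, 1, 0, 2, 0, 1, 0, 1], (-1), (-1), 7, 8, 5, (-5), 5, (-12), 12, (-15), 15, 7, 40⟩,
   ⟨4, 4, [1, 1, 0, 2, 0, 1, 1, 0, 1], (-3), 2, 10, 8, 4, 2, 4, (-6), 18, (-6), 12, 8, 72⟩,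
   ⟨9, 0, [0, 1, 0, 0, 2, 0, 0, 1, 0, 0, 2], 3, (-6), 3, 9, (-6), (-9), 9, (-27), 6, (-18), 15, 9, 90⟩,
   ⟨8, 1, [0, 1, 0, 2, 0, 1, 0, 2, 0, 1, 0], 1, (-3), 6, 9, (-1), (-8), 8, (-18), 18, (-15), 15, 7, 66⟩,
   ⟨7, 2, [0, 1, 0, 2, 0, 1, 0, 1, 1, 0, 2], (-1), 0, 9, 9, 4, (-7), 7, (-27), 0, (-30), 15, 11, 54⟩,
   ⟨6, 3, [0, 1, 0, 0, 1, 0, 0, 1, 0], 3, (-9), 0, 9, (-3), (-6), 6, (-9), 9, (-9), 9, 3, 66⟩,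
   ⟨5, 4, [0, 1, 0, 1, 0, 1, 0, 1, 0], 1, (-6), 3, 9, 2, (-5), 5, (-12), 12, (-12), 12, 4, 51⟩,
   ⟨10, 0, [0, 2, 0, 1, 0, 2, 0, 1, 0, 2, 0, 0, 1], 1, (-2), 8, 10, (-2), (-10), 10, (-18), 24, (-30), 12, 10, 80⟩,
   ⟨9, 1, [1, 0, 2, 0, 1, 0, 2, 0, 1, 0, 2, 0, 1], (-1), 1, 11, 10, 3, (-9), 9, (-18), 18, (-27), 27, 9, 67⟩,
   ⟨8, 2, [0, 0, 1, 0, 0, 1, 0, 0, 2, 0, 1], 3, (-8), 2, 10, (-4), (-8), 8, (-36), 0, (-24), 0, 8, 84⟩,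
   ⟨7, 3, [0, 1, 0, 1, 0, 2, 0, 1, 0, 1, 0], 1, (-5), 5, 10, 1, (-7), 7, (-15), 15, (-15), 15, 8, 62⟩,
   ⟨6, 4, [1, 0, 1, 0, 2, 0, 1, 0, 1, 0, 1], (-1), (-2), 8, 10, 6, (-6), 6, (-12), 18, (-18), 18, 10, 50⟩,
   ⟨5, 5, [1, 0, 1, 1, 0, 2, 0, 1, 1, 0, 1], (-3), 1, 11, 10, 5, 1, 5, (-15), 15, (-12), 12, 10, 77⟩,
   ⟨11, 0, [1, 0, 2, 0, 1, 0, 2, 0, 2, 0, 1, 0, 2, 0, 1], (-1), 2, 13, 11, 2, (-11), 11, (-21), 21, (-33), 33, 11, 80⟩,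
   ⟨10, 1, [0, 1, 0, 2, 0, 0, 1, 0, 2, 0, 0, 1, 0], 3, (-7), 4, 11, (-5), (-10), 10, (-15), 27, (-15), 15, 9, 94⟩,
   ⟨9, 2, [0, 1, 0, 2, 0, 1, 0, 1, 0, 2, 0, 1, 0], 1, (-4), 7, 11, 0, (-9), 9, (-21), 21, (-18), 18, 8, 76⟩,
   ⟨8, 3, [0, 1, 0, 2, 0, 1, 1, 0, 1, 0, 2, 0, 1], (-1), (-1), 10, 11, 5, (-8), 8, (-30), 9, (-36), 15, 12, 67⟩,
   ⟨7, 4, [1, 0, 2, 0, 1, 1, 1, 0, 2, 0, 1, 0, 1], (-3), 2, 13, 11, 4, (-1), 4, (-15), 30, (-12), 15, 12, 83⟩,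
   ⟨6, 5, [0, 1, 0, 1, 0, 1, 0, 1, 0, 1, 0], 1, (-7), 4, 11, 3, (-6), 6, (-15), 15, (-15), 15, 5, 61⟩,
   ⟨12, 0, [0, 2, 0, 0, 1, 0, 2, 0, 0, 1, 0, 2, 0, 0, 1], 3, (-6), 6, 12, (-6), (-12), 12, (-18), 18, (-36), 0, 12, 96⟩,
   ⟨11, 1, [0, 1, 0, 2, 0, 1, 0, 2, 0, 1, 0, 2, 0, 1, 0], 1, (-3), 9, 12, (-1), (-11), 11, (-27), 27, (-21), 21, 10, 90⟩,
   ⟨10, 2, [0, 1, 0, 2, 0, 1, 0, 2, 0, 1, 0, 1, 1, 0, 2], (-1), 0, 12, 12, 4, (-10), 10, (-36), 0, (-48), 18, 14, 78⟩,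
   ⟨9, 3, [1, 0, 2, 0, 1, 1, 0, 2, 0, 1, 1, 0, 2, 0, 1], (-3), 3, 15, 12, 9, (-9), 9, (-18), 18, (-27), 27, 9, 60⟩,
   ⟨8, 4, [0, 1, 0, 1, 0, 1, 0, 2, 0, 1, 0, 1, 0], 1, (-6), 6, 12, 2, (-8), 8, (-18), 18, (-18), 18, 12, 72⟩,
   ⟨7, 5, [1, 0, 1, 0, 1, 0, 2, 0, 1, 0, 1, 0, 1], (-1), (-3), 9, 12, 7, (-7), 7, (-18), 18, (-21), 21, 11, 60⟩,
   ⟨6, 6, [0, 1, 1, 0, 1, 0, 1, 1, 0, 2, 0, 1, 1], (-3), 0, 12, 12, 6, 0, 6, (-36), 0, (-24), 6, 12, 84⟩,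
   ⟨13, 0, [0, 2, 0, 1, 0, 2, 0, 1, 0, 2, 0, 1, 0, 2, 0, 0, 1], 1, (-2), 11, 13, (-2), (-13), 13, (-24), 33, (-39), 18, 13, 104⟩,
   ⟨12, 1, [1, 0, 2, 0, 1, 0, 2, 0, 1, 0, 2, 0, 1, 0, 2, 0, 1], (-1), 1, 14, 13, 3, (-12), 12, (-24), 24, (-36), 36, 12, 91⟩,
   ⟨11, 2, [0, 1, 0, 2, 0, 0, 1, 0, 1, 0, 0, 2, 0, 1, 0], 3, (-8), 5, 13, (-4), (-11), 11, (-24), 24, (-24), 24, 10, 112⟩,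
   ⟨10, 3, [0, 1, 0, 2, 0, 1, 0, 1, 0, 1, 0, 2, 0, 1, 0], 1, (-5), 8, 13, 1, (-10), 10, (-24), 24, (-24), 24, 12, 90⟩,
   ⟨9, 4, [1, 0, 1, 0, 2, 0, 1, 0, 1, 0, 2, 0, 1, 0, 1], (-1), (-2), 11, 13, 6, (-9), 9, (-21), 21, (-30), 30, 14, 78⟩,
   ⟨8, 5, [1, 0, 2, 0, 1, 1, 0, 1, 1, 0, 2, 0, 1, 0, 1], (-3), 1, 14, 13, 5, (-2), 5, (-15), 30, (-15), 18, 15, 87⟩,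
   ⟨7, 6, [0, 1, 0, 1, 0, 1, 0, 1, 0, 1, 0, 1, 0], 1, (-8), 5, 13, 4, (-7), 7, (-18), 18, (-18), 18, 6, 71⟩,
   ⟨14, 0, [1, 0, 2, 0, 1, 0, 2, 0, 2, 0, 1, 0, 2, 0, 1, 0, 2, 0, 1], (-1), 2, 16, 14, 2, (-14), 14, (-24), 30, (-42), 42, 14, 104⟩,
   ⟨13, 1, [0, 1, 0, 2, 0, 1, 0, 0, 2, 0, 1, 0, 0, 2, 0, 1, 0], 3, (-7), 7, 14, (-5), (-13), 13, (-21), 21, (-21), 33, 12, 114⟩,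
   ⟨12, 2, [0, 1, 0, 2, 0, 1, 0, 0, 1, 0, 2, 0, 1, 0, 2, 0, 1], 1, (-4), 10, 14, 0, (-12), 12, (-48), 12, (-36), 12, 12, 100⟩,
   ⟨11, 3, [1, 0, 2, 0, 1, 0, 1, 0, 2, 0, 1, 0, 1, 0, 2, 0, 1], (-1), (-1), 13, 14, 5, (-11), 11, (-30), 30, (-33), 33, 11, 93⟩,
   ⟨10, 4, [1, 0, 2, 0, 1, 1, 0, 2, 0, 1, 1, 0, 1, 0, 2, 0, 1], (-3), 2, 16, 14, 10, (-10), 10, (-24), 30, (-30), 30, 14, 74⟩,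
   ⟨9, 5, [0, 1, 0, 1, 0, 1, 0, 2, 0, 1, 0, 1, 0, 1, 0], 1, (-7), 7, 14, 3, (-9), 9, (-21), 21, (-21), 21, 12, 82⟩,
   ⟨8, 6, [1, 0, 1, 0, 1, 0, 1, 0, 2, 0, 1, 0, 1, 0, 1], (-1), (-4), 10, 14, 8, (-8), 8, (-24), 18, (-24), 24, 14, 70⟩,
   ⟨7, 7, [0, 1, 0, 1, 1, 0, 1, 0, 1, 1, 0, 2, 0, 1, 1], (-3), (-1), 13, 14, 7, (-1), 7, (-48), 0, (-30), 6, 14, 96⟩,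
   ⟨15, 0, [0, 2, 0, 1, 0, 0, 2, 0, 1, 0, 2, 0, 0, 1, 0, 2, 0, 0, 1], 3, (-6), 9, 15, (-6), (-15), 15, (-30), 33, (-45), 18, 15, 135⟩,
   ⟨14, 1, [0, 1, 0, 2, 0, 1, 0, 2, 0, 1, 0, 2, 0, 1, 0, 2, 0, 1, 0], 1, (-3), 12, 15, (-1), (-14), 14, (-36), 36, (-27), 27, 13, 114⟩,
   ⟨13, 2, [1, 0, 2, 0, 1, 0, 2, 0, 1, 0, 2, 0, 1, 0, 1, 1, 0, 2, 0], (-1), 0, 15, 15, 4, (-13), 13, (-15), 30, (-36), 51, 19, 102⟩,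
   ⟨12, 3, [1, 0, 2, 0, 1, 1, 0, 2, 0, 1, 0, 2, 0, 1, 1, 0, 2, 0, 1], (-3), 3, 18, 15, 9, (-12), 12, (-27), 27, (-45), 45, 15, 94⟩,
   ⟨11, 4, [1, 0, 2, 0, 1, 0, 1, 0, 1, 0, 2, 0, 1, 0, 0, 1, 0], 1, (-6), 9, 15, 2, (-11), 11, (-3), 54, (-9), 45, 13, 102⟩,
   ⟨10, 5, [1, 0, 1, 0, 2, 0, 1, 0, 1, 0, 2, 0, 1, 0, 1, 0, 1], (-1), (-3), 12, 15, 7, (-10), 10, (-18), 27, (-36), 33, 20, 89⟩,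
   ⟨9, 6, [0, 1, 0, 1, 0, 0, 1, 0, 1, 0, 0, 1, 0, 1, 0], 3, (-12), 3, 15, 0, (-9), 9, (-18), 18, (-18), 18, 6, 93⟩,
   ⟨8, 7, [0, 1, 0, 1, 0, 1, 0, 1, 0, 1, 0, 1, 0, 1, 0], 1, (-9), 6, 15, 5, (-8), 8, (-21), 21, (-21), 21, 7, 81⟩,
   ⟨16, 0, [0, 1, 0, 2, 0, 1, 0, 2, 0, 1, 0, 2, 0, 1, 0, 2, 0, 1, 0, 0, 2], 1, (-2), 14, 16, (-2), (-16), 16, (-48), 24, (-30), 42, 16, 128⟩,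
   ⟨15, 1, [1, 0, 2, 0, 1, 0, 2, 0, 1, 0, 2, 0, 1, 0, 2, 0, 1, 0, 2, 0, 1], (-1), 1, 17, 16, 3, (-15), 15, (-30), 30, (-45), 45, 15, 115⟩,
   ⟨14, 2, [0, 1, 0, 0, 2, 0, 1, 0, 0, 1, 0, 2, 0, 1, 0, 0, 2, 0, 1], 3, (-8), 8, 16, (-4), (-14), 14, (-48), 0, (-42), 18, 14, 124⟩,
   ⟨13, 3, [0, 1, 0, 2, 0, 1, 0, 1, 0, 2, 0, 1, 0, 1, 0, 2, 0, 1, 0], 1, (-5), 11, 16, 1, (-13), 13, (-33), 33, (-30), 30, 12, 114⟩,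
   ⟨12, 4, [1, 0, 2, 0, 1, 0, 1, 0, 2, 0, 1, 1, 0, 1, 0, 2, 0, 1, 0], (-1), (-2), 14, 16, 6, (-12), 12, (-18), 42, (-30), 48, 16, 104⟩,
   ⟨11, 5, [1, 0, 2, 0, 1, 1, 0, 1, 0, 2, 0, 1, 1, 0, 1, 0, 2, 0, 1], (-3), 1, 17, 16, 11, (-11), 11, (-30), 30, (-33), 33, 15, 84⟩,
   ⟨10, 6, [1, 0, 1, 0, 2, 0, 1, 0, 1, 0, 1, 0, 0, 1, 0, 1, 0], 1, (-8), 8, 16, 4, (-10), 10, 0, 48, (-12), 36, 14, 92⟩,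
   ⟨9, 7, [1, 0, 1, 0, 1, 0, 1, 0, 2, 0, 1, 0, 1, 0, 1, 0, 1], (-1), (-5), 11, 16, 9, (-9), 9, (-24), 24, (-27), 27, 15, 80⟩,
   ⟨8, 8, [0, 1, 1, 0, 1, 0, 1, 0, 1, 1, 0, 2, 0, 1, 1, 0, 1], (-3), (-2), 14, 16, 8, (-2), 8, (-48), 12, (-30), 12, 16, 107⟩,
   ⟨17, 0, [1, 0, 2, 0, 1, 0, 2, 0, 1, 0, 2, 0, 2, 0, 1, 0, 2, 0, 1, 0, 2, 0, 1], (-1), 2, 19, 17, 2, (-17), 17, (-33), 33, (-51), 51, 17, 128⟩,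
   ⟨16, 1, [0, 1, 0, 0, 2, 0, 1, 0, 2, 0, 0, 1, 0, 2, 0, 1, 0, 0, 2, 0, 1], 3, (-7), 10, 17, (-5), (-16), 16, (-57), 15, (-51), 21, 16, 149⟩,
   ⟨15, 2, [0, 1, 0, 2, 0, 1, 0, 2, 0, 1, 0, 1, 0, 2, 0, 1, 0, 2, 0, 1, 0], 1, (-4), 13, 17, 0, (-15), 15, (-39), 39, (-30), 30, 14, 124⟩,
   ⟨14, 3, [1, 0, 2, 0, 1, 0, 1, 0, 2, 0, 1, 0, 2, 0, 1, 0, 1, 0, 2, 0, 1], (-1), (-1), 16, 17, 5, (-14), 14, (-36), 36, (-42), 42, 16, 118⟩,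
   ⟨13, 4, [1, 0, 2, 0, 1, 1, 0, 2, 0, 1, 0, 1, 0, 2, 0, 1, 1, 0, 2, 0, 1], (-3), 2, 19, 17, 10, (-13), 13, (-39), 39, (-48), 48, 14, 111⟩,
   ⟨12, 5, [0, 1, 0, 1, 0, 2, 0, 1, 0, 1, 0, 1, 0, 2, 0, 1, 0, 1, 0], 1, (-7), 10, 17, 3, (-12), 12, (-33), 33, (-27), 27, 14, 109⟩,
   ⟨11, 6, [0, 1, 0, 1, 0, 2, 0, 1, 0, 1, 0, 1, 1, 0, 1, 0, 2, 0, 1], (-1), (-4), 13, 17, 8, (-11), 11, (-48), 9, (-51), 24, 19, 101⟩,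
   ⟨10, 7, [1, 0, 1, 0, 2, 0, 1, 1, 0, 1, 0, 1, 1, 0, 2, 0, 1, 0, 1], (-3), (-1), 16, 17, 7, (-4), 7, (-30), 30, (-24), 24, 18, 109⟩,
   ⟨9, 8, [0, 1, 0, 1, 0, 1, 0, 1, 0, 1, 0, 1, 0, 1, 0, 1, 0], 1, (-10), 7, 17, 6, (-9), 9, (-24), 24, (-24), 24, 8, 91⟩,
   ⟨18, 0, [0, 1, 0, 2, 0, 1, 0, 0, 2, 0, 1, 0, 2, 0, 0, 1, 0, 2, 0, 1, 0, 0, 2], 3, (-6), 12, 18, (-6), (-18), 18, (-54), 24, (-36), 42, 18, 159⟩,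
   ⟨17, 1, [0, 1, 0, 2, 0, 1, 0, 2, 0, 1, 0, 2, 0, 1, 0, 2, 0, 1, 0, 2, 0, 1, 0], 1, (-3), 15, 18, (-1), (-17), 17, (-45), 45, (-33), 33, 16, 138⟩,
   ⟨16, 2, [1, 0, 2, 0, 1, 0, 2, 0, 1, 0, 2, 0, 1, 0, 2, 0, 1, 0, 1, 1, 0, 2, 0], (-1), 0, 18, 18, 4, (-16), 16, (-18), 36, (-48), 60, 24, 126⟩,
   ⟨15, 3, [1, 0, 2, 0, 1, 0, 2, 0, 1, 1, 0, 2, 0, 1, 1, 0, 2, 0, 1, 0, 2, 0, 1], (-3), 3, 21, 18, 9, (-15), 15, (-33), 33, (-54), 54, 18, 117⟩,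
   ⟨14, 4, [1, 0, 2, 0, 1, 0, 1, 0, 2, 0, 1, 0, 1, 0, 2, 0, 1, 0, 0, 1, 0], 1, (-6), 12, 18, 2, (-14), 14, (-6), 72, (-12), 54, 16, 127⟩,
   ⟨13, 5, [1, 0, 1, 0, 2, 0, 1, 0, 1, 0, 2, 0, 1, 0, 1, 0, 2, 0, 1, 0, 1], (-1), (-3), 15, 18, 7, (-13), 13, (-30), 30, (-45), 45, 21, 116⟩,
   ⟨12, 6, [1, 0, 1, 0, 2, 0, 1, 1, 0, 1, 0, 2, 0, 1, 1, 0, 1, 0, 2, 0, 1], (-3), 0, 18, 18, 12, (-12), 12, (-36), 18, (-36), 36, 18, 90⟩,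
   ⟨11, 7, [0, 1, 0, 1, 0, 1, 0, 1, 0, 2, 0, 1, 0, 1, 0, 1, 0, 1, 0], 1, (-9), 9, 18, 5, (-11), 11, (-27), 27, (-27), 27, 16, 102⟩,
   ⟨10, 8, [1, 0, 1, 0, 1, 0, 1, 0, 1, 0, 2, 0, 1, 0, 1, 0, 1, 0, 1], (-1), (-6), 12, 18, 10, (-10), 10, (-30), 24, (-30), 30, 18, 90⟩,
   ⟨9, 9, [1, 0, 1, 0, 1, 0, 1, 1, 0, 2, 0, 1, 1, 0, 1, 0, 1, 0, 1], (-3), (-3), 15, 18, 9, (-3), 9, (-36), 36, (-24), 24, 18, 119⟩]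

theorem certs_ok : certs.all Cert.check = true := by decide +kernel

end Pool.Agent.PP
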