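import Pool.Agent.Lib_MP_7c0803_hon.Defs

/-!
# [HON-D1] The region above a wall

`Reg Z x`: there is `z ∈ Z` with `x = z + (-a, a + b)`, `a = z.1 - x.1 ≥ 0`, `b = (x.1 + x.2) - (z.1 + z.2) ≥ 0`; call `(a, b)` the type of the witness `z`.

(W1) If `Reg Z y`, `y ∉ Z`, then all six neighbours `y ± ee i` satisfy `Reg Z`.  The neighbours `y + (0, 1)`, `y + (-1, 1)` have the witness `z`
(types `(a, b + 1)`, `(a + 1, b)`); `y + (1, 0)` needs a witness with `a ≥ 1` (type `(a - 1, b + 1)`), `y + (1, -1)` also `a ≥ 1` (type `(a - 1, b)`); `y + (-1, 0)` and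
`y + (0, -1)` need a witness with `b ≥ 1`.  Type `(0, 0)` means `z = y ∈ Z`, excluded.  If a witness has type `(0, b)`, `b ≥ 1`, go to its successor: step `(1, 0)`:
type `(1, b - 1)`; step `(1, -1)`: type `(1, b)`; step `(0, 1)`: type `(0, b - 1)`, continue (induction on `b`).  If a witness has type `(a, 0)`, `a ≥ 1`, go to the
predecessor: step `(1, 0)`: type `(a - 1, 1)`; step `(0, 1)`: type `(a, 1)`; step `(1, -1)`: type `(a - 1, 0)`, continue.
(W2) `Reg Z x` implies `dt u x ≥ - C`: `dt u (-a, a + b) = u.1 (a + b) + u.2 a ≥ 0`.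
(W3) `dt u x > C` implies `Reg Z x`: it suffices to find `z ∈ Z` with `z.1 = x.1` (then `dt u x - dt u z = u.1 (x.2 - z.2) > 0`, so `z.2 < x.2`).  Among the
`z ∈ Z` with `z.1 ≥ x.1` (exist: add multiples of `u`) choose one with `2 z.1 + z.2` minimal (bounded below: `u.1 z.2 ≥ u.2 z.1 - C`, `z.1 ≥ x.1`;
`Int.exists_least_of_bdd`); its predecessor has a smaller value, so its first coordinate is `< x.1`, so `z.1 ≤ x.1`.
(W4) `Reg Z x` implies `Reg Z (x + v)`: for the witness `z`, `dt u (z + v) = dt u z + n ≥ n - C > C`, so `Reg Z (z + v)` by (W3), and `Reg Z` is closed under adding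
`(-a, a + b)`.
(W5) not both `y ∈ Z` and `y + v ∈ Z` (`dt u` differs by `n > 2 C`).
(W6) `Reg Z (x + u) ↔ Reg Z x`.
So for every `x` the set `{j | Reg Z (x - j • v)}` is nonempty (W3), bounded above (W2) and downward closed (W4): it is `{j | j ≤ r x}`.  `r (x + u) = r x`, `r (x + v) = r x + 1`.
Neighbours `x`, `y = x + ee i`: if `r y > r x` then with `j = r x + 1`: `Reg Z (y - j • v)`, `¬ Reg Z (x - j • v)`, so `y - j • v ∈ Z` by (W1); if `r y ≥ r x + 2` then also
`y - (j + 1) • v ∈ Z`, against (W5).  The case `r y < r x` is symmetric.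
-/

set_option autoImplicit false

namespace Pool.Agent.PP

/-- the steps of a wall -/
def stp (d : ℤ × ℤ) : Prop := d = (1, 0) ∨ d = (0, 1) ∨ d = (1, -1)

/-- the region above a wall -/
def Reg (Z : Set (ℤ × ℤ)) (x : ℤ × ℤ) : Prop := ∃ z ∈ Z, x.1 ≤ z.1 ∧ z.1 + z.2 ≤ x.1 + x.2

private lemma D1_dt_add (u x y : ℤ × ℤ) : dt u (x + y) = dt u x + dt u y := by
  unfold dt
  simp only [Prod.fst_add, Prod.snd_add]
  ring

private lemma D1_dt_smul (u x v : ℤ × ℤ) (j : ℤ) : dt u (x - j • v) = dt u x - j * dt u v := by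
  unfold dt
  simp only [Prod.fst_sub, Prod.snd_sub, Prod.smul_fst, Prod.smul_snd, smul_eq_mul]
  ring

private lemma D1_stp_cases {z z' : ℤ × ℤ} (h : stp (z' - z)) :
    (z'.1 = z.1 + 1 ∧ z'.2 = z.2) ∨ (z'.1 = z.1 ∧ z'.2 = z.2 + 1) ∨
      (z'.1 = z.1 + 1 ∧ z'.2 = z.2 - 1) := by
  rcases h with h | h | h
  · have h1 := congrArg Prod.fst h
    have h2 := congrArg Prod.snd h
    simp only [Prod.fst_sub, Prod.snd_sub] at h1 h2
    left
    constructor <;> omega
  · have h1 := congrArg Prod.fst h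
    have h2 := congrArg Prod.snd h
    simp only [Prod.fst_sub, Prod.snd_sub] at h1 h2
    right
    left
    constructor <;> omega
  · have h1 := congrArg Prod.fst h
    have h2 := congrArg Prod.snd h
    simp only [Prod.fst_sub, Prod.snd_sub] at h1 h2
    right
    right
    constructor <;> omega

/-- a witness with `a ≥ 1` -/
private lemma D1_goalA (Z : Set (ℤ × ℤ)) (hs : ∀ z ∈ Z, ∃ z' ∈ Z, stp (z' - z)) (y : ℤ × ℤ)
    (hy : y ∉ Z) : ∀ (b : ℕ) (z : ℤ × ℤ), z ∈ Z → y.1 ≤ z.1 → z.1 + z.2 + b = y.1 + y.2 →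
      ∃ w ∈ Z, y.1 + 1 ≤ w.1 ∧ w.1 + w.2 ≤ y.1 + y.2 := by
  intro b
  induction b with
  | zero =>
    intro z hz h1 h2
    by_cases h3 : y.1 + 1 ≤ z.1
    · exact ⟨z, hz, h3, by push_cast at h2; omega⟩
    · exfalso
      apply hy
      have : y = z := by
        push_cast at h2
        apply Prod.ext <;> omega
      rw [this]
      exact hz
  | succ b ih =>
    intro z hz h1 h2
    push_cast at h2
    by_cases h3 : y.1 + 1 ≤ z.1
    · exact ⟨z, hz, h3, by omega⟩
    · obtain ⟨z', hz', hst⟩ := hs z hz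
      rcases D1_stp_cases hst with h | h | h
      · exact ⟨z', hz', by omega, by omega⟩
      · exact ih z' hz' (by omega) (by omega)
      · exact ⟨z', hz', by omega, by omega⟩

/-- a witness with `b ≥ 1` -/
private lemma D1_goalB (Z : Set (ℤ × ℤ)) (hs' : ∀ z ∈ Z, ∃ z' ∈ Z, stp (z - z')) (y : ℤ × ℤ)
    (hy : y ∉ Z) : ∀ (a : ℕ) (z : ℤ × ℤ), z ∈ Z → z.1 = y.1 + a → z.1 + z.2 ≤ y.1 + y.2 →
      ∃ w ∈ Z, y.1 ≤ w.1 ∧ w.1 + w.2 + 1 ≤ y.1 + y.2 := by
  intro a
  induction a with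
  | zero =>
    intro z hz h1 h2
    push_cast at h1
    by_cases h3 : z.1 + z.2 + 1 ≤ y.1 + y.2
    · exact ⟨z, hz, by omega, h3⟩
    · exfalso
      apply hy
      have : y = z := by
        apply Prod.ext <;> omega
      rw [this]
      exact hz
  | succ a ih =>
    intro z hz h1 h2
    push_cast at h1
    by_cases h3 : z.1 + z.2 + 1 ≤ y.1 + y.2
    · exact ⟨z, hz, by omega, h3⟩
    · obtain ⟨z', hz', hst⟩ := hs' z hz
      rcases D1_stp_cases hst with h | h | h
      · exact ⟨z', hz', by omega, by omega⟩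
      · exact ⟨z', hz', by omega, by omega⟩
      · exact ih z' hz' (by omega) (by omega)

private lemma D1_W1 (Z : Set (ℤ × ℤ)) (hs : ∀ z ∈ Z, ∃ z' ∈ Z, stp (z' - z))
    (hs' : ∀ z ∈ Z, ∃ z' ∈ Z, stp (z - z')) (y : ℤ × ℤ) (hy : y ∉ Z) (hR : Reg Z y) (i : Fin 3) :
    Reg Z (y + ee i) ∧ Reg Z (y - ee i) := by
  obtain ⟨z, hz, h1, h2⟩ := hR
  obtain ⟨w, hw, hw1, hw2⟩ := D1_goalA Z hs y hy (y.1 + y.2 - (z.1 + z.2)).toNat z hz h1 (by omega)
  obtain ⟨t, ht, ht1, ht2⟩ := D1_goalB Z hs' y hy (z.1 - y.1).toNat z hz (by omega) h2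
  fin_cases i
  · constructor
    · exact ⟨w, hw, by simp; omega, by simp; omega⟩
    · exact ⟨t, ht, by simp; omega, by simp; omega⟩
  · constructor
    · exact ⟨t, ht, by simp; omega, by simp; omega⟩
    · exact ⟨z, hz, by simp; omega, by simp; omega⟩
  · constructor
    · exact ⟨z, hz, by simp; omega, by simp; omega⟩
    · exact ⟨w, hw, by simp; omega, by simp; omega⟩

private lemma D1_W2 (u : ℤ × ℤ) (hp : 0 < u.1) (hq : 0 ≤ u.2) (C : ℤ) (Z : Set (ℤ × ℤ))
    (hb : ∀ z ∈ Z, |dt u z| ≤ C) (x : ℤ × ℤ) (hR : Reg Z x) : -C ≤ dt u x := by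
  obtain ⟨z, hz, h1, h2⟩ := hR
  have h3 := (abs_le.1 (hb z hz)).1
  unfold dt at *
  have h4 : 0 ≤ u.1 * (x.2 - z.2) := mul_nonneg hp.le (by omega)
  have h5 : 0 ≤ u.2 * (z.1 - x.1) := mul_nonneg hq (by omega)
  nlinarith

private lemma D1_addk (u : ℤ × ℤ) (Z : Set (ℤ × ℤ)) (hu : ∀ z ∈ Z, z + u ∈ Z) (z : ℤ × ℤ)
    (hz : z ∈ Z) : ∀ k : ℕ, z + (k : ℤ) • u ∈ Z := by
  intro k
  induction k with
  | zero => simpa using hz
  | succ k ih =>
    have := hu _ ih
    have h1 : z + ((k + 1 : ℕ) : ℤ) • u = z + (k : ℤ) • u + u := by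
      push_cast
      rw [add_smul, one_smul, add_assoc]
    rw [h1]
    exact this

private lemma D1_W3 (u : ℤ × ℤ) (hp : 0 < u.1) (hq : 0 ≤ u.2) (C : ℤ) (Z : Set (ℤ × ℤ))
    (hne : Z.Nonempty) (hu : ∀ z ∈ Z, z + u ∈ Z) (hs' : ∀ z ∈ Z, ∃ z' ∈ Z, stp (z - z'))
    (hb : ∀ z ∈ Z, |dt u z| ≤ C) (x : ℤ × ℤ) (hx : C < dt u x) : Reg Z x := by
  have hex : ∃ t : ℤ, ∃ z ∈ Z, x.1 ≤ z.1 ∧ 2 * z.1 + z.2 = t := by
    obtain ⟨z0, hz0⟩ := hne
    refine ⟨_, z0 + ((x.1 - z0.1).toNat : ℤ) • u, D1_addk u Z hu z0 hz0 _, ?_, rfl⟩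
    simp only [Prod.fst_add, Prod.smul_fst, smul_eq_mul]
    have h1 : x.1 - z0.1 ≤ ((x.1 - z0.1).toNat : ℤ) := Int.self_le_toNat _
    have h2 : (0 : ℤ) ≤ ((x.1 - z0.1).toNat : ℤ) := by positivity
    nlinarith
  have hbd : ∃ b : ℤ, ∀ t : ℤ, (∃ z ∈ Z, x.1 ≤ z.1 ∧ 2 * z.1 + z.2 = t) → b ≤ t := by
    refine ⟨-|(2 * u.1 + u.2) * x.1 - C|, ?_⟩
    rintro t ⟨z, hz, h1, rfl⟩
    have h3 := (abs_le.1 (hb z hz)).1
    unfold dt at h3
    have h4 := neg_abs_le ((2 * u.1 + u.2) * x.1 - C)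
    by_contra hcon
    push Not at hcon
    have h5 : u.1 * (2 * z.1 + z.2) ≥ (2 * u.1 + u.2) * x.1 - C := by
      have : (2 * u.1 + u.2) * x.1 ≤ (2 * u.1 + u.2) * z.1 :=
        mul_le_mul_of_nonneg_left h1 (by omega)
      nlinarith
    have h6 : 2 * z.1 + z.2 < 0 := lt_of_lt_of_le hcon (by simp)
    have h7 : u.1 * (2 * z.1 + z.2) ≤ 1 * (2 * z.1 + z.2) := by nlinarith
    omega
  obtain ⟨t, ⟨z, hz, h1, h2⟩, hmin⟩ := Int.exists_least_of_bdd hbd hex
  obtain ⟨z', hz', hst⟩ := hs' z hz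
  have h3 : z'.1 < x.1 := by
    by_contra hcon
    push Not at hcon
    have h4 := hmin _ ⟨z', hz', hcon, rfl⟩
    rcases D1_stp_cases hst with h | h | h <;> omega
  have h5 : z.1 = x.1 := by
    rcases D1_stp_cases hst with h | h | h <;> omega
  have h6 := (abs_le.1 (hb z hz)).2
  have h7 : z.2 < x.2 := by
    unfold dt at h6 hx
    rw [h5] at h6
    by_contra hcon
    push Not at hcon
    have : u.1 * x.2 ≤ u.1 * z.2 := mul_le_mul_of_nonneg_left hcon hp.le
    omega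
  exact ⟨z, hz, by omega, by omega⟩

theorem wall_region (u v : ℤ × ℤ) (hp : 0 < u.1) (hq : 0 ≤ u.2) (C : ℤ) (hC : 2 * C < dt u v) (Z : Set (ℤ × ℤ)) (hne : Z.Nonempty)
    (hu : ∀ z ∈ Z, z + u ∈ Z) (hu' : ∀ z ∈ Z, z - u ∈ Z) (hs : ∀ z ∈ Z, ∃ z' ∈ Z, stp (z' - z)) (hs' : ∀ z ∈ Z, ∃ z' ∈ Z, stp (z - z'))
    (hb : ∀ z ∈ Z, |dt u z| ≤ C) :
    ∃ r : ℤ × ℤ → ℤ, (∀ x, r (x + u) = r x) ∧ (∀ x, r (x + v) = r x + 1) ∧
      ∀ x i, r (x + ee i) = r x ∨ (r (x + ee i) = r x + 1 ∧ x + ee i - (r x + 1) • v ∈ Z) ∨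
        (r (x + ee i) = r x - 1 ∧ x - r x • v ∈ Z) := by
  classical
  obtain ⟨z0, hz0⟩ := hne
  have hC0 : 0 ≤ C := le_trans (abs_nonneg _) (hb z0 hz0)
  set n := dt u v with hn
  have hW2 := D1_W2 u hp hq C Z hb
  have hW3 := D1_W3 u hp hq C Z ⟨z0, hz0⟩ hu hs' hb
  have hW4 : ∀ x, Reg Z x → Reg Z (x + v) := by
    rintro x ⟨z, hz, h1, h2⟩
    have h3 : C < dt u (z + v) := by
      rw [D1_dt_add, ← hn]
      have := (abs_le.1 (hb z hz)).1
      omega
    obtain ⟨w, hw, h4, h5⟩ := hW3 _ h3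
    simp only [Prod.fst_add, Prod.snd_add] at h4 h5
    refine ⟨w, hw, ?_, ?_⟩ <;> simp only [Prod.fst_add, Prod.snd_add] <;> omega
  have hW5 : ∀ y, y ∈ Z → y + v ∈ Z → False := by
    intro y h1 h2
    have h3 := (abs_le.1 (hb _ h1)).1
    have h4 := (abs_le.1 (hb _ h2)).2
    rw [D1_dt_add, ← hn] at h4
    omega
  have hW6 : ∀ x, Reg Z (x + u) ↔ Reg Z x := by
    intro x
    constructor
    · rintro ⟨z, hz, h1, h2⟩
      simp only [Prod.fst_add, Prod.snd_add] at h1 h2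
      refine ⟨z - u, hu' z hz, ?_, ?_⟩ <;> simp only [Prod.fst_sub, Prod.snd_sub] <;> omega
    · rintro ⟨z, hz, h1, h2⟩
      refine ⟨z + u, hu z hz, ?_, ?_⟩ <;> simp only [Prod.fst_add, Prod.snd_add] <;> omega
  have hex : ∀ x : ℤ × ℤ, ∃ r : ℤ, Reg Z (x - r • v) ∧ ∀ j : ℤ, Reg Z (x - j • v) → j ≤ r := by
    intro x
    have h1 : ∃ j : ℤ, Reg Z (x - j • v) := by
      refine ⟨-(|dt u x| + C + 1), hW3 _ ?_⟩
      rw [D1_dt_smul, ← hn]
      have h2 := neg_abs_le (dt u x)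
      have h3 := abs_nonneg (dt u x)
      nlinarith
    have h2 : ∃ b : ℤ, ∀ j : ℤ, Reg Z (x - j • v) → j ≤ b := by
      refine ⟨|dt u x| + C, ?_⟩
      intro j hj
      have h3 := hW2 _ hj
      rw [D1_dt_smul, ← hn] at h3
      have h4 := le_abs_self (dt u x)
      by_contra hcon
      push Not at hcon
      have h5 := abs_nonneg (dt u x)
      nlinarith
    obtain ⟨r, hr1, hr2⟩ := Int.exists_greatest_of_bdd h2 h1
    exact ⟨r, hr1, hr2⟩
  choose r hr1 hr2 using hex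
  have hdown : ∀ (k : ℕ) (x : ℤ × ℤ), Reg Z (x - (r x - k) • v) := by
    intro k
    induction k with
    | zero =>
      intro x
      simpa using hr1 x
    | succ k ih =>
      intro x
      have h1 := hW4 _ (ih x)
      have h2 : x - (r x - ((k + 1 : ℕ) : ℤ)) • v = x - (r x - (k : ℤ)) • v + v := by
        apply Prod.ext <;> simp <;> ring
      rw [h2]
      exact h1
  have hle : ∀ (x : ℤ × ℤ) (j : ℤ), j ≤ r x → Reg Z (x - j • v) := by
    intro x j hj
    have h1 := hdown (r x - j).toNat x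
    have h2 : r x - ((r x - j).toNat : ℤ) = j := by omega
    rwa [h2] at h1
  have hgt : ∀ (x : ℤ × ℤ) (j : ℤ), r x < j → ¬ Reg Z (x - j • v) := by
    intro x j hj hR
    have := hr2 x j hR
    omega
  refine ⟨r, ?_, ?_, ?_⟩
  · intro x
    apply le_antisymm
    · apply hr2
      have h1 := hr1 (x + u)
      have h2 : x + u - r (x + u) • v = x - r (x + u) • v + u := by abel
      rw [h2, hW6] at h1
      exact h1
    · apply hr2
      have h2 : x + u - r x • v = x - r x • v + u := by abel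
      rw [h2, hW6]
      exact hr1 x
  · intro x
    apply le_antisymm
    · have h1 := hr1 (x + v)
      have h2 : x + v - r (x + v) • v = x - (r (x + v) - 1) • v := by
        apply Prod.ext <;> simp <;> ring
      rw [h2] at h1
      have := hr2 _ _ h1
      omega
    · apply hr2
      have h2 : x + v - (r x + 1) • v = x - r x • v := by
        apply Prod.ext <;> simp <;> ring
      rw [h2]
      exact hr1 x
  · intro x i
    rcases lt_trichotomy (r (x + ee i)) (r x) with h | h | h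
    · right
      right
      have hmem : ∀ j : ℤ, r (x + ee i) < j → j ≤ r x → x - j • v ∈ Z := by
        intro j h1 h2
        by_contra hcon
        have h3 := (D1_W1 Z hs hs' _ hcon (hle x j h2) i).1
        apply hgt (x + ee i) j h1
        have h4 : x + ee i - j • v = x - j • v + ee i := by abel
        rw [h4]
        exact h3
      have h1 : r (x + ee i) = r x - 1 := by
        by_contra hcon
        have h2 : r (x + ee i) + 2 ≤ r x := by omega
        have h3 := hmem (r x) (by omega) le_rfl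
        have h4 := hmem (r x - 1) (by omega) (by omega)
        apply hW5 _ h3
        have h5 : x - r x • v + v = x - (r x - 1) • v := by
          apply Prod.ext <;> simp <;> ring
        rw [h5]
        exact h4
      exact ⟨h1, hmem (r x) (by omega) le_rfl⟩
    · left
      exact h
    · right
      left
      have hmem : ∀ j : ℤ, r x < j → j ≤ r (x + ee i) → x + ee i - j • v ∈ Z := by
        intro j h1 h2
        by_contra hcon
        have h3 := (D1_W1 Z hs hs' _ hcon (hle (x + ee i) j h2) i).2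
        apply hgt x j h1
        have h4 : x - j • v = x + ee i - j • v - ee i := by abel
        rw [h4]
        exact h3
      have h1 : r (x + ee i) = r x + 1 := by
        by_contra hcon
        have h3 := hmem (r x + 1) (by omega) (by omega)
        have h4 := hmem (r x + 2) (by omega) (by omega)
        apply hW5 _ h4
        have h5 : x + ee i - (r x + 2) • v + v = x + ee i - (r x + 1) • v := by
          apply Prod.ext <;> simp <;> ring
        rw [h5]
        exact h3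
      exact ⟨h1, hmem (r x + 1) (by omega) (by omega)⟩

end Pool.Agent.PP
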