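import Pool.Agent.Lib_MP_7c0803_hon.A3
import Pool.Agent.Lib_MP_7c0803_hon.B
import Pool.Agent.Lib_MP_7c0803_hon.D1

/-!
# [HON-D2] Walls give odd parity

`S' = {(s.1 + j • v, s.2 + j g) | s ∈ S, j : ℤ}`, `mcshane` (class: `hcls`, `hgc`; condition: `hcom`) gives `k` with `k (s.1 + j • v) = s.2 + j g` (`s ∈ S`),
`k (x + u) = k x - 2 t`, `k (x + v) = k x + g`.  `wall_region` with `Z = {s.1 | s ∈ S}` gives `r`.  Put `b x = r x + (k x - r x) % 2`; so `b x ∈ {r x, r x + 1}` and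
`b x ≡ k x mod 2`.  `b (x + u) = b x`, `b (x + v) = b x + 1` (`g` odd).
`HPair`: let `y = x + ee i`, so `k y = k x - 2` or `k y = k x + 1`.
* `r y = r x`: `b x, b y ∈ {r x, r x + 1}`, equal if `k y ≡ k x`, otherwise they differ by `1`.
* `r y = r x + 1` and `y - (r x + 1) • v = s.1`, `s ∈ S`: `k y = s.2 + (r x + 1) g ≡ r x + 1 mod 2` (`s.2` even, `g` odd), so `b y = r y = r x + 1`; if `k y = k x - 2` then
  `k x ≡ r x + 1`, `b x = r x + 1 = b y`; if `k y = k x + 1` then `b x = r x = b y - 1`.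
* `r y = r x - 1` and `x - r x • v = s.1`: `k x ≡ r x`, `b x = r x`; if `k y = k x - 2` then `k y ≡ r x ≢ r y`, `b y = r y + 1 = b x`; if `k y = k x + 1` then `k y ≡ r y`,
  `b y = r y = b x - 1`.
`npc_of_hpair` with `ku = - 2 t`, `kv = g`, `bu = 0`, `bv = 1`: `2 n + 2 t = 4 m + 2` since `n` is even and `t` odd.
-/

set_option autoImplicit false

namespace Pool.Agent.PP

universe u

theorem wall_npc (u v : ℤ × ℤ) (hp : 0 < u.1) (hq : 0 ≤ u.2) (C g t : ℤ) (hC : 2 * C < dt u v) (S : Set ((ℤ × ℤ) × ℤ)) (hne : S.Nonempty)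
    (hcls : ∀ s ∈ S, ∃ m : ℤ, s.2 = s.1.1 - s.1.2 + 3 * m) (hev : ∀ s ∈ S, ∃ m : ℤ, s.2 = 2 * m)
    (hu : ∀ s ∈ S, (s.1 + u, s.2 - 2 * t) ∈ S) (hu' : ∀ s ∈ S, (s.1 - u, s.2 + 2 * t) ∈ S)
    (hs : ∀ s ∈ S, ∃ s' ∈ S, stp (s'.1 - s.1)) (hs' : ∀ s ∈ S, ∃ s' ∈ S, stp (s.1 - s'.1))
    (hb : ∀ s ∈ S, |dt u s.1| ≤ C)
    (hcom : ∀ s ∈ S, ∀ s' ∈ S, ∀ j : ℤ, s.2 - s'.2 + j * g ≤ gau (s.1 - s'.1 + j • v))
    (hg : ∃ m : ℤ, g = 2 * m + 1) (hgc : ∃ m : ℤ, g = v.1 - v.2 + 3 * m) (ht : ∃ m : ℤ, t = 2 * m + 1)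
    (hn : ∃ m : ℤ, dt u v = 2 * m) : NPC.{u} (Lt u v) := by
  obtain ⟨s₀, hs₀⟩ := hne
  have hC0 : 0 ≤ C := (abs_nonneg _).trans (hb s₀ hs₀)
  have hd : 0 < dt u v := by omega
  obtain ⟨m₁, hm₁⟩ := hg
  obtain ⟨m₂, hm₂⟩ := hgc
  obtain ⟨m₃, hm₃⟩ := ht
  obtain ⟨m₄, hm₄⟩ := hn
  -- the heights
  obtain ⟨k, hk1, hk2, hk3⟩ := mcshane {x | ∃ s ∈ S, ∃ j : ℤ, x = (s.1 + j • v, s.2 + j * g)}
    ⟨_, s₀, hs₀, 0, rfl⟩
    (by
      rintro _ ⟨s, hs1, j, rfl⟩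
      obtain ⟨m, hm⟩ := hcls s hs1
      refine ⟨m + j * m₂, ?_⟩
      simp only [Prod.fst_add, Prod.snd_add, Prod.smul_fst, Prod.smul_snd, smul_eq_mul]
      rw [hm, hm₂]
      ring)
    (by
      rintro _ ⟨s, hs1, j, rfl⟩ _ ⟨s', hs2, j', rfl⟩
      have h1 := hcom s hs1 s' hs2 (j - j')
      have h2 : s.1 + j • v - (s'.1 + j' • v) = s.1 - s'.1 + (j - j') • v := by
        rw [sub_smul]
        abel
      have h3 : s.2 + j * g - (s'.2 + j' * g) = s.2 - s'.2 + (j - j') * g := by ring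
      simp only
      rw [h2, h3]
      exact h1)
  have hk : ∀ s ∈ S, ∀ j : ℤ, k (s.1 + j • v) = s.2 + j * g := fun s hs1 j =>
    hk1 _ ⟨s, hs1, j, rfl⟩
  have hku : ∀ x, k (x + u) = k x + (-2 * t) := by
    apply hk3
    · rintro _ ⟨s, hs1, j, rfl⟩
      refine ⟨_, hu s hs1, j, ?_⟩
      apply Prod.ext
      · simp only
        abel
      · simp only
        ring
    · rintro _ ⟨s, hs1, j, rfl⟩
      refine ⟨_, hu' s hs1, j, ?_⟩
      apply Prod.ext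
      · simp only
        abel
      · simp only
        ring
  have hkv : ∀ x, k (x + v) = k x + g := by
    apply hk3
    · rintro _ ⟨s, hs1, j, rfl⟩
      refine ⟨s, hs1, j + 1, ?_⟩
      apply Prod.ext
      · simp only
        rw [add_smul, one_smul]
        abel
      · simp only
        ring
    · rintro _ ⟨s, hs1, j, rfl⟩
      refine ⟨s, hs1, j - 1, ?_⟩
      apply Prod.ext
      · simp only
        rw [sub_smul, one_smul]
        abel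
      · simp only
        ring
  -- the region
  obtain ⟨r, hr1, hr2, hr3⟩ := wall_region u v hp hq C hC (Prod.fst '' S) ⟨_, s₀, hs₀, rfl⟩
    (by
      rintro _ ⟨s, hs1, rfl⟩
      exact ⟨_, hu s hs1, rfl⟩)
    (by
      rintro _ ⟨s, hs1, rfl⟩
      exact ⟨_, hu' s hs1, rfl⟩)
    (by
      rintro _ ⟨s, hs1, rfl⟩
      obtain ⟨s', hs2, h⟩ := hs s hs1
      exact ⟨_, ⟨s', hs2, rfl⟩, h⟩)
    (by
      rintro _ ⟨s, hs1, rfl⟩
      obtain ⟨s', hs2, h⟩ := hs' s hs1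
      exact ⟨_, ⟨s', hs2, rfl⟩, h⟩)
    (by
      rintro _ ⟨s, hs1, rfl⟩
      exact hb s hs1)
  -- on the walls `k` has the parity of `r`
  have hpar : ∀ (x : ℤ × ℤ) (j : ℤ), x - j • v ∈ Prod.fst '' S → ∃ n : ℤ, k x = j + 2 * n := by
    rintro x j ⟨s, hs1, h1⟩
    obtain ⟨m, hm⟩ := hev s hs1
    have h2 : k x = s.2 + j * g := by
      rw [← hk s hs1 j, h1, sub_add_cancel]
    refine ⟨m + j * m₁, ?_⟩
    rw [h2, hm, hm₁]
    ring
  refine npc_of_hpair u v hd k (fun x => r x + (k x - r x) % 2) ?_ (-2 * t) g 0 1 hku hkv ?_ ?_ ?_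
  · intro x i
    have hki := hk2 x i
    simp only
    rcases hr3 x i with h | ⟨h, h'⟩ | ⟨h, h'⟩
    · rw [h]
      omega
    · obtain ⟨n, hn⟩ := hpar _ _ h'
      rw [h]
      omega
    · obtain ⟨n, hn⟩ := hpar _ _ h'
      rw [h]
      omega
  · intro x
    rw [hku, hr1]
    omega
  · intro x
    rw [hkv, hr2]
    omega
  · exact ⟨m₄ + m₃, by rw [hm₄, hm₃]; ring⟩

end Pool.Agent.PP
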