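import Pool.Agent.Lib_MP_7c0803_tor.Iso
import Pool.Agent.Lib_MP_7c0803_tor.Basis

/-!
# Honeycomb tori: heights

Faces of the plane honeycomb are the points of `ℤ × ℤ`; `ee 0 = (1, 0)`, `ee 1 = (0, -1)`, `ee 2 = (-1, 1)`.  The edge `(x, i)` joins the
`X`-vertex `x` and the `Y`-vertex `x + dd i`; it is crossed by the step `x → x + ee 0` (`i = 2`), `x + (1, 0) → x + (1, -1)` (`i = 1`, direction
`ee 1`), `x + (1, -1) → x` (`i = 0`, direction `ee 2`).
-/

set_option autoImplicit false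

open Finset Function

namespace Pool.Agent.PP

universe u

/-- the three steps of the heights -/
def ee (i : Fin 3) : ℤ × ℤ := if i = 0 then (1, 0) else if i = 1 then (0, -1) else (-1, 1)

@[simp] lemma ee_zero : ee 0 = (1, 0) := rfl
@[simp] lemma ee_one : ee 1 = (0, -1) := rfl
@[simp] lemma ee_two : ee 2 = (-1, 1) := rfl

/-- the differences of the ends of the edges -/
def dd (i : Fin 3) : ℤ × ℤ := dl (1, 0) (0, 1) i

@[simp] lemma dd_zero : dd 0 = 0 := rfl
@[simp] lemma dd_one : dd 1 = (1, 0) := rfl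
@[simp] lemma dd_two : dd 2 = (0, 1) := rfl

/-- the gauge: maximum of the functionals of the triangle `θ (ee i) ≤ 1` -/
def gau (x : ℤ × ℤ) : ℤ := max (max (x.1 - x.2) (-2 * x.1 - x.2)) (x.1 + 2 * x.2)

/-- the parity is not constant on the honeycomb torus of `L` -/
def NPC (L : AddSubgroup (ℤ × ℤ)) : Prop :=
  ∀ (E : Type u) [Fintype E] (B : CB E), Nonempty (UIso B (HT L)) → ¬ B.PC

/-- proper colouring of the plane honeycomb (`c x i` is the colour of the edge `(x, i)`) -/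
def PCol (c : ℤ × ℤ → Fin 3 → Fin 3) : Prop :=
  (∀ x i, c x (i + 1) ≠ c x i) ∧ ∀ y i, c (y - dd (i + 1)) (i + 1) ≠ c (y - dd i) i

/-- contribution of the `X`-vertex `x` to the parity -/
def pb (c : ℤ × ℤ → Fin 3 → Fin 3) (x : ℤ × ℤ) : ZMod 2 := ∑ i : Fin 3, sg (c x (i + 1) - c x i)

/-- contribution of the `Y`-vertex `y` to the parity -/
def pw (c : ℤ × ℤ → Fin 3 → Fin 3) (y : ℤ × ℤ) : ZMod 2 :=
  ∑ i : Fin 3, sg (c (y - dd (i + 1)) (i + 1) - c (y - dd i) i)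

/-- a set of representatives of `ℤ × ℤ` modulo `L` -/
def Reps (L : AddSubgroup (ℤ × ℤ)) (F : Finset (ℤ × ℤ)) : Prop := ∀ x, ∃! y, y ∈ F ∧ x - y ∈ L

/-- a pair of heights: the steps are `(-2, 0)`, `(1, 1)`, `(1, -1)` -/
def HPair (k b : ℤ × ℤ → ℤ) : Prop :=
  ∀ x i, (k (x + ee i) = k x - 2 ∧ b (x + ee i) = b x) ∨
    (k (x + ee i) = k x + 1 ∧ (b (x + ee i) = b x + 1 ∨ b (x + ee i) = b x - 1))

end Pool.Agent.PP
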