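import Pool.Agent.Lib_MP_7c0803_hon.D2

/-!
# [HON-E] Periodic chains

`Chain p q t P a b c`: a chain of `P` steps from `0` to `(p, q)`; `a i, b i, c i` are the numbers of the steps `(1, 0)`, `(0, 1)`, `(1, -1)` among the first `i`.  The
`i`-th point is `zz a b c i = (a i + c i, b i - c i)`, its value `kk a b c i = 2 (b i + c i - a i)` (steps `-2, 2, 2`); at the end the value is `-2 t`.
`win`: in every window of the periodic chain (from the point `i` to the point `j` of the `k`-th later period) the number of `(0, 1)` or that of `(1, -1)` is at most that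
of `(1, 0)`.

# [HON-E1] `chain_core`
`S = {(zz i + m • (p, q), kk i - 2 t m) | i ≤ P, m : ℤ}`, `wall_npc`.
* `a, b, c` are monotone (`step`), between `0` and `a P, b P, c P`; `P ≥ 1` (as `p > 0`).  Class: `kk i - (zz.1 - zz.2) = 3 (b i - a i)`.
* successor of `(i, m)`: `(i + 1, m)` if `i < P`; the point `(P, m)` is `(0, m + 1)`, its successor `(1, m + 1)`; predecessors likewise.
* `hb`: `dt (p, q) (zz i + m • (p, q)) = p (zz i).2 - q (zz i).1`.
* `hcom`, `j = 0`: the difference of two points is `(A + C, B - C)` with value `2 (B + C - A)`, where `A = a i - a i' + m a P` etc.  The claim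
  `2 (B + C - A) ≤ gau (A + C, B - C) = max (A - B + 2 C, - 2 A - B - C, A + 2 B - C)` holds if `B ≤ A` (first), `C ≤ A` (third) or `B + C ≤ 0` (second).
  If `m ≥ 1`, or `m = 0` and `i' ≤ i`: `win`.  If `m = 0` and `i ≤ i'`: `B + C ≤ 0` by monotonicity; if `m ≤ -1`: `B + C ≤ (b P + c P) + m (b P + c P) ≤ 0`.
* `hcom`, `j ≥ 1`: `D gau w ≥ x1 w.1 + x2 w.2` for all `w` by `T1-T3` (vertices of the triangle, see C.lean); the wanted inequality times `D`, with the difference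
  `w = zz i - zz i' + m • (p, q) + j • v`: `D (kk i - kk i' - 2 t m + j g) ≤ x1 w.1 + x2 w.2`, which by `U` is
  `(D kk i - x · zz i) - (D kk i' - x · zz i') + j (D g - x · v) ≤ 0`; true by `ho` and `gp : D g + o ≤ x · v` (`o ≥ 0` by `ho` with `i = i'`).
* `j ≤ -1`: the same with `y`, `D'`, `o'` and `gm : y · v + o' ≤ D' g`.

# [HON-E2] `npc_chain`
Existence of `g`: `(D' x1 - D y1) p + (D' x2 - D y2) q = 0` by `U`, `U'`, so `p (D' (x · v) - D (y · v)) = (D' x2 - D y2) dt (p, q) v ≥ p (D' o + D o' + 6 D D')`, i.e.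
`D' (x · v - o) - D (y · v + o') ≥ 6 D D'`: the real interval `[(y · v + o') / D', (x · v - o) / D]` has length at least `6`, so it contains an integer `g` odd with
`g ≡ v.1 - v.2 mod 3` (e.g. the largest `g` in the class mod `6` with `D g ≤ x · v - o`: `g = G - (G - r) % 6` with `G = (x · v - o) / D`).
-/

set_option autoImplicit false

namespace Pool.Agent.PP

universe u

structure Chain (p q t : ℤ) (P : ℕ) (a b c : ℕ → ℤ) : Prop where
  a0 : a 0 = 0
  b0 : b 0 = 0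
  c0 : c 0 = 0
  step : ∀ i < P, (a (i + 1) = a i + 1 ∧ b (i + 1) = b i ∧ c (i + 1) = c i) ∨
    (a (i + 1) = a i ∧ b (i + 1) = b i + 1 ∧ c (i + 1) = c i) ∨ (a (i + 1) = a i ∧ b (i + 1) = b i ∧ c (i + 1) = c i + 1)
  ep : a P + c P = p
  eq : b P - c P = q
  et : a P - b P - c P = t
  win : ∀ k i j : ℕ, i ≤ P → j ≤ P → (k = 0 → i ≤ j) →
    b j - b i + k * b P ≤ a j - a i + k * a P ∨ c j - c i + k * c P ≤ a j - a i + k * a P

/-- the points of a chain -/
def zz (a b c : ℕ → ℤ) (i : ℕ) : ℤ × ℤ := (a i + c i, b i - c i)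

/-- the values of a chain -/
def kk (a b c : ℕ → ℤ) (i : ℕ) : ℤ := 2 * (b i + c i - a i)

/-- monotonicity of the counts -/
private theorem E1_mono {p q t : ℤ} {P : ℕ} {a b c : ℕ → ℤ} (h : Chain p q t P a b c) :
    ∀ i j : ℕ, i ≤ j → j ≤ P → a i ≤ a j ∧ b i ≤ b j ∧ c i ≤ c j := by
  intro i j hij
  induction j, hij using Nat.le_induction with
  | base => exact fun _ => ⟨le_rfl, le_rfl, le_rfl⟩
  | succ j hij ih =>
    intro hj
    obtain ⟨h1, h2, h3⟩ := ih (by omega)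
    rcases h.step j (by omega) with ⟨e1, e2, e3⟩ | ⟨e1, e2, e3⟩ | ⟨e1, e2, e3⟩
    · rw [e1, e2, e3]
      exact ⟨by linarith, h2, h3⟩
    · rw [e1, e2, e3]
      exact ⟨h1, by linarith, h3⟩
    · rw [e1, e2, e3]
      exact ⟨h1, h2, by linarith⟩

/-- the functionals of the triangle are at most the gauge -/
private theorem E1_tri {x1 x2 D : ℤ} (T1 : x1 ≤ D) (T2 : -D ≤ x2) (T3 : x2 - x1 ≤ D) (w : ℤ × ℤ) :
    x1 * w.1 + x2 * w.2 ≤ D * gau w := by
  have h1 : w.1 - w.2 ≤ gau w := (le_max_left _ _).trans (le_max_left _ _)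
  have h2 : -2 * w.1 - w.2 ≤ gau w := (le_max_right _ _).trans (le_max_left _ _)
  have h3 : w.1 + 2 * w.2 ≤ gau w := le_max_right _ _
  have e1 : (D - x2 + x1) * (w.1 - w.2) ≤ (D - x2 + x1) * gau w :=
    mul_le_mul_of_nonneg_left h1 (by linarith)
  have e2 : (D - x1) * (-2 * w.1 - w.2) ≤ (D - x1) * gau w := mul_le_mul_of_nonneg_left h2 (by linarith)
  have e3 : (x2 + D) * (w.1 + 2 * w.2) ≤ (x2 + D) * gau w := mul_le_mul_of_nonneg_left h3 (by linarith)
  have e4 : 3 * (x1 * w.1 + x2 * w.2) ≤ 3 * (D * gau w) := by linarith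
  linarith

/-- compatibility inside one chain -/
private theorem E1_zero {p q t : ℤ} {P : ℕ} {a b c : ℕ → ℤ} (h : Chain p q t P a b c) (i i' : ℕ)
    (hi : i ≤ P) (hi' : i' ≤ P) (m : ℤ) :
    kk a b c i - kk a b c i' - 2 * t * m ≤
      gau (zz a b c i - zz a b c i' + m • ((p, q) : ℤ × ℤ)) := by
  set A := a i - a i' + m * a P with hA
  set B := b i - b i' + m * b P with hB
  set G := c i - c i' + m * c P with hG
  have hw : zz a b c i - zz a b c i' + m • ((p, q) : ℤ × ℤ) = (A + G, B - G) := by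
    unfold zz
    rw [hA, hB, hG, ← h.ep, ← h.eq]
    ext
    · simp only [Prod.fst_add, Prod.fst_sub, Prod.smul_fst, smul_eq_mul]
      ring
    · simp only [Prod.snd_add, Prod.snd_sub, Prod.smul_snd, smul_eq_mul]
      ring
  have hv : kk a b c i - kk a b c i' - 2 * t * m = 2 * (B + G - A) := by
    unfold kk
    rw [hA, hB, hG, ← h.et]
    ring
  rw [hw, hv]
  have h1 : (A + G) - (B - G) ≤ gau (A + G, B - G) := (le_max_left _ _).trans (le_max_left _ _)
  have h2 : -2 * (A + G) - (B - G) ≤ gau (A + G, B - G) := (le_max_right _ _).trans (le_max_left _ _)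
  have h3 : (A + G) + 2 * (B - G) ≤ gau (A + G, B - G) := le_max_right _ _
  have hcl : B ≤ A ∨ G ≤ A ∨ B + G ≤ 0 := by
    have m1 := E1_mono h i P hi le_rfl
    have m2 := E1_mono h 0 i' (Nat.zero_le _) hi'
    have m3 := E1_mono h 0 P (Nat.zero_le _) le_rfl
    rw [h.a0, h.b0, h.c0] at m2 m3
    rcases lt_trichotomy m 0 with hm | hm | hm
    · right; right
      have e1 : m * b P ≤ -1 * b P := mul_le_mul_of_nonneg_right (by omega) m3.2.1
      have e2 : m * c P ≤ -1 * c P := mul_le_mul_of_nonneg_right (by omega) m3.2.2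
      rw [hB, hG]
      linarith [m1.2.1, m1.2.2, m2.2.1, m2.2.2]
    · subst hm
      rcases le_total i i' with hii | hii
      · right; right
        have m4 := E1_mono h i i' hii hi'
        rw [hB, hG]
        linarith [m4.2.1, m4.2.2]
      · have m5 := h.win 0 i' i hi' hi (fun _ => hii)
        rw [Nat.cast_zero] at m5
        rw [hA, hB, hG]
        rcases m5 with m5 | m5
        · exact Or.inl m5
        · exact Or.inr (Or.inl m5)
    · obtain ⟨k, rfl⟩ := Int.eq_ofNat_of_zero_le hm.le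
      have hk : k ≠ 0 := by
        rintro rfl
        exact lt_irrefl _ hm
      have m5 := h.win k i' i hi' hi (fun h0 => absurd h0 hk)
      rw [hA, hB, hG]
      rcases m5 with m5 | m5
      · exact Or.inl m5
      · exact Or.inr (Or.inl m5)
  rcases hcl with hcl | hcl | hcl <;> linarith

theorem chain_core (p q t : ℤ) (P : ℕ) (a b c : ℕ → ℤ) (h : Chain p q t P a b c) (hp : 0 < p) (hq : 0 ≤ q)
    (ht : ∃ m : ℤ, t = 2 * m + 1) (v : ℤ × ℤ) (hn : ∃ m : ℤ, dt (p, q) v = 2 * m) (x1 x2 D y1 y2 D' : ℤ) (hD : 0 < D) (hD' : 0 < D')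
    (T1 : x1 ≤ D) (T2 : -D ≤ x2) (T3 : x2 - x1 ≤ D) (T1' : y1 ≤ D') (T2' : -D' ≤ y2) (T3' : y2 - y1 ≤ D')
    (U : x1 * p + x2 * q = -2 * t * D) (U' : y1 * p + y2 * q = -2 * t * D') (o o' C : ℤ)
    (ho : ∀ i ≤ P, ∀ j ≤ P, (D * kk a b c i - (x1 * (zz a b c i).1 + x2 * (zz a b c i).2)) -
      (D * kk a b c j - (x1 * (zz a b c j).1 + x2 * (zz a b c j).2)) ≤ o)
    (ho' : ∀ i ≤ P, ∀ j ≤ P, (D' * kk a b c i - (y1 * (zz a b c i).1 + y2 * (zz a b c i).2)) -
      (D' * kk a b c j - (y1 * (zz a b c j).1 + y2 * (zz a b c j).2)) ≤ o')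
    (hC : ∀ i ≤ P, |p * (zz a b c i).2 - q * (zz a b c i).1| ≤ C) (hCn : 2 * C < dt (p, q) v)
    (g : ℤ) (hg : ∃ m : ℤ, g = 2 * m + 1) (hgc : ∃ m : ℤ, g = v.1 - v.2 + 3 * m)
    (gp : D * g + o ≤ x1 * v.1 + x2 * v.2) (gm : y1 * v.1 + y2 * v.2 + o' ≤ D' * g) : NPC.{u} (Lt (p, q) v) := by
  classical
  have hP : 1 ≤ P := by
    by_contra hc
    have hP0 : P = 0 := by omega
    have h1 := h.ep
    rw [hP0, h.a0, h.c0] at h1
    omega
  have hz0 : zz a b c 0 = 0 := by
    unfold zz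
    rw [h.a0, h.b0, h.c0]
    rfl
  have hk0 : kk a b c 0 = 0 := by
    unfold kk
    rw [h.a0, h.b0, h.c0]
    rfl
  have hzP : zz a b c P = (p, q) := by
    unfold zz
    rw [h.ep, h.eq]
  have hkP : kk a b c P = -2 * t := by
    unfold kk
    rw [← h.et]
    ring
  have hstep : ∀ i < P, stp (zz a b c (i + 1) - zz a b c i) := by
    intro i hi
    unfold zz stp
    rcases h.step i hi with ⟨e1, e2, e3⟩ | ⟨e1, e2, e3⟩ | ⟨e1, e2, e3⟩
    · left
      rw [e1, e2, e3]
      ext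
      · simp only [Prod.fst_sub]
        ring
      · simp only [Prod.snd_sub]
        ring
    · right; left
      rw [e1, e2, e3]
      ext
      · simp only [Prod.fst_sub]
        ring
      · simp only [Prod.snd_sub]
        ring
    · right; right
      rw [e1, e2, e3]
      ext
      · simp only [Prod.fst_sub]
        ring
      · simp only [Prod.snd_sub]
        ring
  have ho0 : 0 ≤ o := by
    have h1 := ho 0 (Nat.zero_le _) 0 (Nat.zero_le _)
    linarith
  have ho0' : 0 ≤ o' := by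
    have h1 := ho' 0 (Nat.zero_le _) 0 (Nat.zero_le _)
    linarith
  let S : Set ((ℤ × ℤ) × ℤ) :=
    {s | ∃ i ≤ P, ∃ m : ℤ, s = (zz a b c i + m • ((p, q) : ℤ × ℤ), kk a b c i - 2 * t * m)}
  refine wall_npc (p, q) v hp hq C g t hCn S ?_ ?_ ?_ ?_ ?_ ?_ ?_ ?_ ?_ hg hgc ht hn
  · exact ⟨_, 0, Nat.zero_le _, 0, rfl⟩
  · rintro _ ⟨i, hi, m, rfl⟩
    refine ⟨b i - a i - m * (a P - b P), ?_⟩
    have e : 2 * t + p - q = 3 * (a P - b P) := by
      rw [← h.ep, ← h.eq, ← h.et]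
      ring
    simp only [zz, kk, Prod.fst_add, Prod.snd_add, Prod.smul_fst, Prod.smul_snd, smul_eq_mul]
    linear_combination (-m) * e
  · rintro _ ⟨i, hi, m, rfl⟩
    refine ⟨b i + c i - a i - t * m, ?_⟩
    simp only [kk]
    ring
  · rintro _ ⟨i, hi, m, rfl⟩
    refine ⟨i, hi, m + 1, ?_⟩
    ext
    · simp only [Prod.fst_add, Prod.smul_fst, smul_eq_mul]
      ring
    · simp only [Prod.snd_add, Prod.smul_snd, smul_eq_mul]
      ring
    · change kk a b c i - 2 * t * m - 2 * t = kk a b c i - 2 * t * (m + 1)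
      ring
  · rintro _ ⟨i, hi, m, rfl⟩
    refine ⟨i, hi, m - 1, ?_⟩
    ext
    · simp only [Prod.fst_add, Prod.fst_sub, Prod.smul_fst, smul_eq_mul]
      ring
    · simp only [Prod.snd_add, Prod.snd_sub, Prod.smul_snd, smul_eq_mul]
      ring
    · change kk a b c i - 2 * t * m + 2 * t = kk a b c i - 2 * t * (m - 1)
      ring
  · rintro _ ⟨i, hi, m, rfl⟩
    by_cases hiP : i < P
    · refine ⟨_, ⟨i + 1, hiP, m, rfl⟩, ?_⟩
      have e : (zz a b c (i + 1) + m • ((p, q) : ℤ × ℤ)) - (zz a b c i + m • ((p, q) : ℤ × ℤ)) =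
          zz a b c (i + 1) - zz a b c i := by abel
      change stp ((zz a b c (i + 1) + m • ((p, q) : ℤ × ℤ)) - (zz a b c i + m • ((p, q) : ℤ × ℤ)))
      rw [e]
      exact hstep i hiP
    · have hi0 : i = P := by omega
      subst hi0
      refine ⟨_, ⟨1, hP, m + 1, rfl⟩, ?_⟩
      change stp ((zz a b c 1 + (m + 1) • ((p, q) : ℤ × ℤ)) - (zz a b c i + m • ((p, q) : ℤ × ℤ)))
      have e : (zz a b c 1 + (m + 1) • ((p, q) : ℤ × ℤ)) - (zz a b c i + m • ((p, q) : ℤ × ℤ)) =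
          zz a b c (0 + 1) - zz a b c 0 := by
        rw [hzP, hz0, add_smul, one_smul]
        abel
      rw [e]
      exact hstep 0 hP
  · rintro _ ⟨i, hi, m, rfl⟩
    by_cases hi0 : i = 0
    · subst hi0
      refine ⟨_, ⟨P - 1, by omega, m - 1, rfl⟩, ?_⟩
      change stp ((zz a b c 0 + m • ((p, q) : ℤ × ℤ)) - (zz a b c (P - 1) + (m - 1) • ((p, q) : ℤ × ℤ)))
      have e : (zz a b c 0 + m • ((p, q) : ℤ × ℤ)) - (zz a b c (P - 1) + (m - 1) • ((p, q) : ℤ × ℤ)) =
          zz a b c (P - 1 + 1) - zz a b c (P - 1) := by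
        rw [Nat.sub_add_cancel hP, hzP, hz0, sub_smul, one_smul]
        abel
      rw [e]
      exact hstep (P - 1) (by omega)
    · refine ⟨_, ⟨i - 1, by omega, m, rfl⟩, ?_⟩
      change stp ((zz a b c i + m • ((p, q) : ℤ × ℤ)) - (zz a b c (i - 1) + m • ((p, q) : ℤ × ℤ)))
      have e : (zz a b c i + m • ((p, q) : ℤ × ℤ)) - (zz a b c (i - 1) + m • ((p, q) : ℤ × ℤ)) =
          zz a b c (i - 1 + 1) - zz a b c (i - 1) := by
        rw [Nat.sub_add_cancel (by omega)]
        abel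
      rw [e]
      exact hstep (i - 1) (by omega)
  · rintro _ ⟨i, hi, m, rfl⟩
    have e : dt (p, q) (zz a b c i + m • ((p, q) : ℤ × ℤ)) =
        p * (zz a b c i).2 - q * (zz a b c i).1 := by
      simp only [dt, Prod.fst_add, Prod.snd_add, Prod.smul_fst, Prod.smul_snd, smul_eq_mul]
      ring
    change |dt (p, q) (zz a b c i + m • ((p, q) : ℤ × ℤ))| ≤ C
    rw [e]
    exact hC i hi
  · rintro _ ⟨i, hi, m, rfl⟩ _ ⟨i', hi', m', rfl⟩ j
    change kk a b c i - 2 * t * m - (kk a b c i' - 2 * t * m') + j * g ≤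
      gau ((zz a b c i + m • ((p, q) : ℤ × ℤ)) - (zz a b c i' + m' • ((p, q) : ℤ × ℤ)) + j • v)
    have e : (zz a b c i + m • ((p, q) : ℤ × ℤ)) - (zz a b c i' + m' • ((p, q) : ℤ × ℤ)) + j • v =
        zz a b c i - zz a b c i' + (m - m') • ((p, q) : ℤ × ℤ) + j • v := by
      rw [sub_smul]
      abel
    rw [e]
    rcases lt_trichotomy j 0 with hj | hj | hj
    · have h1 := E1_tri T1' T2' T3' (zz a b c i - zz a b c i' + (m - m') • ((p, q) : ℤ × ℤ) + j • v)
      simp only [Prod.fst_add, Prod.fst_sub, Prod.snd_add, Prod.snd_sub, Prod.smul_fst, Prod.smul_snd,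
        smul_eq_mul] at h1
      have h2 := ho' i hi i' hi'
      have h3 : j * (D' * g - (y1 * v.1 + y2 * v.2)) ≤ -o' := by
        have h4 : j * (D' * g - (y1 * v.1 + y2 * v.2)) ≤ -1 * (D' * g - (y1 * v.1 + y2 * v.2)) :=
          mul_le_mul_of_nonneg_right (by omega) (by linarith)
        linarith
      have h5 : D' * (kk a b c i - 2 * t * m - (kk a b c i' - 2 * t * m') + j * g) ≤
          D' * gau (zz a b c i - zz a b c i' + (m - m') • ((p, q) : ℤ × ℤ) + j • v) := by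
        have h6 : (m - m') * (y1 * p + y2 * q) = (m - m') * (-2 * t * D') := by rw [U']
        linarith
      exact le_of_mul_le_mul_left h5 hD'
    · subst hj
      have h1 := E1_zero h i i' hi hi' (m - m')
      rw [zero_mul, zero_smul, add_zero, add_zero]
      linarith
    · have h1 := E1_tri T1 T2 T3 (zz a b c i - zz a b c i' + (m - m') • ((p, q) : ℤ × ℤ) + j • v)
      simp only [Prod.fst_add, Prod.fst_sub, Prod.snd_add, Prod.snd_sub, Prod.smul_fst, Prod.smul_snd,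
        smul_eq_mul] at h1
      have h2 := ho i hi i' hi'
      have h3 : j * (D * g - (x1 * v.1 + x2 * v.2)) ≤ -o := by
        have h4 : 1 * (x1 * v.1 + x2 * v.2 - D * g) ≤ j * (x1 * v.1 + x2 * v.2 - D * g) :=
          mul_le_mul_of_nonneg_right (by omega) (by linarith)
        linarith
      have h5 : D * (kk a b c i - 2 * t * m - (kk a b c i' - 2 * t * m') + j * g) ≤
          D * gau (zz a b c i - zz a b c i' + (m - m') • ((p, q) : ℤ × ℤ) + j • v) := by
        have h6 : (m - m') * (x1 * p + x2 * q) = (m - m') * (-2 * t * D) := by rw [U]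
        linarith
      exact le_of_mul_le_mul_left h5 hD

theorem npc_chain (p q t : ℤ) (P : ℕ) (a b c : ℕ → ℤ) (h : Chain p q t P a b c) (hp : 0 < p) (hq : 0 ≤ q)
    (ht : ∃ m : ℤ, t = 2 * m + 1) (v : ℤ × ℤ) (hn : ∃ m : ℤ, dt (p, q) v = 2 * m) (x1 x2 D y1 y2 D' : ℤ) (hD : 0 < D) (hD' : 0 < D')
    (T1 : x1 ≤ D) (T2 : -D ≤ x2) (T3 : x2 - x1 ≤ D) (T1' : y1 ≤ D') (T2' : -D' ≤ y2) (T3' : y2 - y1 ≤ D')
    (U : x1 * p + x2 * q = -2 * t * D) (U' : y1 * p + y2 * q = -2 * t * D') (o o' C : ℤ)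
    (ho : ∀ i ≤ P, ∀ j ≤ P, (D * kk a b c i - (x1 * (zz a b c i).1 + x2 * (zz a b c i).2)) -
      (D * kk a b c j - (x1 * (zz a b c j).1 + x2 * (zz a b c j).2)) ≤ o)
    (ho' : ∀ i ≤ P, ∀ j ≤ P, (D' * kk a b c i - (y1 * (zz a b c i).1 + y2 * (zz a b c i).2)) -
      (D' * kk a b c j - (y1 * (zz a b c j).1 + y2 * (zz a b c j).2)) ≤ o')
    (hC : ∀ i ≤ P, |p * (zz a b c i).2 - q * (zz a b c i).1| ≤ C) (hCn : 2 * C < dt (p, q) v)
    (hY : p * (D' * o + D * o' + 6 * D * D') ≤ (D' * x2 - D * y2) * dt (p, q) v) : NPC.{u} (Lt (p, q) v) := by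
  have e0 : p * (D' * (x1 * v.1 + x2 * v.2) - D * (y1 * v.1 + y2 * v.2)) =
      (D' * x2 - D * y2) * dt (p, q) v := by
    have e1 : (D' * x1 - D * y1) * p + (D' * x2 - D * y2) * q = 0 := by
      linear_combination D' * U - D * U'
    simp only [dt]
    linear_combination v.1 * e1
  rw [← e0] at hY
  have hY' := le_of_mul_le_mul_left hY hp
  obtain ⟨G, hG⟩ : ∃ G : ℤ, G = (x1 * v.1 + x2 * v.2 - o) / D := ⟨_, rfl⟩
  have hG1 : D * G ≤ x1 * v.1 + x2 * v.2 - o := by
    rw [hG]; exact Int.mul_ediv_self_le hD.ne'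
  have hG2 : x1 * v.1 + x2 * v.2 - o < D * G + D := by
    rw [hG]; exact Int.lt_mul_ediv_self_add hD
  obtain ⟨k, hk⟩ : ∃ k : ℤ, k = (G - (3 + 4 * (v.1 - v.2))) / 6 := ⟨_, rfl⟩
  have hk1 : 6 * k ≤ G - (3 + 4 * (v.1 - v.2)) := by omega
  have hk2 : G - (3 + 4 * (v.1 - v.2)) ≤ 6 * k + 5 := by omega
  obtain ⟨g, hg⟩ : ∃ g : ℤ, g = 3 + 4 * (v.1 - v.2) + 6 * k := ⟨_, rfl⟩
  have hgG : g ≤ G := by omega
  have hGg : G - 5 ≤ g := by omega
  refine chain_core.{u} p q t P a b c h hp hq ht v hn x1 x2 D y1 y2 D' hD hD' T1 T2 T3 T1' T2' T3'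
    U U' o o' C ho ho' hC hCn g ⟨1 + 2 * (v.1 - v.2) + 3 * k, by omega⟩
    ⟨1 + (v.1 - v.2) + 2 * k, by omega⟩ ?_ ?_
  · have := mul_le_mul_of_nonneg_left hgG hD.le
    linarith
  · have h1 : D * D' * (G - 5) ≤ D * D' * g :=
      mul_le_mul_of_nonneg_left hGg (mul_pos hD hD').le
    have h2 : D' * (x1 * v.1 + x2 * v.2 - o) < D' * (D * G + D) :=
      mul_lt_mul_of_pos_left hG2 hD'
    have h3 : D * (y1 * v.1 + y2 * v.2 + o') < D * (D' * g) := by nlinarith
    exact (lt_of_mul_lt_mul_left h3 hD.le).le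

/-- windows of a chain from finitely many windows -/
theorem chain_win (P : ℕ) (a b c : ℕ → ℤ) (full : b P ≤ a P ∧ c P ≤ a P)
    (win0 : ∀ i j : ℕ, i ≤ j → j ≤ P → b j - b i ≤ a j - a i ∨ c j - c i ≤ a j - a i)
    (win1 : ∀ i j : ℕ, i ≤ j → j ≤ P → b P - (b j - b i) ≤ a P - (a j - a i) ∨ c P - (c j - c i) ≤ a P - (a j - a i)) :
    ∀ k i j : ℕ, i ≤ P → j ≤ P → (k = 0 → i ≤ j) →
      b j - b i + k * b P ≤ a j - a i + k * a P ∨ c j - c i + k * c P ≤ a j - a i + k * a P := by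
  intro k i j hi hj hk
  by_cases hij : i ≤ j
  · have h1 : (k : ℤ) * b P ≤ k * a P := mul_le_mul_of_nonneg_left full.1 (Int.natCast_nonneg k)
    have h2 : (k : ℤ) * c P ≤ k * a P := mul_le_mul_of_nonneg_left full.2 (Int.natCast_nonneg k)
    rcases win0 i j hij hj with h | h
    · left; linarith
    · right; linarith
  · have hk1 : 1 ≤ k := by
      rcases Nat.eq_zero_or_pos k with h | h
      · exact absurd (hk h) hij
      · exact h
    obtain ⟨m, rfl⟩ := Nat.exists_eq_add_of_le hk1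
    have h1 : (m : ℤ) * b P ≤ m * a P := mul_le_mul_of_nonneg_left full.1 (Int.natCast_nonneg m)
    have h2 : (m : ℤ) * c P ≤ m * a P := mul_le_mul_of_nonneg_left full.2 (Int.natCast_nonneg m)
    push_cast
    rcases win1 j i (by omega) hi with h | h
    · left; linarith
    · right; linarith

end Pool.Agent.PP
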