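import Pool.Agent.Lib_MP_7c0803_hon.Defs

/-!
# [HON-O0] Enumeration of all proper colourings of a small honeycomb graph `HG a b`

A colouring is coded by a number with `N` octal digits: the digit of the `X`-vertex number `x` is `3 c (x, 0) + c (x, 1)`.  `ego` searches through all proper colourings
(`u` = set of the used pairs (`Y`-vertex, colour), bit `3 y + colour`); `lf` is tested at every leaf.  This is a copy of the private part of `Lib_MP_7c0803_tor/ConT.lean`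
(`ConT_go_sound`, `ConT_enc_d`, `ConT_disj`, `ConT_tab4`, `ConT_key`) for a general group `A` with a numbering `φ` (inverse `ψ`) of its elements; `n1`, `n2` give the numbers of `x + a`, `x + b`.
`enum_fix`: the same with the digit `1` (colours `0, 1, 2`) at the last position `N - 1`.
`perm_ke`: a colouring and its image under a permutation `π` of the colours are equivalent (a transposition keeps the class of the third colour; six permutations).
`efc_P`: `eok` is the decidable form of properness (`ConT_ok_P`).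
-/

set_option autoImplicit false
set_option maxRecDepth 100000

open Finset Function

namespace Pool.Agent.PP

universe u

variable {A : Type} [AddCommGroup A]

/-- octal digit -/
def edg (n x : ℕ) : ℕ := n / 8 ^ x % 8

/-- colour number `i` of a digit -/
def ecl (a i : ℕ) : ℕ := if Nat.beq i 0 then a / 3 else if Nat.beq i 1 then a % 3 else (6 - a / 3 - a % 3) % 3

/-- the colouring with code `n` -/
def efc (φ : A → ℕ) (n : ℕ) (p : A × Fin 3) : Fin 3 := Fin.ofNat 3 (ecl (edg n (φ p.1)) p.2.val)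

/-- the pairs (`Y`-vertex, colour) used at `x` with the digit `a` -/
def emk (n1 n2 : ℕ → ℕ) (x a : ℕ) : ℕ := 2 ^ (3 * x + ecl a 0) ||| 2 ^ (3 * n1 x + ecl a 1) ||| 2 ^ (3 * n2 x + ecl a 2)

/-- the search -/
def ego (n1 n2 : ℕ → ℕ) (lf : ℕ → Bool) : ℕ → ℕ → ℕ → Bool
  | 0, _, n => lf n
  | k + 1, u, n => [1, 2, 3, 5, 6, 7].all fun a =>
      !(Nat.beq (u &&& emk n1 n2 k a) 0) || ego n1 n2 lf k (u ||| emk n1 n2 k a) (n * 8 + a)

/-- properness; `m1`, `m2` give the numbers of `x - a`, `x - b` -/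
def eok (N : ℕ) (m1 m2 : ℕ → ℕ) (n : ℕ) : Bool := (List.range N).all fun y =>
  !(Nat.beq (edg n y / 3) (edg n y % 3)) && Nat.blt (edg n y) 8 &&
    !(Nat.beq (ecl (edg n y) 0) (ecl (edg n (m1 y)) 1)) &&
    !(Nat.beq (ecl (edg n (m1 y)) 1) (ecl (edg n (m2 y)) 2)) &&
    !(Nat.beq (ecl (edg n (m2 y)) 2) (ecl (edg n y) 0))

/-- class `k` of `n` is class `k'` of `m` -/
def erl (N n m k k' : ℕ) : Bool := (List.range N).all fun x =>
  ((Nat.beq (ecl (edg n x) 0) k) == (Nat.beq (ecl (edg m x) 0) k')) &&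
    ((Nat.beq (ecl (edg n x) 1) k) == (Nat.beq (ecl (edg m x) 1) k')) &&
    ((Nat.beq (ecl (edg n x) 2) k) == (Nat.beq (ecl (edg m x) 2) k'))

private lemma Enum_edg_lt (n x : ℕ) : edg n x < 8 := Nat.mod_lt _ (by norm_num)

/-- the code of the digits `f` -/
private def Enum_enc (f : ℕ → ℕ) : ℕ → ℕ → ℕ
  | 0, n => n
  | k + 1, n => Enum_enc f k (n * 8 + f k)

private lemma Enum_enc_div (f : ℕ → ℕ) (hf : ∀ x, f x < 8) : ∀ k n, Enum_enc f k n / 8 ^ k = n := by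
  intro k
  induction k with
  | zero => intro n; simp [Enum_enc]
  | succ k ih =>
    intro n
    rw [Enum_enc, pow_succ, ← Nat.div_div_eq_div_mul, ih]
    have := hf k
    omega

private lemma Enum_enc_d (f : ℕ → ℕ) (hf : ∀ x, f x < 8) : ∀ k n x, x < k → edg (Enum_enc f k n) x = f x := by
  intro k
  induction k with
  | zero => intro n x hx; omega
  | succ k ih =>
    intro n x hx
    rw [Enum_enc]
    rcases Nat.lt_succ_iff_lt_or_eq.1 hx with h | h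
    · exact ih _ x h
    · subst h
      unfold edg
      rw [Enum_enc_div f hf]
      have := hf x
      omega

private lemma Enum_go_sound (N : ℕ) (n1 n2 : ℕ → ℕ) (lf : ℕ → Bool) (f : ℕ → ℕ) (hf : ∀ x, f x ∈ [1, 2, 3, 5, 6, 7])
    (hd : ∀ x y, x < N → y < x → emk n1 n2 x (f x) &&& emk n1 n2 y (f y) = 0) :
    ∀ k u n, k ≤ N → ego n1 n2 lf k u n = true → (∀ x, x < k → u &&& emk n1 n2 x (f x) = 0) →
      lf (Enum_enc f k n) = true := by
  intro k
  induction k with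
  | zero => intro u n _ h _; exact h
  | succ k ih =>
    intro u n hk h hu
    unfold ego at h
    rw [List.all_eq_true] at h
    have h1 := h _ (hf k)
    rw [Bool.or_eq_true, hu k (by omega)] at h1
    have h2 : ego n1 n2 lf k (u ||| emk n1 n2 k (f k)) (n * 8 + f k) = true := by
      rcases h1 with h1 | h1
      · exact absurd h1 (by decide)
      · exact h1
    refine ih _ _ (by omega) h2 ?_
    intro x hx
    rw [Nat.and_or_distrib_right, hu x (by omega), hd k x (by omega) hx]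
    rfl

private lemma Enum_disj (a b c d e f : ℕ) (h1 : a ≠ d) (h2 : a ≠ e) (h3 : a ≠ f) (h4 : b ≠ d) (h5 : b ≠ e)
    (h6 : b ≠ f) (h7 : c ≠ d) (h8 : c ≠ e) (h9 : c ≠ f) :
    (2 ^ a ||| 2 ^ b ||| 2 ^ c) &&& (2 ^ d ||| 2 ^ e ||| 2 ^ f) = 0 := by
  apply Nat.eq_of_testBit_eq
  intro k
  rw [Nat.testBit_and, Nat.testBit_or, Nat.testBit_or, Nat.testBit_or, Nat.testBit_or, Nat.testBit_two_pow,
    Nat.testBit_two_pow, Nat.testBit_two_pow, Nat.testBit_two_pow, Nat.testBit_two_pow, Nat.testBit_two_pow,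
    Nat.zero_testBit, Bool.eq_false_iff]
  simp only [ne_eq, Bool.and_eq_true, Bool.or_eq_true, decide_eq_true_eq]
  omega

private lemma Enum_tab4 : ∀ a b d : Fin 3, a ≠ b → b ≠ d → d ≠ a →
    ecl (3 * a.val + b.val) 0 = a.val ∧ ecl (3 * a.val + b.val) 1 = b.val ∧
    ecl (3 * a.val + b.val) 2 = d.val ∧ 3 * a.val + b.val ∈ [1, 2, 3, 5, 6, 7] := by decide +kernel

private lemma Enum_key (a b : A) (N : ℕ) (φ : A → ℕ) (ψ : ℕ → A) (hφ : ∀ x, φ x < N) (h1 : ∀ x, ψ (φ x) = x) (h2 : ∀ k < N, φ (ψ k) = k)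
    (n1 n2 : ℕ → ℕ) (hn1 : ∀ k < N, n1 k = φ (ψ k + a)) (hn2 : ∀ k < N, n2 k = φ (ψ k + b)) (c : A × Fin 3 → Fin 3)
    (hc : (HG a b).P c) :
    ∃ f : ℕ → ℕ, (∀ x, f x = 3 * (c (ψ x, 0)).val + (c (ψ x, 1)).val) ∧ (∀ x, f x ∈ [1, 2, 3, 5, 6, 7]) ∧ (∀ x, f x < 8) ∧
      (∀ x y, x < N → y < x → emk n1 n2 x (f x) &&& emk n1 n2 y (f y) = 0) ∧
      ∀ n, (∀ x < N, edg n x = f x) → efc φ n = c := by
  have hSO : ∀ e f, SO (HG a b).t e f → c f ≠ c e := by
    rintro e f (h | h)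
    · rw [h]
      exact (hc e).2
    · rw [h]
      intro h2
      have h3 := (hc ((HG a b).t ((HG a b).t e))).2
      rw [CB.t3] at h3
      exact h3 h2.symm
  have hne : ∀ (x y : ℕ) (i j : Fin 3) (u v : ℕ), x < N → y < x → u = φ (ψ x + dl a b i) →
      v = φ (ψ y + dl a b j) → 3 * u + (c (ψ x, i)).val ≠ 3 * v + (c (ψ y, j)).val := by
    intro x y i j u v hx hy hu hv h
    have h4 := (c (ψ x, i)).isLt
    have h5 := (c (ψ y, j)).isLt
    have huv : u = v := by omega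
    have hcc : c (ψ x, i) = c (ψ y, j) := Fin.ext (by omega)
    have h6 : ψ x + dl a b i = ψ y + dl a b j := by
      rw [← h1 (ψ x + dl a b i), ← h1 (ψ y + dl a b j), ← hu, ← hv, huv]
    by_cases hij : j = i
    · subst hij
      have h3 : ψ x = ψ y := add_right_cancel h6
      have h7 := congrArg φ h3
      rw [h2 x hx, h2 y (by omega)] at h7
      omega
    · exact hSO _ _ ((SO_HG_t a b (ψ x) (ψ y) i j).2 ⟨h6.symm, hij⟩) hcc.symm
  have hs : ∀ x : A, c (x, 0) ≠ c (x, 1) ∧ c (x, 1) ≠ c (x, 2) ∧ c (x, 2) ≠ c (x, 0) := by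
    intro x
    exact ⟨(hc (x, 0)).1.symm, (hc (x, 1)).1.symm, (hc (x, 2)).1.symm⟩
  obtain ⟨f, hf⟩ : ∃ f : ℕ → ℕ, ∀ x, f x = 3 * (c (ψ x, 0)).val + (c (ψ x, 1)).val := ⟨_, fun _ => rfl⟩
  have ht := fun x : A => Enum_tab4 _ _ _ (hs x).1 (hs x).2.1 (hs x).2.2
  have hf0 : ∀ x, ecl (f x) 0 = (c (ψ x, 0)).val := fun x => by rw [hf]; exact (ht _).1
  have hf1 : ∀ x, ecl (f x) 1 = (c (ψ x, 1)).val := fun x => by rw [hf]; exact (ht _).2.1
  have hf2 : ∀ x, ecl (f x) 2 = (c (ψ x, 2)).val := fun x => by rw [hf]; exact (ht _).2.2.1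
  have hfm : ∀ x, f x ∈ [1, 2, 3, 5, 6, 7] := fun x => by rw [hf]; exact (ht _).2.2.2
  have hf8 : ∀ x, f x < 8 := by
    intro x
    have h1 := hfm x
    simp only [List.mem_cons, List.not_mem_nil, or_false] at h1
    omega
  have e0 : ∀ x < N, x = φ (ψ x + dl a b 0) := by
    intro x hx
    have e : ψ x + dl a b 0 = ψ x := add_zero _
    rw [e, h2 x hx]
  have e1 : ∀ x < N, n1 x = φ (ψ x + dl a b 1) := fun x hx => hn1 x hx
  have e2 : ∀ x < N, n2 x = φ (ψ x + dl a b 2) := fun x hx => hn2 x hx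
  refine ⟨f, hf, hfm, hf8, ?_, ?_⟩
  · intro x y hx hy
    have hyN : y < N := by omega
    unfold emk
    rw [hf0, hf1, hf2, hf0, hf1, hf2]
    exact Enum_disj _ _ _ _ _ _ (hne x y 0 0 _ _ hx hy (e0 x hx) (e0 y hyN)) (hne x y 0 1 _ _ hx hy (e0 x hx) (e1 y hyN))
      (hne x y 0 2 _ _ hx hy (e0 x hx) (e2 y hyN)) (hne x y 1 0 _ _ hx hy (e1 x hx) (e0 y hyN))
      (hne x y 1 1 _ _ hx hy (e1 x hx) (e1 y hyN)) (hne x y 1 2 _ _ hx hy (e1 x hx) (e2 y hyN))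
      (hne x y 2 0 _ _ hx hy (e2 x hx) (e0 y hyN)) (hne x y 2 1 _ _ hx hy (e2 x hx) (e1 y hyN))
      (hne x y 2 2 _ _ hx hy (e2 x hx) (e2 y hyN))
  · intro n hn
    funext p
    obtain ⟨x, i⟩ := p
    have h5 := hn (φ x) (hφ x)
    show Fin.ofNat 3 (ecl (edg n (φ x)) i.val) = c (x, i)
    rw [h5]
    have h3 : ∀ i : Fin 3, i = 0 ∨ i = 1 ∨ i = 2 := by decide
    have h4 : ∀ a : Fin 3, Fin.ofNat 3 a.val = a := by decide
    rcases h3 i with rfl | rfl | rfl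
    · show Fin.ofNat 3 (ecl (f (φ x)) 0) = c (x, 0)
      rw [hf0, h1, h4]
    · show Fin.ofNat 3 (ecl (f (φ x)) 1) = c (x, 1)
      rw [hf1, h1, h4]
    · show Fin.ofNat 3 (ecl (f (φ x)) 2) = c (x, 2)
      rw [hf2, h1, h4]

theorem enum_all (a b : A) (N : ℕ) (φ : A → ℕ) (ψ : ℕ → A) (hφ : ∀ x, φ x < N) (h1 : ∀ x, ψ (φ x) = x) (h2 : ∀ k < N, φ (ψ k) = k)
    (n1 n2 : ℕ → ℕ) (hn1 : ∀ k < N, n1 k = φ (ψ k + a)) (hn2 : ∀ k < N, n2 k = φ (ψ k + b)) (lf : ℕ → Bool)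
    (hs : ego n1 n2 lf N 0 0 = true) (c : A × Fin 3 → Fin 3) (hc : (HG a b).P c) : ∃ n, lf n = true ∧ efc φ n = c := by
  obtain ⟨f, hf, hfm, hf8, hd, hfin⟩ := Enum_key a b N φ ψ hφ h1 h2 n1 n2 hn1 hn2 c hc
  have hlf := Enum_go_sound N n1 n2 lf f hfm hd N 0 0 le_rfl hs (fun x _ => Nat.zero_and _)
  exact ⟨_, hlf, hfin _ (fun x hx => Enum_enc_d f hf8 N 0 x hx)⟩

theorem enum_fix (a b : A) (N : ℕ) (φ : A → ℕ) (ψ : ℕ → A) (hφ : ∀ x, φ x < N + 1) (h1 : ∀ x, ψ (φ x) = x) (h2 : ∀ k < N + 1, φ (ψ k) = k)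
    (n1 n2 : ℕ → ℕ) (hn1 : ∀ k < N + 1, n1 k = φ (ψ k + a)) (hn2 : ∀ k < N + 1, n2 k = φ (ψ k + b)) (lf : ℕ → Bool)
    (hs : ego n1 n2 lf N (emk n1 n2 N 1) 1 = true) (c : A × Fin 3 → Fin 3) (hc : (HG a b).P c) (hc0 : c (ψ N, 0) = 0)
    (hc1 : c (ψ N, 1) = 1) : ∃ n, lf n = true ∧ efc φ n = c := by
  obtain ⟨f, hf, hfm, hf8, hd, hfin⟩ := Enum_key a b (N + 1) φ ψ hφ h1 h2 n1 n2 hn1 hn2 c hc
  have hfN : f N = 1 := by
    rw [hf, hc0, hc1]
    rfl
  have hlf := Enum_go_sound (N + 1) n1 n2 lf f hfm hd N (emk n1 n2 N 1) 1 (Nat.le_succ N) hs (fun x hx => by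
    have h3 := hd N x (Nat.lt_succ_self N) hx
    rw [hfN] at h3
    exact h3)
  refine ⟨_, hlf, hfin _ (fun x hx => ?_)⟩
  rcases Nat.lt_succ_iff_lt_or_eq.1 hx with h | h
  · exact Enum_enc_d f hf8 N 1 x h
  · subst h
    unfold edg
    rw [Enum_enc_div f hf8, hfN]

private lemma Enum_tab1 : ∀ a : Fin 8, Nat.beq (a.val / 3) (a.val % 3) = false → ∀ i : Fin 3,
    Fin.ofNat 3 (ecl a.val (i + 1 : Fin 3).val) ≠ Fin.ofNat 3 (ecl a.val i.val) := by decide +kernel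

private lemma Enum_tab2 : ∀ a b : Fin 8, ∀ i j : Fin 3, Nat.beq (ecl a.val i.val) (ecl b.val j.val) = false →
    Fin.ofNat 3 (ecl a.val i.val) ≠ Fin.ofNat 3 (ecl b.val j.val) := by decide +kernel

/-- the colours agree with the numbers `ecl` -/
private lemma Enum_tab3 : ∀ a : Fin 8, ∀ i k : Fin 3, (Nat.beq (ecl a.val i.val) k.val = true ↔ Fin.ofNat 3 (ecl a.val i.val) = k) := by
  decide +kernel

theorem efc_P (a b : A) (N : ℕ) (φ : A → ℕ) (hφ : ∀ x, φ x < N) (m1 m2 : ℕ → ℕ) (hm1 : ∀ x, m1 (φ x) = φ (x - a))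
    (hm2 : ∀ x, m2 (φ x) = φ (x - b)) (n : ℕ) (h : eok N m1 m2 n = true) : (HG a b).P (efc φ n) := by
  unfold eok at h
  rw [List.all_eq_true] at h
  have hx : ∀ y : A, Nat.beq (edg n (φ y) / 3) (edg n (φ y) % 3) = false ∧
      Nat.beq (ecl (edg n (φ y)) 0) (ecl (edg n (φ (y - a))) 1) = false ∧
      Nat.beq (ecl (edg n (φ (y - a))) 1) (ecl (edg n (φ (y - b))) 2) = false ∧
      Nat.beq (ecl (edg n (φ (y - b))) 2) (ecl (edg n (φ y)) 0) = false := by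
    intro y
    have h1 := h (φ y) (List.mem_range.2 (hφ y))
    simp only [Bool.and_eq_true, Bool.not_eq_true'] at h1
    rw [hm1, hm2] at h1
    exact ⟨h1.1.1.1.1, h1.1.1.2, h1.1.2, h1.2⟩
  have hY0 : ∀ y : A, efc φ n (y, 0) ≠ efc φ n (y - a, 1) := fun y =>
    Enum_tab2 ⟨_, Enum_edg_lt n _⟩ ⟨_, Enum_edg_lt n _⟩ 0 1 (hx y).2.1
  have hY1 : ∀ y : A, efc φ n (y - a, 1) ≠ efc φ n (y - b, 2) := fun y =>
    Enum_tab2 ⟨_, Enum_edg_lt n _⟩ ⟨_, Enum_edg_lt n _⟩ 1 2 (hx y).2.2.1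
  have hY2 : ∀ y : A, efc φ n (y - b, 2) ≠ efc φ n (y, 0) := fun y =>
    Enum_tab2 ⟨_, Enum_edg_lt n _⟩ ⟨_, Enum_edg_lt n _⟩ 2 0 (hx y).2.2.2
  rintro ⟨x, i⟩
  refine ⟨Enum_tab1 ⟨_, Enum_edg_lt n _⟩ (hx x).1 i, ?_⟩
  rw [HG_t]
  have h3 : ∀ i : Fin 3, i = 0 ∨ i = 1 ∨ i = 2 := by decide
  rcases h3 i with rfl | rfl | rfl
  · have e : x + dl a b 0 - dl a b (0 + 1) = x - a := by
      show x + 0 - a = x - a
      rw [add_zero]
    rw [e]
    exact (hY0 x).symm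
  · have e : x + dl a b 1 - dl a b (1 + 1) = x + a - b := rfl
    rw [e]
    have := hY1 (x + a)
    rw [add_sub_cancel_right] at this
    exact this.symm
  · have e : x + dl a b 2 - dl a b (2 + 1) = x + b := by
      show x + b - 0 = x + b
      rw [sub_zero]
    rw [e]
    have := hY2 (x + b)
    rw [add_sub_cancel_right] at this
    exact this.symm

theorem erl_iff (N : ℕ) (φ : A → ℕ) (ψ : ℕ → A) (hφ : ∀ x, φ x < N) (h2 : ∀ k < N, φ (ψ k) = k) (n m : ℕ) (k k' : Fin 3) :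
    erl N n m k.val k'.val = true ↔ ∀ e, efc φ n e = k ↔ efc φ m e = k' := by
  have hb : ∀ p q : Bool, (p == q) = true ↔ (p = true ↔ q = true) := by decide
  have hk : ∀ (x : A) (i : Fin 3), ((Nat.beq (ecl (edg n (φ x)) i.val) k.val) == (Nat.beq (ecl (edg m (φ x)) i.val) k'.val)) = true ↔
      (efc φ n (x, i) = k ↔ efc φ m (x, i) = k') := by
    intro x i
    rw [hb]
    exact iff_congr (Enum_tab3 ⟨_, Enum_edg_lt n (φ x)⟩ i k) (Enum_tab3 ⟨_, Enum_edg_lt m (φ x)⟩ i k')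
  unfold erl
  rw [List.all_eq_true]
  constructor
  · rintro h ⟨x, i⟩
    have h1 := h (φ x) (List.mem_range.2 (hφ x))
    rw [Bool.and_eq_true, Bool.and_eq_true] at h1
    have h3 : ∀ i : Fin 3, i = 0 ∨ i = 1 ∨ i = 2 := by decide
    rcases h3 i with rfl | rfl | rfl
    · exact (hk x 0).1 h1.1.1
    · exact (hk x 1).1 h1.1.2
    · exact (hk x 2).1 h1.2
  · intro h x hx
    rw [List.mem_range] at hx
    rw [Bool.and_eq_true, Bool.and_eq_true, ← h2 x hx]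
    exact ⟨⟨(hk (ψ x) 0).2 (h _), (hk (ψ x) 1).2 (h _)⟩, (hk (ψ x) 2).2 (h _)⟩

theorem perm_ke {E : Type u} (B : CB E) (c : E → Fin 3) (hc : B.P c) (π : Equiv.Perm (Fin 3)) :
    B.P (fun e => π (c e)) ∧ B.KE c (fun e => π (c e)) := by
  have hP : ∀ (d : E → Fin 3), B.P d → ∀ σ : Equiv.Perm (Fin 3), B.P (fun e => σ (d e)) := fun d hd σ e =>
    ⟨fun h => (hd e).1 (σ.injective h), fun h => (hd e).2 (σ.injective h)⟩
  have hR : ∀ (d : E → Fin 3), B.P d → ∀ (σ : Equiv.Perm (Fin 3)) (k : Fin 3), σ k = k → B.KE d (fun e => σ (d e)) := by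
    intro d hd σ k hk
    refine KE_of_rel B hd (hP d hd σ) ⟨k, fun e => ?_⟩
    show d e = k ↔ σ (d e) = k
    constructor
    · intro h
      rw [h, hk]
    · intro h
      exact σ.injective (h.trans hk.symm)
  refine ⟨hP c hc π, ?_⟩
  have hsw : ∀ a : Fin 3, ∃ k, Equiv.swap 0 a k = k := by decide
  obtain ⟨k, hk⟩ := hsw (π 0)
  have h0 : (Equiv.swap 0 (π 0) * π) 0 = 0 := by
    show Equiv.swap 0 (π 0) (π 0) = 0
    exact Equiv.swap_apply_right _ _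
  have h1 := hR c hc (Equiv.swap 0 (π 0) * π) 0 h0
  have h2 := hR _ (hP c hc (Equiv.swap 0 (π 0) * π)) (Equiv.swap 0 (π 0)) k hk
  have h3 : (fun e => Equiv.swap 0 (π 0) ((Equiv.swap 0 (π 0) * π) (c e))) = fun e => π (c e) := by
    funext e
    show Equiv.swap 0 (π 0) (Equiv.swap 0 (π 0) (π (c e))) = π (c e)
    rw [Equiv.swap_apply_self]
  rw [h3] at h2
  exact h1.trans _ _ _ h2

/-- a common class up to the names of the colours -/
theorem ke_of_class {E : Type u} (B : CB E) (c c' : E → Fin 3) (hc : B.P c) (hc' : B.P c') (k k' : Fin 3)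
    (h : ∀ e, c e = k ↔ c' e = k') : B.KE c c' := by
  obtain ⟨h1, h2⟩ := perm_ke B c' hc' (Equiv.swap k' k)
  refine (KE_of_rel B hc h1 ⟨k, fun e => ?_⟩).trans _ _ _ (h2.symm _ _)
  rw [h e]
  show c' e = k' ↔ Equiv.swap k' k (c' e) = k
  constructor
  · intro h3
    rw [h3, Equiv.swap_apply_left]
  · intro h3
    have h4 := congrArg (Equiv.swap k' k) h3
    rw [Equiv.swap_apply_self, Equiv.swap_apply_right] at h4
    exact h4

end Pool.Agent.PP
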