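import Pool.Agent.Lib_MP_7c0803_hon.E

/-!
# [HON-F] The symbolic chains of the first kind: `t = 1` (`p - q ≡ 1 mod 3`) and `t = 3` (`p ≡ q mod 3`, `q < p`)

Put `s = p + q ≥ 19`, `M = (2 p + q - 2 t) / 3`, `J = (p + 2 q - t) / 3` (both divisible), `0 ≤ J ≤ M`, `M ≥ 1`; here as natural numbers with
`3 M = 2 p + q - 2 t`, `3 J = p + 2 q - t`.  The chain: `M` pairs `(1, 0), m_h` with `m_h ∈ {(0, 1), (1, -1)}`, then `t` times `(1, 0)`; `P = 2 M + t`.
`fh M i = min (i / 2) M` is the number of the `m`'s before `i`, `fb = ⌊h J / M⌋` of them are `(0, 1)`: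
`a i = i - h`, `b i = ⌊h J / M⌋`, `c i = h - b i`.  (`j ↦ ⌊j J / M⌋` increases by `0` or `1` as `0 ≤ J ≤ M`.)

`pos_chain` (structure `Chain`): `win` by `chain_win`; in every window the numbers `A` of `(1, 0)` and `H` of the others satisfy `A ≥ H - 1`, `A ≥ 0`, and both
parts of `H` are `≥ 0`, so one of them is `≤ A` (omega).  `win0`: `2 (h j - h i) ≤ j - i + 1`.  `win1`: the complementary window has
`A' - H' = t - (j - i) + 2 (h j - h i) ≥ - 1` (for `j ≤ 2 M`: `2 (j / 2) - 2 (i / 2) ≥ j - i - 1`; for `j = 2 M + e`: `≥ t - e ≥ 0`).  `full`: `J ≤ M + t`, `M - J ≤ M + t`.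
With `r = (h J) % M` (`M b = h J - r`, `0 ≤ r < M`) and `ε = i - 2 h` (`0 ≤ ε ≤ 1` if `h < M`; `h = M`: `r = 0`, `0 ≤ ε ≤ t`):
`zz = (2 h + ε - b, 2 b - h)`, `kk = - 2 ε`.
`npc_pos`: `npc_chain` with `x = (- (2 t + q), p - 2 t)`, `D = s`, `y = (q - 2 t, - p)`, `D' = p`, and
* `D kk - x · zz = - 3 M ε + 3 r + 3 h t ∈ [- 3 M, 3 M + 3 M t]`, `o = 6 M + 3 M t`;
* `D' kk - y · zz = - 3 M ε - 3 r + 3 h t ∈ [- 6 M, 3 M t]`, `o' = 6 M + 3 M t` (use `2 x1 - x2 = - 3 (J + t)`, `2 x2 - x1 = 3 M`, `2 y1 - y2 = 3 (J - t)`,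
  `2 y2 - y1 = - 3 M`; in the case `h = M` the value is `3 M (t - ε) ∈ [0, 3 M t]`);
* `p z.2 - q z.1 = - 3 r + 2 t b - t h - q ε`, `C = 3 M + t M + t q`, `2 C < n` from `4 n ≥ 3 s²`, `s ≥ 19`, `t ≤ 3` (`3 M ≤ 2 s`, `2 q ≤ s`: `2 C ≤ 11 s`);
* `hY`: `D' x2 - D y2 = p (p + s - 2 t) = p w`, `3 M = w`, so the claim is (after dividing by `p`) `(p + s) w (t + 2) + 6 p s ≤ w n`; from `4 n ≥ 3 s²`: `24 p s ≤ 15 w s`
  (as `9 p ≤ 15 s - 90`), `4 (p + s) (t + 2) ≤ 40 s`, `55 s ≤ 3 s²`.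
All bounds were checked by a program for `19 ≤ s < 90`.
-/

set_option autoImplicit false

namespace Pool.Agent.PP

universe u

def fh (M : ℕ) (i : ℕ) : ℕ := min (i / 2) M

def fa (M : ℕ) (i : ℕ) : ℤ := (i : ℤ) - (fh M i : ℤ)

def fb (M J : ℕ) (i : ℕ) : ℤ := ((fh M i * J / M : ℕ) : ℤ)

def fc (M J : ℕ) (i : ℕ) : ℤ := (fh M i : ℤ) - fb M J i

private lemma F_mono (M J : ℕ) {h h' : ℕ} (hh : h ≤ h') : h * J / M ≤ h' * J / M :=
  Nat.div_le_div_right (Nat.mul_le_mul_right J hh)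

private lemma F_lip (M J : ℕ) (hM0 : 1 ≤ M) (hJM : J ≤ M) {h h' : ℕ} (hh : h ≤ h') :
    h' * J / M ≤ h * J / M + (h' - h) := by
  obtain ⟨k, rfl⟩ := Nat.exists_eq_add_of_le hh
  have h1 : (h + k) * J ≤ h * J + M * k := by
    rw [add_mul]
    have : k * J ≤ M * k := by rw [Nat.mul_comm M k]; exact Nat.mul_le_mul_left k hJM
    omega
  calc (h + k) * J / M ≤ (h * J + M * k) / M := Nat.div_le_div_right h1
    _ = h * J / M + k := Nat.add_mul_div_left _ _ (by omega)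
    _ = h * J / M + (h + k - h) := by rw [Nat.add_sub_cancel_left]

theorem pos_chain (p q t : ℤ) (M J : ℕ) (T : ℕ) (hT : (T : ℤ) = t) (ht : 1 ≤ t) (hq : 0 ≤ q) (hqp : q ≤ p) (hM0 : 1 ≤ M) (hJM : J ≤ M)
    (hM : 3 * (M : ℤ) = 2 * p + q - 2 * t) (hJ : 3 * (J : ℤ) = p + 2 * q - t) :
    Chain p q t (2 * M + T) (fa M) (fb M J) (fc M J) := by
  subst hT
  have hfh : ∀ i, fh M i = min (i / 2) M := fun _ => rfl
  have hP : fh M (2 * M + T) = M := by rw [hfh]; omega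
  have hbP : fb M J (2 * M + T) = J := by
    unfold fb
    rw [hP, Nat.mul_div_cancel_left J (by omega)]
  have haP : fa M (2 * M + T) = M + T := by
    unfold fa
    rw [hP]
    push_cast
    ring
  have hcP : fc M J (2 * M + T) = M - J := by
    unfold fc
    rw [hP, hbP]
  have hw : ∀ i j : ℕ, i ≤ j → j ≤ 2 * M + T →
      (fh M i ≤ fh M j ∧ fh M j ≤ M ∧ 2 * (fh M j : ℤ) - 2 * (fh M i : ℤ) ≤ (j : ℤ) - i + 1 ∧
        (j : ℤ) - i - T - 1 ≤ 2 * (fh M j : ℤ) - 2 * (fh M i : ℤ) ∧ (fh M i : ℤ) ≤ i ∧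
        (j : ℤ) - (fh M j : ℤ) ≤ M + T) := by
    intro i j hij hj
    rw [hfh, hfh]
    omega
  refine ⟨?_, ?_, ?_, ?_, ?_, ?_, ?_, ?_⟩
  · simp [fa, fh]
  · simp [fb, fh]
  · simp [fc, fb, fh]
  · intro i hi
    have h1 : fh M (i + 1) = fh M i ∨ (fh M (i + 1) = fh M i + 1) := by
      rw [hfh, hfh]
      omega
    rcases h1 with h1 | h1
    · left
      refine ⟨?_, ?_, ?_⟩
      · unfold fa
        rw [h1]
        push_cast
        ring
      · unfold fb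
        rw [h1]
      · unfold fc fb
        rw [h1]
    · right
      have h2 := F_mono M J (Nat.le_succ (fh M i))
      have h3 := F_lip M J hM0 hJM (Nat.le_succ (fh M i))
      have h4 : fa M (i + 1) = fa M i := by
        unfold fa
        rw [h1]
        push_cast
        ring
      have h5 : fb M J (i + 1) = fb M J i ∨ fb M J (i + 1) = fb M J i + 1 := by
        unfold fb
        rw [h1]
        simp only [Nat.succ_eq_add_one] at h2 h3
        omega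
      rcases h5 with h5 | h5
      · right
        refine ⟨h4, h5, ?_⟩
        unfold fc
        rw [h5, h1]
        push_cast
        ring
      · left
        refine ⟨h4, h5, ?_⟩
        unfold fc
        rw [h5, h1]
        push_cast
        ring
  · rw [haP, hcP]
    omega
  · rw [hbP, hcP]
    omega
  · rw [haP, hbP, hcP]
    ring
  · apply chain_win
    · rw [haP, hbP, hcP]
      omega
    · intro i j hij hj
      obtain ⟨h1, h2, h3, h4, h5, h6⟩ := hw i j hij hj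
      have h7 := F_mono M J h1
      have h8 := F_lip M J hM0 hJM h1
      unfold fc fa fb
      generalize fh M j * J / M = y at *
      generalize fh M i * J / M = x at *
      omega
    · intro i j hij hj
      obtain ⟨h1, h2, h3, h4, h5, h6⟩ := hw i j hij hj
      have h7 := F_mono M J h1
      have h8 := F_lip M J hM0 hJM h1
      have h9 := F_mono M J h2
      have h10 := F_lip M J hM0 hJM h2
      rw [Nat.mul_div_cancel_left J (by omega : 0 < M)] at h9 h10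
      have h11 := F_lip M J hM0 hJM (Nat.zero_le (fh M i))
      rw [Nat.zero_mul, Nat.zero_div] at h11
      rw [haP, hbP, hcP]
      unfold fc fa fb
      generalize fh M j * J / M = y at *
      generalize fh M i * J / M = x at *
      omega

private lemma F2_facts (M J T : ℕ) (hM0 : 1 ≤ M) (hJM : J ≤ M) (i : ℕ) (hi : i ≤ 2 * M + T) :
    ∃ h b r e : ℤ, fa M i = h + e ∧ fb M J i = b ∧ fc M J i = h - b ∧ h * (J : ℤ) = (M : ℤ) * b + r ∧
      0 ≤ r ∧ r ≤ M ∧ 0 ≤ b ∧ b ≤ h ∧ h ≤ M ∧ 0 ≤ e ∧ (e ≤ 1 ∨ (h = M ∧ r = 0 ∧ e ≤ T)) := by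
  have h1 := Nat.div_add_mod (fh M i * J) M
  have h2 := Nat.mod_lt (fh M i * J) hM0
  have h3 : fh M i * J / M ≤ fh M i := by
    have h4 : fh M i * J / M ≤ fh M i * M / M := Nat.div_le_div_right (Nat.mul_le_mul_left _ hJM)
    rwa [Nat.mul_div_cancel _ hM0] at h4
  have h5 : fh M i = min (i / 2) M := rfl
  refine ⟨fh M i, (fh M i * J / M : ℕ), (fh M i * J % M : ℕ), (i : ℤ) - 2 * fh M i, ?_, rfl, ?_, ?_,
    by positivity, by omega, by positivity, by omega, by omega, by omega, ?_⟩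
  · unfold fa
    ring
  · unfold fc fb
    rfl
  · exact_mod_cast h1.symm
  · by_cases h6 : i / 2 < M
    · left
      omega
    · right
      have h7 : fh M i = M := by omega
      refine ⟨by exact_mod_cast h7, ?_, by omega⟩
      rw [h7]
      exact_mod_cast Nat.mul_mod_right M J

private lemma F2_bd (p q : ℤ) (M J T : ℕ) (hq : 0 ≤ q) (hT : T = 1 ∨ T = 3) (hM0 : 1 ≤ M) (hJM : J ≤ M)
    (hM : 3 * (M : ℤ) = 2 * p + q - 2 * T) (hJ : 3 * (J : ℤ) = p + 2 * q - T) (i : ℕ)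
    (hi : i ≤ 2 * M + T) :
    (-(3 * (M : ℤ)) ≤ (p + q) * kk (fa M) (fb M J) (fc M J) i - (-(2 * T + q) * (zz (fa M) (fb M J) (fc M J) i).1 +
        (p - 2 * T) * (zz (fa M) (fb M J) (fc M J) i).2) ∧
      (p + q) * kk (fa M) (fb M J) (fc M J) i - (-(2 * T + q) * (zz (fa M) (fb M J) (fc M J) i).1 +
        (p - 2 * T) * (zz (fa M) (fb M J) (fc M J) i).2) ≤ 3 * M + 3 * M * T) ∧
    (-(6 * (M : ℤ)) ≤ p * kk (fa M) (fb M J) (fc M J) i - ((q - 2 * T) * (zz (fa M) (fb M J) (fc M J) i).1 +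
        (-p) * (zz (fa M) (fb M J) (fc M J) i).2) ∧
      p * kk (fa M) (fb M J) (fc M J) i - ((q - 2 * T) * (zz (fa M) (fb M J) (fc M J) i).1 +
        (-p) * (zz (fa M) (fb M J) (fc M J) i).2) ≤ 3 * M * T) ∧
    |p * (zz (fa M) (fb M J) (fc M J) i).2 - q * (zz (fa M) (fb M J) (fc M J) i).1| ≤
      3 * M + T * M + T * q := by
  obtain ⟨h, b, r, e, ha, hb, hc, hr, r0, rM, b0, bh, hhM, e0, he⟩ := F2_facts M J T hM0 hJM i hi
  have e1 : (p + q) * kk (fa M) (fb M J) (fc M J) i - (-(2 * T + q) * (zz (fa M) (fb M J) (fc M J) i).1 +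
      (p - 2 * T) * (zz (fa M) (fb M J) (fc M J) i).2) = -(3 * M * e) + 3 * r + 3 * (h * T) := by
    simp only [kk, zz, ha, hb, hc]
    linear_combination e * hM - h * hJ + b * hM + 3 * hr
  have e2 : p * kk (fa M) (fb M J) (fc M J) i - ((q - 2 * T) * (zz (fa M) (fb M J) (fc M J) i).1 +
      (-p) * (zz (fa M) (fb M J) (fc M J) i).2) = -(3 * M * e) - 3 * r + 3 * (h * T) := by
    simp only [kk, zz, ha, hb, hc]
    linear_combination e * hM + h * hJ - b * hM - 3 * hr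
  have e3 : p * (zz (fa M) (fb M J) (fc M J) i).2 - q * (zz (fa M) (fb M J) (fc M J) i).1 =
      -(3 * r) + 2 * (T * b) - T * h - q * e := by
    simp only [zz, ha, hb, hc]
    linear_combination h * hJ - b * hM - 3 * hr
  rw [e1, e2, e3, abs_le]
  have hM1 : (0 : ℤ) ≤ M := by positivity
  have hT' : (T : ℤ) = 1 ∨ (T : ℤ) = 3 := by omega
  have he3 : e = 0 ∨ e = 1 ∨ ((T : ℤ) = 3 ∧ h = M ∧ r = 0 ∧ (e = 2 ∨ e = 3)) := by
    rcases he with he | ⟨h1, h2, he⟩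
    · omega
    · rcases hT' with hT' | hT' <;> omega
  generalize (T : ℤ) = t at *
  generalize (M : ℤ) = m at *
  rcases he3 with rfl | rfl | ⟨rfl, rfl, rfl, rfl | rfl⟩
  · rcases hT' with rfl | rfl <;> refine ⟨⟨?_, ?_⟩, ⟨?_, ?_⟩, ?_, ?_⟩ <;> omega
  · rcases hT' with rfl | rfl <;> refine ⟨⟨?_, ?_⟩, ⟨?_, ?_⟩, ?_, ?_⟩ <;> omega
  · refine ⟨⟨?_, ?_⟩, ⟨?_, ?_⟩, ?_, ?_⟩ <;> omega
  · refine ⟨⟨?_, ?_⟩, ⟨?_, ?_⟩, ?_, ?_⟩ <;> omega

private theorem F2_core (p q : ℤ) (M J T : ℕ) (v : ℤ × ℤ) (hq : 0 ≤ q) (hqp : q ≤ p) (hs : 19 ≤ p + q)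
    (hT : T = 1 ∨ T = 3) (hM0 : 1 ≤ M) (hJM : J ≤ M) (hM : 3 * (M : ℤ) = 2 * p + q - 2 * T)
    (hJ : 3 * (J : ℤ) = p + 2 * q - T) (hn : ∃ m : ℤ, dt (p, q) v = 2 * m)
    (hb : 3 * (p + q) ^ 2 ≤ 4 * dt (p, q) v) : NPC.{u} (Lt (p, q) v) := by
  have hT1 : (1 : ℤ) ≤ T := by omega
  have hT3 : (T : ℤ) ≤ 3 := by omega
  have hss : 57 * (p + q) ≤ 3 * (p + q) ^ 2 := by nlinarith
  refine npc_chain p q T (2 * M + T) (fa M) (fb M J) (fc M J)
    (pos_chain p q T M J T rfl hT1 hq hqp hM0 hJM hM hJ) (by omega) hq ?_ v hn (-(2 * T + q)) (p - 2 * T)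
    (p + q) (q - 2 * T) (-p) p (by omega) (by omega) (by omega) (by omega) (by omega) (by omega)
    (by omega) (by omega) (by ring) (by ring) (6 * M + 3 * M * T) (6 * M + 3 * M * T)
    (3 * M + T * M + T * q) ?_ ?_ ?_ ?_ ?_
  · rcases hT with hT | hT
    · exact ⟨0, by rw [hT]; norm_num⟩
    · exact ⟨1, by rw [hT]; norm_num⟩
  · intro i hi j hj
    have h1 := (F2_bd p q M J T hq hT hM0 hJM hM hJ i hi).1.2
    have h2 := (F2_bd p q M J T hq hT hM0 hJM hM hJ j hj).1.1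
    linarith
  · intro i hi j hj
    have h1 := (F2_bd p q M J T hq hT hM0 hJM hM hJ i hi).2.1.2
    have h2 := (F2_bd p q M J T hq hT hM0 hJM hM hJ j hj).2.1.1
    linarith
  · intro i hi
    exact (F2_bd p q M J T hq hT hM0 hJM hM hJ i hi).2.2
  · have h1 : 8 * (3 * (M : ℤ) + T * M + T * q) ≤ 36 * (p + q) := by
      rcases hT with hT | hT <;> subst hT <;> push_cast at * <;> omega
    linarith
  · have hw : (0 : ℤ) < 3 * M := by omega
    have hp0 : 0 < p := by omega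
    have h1 : 24 * (p * (p + q)) ≤ 15 * (3 * M * (p + q)) := by
      have h2 : 24 * p ≤ 15 * (3 * (M : ℤ)) := by omega
      nlinarith
    have h3 : 4 * ((2 * p + q) * (T + 2)) ≤ 40 * (p + q) := by
      have h4 : (2 * p + q) * ((T : ℤ) + 2) ≤ (2 * (p + q)) * 5 :=
        mul_le_mul (by omega) (by omega) (by omega) (by omega)
      linarith
    have h5 : 4 * ((2 * p + q) * (3 * M) * (T + 2) + 6 * (p * (p + q))) ≤
        3 * M * (4 * dt (p, q) v) := by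
      have h6 : 3 * (M : ℤ) * (3 * (p + q) ^ 2) ≤ 3 * M * (4 * dt (p, q) v) :=
        mul_le_mul_of_nonneg_left hb hw.le
      have h7 : 3 * (M : ℤ) * (57 * (p + q)) ≤ 3 * M * (3 * (p + q) ^ 2) :=
        mul_le_mul_of_nonneg_left hss hw.le
      have h8 : 3 * (M : ℤ) * (4 * ((2 * p + q) * (T + 2))) ≤ 3 * M * (40 * (p + q)) :=
        mul_le_mul_of_nonneg_left h3 hw.le
      have h9 : 0 ≤ 3 * (M : ℤ) * (p + q) := mul_nonneg hw.le (by omega)
      nlinarith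
    have h10 : (2 * p + q) * (3 * M) * (T + 2) + 6 * (p * (p + q)) ≤ 3 * M * dt (p, q) v := by
      linarith
    have h11 := mul_le_mul_of_nonneg_left h10 hp0.le
    have h12 : p * (p * (6 * M + 3 * M * T) + (p + q) * (6 * M + 3 * M * T) + 6 * (p + q) * p) =
        p * ((2 * p + q) * (3 * M) * (T + 2) + 6 * (p * (p + q))) := by ring
    have h13 : (p * (p - 2 * T) - (p + q) * -p) * dt (p, q) v = p * (3 * M * dt (p, q) v) := by
      rw [hM]
      ring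
    rw [h12, h13]
    exact h11

theorem npc_pos (p q t : ℤ) (v : ℤ × ℤ) (hq : 0 ≤ q) (hqp : q ≤ p) (hs : 19 ≤ p + q)
    (ht : (t = 1 ∧ (p - q) % 3 = 1) ∨ (t = 3 ∧ (p - q) % 3 = 0 ∧ q < p)) (hn : ∃ m : ℤ, dt (p, q) v = 2 * m)
    (hb : 3 * (p + q) ^ 2 ≤ 4 * dt (p, q) v) : NPC.{u} (Lt (p, q) v) := by
  obtain ⟨T, hT⟩ : ∃ T : ℕ, (T : ℤ) = t := ⟨t.toNat, by omega⟩
  subst hT
  obtain ⟨M, hM⟩ : ∃ M : ℕ, 3 * (M : ℤ) = 2 * p + q - 2 * T :=
    ⟨((2 * p + q - 2 * T) / 3).toNat, by omega⟩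
  obtain ⟨J, hJ⟩ : ∃ J : ℕ, 3 * (J : ℤ) = p + 2 * q - T :=
    ⟨((p + 2 * q - T) / 3).toNat, by omega⟩
  exact F2_core p q M J T v hq hqp hs (by omega) (by omega) (by omega) hM hJ hn hb

end Pool.Agent.PP
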