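import Pool.Agent.Lib_MP_7c0803_hon.E

/-!
# [HON-G] The symbolic chains of the second kind: `t = -1` (`p - q ≡ 2 mod 3`)

Put `s = p + q ≥ 19`, `3 M = 2 p + q - 1`, `3 J = p + 2 q - 2`, `1 ≤ J`, `J + 1 ≤ M` (as `q + 2 ≤ p`).  The chain: `M` pairs `(1, 0), m_h`,
`m_h ∈ {(0, 1), (1, -1)}`, then once `(0, 1)`; `P = 2 M + 1`.  `gh M i = min (i / 2) M`:
`a i = min ((i + 1) / 2) M`, `b i = ⌊h J / M⌋ + (i - 2 M)` (truncated subtraction), `c i = h - ⌊h J / M⌋`.

`neg_chain` (structure `Chain`): `win` by `chain_win`.  `full`: `J + 1 ≤ M`, `M - J ≤ M`.  For `i = 2 h + ε ≤ 2 M`: `a = h + ε`, `b + c = h`; for `i = P`: `a = M`, `b + c = M + 1`.  If in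
a window the numbers `A` of `(1, 0)` and `H` of the others satisfy `A ≥ H - 1`, `A ≥ 0`, then one of the two parts (both `≥ 0`) of `H` is `≤ A` (omega).
* `win0`, `j ≤ 2 M`: `A - H = ε_j - ε_i ≥ -1`.  `j = P`, `i = 2 h + ε < P`: `A - H = - 1 - ε`; if `ε = 1` (so `h < M`, `⌊h J / M⌋ ≤ J - 1` since `h J < J M`): the number of
  `(1, -1)` is `M - J - h + ⌊h J / M⌋ ≤ M - h - 1 = A`.
* `win1` (complement of the window `i..j`), `j = P`: it is the window `0..i`: `a i ≥ b i`.  `j ≤ 2 M`: `A' - H' = - 1 - ε_j + ε_i`; if this is `-2` then `ε_j = 1`, `ε_i = 0`, `h_j < M`, and the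
  number of `(1, -1)`: `M - J - c j + c i ≤ M - a j + a i` since `⌊h_j J / M⌋ ≤ J - 1`, `a j = h_j + 1`, `a i = h_i`.
With `r = (h J) % M`, `B = ⌊h J / M⌋`, `M B = h J - r`: for `i ≤ 2 M`: `zz = (2 h + ε - B, 2 B - h)`, `kk = - 2 ε` (`ε ≤ 1`, `ε = 0` if `h = M`); for `i = P`: `zz = (p, q)`, `kk = 2`.
`npc_neg`: `npc_chain` with `t = -1`, `x = (2 - q, p + 2)`, `D = s`, `y = (q + 2, - p)`, `D' = p`, and
* `D kk - x · zz = - (3 M + 3) ε + 3 r - 3 B ∈ [- (3 M + 3) - 3 J, 3 M]` (`0` for `i = P`), `o = 6 M + 3 J + 3`;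
* `D' kk - y · zz = - (3 M + 3) ε - 3 r - 6 h + 3 B ∈ [- 12 M, 0]` (`0` for `i = P`), `o' = 12 M`
  (`2 x1 - x2 = - 3 J`, `2 x2 - x1 = 3 M + 3`, `2 y1 - y2 = 3 J + 6`, `2 y2 - y1 = - (3 M + 3)`; lower bound: `h ≤ M - 1`, `r ≤ M - 1` if `h < M`, and `- 6 M + 3 J` if `h = M`);
* `p z.2 - q z.1 = - 3 r + B - 2 h - q ε`, `C = 5 M + q`; `2 C < n` from `4 n ≥ 3 s²`, `s ≥ 19` (`3 M ≤ 2 s`);
* `hY`: `D' x2 - D y2 = p (p + s + 2)`; claim (divided by `p`): `p o + s o' + 6 p s ≤ (p + s + 2) n`; with `3 M = p + s - 1`, `3 J = 2 s - p - 2` the left side is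
  `p² + 14 p s + 4 s² - p - 4 s`; from `4 n ≥ 3 s²` and `3 s² (p + s) ≥ 57 s (p + s)`, `4 p² ≤ 4 p s`.
All bounds were checked by a program for `19 ≤ s < 90`.
-/

set_option autoImplicit false

namespace Pool.Agent.PP

universe u

def gh (M : ℕ) (i : ℕ) : ℕ := min (i / 2) M

def ga (M : ℕ) (i : ℕ) : ℤ := ((min ((i + 1) / 2) M : ℕ) : ℤ)

def gb (M J : ℕ) (i : ℕ) : ℤ := ((gh M i * J / M + (i - 2 * M) : ℕ) : ℤ)

def gc (M J : ℕ) (i : ℕ) : ℤ := (gh M i : ℤ) - ((gh M i * J / M : ℕ) : ℤ)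

private lemma G1_mono (M J : ℕ) {h h' : ℕ} (hh : h ≤ h') : h * J / M ≤ h' * J / M :=
  Nat.div_le_div_right (Nat.mul_le_mul_right J hh)

private lemma G1_lip (M J : ℕ) (hM0 : 1 ≤ M) (hJM : J ≤ M) {h h' : ℕ} (hh : h ≤ h') :
    h' * J / M ≤ h * J / M + (h' - h) := by
  obtain ⟨k, rfl⟩ := Nat.exists_eq_add_of_le hh
  have h1 : (h + k) * J ≤ h * J + M * k := by
    rw [add_mul]
    have : k * J ≤ M * k := by rw [Nat.mul_comm M k]; exact Nat.mul_le_mul_left k hJM
    omega
  calc (h + k) * J / M ≤ (h * J + M * k) / M := Nat.div_le_div_right h1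
    _ = h * J / M + k := Nat.add_mul_div_left _ _ (by omega)
    _ = h * J / M + (h + k - h) := by rw [Nat.add_sub_cancel_left]

private lemma G1_lt (M J : ℕ) (hM0 : 1 ≤ M) (hJ0 : 1 ≤ J) {h : ℕ} (hh : h < M) :
    h * J / M + 1 ≤ J := by
  have h1 : h * J < M * J := Nat.mul_lt_mul_of_pos_right hh hJ0
  have h2 : h * J / M < J := (Nat.div_lt_iff_lt_mul (by omega)).2 (by rw [Nat.mul_comm J M]; exact h1)
  omega

/-- all facts on the number `x = ⌊h J / M⌋` -/
private lemma G1_facts (M J : ℕ) (hJ0 : 1 ≤ J) (hJM : J + 1 ≤ M) (i : ℕ) :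
    gh M i * J / M ≤ gh M i ∧ (gh M i < M → gh M i * J / M + 1 ≤ J) ∧
      (gh M i = M → gh M i * J / M = J) ∧ gh M i * J / M ≤ J ∧
      J ≤ gh M i * J / M + (M - gh M i) := by
  have h0 : gh M i ≤ M := min_le_right _ _
  have hMM : M * J / M = J := Nat.mul_div_cancel_left J (by omega)
  have h1 := G1_lip M J (by omega) (by omega) (Nat.zero_le (gh M i))
  rw [Nat.zero_mul, Nat.zero_div] at h1
  have h2 := G1_mono M J h0
  rw [hMM] at h2
  have h3 := G1_lip M J (by omega) (by omega) h0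
  rw [hMM] at h3
  refine ⟨by omega, fun h => G1_lt M J (by omega) hJ0 h, fun h => ?_, h2, h3⟩
  rw [h, hMM]

theorem neg_chain (p q : ℤ) (M J : ℕ) (hq : 0 ≤ q) (hqp : q + 2 ≤ p) (hJ0 : 1 ≤ J) (hJM : J + 1 ≤ M)
    (hM : 3 * (M : ℤ) = 2 * p + q - 1) (hJ : 3 * (J : ℤ) = p + 2 * q - 2) :
    Chain p q (-1) (2 * M + 1) (ga M) (gb M J) (gc M J) := by
  have hgh : ∀ i, gh M i = min (i / 2) M := fun _ => rfl
  have hga : ∀ i, ga M i = ((min ((i + 1) / 2) M : ℕ) : ℤ) := fun _ => rfl
  have hP : gh M (2 * M + 1) = M := by rw [hgh]; omega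
  have hMM : M * J / M = J := Nat.mul_div_cancel_left J (by omega)
  have hbP : gb M J (2 * M + 1) = J + 1 := by
    unfold gb
    rw [hP, hMM, Nat.add_sub_cancel_left]
    push_cast
    ring
  have haP : ga M (2 * M + 1) = M := by
    rw [hga]
    have : min ((2 * M + 1 + 1) / 2) M = M := by omega
    rw [this]
  have hcP : gc M J (2 * M + 1) = M - J := by
    unfold gc
    rw [hP, hMM]
  refine ⟨?_, ?_, ?_, ?_, ?_, ?_, ?_, ?_⟩
  · simp [ga]
  · simp [gb, gh]
  · simp [gc, gh]
  · intro i hi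
    by_cases hi2 : i = 2 * M
    · right; left
      subst hi2
      have e1 : gh M (2 * M) = M := by rw [hgh]; omega
      refine ⟨?_, ?_, ?_⟩
      · rw [haP, hga]
        have : min ((2 * M + 1) / 2) M = M := by omega
        rw [this]
      · rw [hbP]
        unfold gb
        rw [e1, hMM, Nat.sub_self]
        push_cast
        ring
      · rw [hcP]
        unfold gc
        rw [e1, hMM]
    · have hb1 : i + 1 - 2 * M = 0 := by omega
      have hb2 : i - 2 * M = 0 := by omega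
      by_cases hev : i % 2 = 0
      · left
        have e1 : gh M (i + 1) = gh M i := by
          rw [hgh, hgh]
          omega
        refine ⟨?_, ?_, ?_⟩
        · rw [hga, hga]
          omega
        · unfold gb
          rw [e1, hb1, hb2]
        · unfold gc
          rw [e1]
      · right
        have e1 : gh M (i + 1) = gh M i + 1 := by
          rw [hgh, hgh]
          omega
        have h2 := G1_mono M J (Nat.le_succ (gh M i))
        have h3 := G1_lip M J (by omega) (by omega) (Nat.le_succ (gh M i))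
        simp only [Nat.succ_eq_add_one] at h2 h3
        have e2 : ga M (i + 1) = ga M i := by
          rw [hga, hga]
          omega
        have h5 : (gh M i + 1) * J / M = gh M i * J / M ∨
            (gh M i + 1) * J / M = gh M i * J / M + 1 := by omega
        rcases h5 with h5 | h5
        · right
          refine ⟨e2, ?_, ?_⟩
          · unfold gb
            rw [e1, hb1, hb2, h5]
          · unfold gc
            rw [e1, h5]
            push_cast
            ring
        · left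
          refine ⟨e2, ?_, ?_⟩
          · unfold gb
            rw [e1, hb1, hb2, h5]
            push_cast
            ring
          · unfold gc
            rw [e1, h5]
            push_cast
            ring
  · rw [haP, hcP]
    omega
  · rw [hbP, hcP]
    omega
  · rw [haP, hbP, hcP]
    ring
  · apply chain_win
    · rw [haP, hbP, hcP]
      omega
    · intro i j hij hj
      have hm : gh M i ≤ gh M j := by
        rw [hgh, hgh]
        omega
      have h7 := G1_mono M J hm
      have h8 := G1_lip M J (by omega) (by omega) hm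
      obtain ⟨i1, i2, i3, i4, i5⟩ := G1_facts M J hJ0 hJM i
      obtain ⟨j1, j2, j3, j4, j5⟩ := G1_facts M J hJ0 hJM j
      have hi := hgh i
      have hj' := hgh j
      rw [hga, hga]
      unfold gc gb
      generalize gh M j * J / M = y at *
      generalize gh M i * J / M = x at *
      generalize gh M i = u at *
      generalize gh M j = w at *
      clear haP hbP hcP hP hMM hgh hga hM hJ hq hqp
      omega
    · intro i j hij hj
      have hm : gh M i ≤ gh M j := by
        rw [hgh, hgh]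
        omega
      have h7 := G1_mono M J hm
      have h8 := G1_lip M J (by omega) (by omega) hm
      obtain ⟨i1, i2, i3, i4, i5⟩ := G1_facts M J hJ0 hJM i
      obtain ⟨j1, j2, j3, j4, j5⟩ := G1_facts M J hJ0 hJM j
      have hi := hgh i
      have hj' := hgh j
      rw [haP, hbP, hcP, hga, hga]
      unfold gc gb
      generalize gh M j * J / M = y at *
      generalize gh M i * J / M = x at *
      generalize gh M i = u at *
      generalize gh M j = w at *
      clear haP hbP hcP hP hMM hgh hga hM hJ hq hqp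
      omega

/-- the points and the values of the chain -/
private theorem G2_data (M J : ℕ) (hM0 : 1 ≤ M) (hJM : J ≤ M) (i : ℕ) (hi : i ≤ 2 * M + 1) :
    (∃ h B r ε : ℤ, zz (ga M) (gb M J) (gc M J) i = (2 * h + ε - B, 2 * B - h) ∧
        kk (ga M) (gb M J) (gc M J) i = -2 * ε ∧ (M : ℤ) * B = h * J - r ∧ 0 ≤ r ∧ r ≤ M - 1 ∧
        0 ≤ B ∧ B ≤ J ∧ B ≤ h ∧ 0 ≤ ε ∧ ε ≤ 1 ∧ 0 ≤ h ∧ h + ε ≤ M) ∨
      (zz (ga M) (gb M J) (gc M J) i = (2 * (M : ℤ) - J, 2 * (J : ℤ) + 1 - M) ∧
        kk (ga M) (gb M J) (gc M J) i = 2) := by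
  by_cases hP : i = 2 * M + 1
  · right
    have h1 : gh M i = M := by
      unfold gh
      omega
    have ha : ga M i = M := by
      unfold ga
      have : min ((i + 1) / 2) M = M := by omega
      rw [this]
    have hb : gb M J i = J + 1 := by
      unfold gb
      rw [h1, Nat.mul_div_cancel_left J (by omega)]
      have : i - 2 * M = 1 := by omega
      rw [this]
      push_cast
      ring
    have hc : gc M J i = M - J := by
      unfold gc
      rw [h1, Nat.mul_div_cancel_left J (by omega)]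
    unfold zz kk
    rw [ha, hb, hc]
    constructor
    · ext
      · simp only
        ring
      · simp only
        ring
    · ring
  · left
    have hi2 : i ≤ 2 * M := by omega
    obtain ⟨h, hh⟩ : ∃ h : ℕ, h = gh M i := ⟨_, rfl⟩
    obtain ⟨ε, hε⟩ : ∃ ε : ℕ, i = 2 * h + ε ∧ ε ≤ 1 ∧ h + ε ≤ M := by
      refine ⟨i - 2 * h, ?_⟩
      rw [hh]
      unfold gh
      omega
    obtain ⟨hε1, hε2, hε3⟩ := hε
    have ha : ga M i = h + ε := by
      unfold ga
      have : min ((i + 1) / 2) M = h + ε := by omega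
      rw [this]
      push_cast
      ring
    have hb : gb M J i = ((h * J / M : ℕ) : ℤ) := by
      unfold gb
      rw [← hh]
      have : i - 2 * M = 0 := by omega
      rw [this, Nat.add_zero]
    have hc : gc M J i = h - ((h * J / M : ℕ) : ℤ) := by
      unfold gc
      rw [← hh]
    have h1 : M * (h * J / M) + h * J % M = h * J := Nat.div_add_mod _ _
    have h2 : h * J % M < M := Nat.mod_lt _ (by omega)
    have h3 : h * J / M ≤ J := by
      refine Nat.div_le_of_le_mul ?_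
      exact Nat.mul_le_mul_right J (by omega)
    have h4 : h * J / M ≤ h := by
      refine Nat.div_le_of_le_mul ?_
      rw [Nat.mul_comm M h]
      exact Nat.mul_le_mul_left h hJM
    refine ⟨h, ((h * J / M : ℕ) : ℤ), ((h * J % M : ℕ) : ℤ), ε, ?_, ?_, ?_, ?_, ?_, ?_, ?_, ?_, ?_, ?_, ?_, ?_⟩
    · unfold zz
      rw [ha, hb, hc]
      ext
      · simp only
        ring
      · simp only
        ring
    · unfold kk
      rw [ha, hb, hc]
      ring
    · have h5 : ((M * (h * J / M) + h * J % M : ℕ) : ℤ) = ((h * J : ℕ) : ℤ) := by rw [h1]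
      push_cast at h5 ⊢
      linarith
    · exact Int.natCast_nonneg _
    · omega
    · exact Int.natCast_nonneg _
    · exact_mod_cast h3
    · exact_mod_cast h4
    · exact Int.natCast_nonneg _
    · exact_mod_cast hε2
    · exact Int.natCast_nonneg _
    · exact_mod_cast hε3

theorem npc_neg (p q : ℤ) (v : ℤ × ℤ) (hq : 0 ≤ q) (hqp : q ≤ p) (hs : 19 ≤ p + q) (hc : (p - q) % 3 = 2)
    (hn : ∃ m : ℤ, dt (p, q) v = 2 * m) (hb : 3 * (p + q) ^ 2 ≤ 4 * dt (p, q) v) : NPC.{u} (Lt (p, q) v) := by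
  have hqp2 : q + 2 ≤ p := by omega
  obtain ⟨M, hM⟩ : ∃ M : ℕ, 3 * (M : ℤ) = 2 * p + q - 1 := ⟨((2 * p + q - 1) / 3).toNat, by omega⟩
  obtain ⟨J, hJ⟩ : ∃ J : ℕ, 3 * (J : ℤ) = p + 2 * q - 2 := ⟨((p + 2 * q - 2) / 3).toNat, by omega⟩
  have hJ0 : 1 ≤ J := by omega
  have hJM : J + 1 ≤ M := by omega
  have hM0 : 1 ≤ M := by omega
  have hch := neg_chain p q M J hq hqp2 hJ0 hJM hM hJ
  have hz : (2 * (M : ℤ) - J, 2 * (J : ℤ) + 1 - M) = (p, q) := by
    ext
    · change 2 * (M : ℤ) - J = p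
      omega
    · change 2 * (J : ℤ) + 1 - M = q
      omega
  have hf : ∀ i ≤ 2 * M + 1,
      -(3 * (M : ℤ) + 3) - 3 * J ≤ (p + q) * kk (ga M) (gb M J) (gc M J) i -
        ((2 - q) * (zz (ga M) (gb M J) (gc M J) i).1 + (p + 2) * (zz (ga M) (gb M J) (gc M J) i).2) ∧
      (p + q) * kk (ga M) (gb M J) (gc M J) i -
        ((2 - q) * (zz (ga M) (gb M J) (gc M J) i).1 + (p + 2) * (zz (ga M) (gb M J) (gc M J) i).2) ≤
        3 * (M : ℤ) := by
    intro i hi
    rcases G2_data M J hM0 (by omega) i hi with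
      ⟨h, B, r, ε, e1, e2, e3, r0, r1, B0, B1, B2, ε0, ε1, h0, h1⟩ | ⟨e1, e2⟩
    · rw [e1, e2]
      have e4 : (p + q) * (-2 * ε) - ((2 - q) * (2 * h + ε - B) + (p + 2) * (2 * B - h)) =
          3 * r - 3 * B - (3 * M + 3) * ε := by
        linear_combination (-3) * e3 + (B + ε) * hM - h * hJ
      have e5 : (3 * (M : ℤ) + 3) * ε ≤ (3 * M + 3) * 1 := mul_le_mul_of_nonneg_left ε1 (by omega)
      have e6 : 0 ≤ (3 * (M : ℤ) + 3) * ε := mul_nonneg (by omega) ε0
      simp only
      rw [e4]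
      constructor <;> linarith
    · rw [e1, e2, hz]
      have e4 : (p + q) * 2 - ((2 - q) * p + (p + 2) * q) = 0 := by ring
      simp only
      rw [e4]
      constructor <;> omega
  have hf' : ∀ i ≤ 2 * M + 1,
      -(12 * (M : ℤ)) ≤ p * kk (ga M) (gb M J) (gc M J) i -
        ((q + 2) * (zz (ga M) (gb M J) (gc M J) i).1 + (-p) * (zz (ga M) (gb M J) (gc M J) i).2) ∧
      p * kk (ga M) (gb M J) (gc M J) i -
        ((q + 2) * (zz (ga M) (gb M J) (gc M J) i).1 + (-p) * (zz (ga M) (gb M J) (gc M J) i).2) ≤ 0 := by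
    intro i hi
    rcases G2_data M J hM0 (by omega) i hi with
      ⟨h, B, r, ε, e1, e2, e3, r0, r1, B0, B1, B2, ε0, ε1, h0, h1⟩ | ⟨e1, e2⟩
    · rw [e1, e2]
      have e4 : p * (-2 * ε) - ((q + 2) * (2 * h + ε - B) + (-p) * (2 * B - h)) =
          -3 * r - 6 * h + 3 * B - (3 * M + 3) * ε := by
        linear_combination 3 * e3 + (ε - B) * hM + h * hJ
      have e6 : 0 ≤ (3 * (M : ℤ) + 3) * ε := mul_nonneg (by omega) ε0
      simp only
      rw [e4]
      constructor
      · rcases (by omega : ε = 0 ∨ ε = 1) with rfl | rfl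
        · linarith
        · linarith
      · linarith
    · rw [e1, e2, hz]
      have e4 : p * 2 - ((q + 2) * p + (-p) * q) = 0 := by ring
      simp only
      rw [e4]
      constructor <;> omega
  have hC : ∀ i ≤ 2 * M + 1,
      |p * (zz (ga M) (gb M J) (gc M J) i).2 - q * (zz (ga M) (gb M J) (gc M J) i).1| ≤
        5 * (M : ℤ) + q := by
    intro i hi
    rcases G2_data M J hM0 (by omega) i hi with
      ⟨h, B, r, ε, e1, e2, e3, r0, r1, B0, B1, B2, ε0, ε1, h0, h1⟩ | ⟨e1, e2⟩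
    · rw [e1]
      have e4 : p * (2 * B - h) - q * (2 * h + ε - B) = -3 * r + B - 2 * h - q * ε := by
        linear_combination 3 * e3 - B * hM + h * hJ
      have e5 : q * ε ≤ q * 1 := mul_le_mul_of_nonneg_left ε1 hq
      have e6 : 0 ≤ q * ε := mul_nonneg hq ε0
      simp only
      rw [e4, abs_le]
      constructor <;> linarith
    · rw [e1, hz]
      have e4 : p * q - q * p = 0 := by ring
      simp only
      rw [e4, abs_zero]
      omega
  obtain ⟨n, hnn⟩ : ∃ n : ℤ, n = dt (p, q) v := ⟨_, rfl⟩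
  have hb' : 3 * (p + q) ^ 2 ≤ 4 * n := by rw [hnn]; exact hb
  have hb1 : 57 * (p + q) ≤ 4 * n := by nlinarith
  have hCn : 2 * (5 * (M : ℤ) + q) < dt (p, q) v := by
    rw [← hnn]
    omega
  refine npc_chain.{u} p q (-1) (2 * M + 1) (ga M) (gb M J) (gc M J) hch (by omega) hq ⟨-1, by norm_num⟩ v hn
    (2 - q) (p + 2) (p + q) (q + 2) (-p) p (by omega) (by omega) (by omega) (by omega) (by omega) (by omega)
    (by omega) (by omega) (by ring) (by ring) (6 * M + 3 * J + 3) (12 * M) (5 * M + q) ?_ ?_ hC hCn ?_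
  · intro i hi j hj
    have h1 := (hf i hi).2
    have h2 := (hf j hj).1
    linarith
  · intro i hi j hj
    have h1 := (hf' i hi).2
    have h2 := (hf' j hj).1
    linarith
  · rw [← hnn]
    have e1 : p * (6 * (M : ℤ) + 3 * J + 3) + (p + q) * (12 * M) + 6 * (p + q) * p =
        p ^ 2 + 14 * p * (p + q) + 4 * (p + q) ^ 2 - p - 4 * (p + q) := by
      linear_combination (2 * p + 4 * (p + q)) * hM + p * hJ
    have e2 : p ^ 2 + 14 * p * (p + q) + 4 * (p + q) ^ 2 - p - 4 * (p + q) ≤ (p + (p + q) + 2) * n := by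
      have e3 : (p + (p + q) + 2) * (3 * (p + q) ^ 2) ≤ (p + (p + q) + 2) * (4 * n) :=
        mul_le_mul_of_nonneg_left hb' (by omega)
      have e4 : (p + (p + q) + 2) * (57 * (p + q)) ≤ (p + (p + q) + 2) * (3 * (p + q) ^ 2) := by
        refine mul_le_mul_of_nonneg_left ?_ (by omega)
        nlinarith
      have e5 : p * p ≤ p * (p + q) := mul_le_mul_of_nonneg_left (by omega) (by omega)
      have e6 : p * (p + q) ≤ (p + q) * (p + q) := mul_le_mul_of_nonneg_right (by omega) (by omega)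
      nlinarith
    have e7 : (p * (p + 2) - (p + q) * -p) * n = p * ((p + (p + q) + 2) * n) := by ring
    rw [e7]
    refine mul_le_mul_of_nonneg_left ?_ (by omega)
    linarith

end Pool.Agent.PP
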