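import Pool.Agent.Lib_MP_7c0803_hon.E

/-!
# [HON-H] The symbolic chains of the third kind: `q = p`, `t = -3`

The chain `(1, 0), (1, -1)`, then `p - 2` times `(1, 0), (0, 1)`, then three times `(0, 1)`; `P = 2 p + 1` (`p` a natural number, `p ≥ 10`):
`a i = min ((i + 1) / 2) (p - 1)`, `b i = (min (i / 2) (p - 1) - 1) + (i - (2 p - 2))` (truncated subtractions), `c i = if i < 2 then 0 else 1`.

`dia_chain` (structure `Chain`, `t = -3`): `win`: the number of `(1, -1)` in a window is small: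
* `k ≥ 2`: `c j - c i + k ≤ k + 1 ≤ (k - 1) (p - 1) ≤ a j - a i + k (p - 1)`;
* `k = 1`: if `i ≤ j`: `c j - c i + 1 ≤ 2 ≤ p - 1`; if `j < i`: `c j - c i + 1 ≤ a j - a i + (p - 1)`, as `a j - a i ≥ - (p - 1)` with equality only for `j = 0`, `i ≥ 2 p - 3`, and
  then `c j - c i = -1`;
* `k = 0`, `i ≤ j`: if `c j - c i = 1` then `i ≤ 1`, `j ≥ 2`, and `a j - a i ≥ 1` except for `i = 1`, `j = 2`, where `b j - b i = 0`.
Points: `i = 0, 1`: `zz = (i, 0)`, `kk = - 2 i`; `i = 2 h + ε ≤ 2 p - 2`, `1 ≤ h`, `ε ≤ 1` (`ε = 0` if `h = p - 1`): `zz = (h + ε + 1, h - 2)`, `kk = - 2 ε`;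
`i = 2 p - 2 + e`, `e ≤ 3`: `zz = (p, p - 3 + e)`, `kk = 2 e`.
`npc_dia`: `npc_chain` with `x = (6 - p, p + 6)`, `D = 2 p`, `y = (p, 6 - p)`, `D' = p` and
* `D kk - x · zz`: `- (3 p + 6) ε` (`h = 0`), `- (3 p + 6) ε - 12 h + 3 p + 6` (`h ≥ 1`), `(3 p - 6) (e - 3)`; all in `[- 12 p + 24, 3 p - 6]`, `o = 15 p - 30`;
* `D' kk - y · zz`: `- 3 p ε` (`h = 0`), `- 3 p ε - 6 h - 3 p + 12` (`h ≥ 1`), `(3 p - 6) (e - 3)`; all in `[- 12 p + 24, 0]`, `o' = 12 p - 24`;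
* `p z.2 - p z.1`: absolute value `≤ 4 p = C`; `8 p < n` as `n ≥ 3 p²`;
* `hY`: `D' x2 - D y2 = 3 p (p - 2)`; claim (divided by `p²`): `15 p - 30 + 24 p - 48 + 12 p ≤ 3 (p - 2) n / p`..., i.e. (without division)
  `p (p (15 p - 30) + 2 p (12 p - 24) + 12 p²) ≤ 3 p (p - 2) n`, from `n ≥ 3 p²` and `3 p² - 23 p + 26 ≥ 0`.
All bounds were checked by a program for `p < 45`.
-/

set_option autoImplicit false

namespace Pool.Agent.PP

universe u

def ja (p : ℕ) (i : ℕ) : ℤ := ((min ((i + 1) / 2) (p - 1) : ℕ) : ℤ)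

def jb (p : ℕ) (i : ℕ) : ℤ := (((min (i / 2) (p - 1) - 1) + (i - (2 * p - 2)) : ℕ) : ℤ)

def jc (i : ℕ) : ℤ := if i < 2 then 0 else 1

private lemma HH_vals (p : ℕ) (hp : 10 ≤ p) (i : ℕ) (hi : i ≤ 2 * p + 1) :
    (ja p i = 0 ∧ jb p i = 0 ∧ jc i = 0) ∨ (ja p i = 1 ∧ jb p i = 0 ∧ jc i = 0) ∨
    (∃ h : ℤ, 1 ≤ h ∧ h ≤ p - 1 ∧ ja p i = h ∧ jb p i = h - 1 ∧ jc i = 1) ∨
    (∃ h : ℤ, 1 ≤ h ∧ h + 1 ≤ p - 1 ∧ ja p i = h + 1 ∧ jb p i = h - 1 ∧ jc i = 1) ∨
    (∃ e : ℤ, 0 ≤ e ∧ e ≤ 3 ∧ ja p i = p - 1 ∧ jb p i = p - 2 + e ∧ jc i = 1) := by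
  unfold ja jb jc
  by_cases h0 : i < 2
  · rw [if_pos h0]
    by_cases h1 : i = 0
    · left
      subst h1
      refine ⟨?_, ?_, rfl⟩ <;> omega
    · right; left
      have h2 : i = 1 := by omega
      subst h2
      refine ⟨?_, ?_, rfl⟩ <;> omega
  · rw [if_neg h0]
    by_cases h1 : i ≤ 2 * p - 2
    · by_cases h2 : i % 2 = 0
      · right; right; left
        exact ⟨((i / 2 : ℕ) : ℤ), by omega, by omega, by omega, by omega, rfl⟩
      · right; right; right; left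
        exact ⟨((i / 2 : ℕ) : ℤ), by omega, by omega, by omega, by omega, rfl⟩
    · right; right; right; right
      exact ⟨((i - (2 * p - 2) : ℕ) : ℤ), by omega, by omega, by omega, by omega, rfl⟩

theorem dia_chain (p : ℕ) (hp : 10 ≤ p) : Chain (p : ℤ) p (-3) (2 * p + 1) (ja p) (jb p) jc := by
  have haP : ja p (2 * p + 1) = p - 1 := by unfold ja; omega
  have hbP : jb p (2 * p + 1) = p + 1 := by unfold jb; omega
  have hcP : jc (2 * p + 1) = 1 := by unfold jc; rw [if_neg (by omega)]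
  refine ⟨?_, ?_, ?_, ?_, ?_, ?_, ?_, ?_⟩
  · unfold ja; omega
  · unfold jb; omega
  · rfl
  · intro i hi
    unfold ja jb jc
    by_cases h0 : i = 0
    · subst h0
      left
      refine ⟨?_, ?_, rfl⟩ <;> omega
    · by_cases h1 : i = 1
      · subst h1
        right; right
        refine ⟨?_, ?_, rfl⟩ <;> omega
      · rw [if_neg (show ¬ (i + 1 < 2) by omega), if_neg (show ¬ (i < 2) by omega)]
        by_cases h2 : i < 2 * p - 2 ∧ i % 2 = 0
        · left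
          refine ⟨?_, ?_, rfl⟩ <;> omega
        · right; left
          refine ⟨?_, ?_, rfl⟩ <;> omega
  · rw [haP, hcP]; ring
  · rw [hbP, hcP]; ring
  · rw [haP, hbP, hcP]; ring
  · intro k i j hi hj hk
    rw [haP, hbP, hcP]
    by_cases hk0 : k = 0
    · subst hk0
      have hij : i ≤ j := hk rfl
      simp only [Nat.cast_zero, zero_mul, add_zero]
      unfold ja jb jc
      split_ifs <;> omega
    · by_cases hk1 : k = 1
      · subst hk1
        right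
        simp only [Nat.cast_one, one_mul]
        unfold ja jc
        split_ifs <;> omega
      · right
        obtain ⟨m, rfl⟩ : ∃ m, k = m + 2 := ⟨k - 2, by omega⟩
        have hm : (0 : ℤ) ≤ (m : ℤ) * ((p : ℤ) - 2) := mul_nonneg (Int.natCast_nonneg m) (by omega)
        have e1 : (((m + 2 : ℕ) : ℤ)) * ((p : ℤ) - 1) = (m : ℤ) * ((p : ℤ) - 2) + m + 2 * (p - 1) := by
          push_cast; ring
        rw [e1, mul_one]
        push_cast
        have e2 : jc j - jc i ≤ 1 := by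
          unfold jc
          split_ifs <;> omega
        have e3 : -((p : ℤ) - 1) ≤ ja p j - ja p i := by
          unfold ja
          omega
        have e4 : (10 : ℤ) ≤ p := by exact_mod_cast hp
        linarith

theorem npc_dia (p : ℤ) (v : ℤ × ℤ) (hp : 10 ≤ p) (hn : ∃ m : ℤ, dt (p, p) v = 2 * m)
    (hb : 3 * (p + p) ^ 2 ≤ 4 * dt (p, p) v) : NPC.{u} (Lt (p, p) v) := by
  obtain ⟨P, rfl⟩ : ∃ P : ℕ, p = P := ⟨p.toNat, by omega⟩
  have hP : 10 ≤ P := by exact_mod_cast hp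
  have hn3 : 3 * (P : ℤ) ^ 2 ≤ dt ((P : ℤ), (P : ℤ)) v := by linarith
  have hF : ∀ i ≤ 2 * P + 1, -12 * (P : ℤ) + 24 ≤ 2 * (P : ℤ) * kk (ja P) (jb P) jc i -
      ((6 - (P : ℤ)) * (zz (ja P) (jb P) jc i).1 + ((P : ℤ) + 6) * (zz (ja P) (jb P) jc i).2) ∧
      2 * (P : ℤ) * kk (ja P) (jb P) jc i -
      ((6 - (P : ℤ)) * (zz (ja P) (jb P) jc i).1 + ((P : ℤ) + 6) * (zz (ja P) (jb P) jc i).2) ≤ 3 * P - 6 := by
    intro i hi
    have e : 2 * (P : ℤ) * kk (ja P) (jb P) jc i -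
      ((6 - (P : ℤ)) * (zz (ja P) (jb P) jc i).1 + ((P : ℤ) + 6) * (zz (ja P) (jb P) jc i).2) =
      (3 * P - 6) * jb P i + 6 * P * jc i - (3 * P + 6) * ja P i := by
      unfold kk zz
      ring
    rw [e]
    rcases HH_vals P hP i hi with ⟨ha, hb, hc⟩ | ⟨ha, hb, hc⟩ | ⟨h, h1, h2, ha, hb, hc⟩ | ⟨h, h1, h2, ha, hb, hc⟩ |
      ⟨e, h1, h2, ha, hb, hc⟩
    · rw [ha, hb, hc]; constructor <;> linarith
    · rw [ha, hb, hc]; constructor <;> linarith
    · rw [ha, hb, hc]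
      have : (3 * (P : ℤ) - 6) * (h - 1) + 6 * P * 1 - (3 * P + 6) * h = -12 * h + 3 * P + 6 := by ring
      rw [this]; constructor <;> linarith
    · rw [ha, hb, hc]
      have : (3 * (P : ℤ) - 6) * (h - 1) + 6 * P * 1 - (3 * P + 6) * (h + 1) = -12 * h := by ring
      rw [this]; constructor <;> linarith
    · rw [ha, hb, hc]
      have : (3 * (P : ℤ) - 6) * (P - 2 + e) + 6 * P * 1 - (3 * P + 6) * (P - 1) = (3 * P - 6) * e - 9 * P + 18 := by ring
      rw [this]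
      have h3 : 0 ≤ (3 * (P : ℤ) - 6) * e := mul_nonneg (by linarith) h1
      have h4 : 0 ≤ (3 * (P : ℤ) - 6) * (3 - e) := mul_nonneg (by linarith) (by linarith)
      constructor <;> linarith
  have hG : ∀ i ≤ 2 * P + 1, -12 * (P : ℤ) + 24 ≤ (P : ℤ) * kk (ja P) (jb P) jc i -
      ((P : ℤ) * (zz (ja P) (jb P) jc i).1 + (6 - (P : ℤ)) * (zz (ja P) (jb P) jc i).2) ∧
      (P : ℤ) * kk (ja P) (jb P) jc i -
      ((P : ℤ) * (zz (ja P) (jb P) jc i).1 + (6 - (P : ℤ)) * (zz (ja P) (jb P) jc i).2) ≤ 0 := by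
    intro i hi
    have e : (P : ℤ) * kk (ja P) (jb P) jc i -
      ((P : ℤ) * (zz (ja P) (jb P) jc i).1 + (6 - (P : ℤ)) * (zz (ja P) (jb P) jc i).2) =
      (3 * P - 6) * jb P i + 6 * jc i - 3 * P * ja P i := by
      unfold kk zz
      ring
    rw [e]
    rcases HH_vals P hP i hi with ⟨ha, hb, hc⟩ | ⟨ha, hb, hc⟩ | ⟨h, h1, h2, ha, hb, hc⟩ | ⟨h, h1, h2, ha, hb, hc⟩ |
      ⟨e, h1, h2, ha, hb, hc⟩
    · rw [ha, hb, hc]; constructor <;> linarith
    · rw [ha, hb, hc]; constructor <;> linarith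
    · rw [ha, hb, hc]
      have : (3 * (P : ℤ) - 6) * (h - 1) + 6 * 1 - 3 * P * h = -6 * h - 3 * P + 12 := by ring
      rw [this]; constructor <;> linarith
    · rw [ha, hb, hc]
      have : (3 * (P : ℤ) - 6) * (h - 1) + 6 * 1 - 3 * P * (h + 1) = -6 * h - 6 * P + 12 := by ring
      rw [this]; constructor <;> linarith
    · rw [ha, hb, hc]
      have : (3 * (P : ℤ) - 6) * (P - 2 + e) + 6 * 1 - 3 * P * (P - 1) = (3 * P - 6) * e - 9 * P + 18 := by ring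
      rw [this]
      have h3 : 0 ≤ (3 * (P : ℤ) - 6) * e := mul_nonneg (by linarith) h1
      have h4 : 0 ≤ (3 * (P : ℤ) - 6) * (3 - e) := mul_nonneg (by linarith) (by linarith)
      constructor <;> linarith
  refine npc_chain P P (-3) (2 * P + 1) (ja P) (jb P) jc (dia_chain P hP) (by linarith) (by linarith) ⟨-2, by norm_num⟩ v hn
    (6 - P) (P + 6) (2 * P) P (6 - P) P (by linarith) (by linarith) (by linarith) (by linarith) (by linarith) (by linarith)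
    (by linarith) (by linarith) (by ring) (by ring) (15 * P - 30) (12 * P - 24) (4 * P) ?_ ?_ ?_ ?_ ?_
  · intro i hi j hj
    have h1 := (hF i hi).2
    have h2 := (hF j hj).1
    linarith
  · intro i hi j hj
    have h1 := (hG i hi).2
    have h2 := (hG j hj).1
    linarith
  · intro i hi
    have e : (P : ℤ) * (zz (ja P) (jb P) jc i).2 - P * (zz (ja P) (jb P) jc i).1 =
      P * (jb P i - ja P i - 2 * jc i) := by
      unfold zz
      ring
    have hk : |jb P i - ja P i - 2 * jc i| ≤ 4 := by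
      rcases HH_vals P hP i hi with ⟨ha, hb, hc⟩ | ⟨ha, hb, hc⟩ | ⟨h, h1, h2, ha, hb, hc⟩ |
        ⟨h, h1, h2, ha, hb, hc⟩ | ⟨e, h1, h2, ha, hb, hc⟩ <;>
      · rw [ha, hb, hc, abs_le]
        constructor <;> linarith
    rw [e, abs_mul, abs_of_nonneg (by linarith : (0 : ℤ) ≤ P), mul_comm]
    exact mul_le_mul_of_nonneg_right hk (by linarith)
  · nlinarith
  · have h1 : 0 ≤ 3 * (P : ℤ) * (P - 2) := mul_nonneg (by linarith) (by linarith)
    have h2 : 3 * (P : ℤ) * (P - 2) * (3 * P ^ 2) ≤ 3 * (P : ℤ) * (P - 2) * dt ((P : ℤ), (P : ℤ)) v :=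
      mul_le_mul_of_nonneg_left hn3 h1
    have h3 : (0 : ℤ) ≤ 3 * P ^ 2 - 23 * P + 26 := by nlinarith
    have h4 : 0 ≤ 3 * (P : ℤ) ^ 2 * (3 * P ^ 2 - 23 * P + 26) := mul_nonneg (by positivity) h3
    have e1 : ((P : ℤ) * (P + 6) - 2 * P * (6 - P)) * dt ((P : ℤ), (P : ℤ)) v =
      3 * (P : ℤ) * (P - 2) * dt ((P : ℤ), (P : ℤ)) v := by ring
    rw [e1]
    nlinarith

end Pool.Agent.PP
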