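import Pool.Agent.Lib_MP_7c0803_hon.E

/-!
# [HON-I] Certificates for chains

`Cert.w` is the list of the steps (`0 = (1, 0)`, `1 = (0, 1)`, other `= (1, -1)`); `pre w s` the list of the triples of counts after `0, 1, ..., w.length` steps
(starting from `s`), `endp w s` the last one.  `cert_npc`: `npc_chain` with `P = w.length`, `a i = ((pre w (0, 0, 0)).getD i (0, 0, 0)).1` etc. (cast to `ℤ`),
`D`, `D'`, `x`, `y` from the certificate, `o = hi - lo`, `o' = hi' - lo'`.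
* `step`: induction on `w` (for a general start `s`), also `(pre w s).length = w.length + 1`, `(pre w s).getD w.length _ = endp w s`.
* `win`: `alt T s s' k` says exactly that the window condition holds for the points with the counts `s` (`i`) and `s'` (`j`), total `T`, and `k` periods (all terms moved to
  the side where they are natural numbers).  For `k = 0` use `pairs0` (`i ≤ j`), for `k = 1, 2` the `all`-checks, for `k ≥ 3` use `alt3` and add `(k - 3)` times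
  `b P ≤ a P` (or `c P ≤ a P`).
* the bounds `lo ≤ D kk - x · zz ≤ hi`, ..., `|p z.2 - q z.1| ≤ C` are checked at every point.
* `hY` for `n ≥ F`: `0 ≤ D' x2 - D y2`.
-/

set_option autoImplicit false

namespace Pool.Agent.PP

universe u

structure Cert where
  p : ℕ
  q : ℕ
  w : List ℕ
  t : ℤ
  x1 : ℤ
  x2 : ℤ
  D : ℤ
  y1 : ℤ
  y2 : ℤ
  D' : ℤ
  lo : ℤ
  hi : ℤ
  lo' : ℤ
  hi' : ℤ
  C : ℤ
  F : ℤ

/-- the counts after one more step -/
def nxt (x : ℕ) (s : ℕ × ℕ × ℕ) : ℕ × ℕ × ℕ :=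
  if x = 0 then (s.1 + 1, s.2.1, s.2.2) else if x = 1 then (s.1, s.2.1 + 1, s.2.2) else (s.1, s.2.1, s.2.2 + 1)

/-- the counts along a word -/
def pre : List ℕ → ℕ × ℕ × ℕ → List (ℕ × ℕ × ℕ)
  | [], s => [s]
  | x :: w, s => s :: pre w (nxt x s)

/-- the counts at the end of a word -/
def endp : List ℕ → ℕ × ℕ × ℕ → ℕ × ℕ × ℕ
  | [], s => s
  | x :: w, s => endp w (nxt x s)

/-- window condition -/
def alt (T s s' : ℕ × ℕ × ℕ) (k : ℕ) : Bool :=
  Nat.ble (s'.2.1 + s.1 + k * T.2.1) (s'.1 + s.2.1 + k * T.1) || Nat.ble (s'.2.2 + s.1 + k * T.2.2) (s'.1 + s.2.2 + k * T.1)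

/-- window condition for three periods, strong form -/
def alt3 (T s s' : ℕ × ℕ × ℕ) : Bool :=
  (Nat.ble T.2.1 T.1 && Nat.ble (s'.2.1 + s.1 + 3 * T.2.1) (s'.1 + s.2.1 + 3 * T.1)) ||
    (Nat.ble T.2.2 T.1 && Nat.ble (s'.2.2 + s.1 + 3 * T.2.2) (s'.1 + s.2.2 + 3 * T.1))

/-- window condition inside the word -/
def pairs0 (T : ℕ × ℕ × ℕ) : List (ℕ × ℕ × ℕ) → Bool
  | [] => true
  | s :: l => (s :: l).all (fun s' => alt T s s' 0) && pairs0 T l

/-- the bounds at one point -/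
def Cert.pt (c : Cert) (s : ℕ × ℕ × ℕ) : Bool :=
  let z1 : ℤ := (s.1 : ℤ) + s.2.2
  let z2 : ℤ := (s.2.1 : ℤ) - s.2.2
  let k : ℤ := 2 * ((s.2.1 : ℤ) + s.2.2 - s.1)
  decide (c.lo ≤ c.D * k - (c.x1 * z1 + c.x2 * z2)) && decide (c.D * k - (c.x1 * z1 + c.x2 * z2) ≤ c.hi) &&
    decide (c.lo' ≤ c.D' * k - (c.y1 * z1 + c.y2 * z2)) && decide (c.D' * k - (c.y1 * z1 + c.y2 * z2) ≤ c.hi') &&
    decide ((c.p : ℤ) * z2 - c.q * z1 ≤ c.C) && decide (-c.C ≤ (c.p : ℤ) * z2 - c.q * z1)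

def Cert.check (c : Cert) : Bool :=
  let T := endp c.w (0, 0, 0)
  let l := pre c.w (0, 0, 0)
  decide (0 < c.p) && decide (0 < c.D) && decide (0 < c.D') &&
    decide (c.x1 ≤ c.D) && decide (-c.D ≤ c.x2) && decide (c.x2 - c.x1 ≤ c.D) &&
    decide (c.y1 ≤ c.D') && decide (-c.D' ≤ c.y2) && decide (c.y2 - c.y1 ≤ c.D') &&
    decide (c.x1 * c.p + c.x2 * c.q = -2 * c.t * c.D) && decide (c.y1 * c.p + c.y2 * c.q = -2 * c.t * c.D') &&
    decide (c.t % 2 = 1) &&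
    decide (T.1 + T.2.2 = c.p) && decide (T.2.1 = c.q + T.2.2) && decide ((T.1 : ℤ) - T.2.1 - T.2.2 = c.t) &&
    pairs0 T l && l.all (fun s => l.all (fun s' => alt T s s' 1 && alt T s s' 2 && alt3 T s s')) &&
    l.all c.pt && decide (2 * c.C < c.F) && decide (0 ≤ c.D' * c.x2 - c.D * c.y2) &&
    decide ((c.p : ℤ) * (c.D' * (c.hi - c.lo) + c.D * (c.hi' - c.lo') + 6 * c.D * c.D') ≤ (c.D' * c.x2 - c.D * c.y2) * c.F)

private theorem I_len (w : List ℕ) : ∀ s : ℕ × ℕ × ℕ, (pre w s).length = w.length + 1 := by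
  induction w with
  | nil => intro s; rfl
  | cons x w ih =>
    intro s
    simp only [pre, List.length_cons, ih]

private theorem I_zero (w : List ℕ) (s d : ℕ × ℕ × ℕ) : (pre w s).getD 0 d = s := by
  cases w <;> rfl

private theorem I_last (w : List ℕ) (d : ℕ × ℕ × ℕ) :
    ∀ s : ℕ × ℕ × ℕ, (pre w s).getD w.length d = endp w s := by
  induction w with
  | nil => intro s; rfl
  | cons x w ih =>
    intro s
    simp only [pre, endp, List.length_cons, List.getD_cons_succ, ih]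

private theorem I_step (w : List ℕ) (d : ℕ × ℕ × ℕ) :
    ∀ (s : ℕ × ℕ × ℕ) (i : ℕ), i < w.length →
      ∃ x, (pre w s).getD (i + 1) d = nxt x ((pre w s).getD i d) := by
  induction w with
  | nil => intro s i hi; exact absurd hi (Nat.not_lt_zero i)
  | cons x w ih =>
    intro s i hi
    cases i with
    | zero =>
      refine ⟨x, ?_⟩
      simp only [pre, List.getD_cons_succ, List.getD_cons_zero]
      exact I_zero w _ d
    | succ i =>
      obtain ⟨y, hy⟩ := ih (nxt x s) i (by simpa using hi)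
      refine ⟨y, ?_⟩
      simp only [pre, List.getD_cons_succ]
      exact hy

private theorem I_mem {l : List (ℕ × ℕ × ℕ)} (d : ℕ × ℕ × ℕ) {i : ℕ} (hi : i < l.length) :
    l.getD i d ∈ l := by
  rw [List.getD_eq_getElem l d hi]
  exact List.getElem_mem hi

private theorem I_pairs (T d : ℕ × ℕ × ℕ) (l : List (ℕ × ℕ × ℕ)) (h : pairs0 T l = true) :
    ∀ i j : ℕ, i ≤ j → j < l.length → alt T (l.getD i d) (l.getD j d) 0 = true := by
  induction l with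
  | nil => intro i j _ hj; exact absurd hj (Nat.not_lt_zero j)
  | cons s l ih =>
    rw [pairs0, Bool.and_eq_true, List.all_eq_true] at h
    intro i j hij hj
    cases i with
    | zero =>
      rw [List.getD_cons_zero]
      exact h.1 _ (I_mem d hj)
    | succ i =>
      cases j with
      | zero => exact absurd hij (Nat.not_succ_le_zero i)
      | succ j =>
        rw [List.getD_cons_succ, List.getD_cons_succ]
        exact ih h.2 i j (Nat.le_of_succ_le_succ hij) (by simpa using hj)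

private theorem I_alt {T s s' : ℕ × ℕ × ℕ} {k : ℕ} (h : alt T s s' k = true) :
    ((s'.2.1 : ℤ) - s.2.1 + k * T.2.1 ≤ s'.1 - s.1 + k * T.1) ∨
      ((s'.2.2 : ℤ) - s.2.2 + k * T.2.2 ≤ s'.1 - s.1 + k * T.1) := by
  rw [alt, Bool.or_eq_true, Nat.ble_eq, Nat.ble_eq] at h
  rcases h with h | h
  · left
    zify at h
    linarith
  · right
    zify at h
    linarith

private theorem I_alt3 {T s s' : ℕ × ℕ × ℕ} {k : ℕ} (hk : 3 ≤ k) (h : alt3 T s s' = true) :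
    ((s'.2.1 : ℤ) - s.2.1 + k * T.2.1 ≤ s'.1 - s.1 + k * T.1) ∨
      ((s'.2.2 : ℤ) - s.2.2 + k * T.2.2 ≤ s'.1 - s.1 + k * T.1) := by
  rw [alt3, Bool.or_eq_true, Bool.and_eq_true, Bool.and_eq_true, Nat.ble_eq, Nat.ble_eq,
    Nat.ble_eq, Nat.ble_eq] at h
  obtain ⟨m, rfl⟩ := Nat.exists_eq_add_of_le hk
  rcases h with ⟨h1, h2⟩ | ⟨h1, h2⟩
  · left
    zify at h1 h2
    have h3 : (m : ℤ) * T.2.1 ≤ m * T.1 := mul_le_mul_of_nonneg_left h1 (Int.natCast_nonneg m)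
    push_cast
    linarith
  · right
    zify at h1 h2
    have h3 : (m : ℤ) * T.2.2 ≤ m * T.1 := mul_le_mul_of_nonneg_left h1 (Int.natCast_nonneg m)
    push_cast
    linarith

private theorem I_pt {c : Cert} {s : ℕ × ℕ × ℕ} (h : c.pt s = true) :
    (c.lo ≤ c.D * (2 * ((s.2.1 : ℤ) + s.2.2 - s.1)) - (c.x1 * ((s.1 : ℤ) + s.2.2) + c.x2 * ((s.2.1 : ℤ) - s.2.2)) ∧
      c.D * (2 * ((s.2.1 : ℤ) + s.2.2 - s.1)) - (c.x1 * ((s.1 : ℤ) + s.2.2) + c.x2 * ((s.2.1 : ℤ) - s.2.2)) ≤ c.hi) ∧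
    (c.lo' ≤ c.D' * (2 * ((s.2.1 : ℤ) + s.2.2 - s.1)) - (c.y1 * ((s.1 : ℤ) + s.2.2) + c.y2 * ((s.2.1 : ℤ) - s.2.2)) ∧
      c.D' * (2 * ((s.2.1 : ℤ) + s.2.2 - s.1)) - (c.y1 * ((s.1 : ℤ) + s.2.2) + c.y2 * ((s.2.1 : ℤ) - s.2.2)) ≤ c.hi') ∧
    ((c.p : ℤ) * ((s.2.1 : ℤ) - s.2.2) - c.q * ((s.1 : ℤ) + s.2.2) ≤ c.C ∧
      -c.C ≤ (c.p : ℤ) * ((s.2.1 : ℤ) - s.2.2) - c.q * ((s.1 : ℤ) + s.2.2)) := by
  simp only [Cert.pt, Bool.and_eq_true, decide_eq_true_eq] at h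
  obtain ⟨⟨⟨⟨⟨h1, h2⟩, h3⟩, h4⟩, h5⟩, h6⟩ := h
  exact ⟨⟨h1, h2⟩, ⟨h3, h4⟩, ⟨h5, h6⟩⟩

theorem cert_npc (c : Cert) (h : c.check = true) (v : ℤ × ℤ) (hF : c.F ≤ dt ((c.p : ℤ), (c.q : ℤ)) v)
    (hn : ∃ m : ℤ, dt ((c.p : ℤ), (c.q : ℤ)) v = 2 * m) : NPC.{u} (Lt ((c.p : ℤ), (c.q : ℤ)) v) := by
  simp only [Cert.check, Bool.and_eq_true, decide_eq_true_eq] at h
  obtain ⟨⟨⟨⟨⟨⟨⟨⟨⟨⟨⟨⟨⟨⟨⟨⟨⟨⟨⟨⟨h1, h2⟩, h3⟩, h4⟩, h5⟩, h6⟩, h7⟩, h8⟩, h9⟩, h10⟩, h11⟩, h12⟩, h13⟩,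
    h14⟩, h15⟩, h16⟩, h17⟩, h18⟩, h19⟩, h20⟩, h21⟩ := h
  obtain ⟨l, hl⟩ : ∃ l, l = pre c.w (0, 0, 0) := ⟨_, rfl⟩
  obtain ⟨T, hT⟩ : ∃ T, T = endp c.w (0, 0, 0) := ⟨_, rfl⟩
  rw [← hl, ← hT] at h16 h17
  rw [← hl] at h18
  rw [← hT] at h13 h14 h15
  obtain ⟨g, hg⟩ : ∃ g : ℕ → ℕ × ℕ × ℕ, g = fun i => l.getD i (0, 0, 0) := ⟨_, rfl⟩
  have hlen : l.length = c.w.length + 1 := by rw [hl, I_len]
  have hg0 : g 0 = (0, 0, 0) := by
    rw [hg, hl]
    exact I_zero _ _ _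
  have hgP : g c.w.length = T := by
    rw [hg, hl, hT]
    exact I_last _ _ _
  have hgs : ∀ i < c.w.length, ∃ x, g (i + 1) = nxt x (g i) := by
    intro i hi
    rw [hg, hl]
    exact I_step _ _ _ i hi
  have hgm : ∀ i ≤ c.w.length, g i ∈ l := by
    intro i hi
    rw [hg]
    exact I_mem _ (by omega)
  have h17' : ∀ i ≤ c.w.length, ∀ j ≤ c.w.length,
      (alt T (g i) (g j) 1 = true ∧ alt T (g i) (g j) 2 = true) ∧ alt3 T (g i) (g j) = true := by
    intro i hi j hj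
    have e1 := (List.all_eq_true.1 h17) _ (hgm i hi)
    have e2 := (List.all_eq_true.1 e1) _ (hgm j hj)
    rwa [Bool.and_eq_true, Bool.and_eq_true] at e2
  have h18' : ∀ i ≤ c.w.length, c.pt (g i) = true := fun i hi =>
    (List.all_eq_true.1 h18) _ (hgm i hi)
  have hch : Chain (c.p : ℤ) (c.q : ℤ) c.t c.w.length (fun i => ((g i).1 : ℤ))
      (fun i => ((g i).2.1 : ℤ)) (fun i => ((g i).2.2 : ℤ)) := by
    refine ⟨?_, ?_, ?_, ?_, ?_, ?_, ?_, ?_⟩
    · simp only [hg0]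
      rfl
    · simp only [hg0]
      rfl
    · simp only [hg0]
      rfl
    · intro i hi
      obtain ⟨x, hx⟩ := hgs i hi
      simp only [hx, nxt]
      split_ifs
      · left
        exact ⟨by push_cast; ring, rfl, rfl⟩
      · right; left
        exact ⟨rfl, by push_cast; ring, rfl⟩
      · right; right
        exact ⟨rfl, rfl, by push_cast; ring⟩
    · simp only [hgP]
      exact_mod_cast h13
    · simp only [hgP]
      have e : (T.2.1 : ℤ) = c.q + T.2.2 := by exact_mod_cast h14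
      linarith
    · simp only [hgP]
      exact h15
    · intro k i j hi hj hk
      simp only [hgP]
      by_cases hk0 : k = 0
      · have e1 : alt T (g i) (g j) 0 = true := by
          rw [hg]
          exact I_pairs T _ l h16 i j (hk hk0) (by omega)
        subst hk0
        exact I_alt e1
      · obtain ⟨⟨e1, e2⟩, e3⟩ := h17' i hi j hj
        by_cases hk1 : k = 1
        · subst hk1
          exact I_alt e1
        · by_cases hk2 : k = 2
          · subst hk2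
            exact I_alt e2
          · exact I_alt3 (by omega) e3
  refine npc_chain.{u} (c.p : ℤ) (c.q : ℤ) c.t c.w.length _ _ _ hch (by exact_mod_cast h1)
    (Int.natCast_nonneg _) ⟨c.t / 2, by omega⟩ v hn c.x1 c.x2 c.D c.y1 c.y2 c.D' h2 h3 h4 h5 h6 h7 h8
    h9 h10 h11 (c.hi - c.lo) (c.hi' - c.lo') c.C ?_ ?_ ?_ ?_ ?_
  · intro i hi j hj
    have e1 := (I_pt (h18' i hi)).1
    have e2 := (I_pt (h18' j hj)).1
    simp only [kk, zz]
    linarith [e1.1, e1.2, e2.1, e2.2]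
  · intro i hi j hj
    have e1 := (I_pt (h18' i hi)).2.1
    have e2 := (I_pt (h18' j hj)).2.1
    simp only [kk, zz]
    linarith [e1.1, e1.2, e2.1, e2.2]
  · intro i hi
    have e1 := (I_pt (h18' i hi)).2.2
    simp only [zz]
    exact abs_le.2 ⟨e1.2, e1.1⟩
  · linarith
  · have e1 := mul_le_mul_of_nonneg_left hF h20
    linarith

end Pool.Agent.PP
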