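import Pool.Agent.Lib_MP_7c0803_hon.A3
import Pool.Agent.Lib_MP_7c0803_tor.Main

/-!
# [HON-K] Tables of heights

`Tab`: heights on the box `0 ≤ x < d`, `0 ≤ y < m`; the digit (base `65536`) number `y d + x` of `N` is `256 (k + 128) + (b + 128)`.  The heights are
continued by `f (x + (d, 0)) = f x + fd`, `f (x + (s, m)) = f x + fs`: for `x : ℤ × ℤ` put `j = x.2 / m`, `y = x.2 % m`, `w = x.1 - s j`, `l = w / d`, `x' = w % d`
(`Int` division); `f x = table (x', y) + l fd + j fs`.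

[HON-K1] `tab_npc`: quasi-periodicity `T.k (x + l' • (d, 0) + j' • (s, m)) = T.k x + l' kd + j' ks` from `Int.add_mul_ediv_right`, `Int.add_mul_emod_self`; every `x` is a box point
plus `l • (d, 0) + j • (s, m)`, so `HPair` follows from the check at the box points (`T.hp` is the decidable form of the condition of `HPair`).
`npc_of_hpair` with `u = (d, 0)`, `v = (s, m)`.

[HON-K2] `ent_npc`: `v' = v - (v.1 / p) • (p, q) = (a, (n + q a) / p)`, `Lt (p, q) v = Lt (p, q) v'` (`Lt_eq` or `mem_Lt'`).  `(p, q)` and `v'` lie in `Lt (d, 0) (s, m)` (coefficients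
`q / m`, `(p - s (q / m)) / d` etc.) and `dt (p, q) v' = n = d m = dt (d, 0) (s, m)`; writing `(p, q) = i e + j f`, `v' = i' e + j' f` gives `i j' - j i' = 1`, so the
lattices are equal.
-/

set_option autoImplicit false

namespace Pool.Agent.PP

universe u

structure Tab where
  d : ℕ
  m : ℕ
  s : ℕ
  N : ℕ
  kd : ℤ
  ks : ℤ
  bd : ℤ
  bs : ℤ

/-- digit number `i` -/
def Tab.dig (T : Tab) (i : ℕ) : ℕ := T.N / 65536 ^ i % 65536

def Tab.k (T : Tab) (x : ℤ × ℤ) : ℤ :=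
  ((T.dig (x.2 % T.m * T.d + (x.1 - T.s * (x.2 / T.m)) % T.d).toNat / 256 : ℕ) : ℤ) - 128 +
    (x.1 - T.s * (x.2 / T.m)) / T.d * T.kd + x.2 / T.m * T.ks

def Tab.b (T : Tab) (x : ℤ × ℤ) : ℤ :=
  ((T.dig (x.2 % T.m * T.d + (x.1 - T.s * (x.2 / T.m)) % T.d).toNat % 256 : ℕ) : ℤ) - 128 +
    (x.1 - T.s * (x.2 / T.m)) / T.d * T.bd + x.2 / T.m * T.bs

/-- the condition of `HPair` for one step -/
def Tab.hp (k b k' b' : ℤ) : Bool :=
  (decide (k' = k - 2) && decide (b' = b)) || (decide (k' = k + 1) && (decide (b' = b + 1) || decide (b' = b - 1)))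

def Tab.check (T : Tab) : Bool :=
  decide (0 < T.d) && decide (0 < T.m) && decide ((2 * (T.d * T.m : ℤ) + (T.bd * T.ks - T.bs * T.kd)) % 4 = 2) &&
    (List.range T.m).all fun y => (List.range T.d).all fun x =>
      Tab.hp (T.k (x, y)) (T.b (x, y)) (T.k ((x : ℤ) + 1, y)) (T.b ((x : ℤ) + 1, y)) &&
      Tab.hp (T.k (x, y)) (T.b (x, y)) (T.k (x, (y : ℤ) - 1)) (T.b (x, (y : ℤ) - 1)) &&
      Tab.hp (T.k (x, y)) (T.b (x, y)) (T.k ((x : ℤ) - 1, (y : ℤ) + 1)) (T.b ((x : ℤ) - 1, (y : ℤ) + 1))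

/-- common form of `Tab.k` and `Tab.b` -/
private def K1f (T : Tab) (g : ℕ → ℤ) (α β : ℤ) (x : ℤ × ℤ) : ℤ :=
  g (x.2 % T.m * T.d + (x.1 - T.s * (x.2 / T.m)) % T.d).toNat +
    (x.1 - T.s * (x.2 / T.m)) / T.d * α + x.2 / T.m * β

private lemma K1k (T : Tab) (x : ℤ × ℤ) :
    T.k x = K1f T (fun i => ((T.dig i / 256 : ℕ) : ℤ) - 128) T.kd T.ks x := rfl

private lemma K1b (T : Tab) (x : ℤ × ℤ) :
    T.b x = K1f T (fun i => ((T.dig i % 256 : ℕ) : ℤ) - 128) T.bd T.bs x := rfl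

private lemma K1_per (T : Tab) (hd : 0 < T.d) (hm : 0 < T.m) (g : ℕ → ℤ) (α β : ℤ) (x : ℤ × ℤ) (l j : ℤ) :
    K1f T g α β (x + ((l * T.d + j * T.s, j * T.m) : ℤ × ℤ)) = K1f T g α β x + (l * α + j * β) := by
  have hd' : (T.d : ℤ) ≠ 0 := by exact_mod_cast hd.ne'
  have hm' : (T.m : ℤ) ≠ 0 := by exact_mod_cast hm.ne'
  have e1 : (x.2 + j * T.m) / (T.m : ℤ) = x.2 / T.m + j := Int.add_mul_ediv_right _ _ hm'
  have e2 : (x.2 + j * T.m) % (T.m : ℤ) = x.2 % T.m := Int.add_mul_emod_self_right _ _ _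
  have e3 : x.1 + (l * T.d + j * T.s) - T.s * (x.2 / T.m + j) =
      (x.1 - T.s * (x.2 / T.m)) + l * T.d := by ring
  have e4 : ((x.1 - T.s * (x.2 / T.m)) + l * T.d) / (T.d : ℤ) =
      (x.1 - T.s * (x.2 / T.m)) / T.d + l := Int.add_mul_ediv_right _ _ hd'
  have e5 : ((x.1 - T.s * (x.2 / T.m)) + l * T.d) % (T.d : ℤ) =
      (x.1 - T.s * (x.2 / T.m)) % T.d := Int.add_mul_emod_self_right _ _ _
  unfold K1f
  simp only [Prod.fst_add, Prod.snd_add]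
  rw [e1, e2, e3, e4, e5]
  ring

private lemma K1_hp {k b k' b' : ℤ} (h : Tab.hp k b k' b' = true) (c e : ℤ) :
    (k' + c = k + c - 2 ∧ b' + e = b + e) ∨ (k' + c = k + c + 1 ∧ (b' + e = b + e + 1 ∨ b' + e = b + e - 1)) := by
  unfold Tab.hp at h
  simp only [Bool.or_eq_true, Bool.and_eq_true, decide_eq_true_eq] at h
  omega

theorem tab_npc (T : Tab) (h : T.check = true) : NPC.{u} (Lt ((T.d : ℤ), 0) ((T.s : ℤ), (T.m : ℤ))) := by
  unfold Tab.check at h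
  simp only [Bool.and_eq_true, decide_eq_true_eq, List.all_eq_true, List.mem_range] at h
  obtain ⟨⟨⟨hd, hm⟩, hodd⟩, hbox⟩ := h
  have hd' : (0 : ℤ) < T.d := by exact_mod_cast hd
  have hm' : (0 : ℤ) < T.m := by exact_mod_cast hm
  have pk : ∀ x l j, T.k (x + ((l * T.d + j * T.s, j * T.m) : ℤ × ℤ)) = T.k x + (l * T.kd + j * T.ks) := by
    intro x l j
    rw [K1k, K1k]
    exact K1_per T hd hm _ _ _ x l j
  have pb : ∀ x l j, T.b (x + ((l * T.d + j * T.s, j * T.m) : ℤ × ℤ)) = T.b x + (l * T.bd + j * T.bs) := by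
    intro x l j
    rw [K1b, K1b]
    exact K1_per T hd hm _ _ _ x l j
  have hu : ((T.d : ℤ), (0 : ℤ)) = (((1 : ℤ) * T.d + 0 * T.s, 0 * T.m) : ℤ × ℤ) := by simp
  have hv : ((T.s : ℤ), (T.m : ℤ)) = (((0 : ℤ) * T.d + 1 * T.s, 1 * T.m) : ℤ × ℤ) := by simp
  refine npc_of_hpair _ _ ?_ T.k T.b ?_ T.kd T.ks T.bd T.bs ?_ ?_ ?_ ?_ ?_
  · unfold dt
    simp only [zero_mul, sub_zero]
    exact mul_pos hd' hm'
  · intro x i
    -- the box point of `x`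
    set j : ℤ := x.2 / T.m with hj
    set w : ℤ := x.1 - T.s * j with hw
    set l : ℤ := w / T.d with hl
    have hy0 : 0 ≤ x.2 % T.m := Int.emod_nonneg _ hm'.ne'
    have hy1 : x.2 % T.m < T.m := Int.emod_lt_of_pos _ hm'
    have hx0 : 0 ≤ w % T.d := Int.emod_nonneg _ hd'.ne'
    have hx1 : w % T.d < T.d := Int.emod_lt_of_pos _ hd'
    obtain ⟨y0, hy⟩ := Int.eq_ofNat_of_zero_le hy0
    obtain ⟨x0, hx⟩ := Int.eq_ofNat_of_zero_le hx0
    have hym : y0 < T.m := by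
      rw [hy] at hy1; exact_mod_cast hy1
    have hxm : x0 < T.d := by
      rw [hx] at hx1; exact_mod_cast hx1
    have hxe : x = (((x0 : ℤ), (y0 : ℤ)) : ℤ × ℤ) + ((l * T.d + j * T.s, j * T.m) : ℤ × ℤ) := by
      have h1 : (T.m : ℤ) * (x.2 / T.m) + x.2 % T.m = x.2 := Int.mul_ediv_add_emod _ _
      have h2 : (T.d : ℤ) * (w / T.d) + w % T.d = w := Int.mul_ediv_add_emod _ _
      rw [hx] at h2
      rw [hy] at h1
      apply Prod.ext
      · simp only [Prod.fst_add]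
        rw [← hl] at h2
        rw [hw] at h2
        have : (T.s : ℤ) * j = j * T.s := mul_comm _ _
        have : (T.d : ℤ) * l = l * T.d := mul_comm _ _
        linarith
      · simp only [Prod.snd_add]
        rw [← hj] at h1
        have : (T.m : ℤ) * j = j * T.m := mul_comm _ _
        linarith
    obtain ⟨⟨b0, b1⟩, b2⟩ := hbox y0 hym x0 hxm
    have hxi : ∀ i, x + ee i = ((((x0 : ℤ), (y0 : ℤ)) : ℤ × ℤ) + ee i) +
        ((l * T.d + j * T.s, j * T.m) : ℤ × ℤ) := by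
      intro i
      rw [add_right_comm, ← hxe]
    rw [hxi i, pk, pb]
    rw [show T.k x = T.k (((x0 : ℤ), (y0 : ℤ)) : ℤ × ℤ) + (l * T.kd + j * T.ks) by
      conv_lhs => rw [hxe]
      exact pk _ _ _]
    rw [show T.b x = T.b (((x0 : ℤ), (y0 : ℤ)) : ℤ × ℤ) + (l * T.bd + j * T.bs) by
      conv_lhs => rw [hxe]
      exact pb _ _ _]
    fin_cases i
    · have e : ((((x0 : ℤ), (y0 : ℤ)) : ℤ × ℤ) + ee 0) = ((x0 : ℤ) + 1, (y0 : ℤ)) := by
        simp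
      show (T.k ((((x0 : ℤ), (y0 : ℤ)) : ℤ × ℤ) + ee 0) + _ = _ ∧ T.b ((((x0 : ℤ), (y0 : ℤ)) : ℤ × ℤ) + ee 0) + _ = _) ∨
        (T.k ((((x0 : ℤ), (y0 : ℤ)) : ℤ × ℤ) + ee 0) + _ = _ ∧ (T.b ((((x0 : ℤ), (y0 : ℤ)) : ℤ × ℤ) + ee 0) + _ = _ ∨
          T.b ((((x0 : ℤ), (y0 : ℤ)) : ℤ × ℤ) + ee 0) + _ = _))
      rw [e]
      exact K1_hp b0 _ _
    · have e : ((((x0 : ℤ), (y0 : ℤ)) : ℤ × ℤ) + ee 1) = ((x0 : ℤ), (y0 : ℤ) - 1) := by
        simp [sub_eq_add_neg]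
      show (T.k ((((x0 : ℤ), (y0 : ℤ)) : ℤ × ℤ) + ee 1) + _ = _ ∧ T.b ((((x0 : ℤ), (y0 : ℤ)) : ℤ × ℤ) + ee 1) + _ = _) ∨
        (T.k ((((x0 : ℤ), (y0 : ℤ)) : ℤ × ℤ) + ee 1) + _ = _ ∧ (T.b ((((x0 : ℤ), (y0 : ℤ)) : ℤ × ℤ) + ee 1) + _ = _ ∨
          T.b ((((x0 : ℤ), (y0 : ℤ)) : ℤ × ℤ) + ee 1) + _ = _))
      rw [e]
      exact K1_hp b1 _ _
    · have e : ((((x0 : ℤ), (y0 : ℤ)) : ℤ × ℤ) + ee 2) = ((x0 : ℤ) - 1, (y0 : ℤ) + 1) := by
        simp [sub_eq_add_neg]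
      show (T.k ((((x0 : ℤ), (y0 : ℤ)) : ℤ × ℤ) + ee 2) + _ = _ ∧ T.b ((((x0 : ℤ), (y0 : ℤ)) : ℤ × ℤ) + ee 2) + _ = _) ∨
        (T.k ((((x0 : ℤ), (y0 : ℤ)) : ℤ × ℤ) + ee 2) + _ = _ ∧ (T.b ((((x0 : ℤ), (y0 : ℤ)) : ℤ × ℤ) + ee 2) + _ = _ ∨
          T.b ((((x0 : ℤ), (y0 : ℤ)) : ℤ × ℤ) + ee 2) + _ = _))
      rw [e]
      exact K1_hp b2 _ _
  · intro x
    rw [hu, pk]; ring
  · intro x
    rw [hv, pk]; ring
  · intro x
    rw [hu, pb]; ring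
  · intro x
    rw [hv, pb]; ring
  · have h1 := Int.mul_ediv_add_emod (2 * (T.d * T.m : ℤ) + (T.bd * T.ks - T.bs * T.kd)) 4
    rw [hodd] at h1
    refine ⟨(2 * (T.d * T.m : ℤ) + (T.bd * T.ks - T.bs * T.kd)) / 4, ?_⟩
    rw [h1]
    unfold dt
    simp only [zero_mul, sub_zero]

structure Ent where
  p : ℕ
  q : ℕ
  n : ℕ
  a : ℕ
  T : Tab

def Ent.check (e : Ent) : Bool :=
  e.T.check && decide (0 < e.p) && decide (e.T.d * e.T.m = e.n) && decide ((e.n + e.q * e.a) % e.p = 0) && decide (e.q % e.T.m = 0) &&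
    decide (((e.p : ℤ) - e.T.s * (e.q / e.T.m : ℕ)) % e.T.d = 0) && decide ((e.n + e.q * e.a) / e.p % e.T.m = 0) &&
    decide (((e.a : ℤ) - e.T.s * ((e.n + e.q * e.a) / e.p / e.T.m : ℕ)) % e.T.d = 0)

private lemma K_lat {d m s p q c a : ℤ} (p' q' c' a' : ℤ) (hn : 0 < d * m)
    (h1 : p = p' * d + q' * s) (h2 : q = q' * m) (h3 : c = c' * m) (h4 : a = a' * d + c' * s)
    (hdet : p * c - q * a = d * m) : Lt (p, q) (a, c) = Lt (d, 0) (s, m) := by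
  have h5 : (p' * c' - q' * a') * (d * m) = 1 * (d * m) := by
    rw [h1, h2, h3, h4] at hdet
    linear_combination hdet
  have h6 : p' * c' - q' * a' = 1 := mul_right_cancel₀ hn.ne' h5
  ext x
  rw [mem_Lt', mem_Lt']
  simp only
  constructor
  · rintro ⟨i, j, e1, e2⟩
    refine ⟨i * p' + j * a', i * q' + j * c', ?_, ?_⟩
    · rw [← e1, h1, h4]
      ring
    · rw [← e2, h2, h3]
      ring
  · rintro ⟨i, j, e1, e2⟩
    refine ⟨i * c' - j * a', -i * q' + j * p', ?_, ?_⟩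
    · rw [← e1, h1, h4]
      linear_combination (i * d + j * s) * h6
    · rw [← e2, h2, h3]
      linear_combination (j * m) * h6

private lemma K_shift (p q : ℤ) (v : ℤ × ℤ) (t : ℤ) :
    Lt (p, q) v = Lt (p, q) (v.1 - t * p, v.2 - t * q) := by
  ext x
  rw [mem_Lt', mem_Lt']
  simp only
  constructor
  · rintro ⟨i, j, e1, e2⟩
    refine ⟨i + j * t, j, ?_, ?_⟩
    · rw [← e1]
      ring
    · rw [← e2]
      ring
  · rintro ⟨i, j, e1, e2⟩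
    refine ⟨i - j * t, j, ?_, ?_⟩
    · rw [← e1]
      ring
    · rw [← e2]
      ring

theorem ent_npc (e : Ent) (h : e.check = true) (v : ℤ × ℤ) (hd : dt ((e.p : ℤ), (e.q : ℤ)) v = e.n) (ha : v.1 % e.p = e.a) :
    NPC.{u} (Lt ((e.p : ℤ), (e.q : ℤ)) v) := by
  unfold Ent.check at h
  simp only [Bool.and_eq_true, decide_eq_true_eq] at h
  obtain ⟨⟨⟨⟨⟨⟨⟨hT, hp⟩, hn⟩, h1⟩, h2⟩, h3⟩, h4⟩, h5⟩ := h
  have hT' := hT
  unfold Tab.check at hT'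
  simp only [Bool.and_eq_true, decide_eq_true_eq] at hT'
  obtain ⟨⟨⟨hd0, hm0⟩, -⟩, -⟩ := hT'
  -- the quotient `c`
  obtain ⟨c, hc⟩ : ∃ c, c = (e.n + e.q * e.a) / e.p := ⟨_, rfl⟩
  rw [← hc] at h4 h5
  have hpc : e.p * c = e.n + e.q * e.a := by
    rw [hc]
    exact Nat.mul_div_cancel' (Nat.dvd_of_mod_eq_zero h1)
  have hpcZ : (e.p : ℤ) * c = e.n + e.q * e.a := by exact_mod_cast hpc
  have hpZ : (0 : ℤ) < e.p := by exact_mod_cast hp
  obtain ⟨q', hq'⟩ : ∃ q' : ℕ, e.q = q' * e.T.m :=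
    ⟨e.q / e.T.m, (Nat.div_mul_cancel (Nat.dvd_of_mod_eq_zero h2)).symm⟩
  have hq'2 : e.q / e.T.m = q' := by
    rw [hq']
    exact Nat.mul_div_cancel _ hm0
  rw [hq'2] at h3
  obtain ⟨c', hc'⟩ : ∃ c' : ℕ, c = c' * e.T.m :=
    ⟨c / e.T.m, (Nat.div_mul_cancel (Nat.dvd_of_mod_eq_zero h4)).symm⟩
  have hc'2 : c / e.T.m = c' := by
    rw [hc']
    exact Nat.mul_div_cancel _ hm0
  rw [hc'2] at h5
  obtain ⟨p', hp'⟩ := Int.dvd_of_emod_eq_zero h3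
  obtain ⟨a', ha'⟩ := Int.dvd_of_emod_eq_zero h5
  obtain ⟨t, ht⟩ : ∃ t, t = v.1 / (e.p : ℤ) := ⟨_, rfl⟩
  have hv1 : v.1 - t * e.p = e.a := by
    have := Int.emod_add_mul_ediv v.1 (e.p : ℤ)
    rw [← ht, ha] at this
    linarith
  have hv2 : v.2 - t * e.q = c := by
    unfold dt at hd
    simp only at hd
    have h6 : (e.p : ℤ) * (v.2 - t * e.q) = e.p * c := by
      rw [hpcZ]
      linear_combination hd + (e.q : ℤ) * hv1
    exact mul_left_cancel₀ hpZ.ne' h6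
  rw [K_shift _ _ v t, hv1, hv2]
  have hnZ : (e.T.d : ℤ) * e.T.m = e.n := by exact_mod_cast hn
  have hdm : (0 : ℤ) < (e.T.d : ℤ) * e.T.m := by
    have : 0 < e.T.d * e.T.m := Nat.mul_pos hd0 hm0
    exact_mod_cast this
  have hL := K_lat (d := e.T.d) (m := e.T.m) (s := e.T.s) (p := e.p) (q := e.q) (c := c) (a := e.a)
    p' q' c' a' hdm (by linear_combination hp') (by exact_mod_cast hq') (by exact_mod_cast hc')
    (by linear_combination ha') (by linear_combination hpcZ - hnZ)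
  rw [hL]
  exact tab_npc e.T hT

end Pool.Agent.PP
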