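import Pool.Agent.Lib_MP_7c0803_hon.A1
import Pool.Agent.Lib_MP_7c0803_tor.Main2
import Pool.Agent.Lib_MP_7c0803_tor.Par

/-!
# [HON-M] The lattices `Lt (2, 2) v`

Layers: the `X`-vertex `x` lies in the layer `y = x.2 - x.1` at the place `a = x.1 mod 2`.  A letter is a number `w < 36`; its colours at the place `a` are row `w / 6`
(`a = 0`) or row `w % 6` (`a = 1`) of the table of permutations.  `tw e w` exchanges the two places if `e = 1`.
For the word `ow` of length `r`, `e ∈ {0, 1}`, `j ≥ 1`, `m = 3 j + r` let `W i = 5, 3, 11` according to `i % 3` for `i < 3 j`, `W i = ow[i - 3 j]` for `3 j ≤ i < m`, and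
`c x i = lcol (W (y % m).toNat) ((x.1 - e * (y / m)) % 2).toNat i`, `y = x.2 - x.1`.

[HON-M1] `npc_22_word`: use `npc_of_col`.
* periodic: `x + (2, 2)`: `y` unchanged; `x + (e, m + e)`: `y + m`, the place is unchanged.
* proper: at the `X`-vertices the rows are permutations.  The `Y`-vertex `z` (layer `y = z.2 - z.1`) has the edges `(z, 0)` in the layer `y` (place `a = z.1`),
  `(z - (1, 0), 1)` in the layer `y + 1` (place `a - 1`), `(z - (0, 1), 2)` in the layer `y - 1` (place `a`).  So properness at the layer `y` is `ok3 A B C` for the letters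
  `A, B, C` of the layers `y - 1, y, y + 1`, all written with the same origin of the places.  By periodicity `0 ≤ y < m`.  `y = 0`: `A = 11` because `ow` ends with `tw e 11`
  (the layer `-1` is the layer `m - 1` with exchanged places); `y = m - 1`: `C = tw e 5`.  So the windows are `(11, 5, 3)`, `(5, 3, 11)`, `(3, 11, 5)` for `0 ≤ y ≤ 3 j - 2` (`y % 3 = 0, 1, 2`) and
  the `r + 1` windows of three consecutive letters of `[3, 11] ++ ow ++ [tw e 5]` for `3 j - 1 ≤ y < m`.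
* representatives: `F = {(a, y + a) | 0 ≤ y < m, a ∈ {0, 1}}` (`x` is congruent to the one with `y = (x.2 - x.1) % m`, `a = (x.1 - e ((x.2 - x.1) / m)) % 2`).
* the sum over `F` of `pb + pw` is the sum over `y < m` of `wt A B C` (`wt` = contributions of the two `X`- and the two `Y`-vertices of the layer); over `y < 3 j - 1` it is
  `(j - 1) (p0 + p1 + p2) + p0 + p1` with `p0 + p1 + p2 = 0`; the rest is `wts` of the list.  `chk22` says that the total is `1`.

[HON-M2] `npc_22_large`: `n = dt (2, 2) v = 2 (v.2 - v.1)`, `m = v.2 - v.1 ≥ 14`, `e = v.1 % 2`, `Lt (2, 2) v = Lt (2, 2) (e, m + e)` (subtract `(v.1 / 2) • (2, 2)`; `Lt_eq`).  By `m % 3` and `e`: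
the words `w00` (`r = 6`), `w01` (`r = 7`), `w02` (`r = 11`), `w10` (`r = 9`), `w11` (`r = 4`), `w12` (`r = 8`), `m = 3 j + r`, `j ≥ 1`.
-/

set_option autoImplicit false
set_option maxRecDepth 100000

open Finset Function

namespace Pool.Agent.PP

universe u

/-- colours of a letter -/
def lcol (w a : ℕ) (i : Fin 3) : Fin 3 :=
  lc [0, 1, 2, 0, 2, 1, 1, 0, 2, 1, 2, 0, 2, 0, 1, 2, 1, 0] (3 * (if a = 0 then w / 6 else w % 6) + i.val)

/-- exchange of the two places -/
def tw (e w : ℕ) : ℕ := if e = 1 then w % 6 * 6 + w / 6 else w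

/-- colours at the `Y`-vertex at the place `a` of the layer with the letter `B`, letters `A`, `C` below and above -/
def wcol (A B C a : ℕ) (i : Fin 3) : Fin 3 :=
  if i = 0 then lcol B a 0 else if i = 1 then lcol C (1 - a) 1 else lcol A a 2

def ok3 (A B C : ℕ) : Bool :=
  decide (∀ a : Fin 2, ∀ i : Fin 3, lcol B a (i + 1) ≠ lcol B a i ∧ wcol A B C a (i + 1) ≠ wcol A B C a i)

def wt (A B C : ℕ) : ZMod 2 :=
  ∑ a : Fin 2, ((∑ i : Fin 3, sg (lcol B a (i + 1) - lcol B a i)) + ∑ i : Fin 3, sg (wcol A B C a (i + 1) - wcol A B C a i))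

/-- all windows of a list are proper -/
def oks : List ℕ → Bool
  | A :: B :: C :: l => ok3 A B C && oks (B :: C :: l)
  | _ => true

/-- sum of the contributions of the windows -/
def wts : List ℕ → ZMod 2
  | A :: B :: C :: l => wt A B C + wts (B :: C :: l)
  | _ => 0

def chk22 (e : ℕ) (ow : List ℕ) : Bool :=
  oks [11, 5, 3, 11, 5] && oks ([3, 11] ++ ow ++ [tw e 5]) && decide (ow.getLast? = some (tw e 11)) && ow.all (fun w => Nat.blt w 36) &&
    decide (wt 11 5 3 + wt 5 3 11 + wt 3 11 5 = 0) && decide (wt 11 5 3 + wt 5 3 11 + wts ([3, 11] ++ ow ++ [tw e 5]) = 1)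

def w00 : List ℕ := [35, 34, 35, 17, 3, 11]
def w01 : List ℕ := [35, 32, 18, 33, 17, 3, 11]
def w02 : List ℕ := [35, 32, 18, 33, 29, 35, 34, 35, 17, 3, 11]
def w10 : List ℕ := [35, 32, 18, 33, 29, 35, 32, 18, 31]
def w11 : List ℕ := [35, 32, 18, 31]
def w12 : List ℕ := [35, 34, 35, 29, 35, 32, 18, 31]

theorem chk_00 : chk22 0 w00 = true := by decide +kernel
theorem chk_01 : chk22 0 w01 = true := by decide +kernel
theorem chk_02 : chk22 0 w02 = true := by decide +kernel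
theorem chk_10 : chk22 1 w10 = true := by decide +kernel
theorem chk_11 : chk22 1 w11 = true := by decide +kernel
theorem chk_12 : chk22 1 w12 = true := by decide +kernel

/-- the letters of the layers -/
private def M_l (ow : List ℕ) : ℕ → List ℕ
  | 0 => ow
  | j + 1 => 5 :: 3 :: 11 :: M_l ow j

private lemma M_length (ow : List ℕ) (j : ℕ) : (M_l ow j).length = 3 * j + ow.length := by
  induction j with
  | zero => simp [M_l]
  | succ j ih =>
    simp only [M_l, List.length_cons, ih]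
    ring

private lemma M_lt (ow : List ℕ) (h : ∀ w ∈ ow, w < 36) (j : ℕ) : ∀ w ∈ M_l ow j, w < 36 := by
  induction j with
  | zero => exact h
  | succ j ih =>
    intro w hw
    simp only [M_l, List.mem_cons] at hw
    rcases hw with rfl | rfl | rfl | hw
    · norm_num
    · norm_num
    · norm_num
    · exact ih w hw

private lemma M_last (ow : List ℕ) (t : ℕ) (h : ow.getLast? = some t) (j : ℕ) : (M_l ow j).getLast? = some t := by
  induction j with
  | zero => exact h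
  | succ j ih =>
    show (5 :: 3 :: 11 :: M_l ow j).getLast? = some t
    rw [List.getLast?_cons, List.getLast?_cons, List.getLast?_cons, ih]
    rfl

private lemma M_oks (ow : List ℕ) (t : ℕ) (h1 : ok3 3 11 5 = true) (h2 : ok3 11 5 3 = true) (h3 : ok3 5 3 11 = true)
    (h : oks (3 :: 11 :: (ow ++ [t])) = true) (j : ℕ) : oks (3 :: 11 :: (M_l ow j ++ [t])) = true := by
  induction j with
  | zero => exact h
  | succ j ih =>
    show (ok3 3 11 5 && (ok3 11 5 3 && (ok3 5 3 11 && oks (3 :: 11 :: (M_l ow j ++ [t]))))) = true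
    rw [h1, h2, h3, ih]
    rfl

private lemma M_wts (ow : List ℕ) (t : ℕ) (h1 : wt 11 5 3 + wt 5 3 11 + wt 3 11 5 = 0) (j : ℕ) :
    wts (3 :: 11 :: (M_l ow j ++ [t])) = wts (3 :: 11 :: (ow ++ [t])) := by
  induction j with
  | zero => rfl
  | succ j ih =>
    show wt 3 11 5 + (wt 11 5 3 + (wt 5 3 11 + wts (3 :: 11 :: (M_l ow j ++ [t])))) = _
    rw [ih]
    linear_combination h1

private lemma M_oks_get (l : List ℕ) (h : oks l = true) (i : ℕ) (hi : i + 2 < l.length) :
    ok3 (l.getD i 0) (l.getD (i + 1) 0) (l.getD (i + 2) 0) = true := by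
  induction l generalizing i with
  | nil => simp at hi
  | cons A l ih =>
    match l, h, ih, hi with
    | [], _, _, hi => simp at hi
    | [_], _, _, hi =>
      simp at hi
    | B :: C :: l, h, ih, hi =>
      have h' : (ok3 A B C && oks (B :: C :: l)) = true := h
      rw [Bool.and_eq_true] at h'
      cases i with
      | zero => exact h'.1
      | succ i =>
        have := ih h'.2 i (by simpa using hi)
        exact this

private lemma M_wts_get (l : List ℕ) : wts l =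
    ∑ i ∈ Finset.range (l.length - 2), wt (l.getD i 0) (l.getD (i + 1) 0) (l.getD (i + 2) 0) := by
  induction l with
  | nil => rfl
  | cons A l ih =>
    match l, ih with
    | [], _ => rfl
    | [_], _ => rfl
    | B :: C :: l, ih =>
      have h1 : (A :: B :: C :: l).length - 2 = ((B :: C :: l).length - 2) + 1 := by simp
      rw [h1, Finset.sum_range_succ']
      show wt A B C + wts (B :: C :: l) = _
      rw [ih, add_comm]
      rfl

private lemma M_tw2 (w : ℕ) (h : w < 36) : tw 1 (tw 1 w) = w := by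
  unfold tw
  rw [if_pos rfl, if_pos rfl]
  omega

private lemma M_tw_lt (e w : ℕ) (h : w < 36) : tw e w < 36 := by
  unfold tw
  split_ifs
  · omega
  · exact h

private lemma M_lcol (w a : ℕ) (h : w < 36) (ha : a < 2) (i : Fin 3) : lcol (tw 1 w) (1 - a) i = lcol w a i := by
  unfold tw lcol
  rw [if_pos rfl]
  have h1 : a = 0 ∨ a = 1 := by omega
  rcases h1 with rfl | rfl
  · have h2 : (w % 6 * 6 + w / 6) % 6 = w / 6 := by omega
    rw [if_neg (by norm_num), if_pos rfl, h2]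
  · have h2 : (w % 6 * 6 + w / 6) / 6 = w % 6 := by omega
    rw [if_pos (by norm_num), if_neg (by norm_num), h2]

/-- the letter of the layer `y` -/
private def M_Z (e : ℕ) (l : List ℕ) (y : ℤ) : ℕ :=
  tw (((e : ℤ) * (y / l.length)) % 2).toNat (l.getD (y % l.length).toNat 0)

private lemma M_getD_lt (l : List ℕ) (h : ∀ w ∈ l, w < 36) (i : ℕ) : l.getD i 0 < 36 := by
  rw [List.getD_eq_getElem?_getD]
  cases h1 : l[i]? with
  | none => simp
  | some w => exact h w (List.mem_of_getElem? h1)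

private lemma M_Z_lt (e : ℕ) (l : List ℕ) (h : ∀ w ∈ l, w < 36) (y : ℤ) : M_Z e l y < 36 :=
  M_tw_lt _ _ (M_getD_lt l h _)

private lemma M_Z_add (e : ℕ) (he : e = 0 ∨ e = 1) (l : List ℕ) (h : ∀ w ∈ l, w < 36) (hl : 0 < l.length) (y : ℤ) :
    M_Z e l (y + l.length) = tw e (M_Z e l y) := by
  have hl' : (l.length : ℤ) ≠ 0 := by exact_mod_cast hl.ne'
  unfold M_Z
  rw [Int.add_emod_right, Int.add_ediv_of_dvd_right (dvd_refl _), Int.ediv_self hl']
  rcases he with rfl | rfl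
  · have h1 : ∀ k : ℤ, (((0 : ℕ) : ℤ) * k % 2).toNat = 0 := by
      intro k
      simp
    rw [h1, h1]
    rfl
  · generalize y / (l.length : ℤ) = k
    have h2 : k % 2 = 0 ∨ k % 2 = 1 := by omega
    have hw := M_getD_lt l h (y % l.length).toNat
    generalize l.getD (y % l.length).toNat 0 = w at hw
    rcases h2 with h2 | h2
    · have e1 : (((1 : ℕ) : ℤ) * (k + 1) % 2).toNat = 1 := by
        push_cast
        omega
      have e2 : (((1 : ℕ) : ℤ) * k % 2).toNat = 0 := by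
        push_cast
        omega
      rw [e1, e2]
      rfl
    · have e1 : (((1 : ℕ) : ℤ) * (k + 1) % 2).toNat = 0 := by
        push_cast
        omega
      have e2 : (((1 : ℕ) : ℤ) * k % 2).toNat = 1 := by
        push_cast
        omega
      rw [e1, e2, M_tw2 w hw]
      rfl

private lemma M_Z_mid (e : ℕ) (l : List ℕ) (i : ℕ) (hi : i < l.length) : M_Z e l i = l.getD i 0 := by
  unfold M_Z
  have h1 : (i : ℤ) / (l.length : ℤ) = 0 := Int.ediv_eq_zero_of_lt (by omega) (by omega)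
  have h2 : (i : ℤ) % (l.length : ℤ) = i := Int.emod_eq_of_lt (by omega) (by omega)
  rw [h1, h2, mul_zero]
  simp [tw]

/-- the colouring -/
private def M_c (e : ℕ) (l : List ℕ) (x : ℤ × ℤ) (i : Fin 3) : Fin 3 := lcol (M_Z e l (x.2 - x.1)) (x.1 % 2).toNat i

private lemma M_c_two (e : ℕ) (l : List ℕ) (x : ℤ × ℤ) (i : Fin 3) : M_c e l (x + (2, 2)) i = M_c e l x i := by
  unfold M_c
  have h1 : (x + (2, 2)).2 - (x + (2, 2)).1 = x.2 - x.1 := by
    show x.2 + 2 - (x.1 + 2) = x.2 - x.1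
    ring
  have h2 : (x + (2, 2)).1 % 2 = x.1 % 2 := by
    show (x.1 + 2) % 2 = x.1 % 2
    omega
  rw [h1, h2]

private lemma M_c_e (e : ℕ) (he : e = 0 ∨ e = 1) (l : List ℕ) (h : ∀ w ∈ l, w < 36) (hl : 0 < l.length) (x : ℤ × ℤ) (i : Fin 3) :
    M_c e l (x + ((e : ℤ), ((l.length + e : ℕ) : ℤ))) i = M_c e l x i := by
  unfold M_c
  have h1 : (x + ((e : ℤ), ((l.length + e : ℕ) : ℤ))).2 - (x + ((e : ℤ), ((l.length + e : ℕ) : ℤ))).1 =
      x.2 - x.1 + l.length := by
    show x.2 + ((l.length + e : ℕ) : ℤ) - (x.1 + (e : ℤ)) = x.2 - x.1 + l.length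
    push_cast
    ring
  have h2 : (x + ((e : ℤ), ((l.length + e : ℕ) : ℤ))).1 = x.1 + (e : ℤ) := rfl
  rw [h1, h2, M_Z_add e he l h hl]
  rcases he with rfl | rfl
  · show lcol (M_Z 0 l (x.2 - x.1)) ((x.1 + ((0 : ℕ) : ℤ)) % 2).toNat i = _
    rw [Nat.cast_zero, add_zero]
  · have h3 : ((x.1 + ((1 : ℕ) : ℤ)) % 2).toNat = 1 - (x.1 % 2).toNat := by
      push_cast
      omega
    rw [h3]
    exact M_lcol _ _ (M_Z_lt 1 l h _) (by omega) i

private lemma M_X (e : ℕ) (he : e = 0 ∨ e = 1) (l : List ℕ) (h : ∀ w ∈ l, w < 36) (hl : 0 < l.length)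
    (h0 : l.getD 0 0 = 5) (hlast : l.getD (l.length - 1) 0 = tw e 11) (i : ℕ) (hi : i < l.length) :
    M_Z e l ((i : ℤ) - 1) = (11 :: (l ++ [tw e 5])).getD i 0 ∧ M_Z e l i = (11 :: (l ++ [tw e 5])).getD (i + 1) 0 ∧
      M_Z e l ((i : ℤ) + 1) = (11 :: (l ++ [tw e 5])).getD (i + 2) 0 := by
  have hmid : ∀ k : ℕ, k < l.length → M_Z e l k = (11 :: (l ++ [tw e 5])).getD (k + 1) 0 := by
    intro k hk
    rw [M_Z_mid e l k hk, List.getD_cons_succ, List.getD_append _ _ _ _ hk]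
  refine ⟨?_, hmid i hi, ?_⟩
  · cases i with
    | zero =>
      have h1 := M_Z_add e he l h hl (((0 : ℕ) : ℤ) - 1)
      have h2 : ((0 : ℕ) : ℤ) - 1 + (l.length : ℤ) = ((l.length - 1 : ℕ) : ℤ) := by
        push_cast [Nat.cast_sub hl]
        omega
      rw [h2, M_Z_mid e l _ (by omega), hlast] at h1
      have h3 := M_Z_lt e l h (((0 : ℕ) : ℤ) - 1)
      rw [List.getD_cons_zero]
      generalize M_Z e l (((0 : ℕ) : ℤ) - 1) = w at h1 h3
      rcases he with rfl | rfl
      · exact h1.symm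
      · have h4 := congrArg (tw 1) h1
        rw [M_tw2 w h3, M_tw2 11 (by norm_num)] at h4
        exact h4.symm
    | succ i =>
      have h1 : ((i + 1 : ℕ) : ℤ) - 1 = (i : ℤ) := by
        push_cast
        ring
      rw [h1]
      exact hmid i (by omega)
  · have h1 : (i : ℤ) + 1 = ((i + 1 : ℕ) : ℤ) := by
      push_cast
      ring
    rcases Nat.lt_or_ge (i + 1) l.length with h2 | h2
    · rw [h1]
      exact hmid (i + 1) h2
    · have h3 : i + 1 = l.length := by omega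
      have h4 : (i : ℤ) + 1 = ((0 : ℕ) : ℤ) + (l.length : ℤ) := by
        rw [← h3]
        push_cast
        ring
      rw [h4, M_Z_add e he l h hl, M_Z_mid e l 0 hl, h0, List.getD_cons_succ, h3,
        List.getD_append_right _ _ _ _ (le_refl _), Nat.sub_self]
      rfl

private lemma M_wcol (e : ℕ) (l : List ℕ) (z : ℤ × ℤ) (k : ℤ) (hk : z.2 - z.1 = k) (i : Fin 3) :
    M_c e l (z - dd i) i = wcol (M_Z e l (k - 1)) (M_Z e l k) (M_Z e l (k + 1)) (z.1 % 2).toNat i := by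
  have h3 : i = 0 ∨ i = 1 ∨ i = 2 := by
    revert i
    decide
  rcases h3 with rfl | rfl | rfl
  · show lcol (M_Z e l ((z - 0).2 - (z - 0).1)) ((z - 0).1 % 2).toNat 0 = _
    rw [sub_zero, hk]
    rfl
  · show lcol (M_Z e l ((z - (1, 0)).2 - (z - (1, 0)).1)) ((z - (1, 0)).1 % 2).toNat 1 = _
    have h1 : (z - (1, 0)).2 - (z - (1, 0)).1 = k + 1 := by
      show z.2 - 0 - (z.1 - 1) = k + 1
      omega
    have h2 : ((z - (1, 0)).1 % 2).toNat = 1 - (z.1 % 2).toNat := by
      show ((z.1 - 1) % 2).toNat = 1 - (z.1 % 2).toNat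
      omega
    rw [h1, h2]
    rfl
  · show lcol (M_Z e l ((z - (0, 1)).2 - (z - (0, 1)).1)) ((z - (0, 1)).1 % 2).toNat 2 = _
    have h1 : (z - (0, 1)).2 - (z - (0, 1)).1 = k - 1 := by
      show z.2 - 1 - (z.1 - 0) = k - 1
      omega
    have h2 : ((z - (0, 1)).1 % 2).toNat = (z.1 % 2).toNat := by
      show ((z.1 - 0) % 2).toNat = (z.1 % 2).toNat
      omega
    rw [h1, h2]
    rfl

private lemma M_per (c : ℤ × ℤ → Fin 3 → Fin 3) (u v : ℤ × ℤ) (hu : ∀ x i, c (x + u) i = c x i)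
    (hv : ∀ x i, c (x + v) i = c x i) : ∀ x, ∀ l ∈ Lt u v, ∀ i, c (x + l) i = c x i := by
  intro x l hl
  unfold Lt at hl
  induction hl using AddSubgroup.closure_induction generalizing x with
  | mem y hy =>
    rcases hy with rfl | hy
    · exact hu x
    · rw [Set.mem_singleton_iff] at hy
      rw [hy]
      exact hv x
  | zero =>
    intro i
    rw [add_zero]
  | add y z _ _ hy hz =>
    intro i
    rw [← add_assoc, hz, hy]
  | neg y _ hy =>
    intro i
    have h1 := hy (x + -y) i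
    rw [neg_add_cancel_right] at h1
    exact h1.symm

private lemma M_red (e m : ℕ) (hm : 0 < m) (x : ℤ × ℤ) : ∃ l ∈ Lt (2, 2) ((e : ℤ), ((m + e : ℕ) : ℤ)), ∃ i : ℕ, i < m ∧
    (x - l).2 - (x - l).1 = i := by
  have hm' : (0 : ℤ) < (m : ℤ) := by exact_mod_cast hm
  refine ⟨((x.2 - x.1) / m) • ((e : ℤ), ((m + e : ℕ) : ℤ)), ?_, ((x.2 - x.1) % m).toNat, ?_, ?_⟩
  · rw [mem_Lt]
    exact ⟨0, _, by rw [zero_smul, zero_add]⟩
  · have h1 := Int.emod_lt_of_pos (x.2 - x.1) hm'
    have h2 := Int.emod_nonneg (x.2 - x.1) hm'.ne'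
    omega
  · have h2 := Int.emod_nonneg (x.2 - x.1) hm'.ne'
    have h3 := Int.emod_add_mul_ediv (x.2 - x.1) m
    rw [Int.toNat_of_nonneg h2]
    simp only [Prod.fst_sub, Prod.snd_sub, Prod.smul_fst, Prod.smul_snd, smul_eq_mul]
    push_cast
    linarith

private lemma M_reps (e m : ℕ) (hm : 0 < m) : Reps (Lt (2, 2) ((e : ℤ), ((m + e : ℕ) : ℤ)))
    ((Finset.range m ×ˢ Finset.range 2).image (fun p : ℕ × ℕ => ((p.2 : ℤ), (p.1 : ℤ) + p.2))) := by
  intro x
  obtain ⟨l, hl, i, hi, hx⟩ := M_red e m hm x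
  refine ⟨((((x - l).1 % 2).toNat : ℤ), (i : ℤ) + (((x - l).1 % 2).toNat : ℤ)), ⟨?_, ?_⟩, ?_⟩
  · rw [Finset.mem_image]
    refine ⟨(i, ((x - l).1 % 2).toNat), ?_, rfl⟩
    rw [Finset.mem_product, Finset.mem_range, Finset.mem_range]
    exact ⟨hi, by show ((x - l).1 % 2).toNat < 2; omega⟩
  · have h1 : x - ((((x - l).1 % 2).toNat : ℤ), (i : ℤ) + (((x - l).1 % 2).toNat : ℤ)) =
        l + ((x - l).1 / 2) • (2, 2) := by
      have h2 : (((x - l).1 % 2).toNat : ℤ) = (x - l).1 - 2 * ((x - l).1 / 2) := by omega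
      rw [h2]
      obtain ⟨x1, x2⟩ := x
      obtain ⟨l1, l2⟩ := l
      simp only [Prod.mk_sub_mk] at hx ⊢
      refine Prod.ext ?_ ?_
      · simp only [Prod.smul_mk, smul_eq_mul, Prod.mk_add_mk]
        ring
      · simp only [Prod.smul_mk, smul_eq_mul, Prod.mk_add_mk]
        linarith
    rw [h1]
    refine AddSubgroup.add_mem _ hl (mem_Lt.2 ⟨(x - l).1 / 2, 0, by rw [zero_smul, add_zero]⟩)
  · rintro y ⟨hy, hyL⟩
    obtain ⟨⟨i', a'⟩, hp, rfl⟩ := Finset.mem_image.1 hy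
    rw [Finset.mem_product, Finset.mem_range, Finset.mem_range] at hp
    have hi' : i' < m := hp.1
    have ha' : a' < 2 := hp.2
    have h1 := AddSubgroup.sub_mem _ hyL hl
    obtain ⟨s, t, h2, h3⟩ := mem_Lt'.1 h1
    simp only [Prod.fst_sub, Prod.snd_sub] at h2 h3 hx ⊢
    push_cast at h3
    have h4 : t * (m : ℤ) = (i : ℤ) - i' := by linarith
    have h5 : t = 0 := by
      have h6 : t * (m : ℤ) < m := by omega
      have h7 : -(m : ℤ) < t * (m : ℤ) := by omega
      by_contra ht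
      rcases lt_or_gt_of_ne ht with h8 | h8
      · have : t * (m : ℤ) ≤ -1 * m := mul_le_mul_of_nonneg_right (by omega) (by omega)
        omega
      · have : 1 * (m : ℤ) ≤ t * m := mul_le_mul_of_nonneg_right (by omega) (by omega)
        omega
    rw [h5] at h4 h2
    have h6 : i' = i := by
      have : (0 : ℤ) = (i : ℤ) - i' := by linarith
      omega
    have h7 : a' = ((x.1 - l.1) % 2).toNat := by
      have h8 : x.1 - l.1 = a' + 2 * s := by linarith
      omega
    rw [h6, h7]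

theorem npc_22_word (e : ℕ) (he : e = 0 ∨ e = 1) (ow : List ℕ) (h : chk22 e ow = true) (j : ℕ) (hj : 1 ≤ j) :
    NPC.{u} (Lt (2, 2) ((e : ℤ), ((3 * j + ow.length + e : ℕ) : ℤ))) := by
  unfold chk22 at h
  rw [Bool.and_eq_true, Bool.and_eq_true, Bool.and_eq_true, Bool.and_eq_true, Bool.and_eq_true, decide_eq_true_eq,
    decide_eq_true_eq, decide_eq_true_eq] at h
  obtain ⟨⟨⟨⟨⟨k1, k2⟩, k3⟩, k4⟩, k5⟩, k6⟩ := h
  have k1' : (ok3 11 5 3 && (ok3 5 3 11 && (ok3 3 11 5 && true))) = true := k1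
  rw [Bool.and_true, Bool.and_eq_true, Bool.and_eq_true] at k1'
  obtain ⟨o1, o2, o3⟩ := k1'
  have hlt : ∀ w ∈ ow, w < 36 := by
    intro w hw
    have := List.all_eq_true.1 k4 w hw
    exact Nat.blt_eq.mp this
  obtain ⟨l, hl⟩ : ∃ l, l = M_l ow j := ⟨_, rfl⟩
  have hlen : l.length = 3 * j + ow.length := by rw [hl, M_length]
  have hl36 : ∀ w ∈ l, w < 36 := by
    rw [hl]
    exact M_lt ow hlt j
  have hpos : 0 < l.length := by omega
  have hlast : l.getLast? = some (tw e 11) := by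
    rw [hl]
    exact M_last ow _ k3 j
  have hlast' : l.getD (l.length - 1) 0 = tw e 11 := by
    rw [List.getLast?_eq_getElem?] at hlast
    rw [List.getD_eq_getElem?_getD, hlast]
    rfl
  obtain ⟨j', rfl⟩ : ∃ j', j = j' + 1 := ⟨j - 1, by omega⟩
  have h0 : l.getD 0 0 = 5 := by
    rw [hl]
    rfl
  have hX1 : oks (11 :: (l ++ [tw e 5])) = true := by
    rw [hl]
    show (ok3 11 5 3 && (ok3 5 3 11 && oks (3 :: 11 :: (M_l ow j' ++ [tw e 5])))) = true
    rw [o1, o2, M_oks ow (tw e 5) o3 o1 o2 k2 j']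
    rfl
  have hX2 : wts (11 :: (l ++ [tw e 5])) = 1 := by
    rw [hl]
    show wt 11 5 3 + (wt 5 3 11 + wts (3 :: 11 :: (M_l ow j' ++ [tw e 5]))) = 1
    rw [M_wts ow (tw e 5) k5 j', ← add_assoc]
    exact k6
  have hXlen : (11 :: (l ++ [tw e 5])).length = l.length + 2 := by simp
  have hok : ∀ i : ℕ, i < l.length → ok3 (M_Z e l ((i : ℤ) - 1)) (M_Z e l i) (M_Z e l ((i : ℤ) + 1)) = true := by
    intro i hi
    obtain ⟨e1, e2, e3⟩ := M_X e he l hl36 hpos h0 hlast' i hi
    rw [e1, e2, e3]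
    exact M_oks_get _ hX1 i (by omega)
  have hsum : ∑ i ∈ Finset.range l.length, wt (M_Z e l ((i : ℤ) - 1)) (M_Z e l i) (M_Z e l ((i : ℤ) + 1)) = 1 := by
    rw [M_wts_get, hXlen, Nat.add_sub_cancel] at hX2
    rw [← hX2]
    refine Finset.sum_congr rfl fun i hi => ?_
    obtain ⟨e1, e2, e3⟩ := M_X e he l hl36 hpos h0 hlast' i (Finset.mem_range.1 hi)
    rw [e1, e2, e3]
  rw [← hlen]
  have hper := M_per (M_c e l) (2, 2) ((e : ℤ), ((l.length + e : ℕ) : ℤ)) (M_c_two e l) (M_c_e e he l hl36 hpos)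
  have hred := M_red e l.length hpos
  have hcol : PCol (M_c e l) := by
    constructor
    · intro x i
      obtain ⟨l0, hl0, k, hk, hx⟩ := hred x
      have h1 : ∀ i, M_c e l x i = lcol (M_Z e l k) ((x - l0).1 % 2).toNat i := by
        intro i
        have h2 := hper (x - l0) l0 hl0 i
        rw [sub_add_cancel] at h2
        rw [h2]
        unfold M_c
        rw [hx]
      rw [h1, h1]
      have h3 := of_decide_eq_true (hok k hk)
      exact (h3 ⟨((x - l0).1 % 2).toNat, by omega⟩ i).1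
    · intro z i
      obtain ⟨l0, hl0, k, hk, hz⟩ := hred z
      have h1 : ∀ i, M_c e l (z - dd i) i = wcol (M_Z e l ((k : ℤ) - 1)) (M_Z e l k) (M_Z e l ((k : ℤ) + 1))
          ((z - l0).1 % 2).toNat i := by
        intro i
        have h2 := hper (z - l0 - dd i) l0 hl0 i
        have h3 : z - l0 - dd i + l0 = z - dd i := by abel
        rw [h3] at h2
        rw [h2]
        exact M_wcol e l (z - l0) k hz i
      rw [h1, h1]
      have h3 := of_decide_eq_true (hok k hk)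
      exact (h3 ⟨((z - l0).1 % 2).toNat, by omega⟩ i).2
  refine npc_of_col _ (M_c e l) hcol hper _ (M_reps e l.length hpos) ?_
  rw [Finset.sum_image, Finset.sum_product, ← hsum]
  · refine Finset.sum_congr rfl fun i hi => ?_
    rw [Finset.sum_range]
    unfold wt
    refine Finset.sum_congr rfl fun a _ => ?_
    have hlay : (((a : ℕ) : ℤ), (i : ℤ) + ((a : ℕ) : ℤ)).2 - (((a : ℕ) : ℤ), (i : ℤ) + ((a : ℕ) : ℤ)).1 = (i : ℤ) := by
      show (i : ℤ) + ((a : ℕ) : ℤ) - ((a : ℕ) : ℤ) = i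
      ring
    have hpl : ((((a : ℕ) : ℤ), (i : ℤ) + ((a : ℕ) : ℤ)).1 % 2).toNat = (a : ℕ) := by
      show (((a : ℕ) : ℤ) % 2).toNat = (a : ℕ)
      have := a.isLt
      omega
    have e1 : ∀ i', M_c e l (((a : ℕ) : ℤ), (i : ℤ) + ((a : ℕ) : ℤ)) i' = lcol (M_Z e l i) a i' := by
      intro i'
      unfold M_c
      rw [hlay, hpl]
    have e2 : ∀ i', M_c e l ((((a : ℕ) : ℤ), (i : ℤ) + ((a : ℕ) : ℤ)) - dd i') i' =
        wcol (M_Z e l ((i : ℤ) - 1)) (M_Z e l i) (M_Z e l ((i : ℤ) + 1)) a i' := by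
      intro i'
      rw [M_wcol e l _ i hlay i', hpl]
    show pb (M_c e l) (((a : ℕ) : ℤ), (i : ℤ) + ((a : ℕ) : ℤ)) + pw (M_c e l) (((a : ℕ) : ℤ), (i : ℤ) + ((a : ℕ) : ℤ)) = _
    unfold pb pw
    congr 1
    · refine Finset.sum_congr rfl fun i' _ => ?_
      rw [e1, e1]
    · refine Finset.sum_congr rfl fun i' _ => ?_
      rw [e2, e2]
  · rintro ⟨i, a⟩ _ ⟨i', a'⟩ _ heq
    have h1 : (a : ℤ) = a' := congrArg Prod.fst heq
    have h2 : (i : ℤ) + a = (i' : ℤ) + a' := congrArg Prod.snd heq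
    have h3 : a = a' := by exact_mod_cast h1
    have h4 : i = i' := by omega
    rw [h3, h4]

theorem npc_22_large (v : ℤ × ℤ) (hd : 28 ≤ dt (2, 2) v) : NPC.{u} (Lt (2, 2) v) := by
  have hd' : 28 ≤ 2 * v.2 - 2 * v.1 := hd
  have key : ∀ (e : ℕ) (_ : e = 0 ∨ e = 1) (ow : List ℕ) (_ : chk22 e ow = true) (_ : 3 + (ow.length : ℤ) ≤ v.2 - v.1)
      (_ : v.1 % 2 = e) (_ : (v.2 - v.1) % 3 = (ow.length : ℤ) % 3), NPC.{u} (Lt (2, 2) v) := by
    intro e he ow hc h1 h2 h3
    obtain ⟨j, hj⟩ : ∃ j : ℕ, v.2 - v.1 = 3 * (j : ℤ) + ow.length := ⟨((v.2 - v.1 - ow.length) / 3).toNat, by omega⟩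
    have h4 := npc_22_word.{u} e he ow hc j (by omega)
    rw [← Lt_eq (2, 2) v 1 0 (-(v.1 / 2)) 1 (by norm_num)]
    have h5 : (((1 : ℤ) * 2 + 0 * v.1, (1 : ℤ) * 2 + 0 * v.2) : ℤ × ℤ) = (2, 2) :=
      Prod.ext (by ring) (by ring)
    have h6 : ((-(v.1 / 2) * 2 + 1 * v.1, -(v.1 / 2) * 2 + 1 * v.2) : ℤ × ℤ) =
        ((e : ℤ), ((3 * j + ow.length + e : ℕ) : ℤ)) := by
      refine Prod.ext ?_ ?_
      · show -(v.1 / 2) * 2 + 1 * v.1 = (e : ℤ)
        omega
      · show -(v.1 / 2) * 2 + 1 * v.2 = ((3 * j + ow.length + e : ℕ) : ℤ)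
        push_cast
        omega
    show NPC.{u} (Lt (((1 : ℤ) * 2 + 0 * v.1, (1 : ℤ) * 2 + 0 * v.2) : ℤ × ℤ)
      ((-(v.1 / 2) * 2 + 1 * v.1, -(v.1 / 2) * 2 + 1 * v.2) : ℤ × ℤ))
    rw [h5, h6]
    exact h4
  have h2 : v.1 % 2 = 0 ∨ v.1 % 2 = 1 := by omega
  have h3 : (v.2 - v.1) % 3 = 0 ∨ (v.2 - v.1) % 3 = 1 ∨ (v.2 - v.1) % 3 = 2 := by omega
  rcases h2 with h2 | h2 <;> rcases h3 with h3 | h3 | h3
  · exact key 0 (Or.inl rfl) w00 chk_00 (by simp [w00]; omega) h2 (by simp [w00]; omega)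
  · exact key 0 (Or.inl rfl) w01 chk_01 (by simp [w01]; omega) h2 (by simp [w01]; omega)
  · exact key 0 (Or.inl rfl) w02 chk_02 (by simp [w02]; omega) h2 (by simp [w02]; omega)
  · exact key 1 (Or.inr rfl) w10 chk_10 (by simp [w10]; omega) h2 (by simp [w10]; omega)
  · exact key 1 (Or.inr rfl) w11 chk_11 (by simp [w11]; omega) h2 (by simp [w11]; omega)
  · exact key 1 (Or.inr rfl) w12 chk_12 (by simp [w12]; omega) h2 (by simp [w12]; omega)

end Pool.Agent.PP
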