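import Pool.Agent.Lib_MP_7c0803_hon.Defs

/-!
# [HON-N1] Tubes of circumference three

Colourings of `HT (Lt (3, 0) (s, m))`: `f b i a` is the colour of the edges `(x, i)` with `x.2 = b`, `x.1 ≡ a mod 3`.  The `Y`-vertex `(a, b)` has the edges `(a, b; 0)`,
`(a - 1, b; 1)`, `(a, b - 1; 2)`.

`con_of_tube`: let `L = Lt (3, 0) (s, m)`, `π = QuotientAddGroup.mk`.  For a colouring `c` of `HT L` put `f b i a = c (π (a.val, b), i)`; `(HT L).P c` gives `TCol s m f`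
(periodicity: `(a.val, b + m) - ((a - s).val, b) ∈ L` as `(a.val - s - (a - s).val)` is divisible by `3`).  Conversely from `TCol s m f` define
`c (q, i) = f q.out.2 i q.out.1`; for every `x` with `π x = q` this is `f x.2 i x.1` since `(x : ℤ × ℤ) ↦ f x.2 i (x.1 : ZMod 3)` is invariant under `(3, 0)` and `(s, m)` (and their negatives:
`mem_Lt'`, induction, or: `x - y = i (3, 0) + j (s, m)`, use `f (b + j m) i (a + j s) = f b i a` for `j : ℤ`).  The two maps are inverse to each other, respect properness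
(`(HT L).s (x, i) = (x, i + 1)`, `(HT L).t (x, i) = (x + δ i - δ (i + 1), i + 1)`) and common colour classes, so `TKE` gives `KE` (`Relation.EqvGen` induction, as `KE_map`).
-/

set_option autoImplicit false

open Finset Function

namespace Pool.Agent.PP

/-- proper colourings of the tube with `m` layers and twist `s` -/
structure TCol (s : ZMod 3) (m : ℕ) (f : ℤ → Fin 3 → ZMod 3 → Fin 3) : Prop where
  X : ∀ b i a, f b (i + 1) a ≠ f b i a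
  Y : ∀ b a, f b 0 a ≠ f b 1 (a - 1) ∧ f b 1 (a - 1) ≠ f (b - 1) 2 a ∧ f (b - 1) 2 a ≠ f b 0 a
  per : ∀ b i a, f (b + m) i a = f b i (a - s)

/-- a common colour class -/
def TRel (f g : ℤ → Fin 3 → ZMod 3 → Fin 3) : Prop := ∃ k, ∀ b i a, f b i a = k ↔ g b i a = k

/-- Kempe equivalence of colourings of the tube -/
def TKE (s : ZMod 3) (m : ℕ) (f g : ℤ → Fin 3 → ZMod 3 → Fin 3) : Prop :=
  Relation.EqvGen (fun f g => TCol s m f ∧ TCol s m g ∧ TRel f g) f g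

section N1

variable {s : ℤ} {m : ℕ}

/-- from the torus to the tube -/
private def N1_U (L : AddSubgroup (ℤ × ℤ)) (c : ((ℤ × ℤ) ⧸ L) × Fin 3 → Fin 3) :
    ℤ → Fin 3 → ZMod 3 → Fin 3 :=
  fun b i a => c ((((a.val : ℤ), b) : ℤ × ℤ), i)

/-- from the tube to the torus -/
private noncomputable def N1_V (L : AddSubgroup (ℤ × ℤ)) (f : ℤ → Fin 3 → ZMod 3 → Fin 3) :
    ((ℤ × ℤ) ⧸ L) × Fin 3 → Fin 3 :=
  fun p => f p.1.out.2 p.2 (p.1.out.1 : ZMod 3)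

private lemma N1_mk {x y : ℤ × ℤ} (i j : ℤ) (h1 : y.1 - x.1 = i * 3 + j * s)
    (h2 : y.2 - x.2 = j * m) :
    (x : (ℤ × ℤ) ⧸ Lt (3, 0) (s, (m : ℤ))) = (y : (ℤ × ℤ) ⧸ Lt (3, 0) (s, (m : ℤ))) := by
  rw [QuotientAddGroup.eq, mem_Lt']
  refine ⟨i, j, ?_, ?_⟩
  · simp only [Prod.fst_add, Prod.fst_neg]
    linarith
  · simp only [Prod.snd_add, Prod.snd_neg]
    linarith

private lemma N1_U_cast (c : ((ℤ × ℤ) ⧸ Lt (3, 0) (s, (m : ℤ))) × Fin 3 → Fin 3) (b : ℤ)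
    (i : Fin 3) (x : ℤ) :
    N1_U _ c b i (x : ZMod 3) = c (((x, b) : ℤ × ℤ), i) := by
  have h1 : ((x : ZMod 3).val : ℤ) = x % 3 := ZMod.val_intCast x
  have h2 : ((((x : ZMod 3).val : ℤ), b) : ℤ × ℤ) = ((x % 3, b) : ℤ × ℤ) := by rw [h1]
  unfold N1_U
  rw [h2]
  have h3 : (((x % 3, b) : ℤ × ℤ) : (ℤ × ℤ) ⧸ Lt (3, 0) (s, (m : ℤ))) =
      (((x, b) : ℤ × ℤ) : (ℤ × ℤ) ⧸ Lt (3, 0) (s, (m : ℤ))) :=
    N1_mk (x / 3) 0 (by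
      have := Int.emod_add_mul_ediv x 3
      simp only
      linarith) (by simp)
  rw [h3]

/-- the colouring of the tube is proper -/
private lemma N1_tcol {c : ((ℤ × ℤ) ⧸ Lt (3, 0) (s, (m : ℤ))) × Fin 3 → Fin 3}
    (hc : (HT (Lt (3, 0) (s, (m : ℤ)))).P c) : TCol (s : ZMod 3) m (N1_U _ c) := by
  have hcast : ∀ a : ZMod 3, ∃ x : ℤ, (x : ZMod 3) = a := fun a => ZMod.intCast_surjective a
  refine ⟨?_, ?_, ?_⟩
  · intro b i a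
    exact (hc ((((a.val : ℤ), b) : ℤ × ℤ), i)).1
  · intro b a
    obtain ⟨x, rfl⟩ := hcast a
    have e1 : (x : ZMod 3) - 1 = ((x - 1 : ℤ) : ZMod 3) := by push_cast; rfl
    rw [e1, N1_U_cast, N1_U_cast, N1_U_cast]
    have t0 := (hc (((x, b) : ℤ × ℤ), 0)).2
    have t1 := (hc (((x - 1, b) : ℤ × ℤ), 1)).2
    have t2 := (hc (((x, b - 1) : ℤ × ℤ), 2)).2
    have s0 : (HT (Lt (3, 0) (s, (m : ℤ)))).t (((x, b) : ℤ × ℤ), 0) =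
        ((((x - 1, b) : ℤ × ℤ) : (ℤ × ℤ) ⧸ Lt (3, 0) (s, (m : ℤ))), (1 : Fin 3)) := by
      refine Prod.ext ?_ rfl
      change (((x, b) : ℤ × ℤ) : (ℤ × ℤ) ⧸ Lt (3, 0) (s, (m : ℤ))) + 0 -
        (((1, 0) : ℤ × ℤ) : (ℤ × ℤ) ⧸ Lt (3, 0) (s, (m : ℤ))) = _
      rw [add_zero, ← QuotientAddGroup.mk_sub, Prod.mk_sub_mk, sub_zero]
    have s1 : (HT (Lt (3, 0) (s, (m : ℤ)))).t (((x - 1, b) : ℤ × ℤ), 1) =
        ((((x, b - 1) : ℤ × ℤ) : (ℤ × ℤ) ⧸ Lt (3, 0) (s, (m : ℤ))), (2 : Fin 3)) := by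
      refine Prod.ext ?_ rfl
      change (((x - 1, b) : ℤ × ℤ) : (ℤ × ℤ) ⧸ Lt (3, 0) (s, (m : ℤ))) +
        (((1, 0) : ℤ × ℤ) : (ℤ × ℤ) ⧸ Lt (3, 0) (s, (m : ℤ))) -
        (((0, 1) : ℤ × ℤ) : (ℤ × ℤ) ⧸ Lt (3, 0) (s, (m : ℤ))) = _
      rw [← QuotientAddGroup.mk_add, ← QuotientAddGroup.mk_sub, Prod.mk_add_mk, Prod.mk_sub_mk,
        sub_add_cancel, add_zero, sub_zero]
    have s2 : (HT (Lt (3, 0) (s, (m : ℤ)))).t (((x, b - 1) : ℤ × ℤ), 2) =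
        ((((x, b) : ℤ × ℤ) : (ℤ × ℤ) ⧸ Lt (3, 0) (s, (m : ℤ))), (0 : Fin 3)) := by
      refine Prod.ext ?_ rfl
      change (((x, b - 1) : ℤ × ℤ) : (ℤ × ℤ) ⧸ Lt (3, 0) (s, (m : ℤ))) +
        (((0, 1) : ℤ × ℤ) : (ℤ × ℤ) ⧸ Lt (3, 0) (s, (m : ℤ))) - 0 = _
      rw [sub_zero, ← QuotientAddGroup.mk_add, Prod.mk_add_mk, sub_add_cancel, add_zero]
    rw [s0] at t0
    rw [s1] at t1
    rw [s2] at t2
    exact ⟨t0.symm, t1.symm, t2.symm⟩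
  · intro b i a
    obtain ⟨x, rfl⟩ := hcast a
    have e1 : (x : ZMod 3) - (s : ZMod 3) = ((x - s : ℤ) : ZMod 3) := by push_cast; rfl
    rw [e1, N1_U_cast, N1_U_cast]
    have h3 : (((x, b + m) : ℤ × ℤ) : (ℤ × ℤ) ⧸ Lt (3, 0) (s, (m : ℤ))) =
        (((x - s, b) : ℤ × ℤ) : (ℤ × ℤ) ⧸ Lt (3, 0) (s, (m : ℤ))) :=
      N1_mk 0 (-1) (by simp only; ring) (by simp only; ring)
    rw [h3]

/-- periodicity, all multiples -/
private lemma N1_per {f : ℤ → Fin 3 → ZMod 3 → Fin 3} (hf : TCol (s : ZMod 3) m f) (j : ℤ)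
    (b : ℤ) (i : Fin 3) (a : ZMod 3) : f (b + j * m) i (a + j * s) = f b i a := by
  induction j with
  | zero => simp
  | succ j ih =>
    rw [← ih]
    have h1 := hf.per (b + (j : ℤ) * m) i (a + ((j : ℤ) : ZMod 3) * s + s)
    rw [add_sub_cancel_right] at h1
    rw [← h1]
    congr 1
    · ring
    · push_cast
      ring
  | pred j ih =>
    rw [← ih]
    have h1 := hf.per (b + (-(j : ℤ) - 1) * m) i (a + ((-(j : ℤ) : ℤ) : ZMod 3) * s)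
    have e1 : b + (-(j : ℤ) - 1) * m + m = b + -(j : ℤ) * m := by ring
    rw [e1] at h1
    rw [h1]
    congr 1
    push_cast
    ring

private lemma N1_V_mk {f : ℤ → Fin 3 → ZMod 3 → Fin 3} (hf : TCol (s : ZMod 3) m f)
    (x : ℤ × ℤ) (i : Fin 3) :
    N1_V (Lt (3, 0) (s, (m : ℤ))) f ((x : (ℤ × ℤ) ⧸ Lt (3, 0) (s, (m : ℤ))), i) =
      f x.2 i (x.1 : ZMod 3) := by
  unfold N1_V
  simp only
  obtain ⟨y, hy⟩ : ∃ y : ℤ × ℤ,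
      y = (x : (ℤ × ℤ) ⧸ Lt (3, 0) (s, (m : ℤ))).out := ⟨_, rfl⟩
  rw [← hy]
  have h1 : (y : (ℤ × ℤ) ⧸ Lt (3, 0) (s, (m : ℤ))) = x := by
    rw [hy]
    exact QuotientAddGroup.out_eq' _
  rw [QuotientAddGroup.eq, mem_Lt'] at h1
  obtain ⟨k, j, h2, h3⟩ := h1
  simp only [Prod.fst_add, Prod.fst_neg, Prod.snd_add, Prod.snd_neg] at h2 h3
  have e1 : x.2 = y.2 + j * m := by linarith
  have e2 : x.1 = y.1 + k * 3 + j * s := by linarith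
  have e3 : ((x.1 : ℤ) : ZMod 3) = (y.1 : ZMod 3) + (j : ZMod 3) * (s : ZMod 3) := by
    rw [e2]
    push_cast
    have h4 : (3 : ZMod 3) = 0 := by decide
    rw [h4]
    ring
  rw [e1, e3, N1_per hf]

/-- the colouring of the torus is proper -/
private lemma N1_P {f : ℤ → Fin 3 → ZMod 3 → Fin 3} (hf : TCol (s : ZMod 3) m f) :
    (HT (Lt (3, 0) (s, (m : ℤ)))).P (N1_V _ f) := by
  rintro ⟨q, i⟩
  obtain ⟨x, rfl⟩ := QuotientAddGroup.mk_surjective q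
  obtain ⟨x1, x2⟩ := x
  refine ⟨?_, ?_⟩
  · have h1 : (HT (Lt (3, 0) (s, (m : ℤ)))).s
        ((((x1, x2) : ℤ × ℤ) : (ℤ × ℤ) ⧸ Lt (3, 0) (s, (m : ℤ))), i) =
        ((((x1, x2) : ℤ × ℤ) : (ℤ × ℤ) ⧸ Lt (3, 0) (s, (m : ℤ))), i + 1) := rfl
    rw [h1, N1_V_mk hf, N1_V_mk hf]
    exact hf.X _ _ _
  · fin_cases i
    · have s0 : (HT (Lt (3, 0) (s, (m : ℤ)))).t
          ((((x1, x2) : ℤ × ℤ) : (ℤ × ℤ) ⧸ Lt (3, 0) (s, (m : ℤ))), (0 : Fin 3)) =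
          ((((x1 - 1, x2) : ℤ × ℤ) : (ℤ × ℤ) ⧸ Lt (3, 0) (s, (m : ℤ))), (1 : Fin 3)) := by
        refine Prod.ext ?_ rfl
        change (((x1, x2) : ℤ × ℤ) : (ℤ × ℤ) ⧸ Lt (3, 0) (s, (m : ℤ))) + 0 -
          (((1, 0) : ℤ × ℤ) : (ℤ × ℤ) ⧸ Lt (3, 0) (s, (m : ℤ))) = _
        rw [add_zero, ← QuotientAddGroup.mk_sub, Prod.mk_sub_mk, sub_zero]
      change N1_V _ f ((HT (Lt (3, 0) (s, (m : ℤ)))).t
          ((((x1, x2) : ℤ × ℤ) : (ℤ × ℤ) ⧸ Lt (3, 0) (s, (m : ℤ))), (0 : Fin 3))) ≠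
        N1_V _ f ((((x1, x2) : ℤ × ℤ) : (ℤ × ℤ) ⧸ Lt (3, 0) (s, (m : ℤ))), (0 : Fin 3))
      rw [s0, N1_V_mk hf, N1_V_mk hf]
      simp only
      push_cast
      exact (hf.Y x2 (x1 : ZMod 3)).1.symm
    · have s1 : (HT (Lt (3, 0) (s, (m : ℤ)))).t
          ((((x1, x2) : ℤ × ℤ) : (ℤ × ℤ) ⧸ Lt (3, 0) (s, (m : ℤ))), (1 : Fin 3)) =
          ((((x1 + 1, x2 - 1) : ℤ × ℤ) : (ℤ × ℤ) ⧸ Lt (3, 0) (s, (m : ℤ))), (2 : Fin 3)) := by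
        refine Prod.ext ?_ rfl
        change (((x1, x2) : ℤ × ℤ) : (ℤ × ℤ) ⧸ Lt (3, 0) (s, (m : ℤ))) +
          (((1, 0) : ℤ × ℤ) : (ℤ × ℤ) ⧸ Lt (3, 0) (s, (m : ℤ))) -
          (((0, 1) : ℤ × ℤ) : (ℤ × ℤ) ⧸ Lt (3, 0) (s, (m : ℤ))) = _
        rw [← QuotientAddGroup.mk_add, ← QuotientAddGroup.mk_sub, Prod.mk_add_mk, Prod.mk_sub_mk,
          add_zero, sub_zero]
      change N1_V _ f ((HT (Lt (3, 0) (s, (m : ℤ)))).t
          ((((x1, x2) : ℤ × ℤ) : (ℤ × ℤ) ⧸ Lt (3, 0) (s, (m : ℤ))), (1 : Fin 3))) ≠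
        N1_V _ f ((((x1, x2) : ℤ × ℤ) : (ℤ × ℤ) ⧸ Lt (3, 0) (s, (m : ℤ))), (1 : Fin 3))
      rw [s1, N1_V_mk hf, N1_V_mk hf]
      simp only
      push_cast
      have h2 := (hf.Y x2 ((x1 : ZMod 3) + 1)).2.1
      rw [add_sub_cancel_right] at h2
      exact h2.symm
    · have s2 : (HT (Lt (3, 0) (s, (m : ℤ)))).t
          ((((x1, x2) : ℤ × ℤ) : (ℤ × ℤ) ⧸ Lt (3, 0) (s, (m : ℤ))), (2 : Fin 3)) =
          ((((x1, x2 + 1) : ℤ × ℤ) : (ℤ × ℤ) ⧸ Lt (3, 0) (s, (m : ℤ))), (0 : Fin 3)) := by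
        refine Prod.ext ?_ rfl
        change (((x1, x2) : ℤ × ℤ) : (ℤ × ℤ) ⧸ Lt (3, 0) (s, (m : ℤ))) +
          (((0, 1) : ℤ × ℤ) : (ℤ × ℤ) ⧸ Lt (3, 0) (s, (m : ℤ))) - 0 = _
        rw [sub_zero, ← QuotientAddGroup.mk_add, Prod.mk_add_mk, add_zero]
      change N1_V _ f ((HT (Lt (3, 0) (s, (m : ℤ)))).t
          ((((x1, x2) : ℤ × ℤ) : (ℤ × ℤ) ⧸ Lt (3, 0) (s, (m : ℤ))), (2 : Fin 3))) ≠
        N1_V _ f ((((x1, x2) : ℤ × ℤ) : (ℤ × ℤ) ⧸ Lt (3, 0) (s, (m : ℤ))), (2 : Fin 3))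
      rw [s2, N1_V_mk hf, N1_V_mk hf]
      simp only
      have h2 := (hf.Y (x2 + 1) (x1 : ZMod 3)).2.2
      rw [add_sub_cancel_right] at h2
      exact h2.symm

private lemma N1_VU (c : ((ℤ × ℤ) ⧸ Lt (3, 0) (s, (m : ℤ))) × Fin 3 → Fin 3)
    (hc : (HT (Lt (3, 0) (s, (m : ℤ)))).P c) : N1_V _ (N1_U _ c) = c := by
  funext p
  obtain ⟨q, i⟩ := p
  obtain ⟨x, rfl⟩ := QuotientAddGroup.mk_surjective q
  have h1 := N1_V_mk (N1_tcol hc) x i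
  rw [N1_U_cast] at h1
  exact h1

private lemma N1_KE {f g : ℤ → Fin 3 → ZMod 3 → Fin 3} (h : TKE (s : ZMod 3) m f g) :
    (HT (Lt (3, 0) (s, (m : ℤ)))).KE (N1_V _ f) (N1_V _ g) := by
  unfold TKE at h
  unfold CB.KE
  induction h with
  | rel f g hfg =>
    refine Relation.EqvGen.rel _ _ ⟨N1_P hfg.1, N1_P hfg.2.1, ?_⟩
    obtain ⟨k, hk⟩ := hfg.2.2
    refine ⟨k, ?_⟩
    rintro ⟨q, i⟩
    obtain ⟨x, rfl⟩ := QuotientAddGroup.mk_surjective q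
    have h1 := N1_V_mk hfg.1 x i
    have h2 := N1_V_mk hfg.2.1 x i
    have h3 := hk x.2 i (x.1 : ZMod 3)
    rw [← h1, ← h2] at h3
    exact h3
  | refl f => exact Relation.EqvGen.refl _
  | symm f g _ ih => exact Relation.EqvGen.symm _ _ ih
  | trans f g k _ _ ih1 ih2 => exact Relation.EqvGen.trans _ _ _ ih1 ih2

end N1

theorem con_of_tube (s : ℤ) (m : ℕ) (hm : 0 < m)
    (h : ∀ f g, TCol (s : ZMod 3) m f → TCol (s : ZMod 3) m g → TKE (s : ZMod 3) m f g) : (HT (Lt (3, 0) (s, (m : ℤ)))).Con := by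
  intro c c' hc hc'
  have h1 := N1_KE (h _ _ (N1_tcol hc) (N1_tcol hc'))
  rw [N1_VU c hc, N1_VU c' hc'] at h1
  exact h1

end Pool.Agent.PP
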