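import Pool.Agent.Lib_MP_7c0803_hon.N1

/-!
# [HON-N2] Rows of a tube; colourings with a missing colour

`row_cnt`: for a colour `k`: at the `Y`-vertices of the layer `b`, `∑ a, ([f b 0 a = k] + [f b 1 (a - 1) = k] + [f (b - 1) 2 a = k]) = 3`, at the `X`-vertices
`∑ a, ([f b 0 a = k] + [f b 1 a = k] + [f b 2 a = k]) = 3` (three different colours); `∑ a, [f b 1 (a - 1) = k] = ∑ a, [f b 1 a = k]` (`Equiv.sum_comp (Equiv.subRight 1)`).  So the rows
`b - 1` and `b` contain `k` equally often; by induction (`Int.induction_on`) all rows.  `row_inj`, `row_miss` follow (`f b 2` is injective iff every colour occurs exactly once).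

`miss_ke`: let `k` be missing in the rows, `{k, k', k''}` the three colours.  Step 1: `f' b i a = k` if `f b i a = k`, otherwise `k'` if `i = 2`, `k''` if `i ≠ 2`: `TCol` (at every
vertex exactly one of the edges of the slots `0, 1` has the colour `k`), and `TRel f f'` with the class `k`.  Step 2: `f'' b i a = k', k, k''` for `i = 2, 0, 1`: common class `k'` with `f'` (in both
the class `k'` consists of the edges of slot `2`).  Step 3: `f''` is the colouring `sc σ` with colours depending only on the slot; two such are equivalent: `sc σ` and `sc τ` have a common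
class if `σ i = τ i` for some `i`, and any two permutations of three colours are connected by such steps (`decide` over `σ, τ, ρ`).  So `TKE s m f (sc id)` with `sc0 b i a = i`.
-/

set_option autoImplicit false

open Finset Function

namespace Pool.Agent.PP

/-- the colouring by slots -/
def sc0 : ℤ → Fin 3 → ZMod 3 → Fin 3 := fun _ i _ => i

theorem row_cnt (s : ZMod 3) (m : ℕ) (f : ℤ → Fin 3 → ZMod 3 → Fin 3) (h : TCol s m f) (k : Fin 3) (b b' : ℤ) :
    (univ.filter fun a => f b 2 a = k).card = (univ.filter fun a => f b' 2 a = k).card := by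
  have key : ∀ b : ℤ, (univ.filter fun a => f b 2 a = k).card =
      (univ.filter fun a => f (b - 1) 2 a = k).card := by
    intro b
    have h3 : ∀ x y z k : Fin 3, x ≠ y → y ≠ z → z ≠ x →
        (if x = k then 1 else 0) + (if y = k then 1 else 0) + (if z = k then 1 else 0) = 1 := by
      decide
    have hX : ∑ a : ZMod 3, ((if f b 0 a = k then 1 else 0) + (if f b 1 a = k then 1 else 0) +
        (if f b 2 a = k then 1 else 0)) = ∑ _a : ZMod 3, 1 := by
      refine Finset.sum_congr rfl fun a _ => h3 _ _ _ _ ?_ ?_ ?_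
      · exact (h.X b 0 a).symm
      · exact (h.X b 1 a).symm
      · exact (h.X b 2 a).symm
    have hY : ∑ a : ZMod 3, ((if f b 0 a = k then 1 else 0) +
        (if f b 1 (a - 1) = k then 1 else 0) +
        (if f (b - 1) 2 a = k then 1 else 0)) = ∑ _a : ZMod 3, 1 := by
      refine Finset.sum_congr rfl fun a _ => h3 _ _ _ _ ?_ ?_ ?_
      · exact (h.Y b a).1
      · exact (h.Y b a).2.1
      · exact (h.Y b a).2.2
    have hs : ∑ a : ZMod 3, (if f b 1 (a - 1) = k then 1 else 0) =
        ∑ a : ZMod 3, (if f b 1 a = k then 1 else 0) :=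
      Equiv.sum_comp (Equiv.subRight (1 : ZMod 3)) fun a => (if f b 1 a = k then 1 else 0)
    rw [Finset.sum_add_distrib, Finset.sum_add_distrib] at hX hY
    rw [Finset.card_filter, Finset.card_filter]
    omega
  have key0 : ∀ b : ℤ, (univ.filter fun a => f b 2 a = k).card =
      (univ.filter fun a => f 0 2 a = k).card := by
    intro b
    induction b using Int.induction_on with
    | zero => rfl
    | succ i ih =>
      rw [key ((i : ℤ) + 1), add_sub_cancel_right]
      exact ih
    | pred i ih =>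
      rw [← key (-(i : ℤ))]
      exact ih
  rw [key0 b, key0 b']

theorem row_inj (s : ZMod 3) (m : ℕ) (f : ℤ → Fin 3 → ZMod 3 → Fin 3) (h : TCol s m f) (b b' : ℤ) (hi : Injective (f b 2)) :
    Injective (f b' 2) := by
  intro x y hxy
  have h1 := row_cnt s m f h (f b' 2 x) b b'
  have h2 : (univ.filter fun a => f b 2 a = f b' 2 x).card ≤ 1 := by
    rw [Finset.card_le_one]
    intro a ha a' ha'
    rw [Finset.mem_filter] at ha ha'
    exact hi (ha.2.trans ha'.2.symm)
  rw [h1, Finset.card_le_one] at h2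
  exact h2 x (by rw [Finset.mem_filter]; exact ⟨Finset.mem_univ _, rfl⟩) y
    (by rw [Finset.mem_filter]; exact ⟨Finset.mem_univ _, hxy.symm⟩)

theorem row_miss (s : ZMod 3) (m : ℕ) (f : ℤ → Fin 3 → ZMod 3 → Fin 3) (h : TCol s m f) (b : ℤ) (hi : ¬ Injective (f b 2)) :
    ∃ k, ∀ b' a, f b' 2 a ≠ k := by
  have hsurj : ¬ Surjective (f b 2) := by
    intro hs
    exact hi ((Finite.injective_iff_surjective_of_equiv (ZMod.finEquiv 3).symm.toEquiv).2 hs)
  have hex : ∃ k, ∀ a, f b 2 a ≠ k := by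
    by_contra hcon
    push Not at hcon
    exact hsurj hcon
  obtain ⟨k, hk⟩ := hex
  refine ⟨k, fun b' a ha => ?_⟩
  have h1 := row_cnt s m f h k b b'
  have h2 : (univ.filter fun a => f b 2 a = k).card = 0 := by
    rw [Finset.card_eq_zero, Finset.filter_eq_empty_iff]
    intro a _
    exact hk a
  rw [h2] at h1
  have h3 := Finset.card_eq_zero.1 h1.symm
  rw [Finset.filter_eq_empty_iff] at h3
  exact h3 (Finset.mem_univ a) ha

/-- recolouring of the other two classes by slots -/
def N2_F (k i v : Fin 3) : Fin 3 := if v = k then k else if i = 2 then k + 1 else k + 2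

lemma N2_dec1 : ∀ k x y z : Fin 3, y ≠ x → z ≠ y → x ≠ z → z ≠ k →
    N2_F k 1 y ≠ N2_F k 0 x ∧ N2_F k 2 z ≠ N2_F k 1 y ∧ N2_F k 0 x ≠ N2_F k 2 z := by
  decide

lemma N2_dec2 : ∀ k i v : Fin 3, (v = k ↔ N2_F k i v = k) := by
  decide

lemma N2_dec3 : ∀ k i v : Fin 3, (i = 2 → v ≠ k) → (N2_F k i v = k + 1 ↔ k - i = k + 1) := by
  decide

lemma N2_dec4 : ∀ σ : Equiv.Perm (Fin 3), ∃ ρ : Equiv.Perm (Fin 3), (∃ i, σ i = ρ i) ∧ ∃ i, ρ i = i := by
  decide

/-- colourings depending on the slot only -/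
def N2_sc (σ : Equiv.Perm (Fin 3)) : ℤ → Fin 3 → ZMod 3 → Fin 3 := fun _ i _ => σ i

lemma N2_scT (s : ZMod 3) (m : ℕ) (σ : Equiv.Perm (Fin 3)) : TCol s m (N2_sc σ) where
  X := by
    intro b i a e
    exact absurd (σ.injective e) ((by decide : ∀ i : Fin 3, i + 1 ≠ i) i)
  Y := by
    intro b a
    refine ⟨fun e => ?_, fun e => ?_, fun e => ?_⟩
    · exact absurd (σ.injective e) (by decide)
    · exact absurd (σ.injective e) (by decide)
    · exact absurd (σ.injective e) (by decide)
  per := fun b i a => rfl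

lemma N2_scR (σ τ : Equiv.Perm (Fin 3)) (i : Fin 3) (h : σ i = τ i) : TRel (N2_sc σ) (N2_sc τ) := by
  refine ⟨σ i, fun b j a => ?_⟩
  show σ j = σ i ↔ τ j = σ i
  rw [σ.injective.eq_iff, h, τ.injective.eq_iff]

theorem miss_ke (s : ZMod 3) (m : ℕ) (f : ℤ → Fin 3 → ZMod 3 → Fin 3) (h : TCol s m f) (k : Fin 3) (hk : ∀ b a, f b 2 a ≠ k) :
    TKE s m f sc0 := by
  have h1 : TCol s m (fun b i a => N2_F k i (f b i a)) := by
    refine ⟨?_, ?_, ?_⟩
    · intro b i a
      have hd := N2_dec1 k (f b 0 a) (f b 1 a) (f b 2 a) (h.X b 0 a) (h.X b 1 a) (h.X b 2 a) (hk b a)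
      fin_cases i
      · exact hd.1
      · exact hd.2.1
      · exact hd.2.2
    · intro b a
      have hY := h.Y b a
      have hd := N2_dec1 k (f b 0 a) (f b 1 (a - 1)) (f (b - 1) 2 a) hY.1.symm hY.2.1.symm hY.2.2.symm (hk (b - 1) a)
      exact ⟨hd.1.symm, hd.2.1.symm, hd.2.2.symm⟩
    · intro b i a
      show N2_F k i (f (b + m) i a) = N2_F k i (f b i (a - s))
      rw [h.per b i a]
  have r1 : TRel f (fun b i a => N2_F k i (f b i a)) := ⟨k, fun b i a => N2_dec2 k i (f b i a)⟩
  have r2 : TRel (fun b i a => N2_F k i (f b i a)) (N2_sc (Equiv.subLeft k)) := by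
    refine ⟨k + 1, fun b i a => N2_dec3 k i (f b i a) ?_⟩
    intro hi
    subst hi
    exact hk b a
  obtain ⟨ρ, ⟨i, hi⟩, ⟨j, hj⟩⟩ := N2_dec4 (Equiv.subLeft k)
  have e : (sc0 : ℤ → Fin 3 → ZMod 3 → Fin 3) = N2_sc 1 := rfl
  rw [e]
  refine Relation.EqvGen.trans _ _ _ (Relation.EqvGen.rel _ _ ⟨h, h1, r1⟩) ?_
  refine Relation.EqvGen.trans _ _ _ (Relation.EqvGen.rel _ _ ⟨h1, N2_scT s m (Equiv.subLeft k), r2⟩) ?_
  refine Relation.EqvGen.trans _ _ _ (Relation.EqvGen.rel _ _ ⟨N2_scT s m (Equiv.subLeft k), N2_scT s m ρ, N2_scR _ _ i hi⟩) ?_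
  exact Relation.EqvGen.rel _ _ ⟨N2_scT s m ρ, N2_scT s m 1, N2_scR _ _ j hj⟩

end Pool.Agent.PP
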