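import Pool.Agent.Lib_MP_7c0803_hon.N1

/-!
# [HON-N3] Blocks of four layers with rainbow rows

`LOK r l`: the layer `l` (colours `l i a` of the edges of slot `i` at the place `a`) fits over the row `r`.  If `r` is injective there are exactly four such layers `lay r w`, `w : Fin 4`
(`w = 3`: the row is rotated; `w = j < 3`: the colours at `j` and `j + 1` are exchanged).

`lay_iff`: `→`: `l 1 (a - 1)` is the third colour of the `Y`-vertex, `l 2 a` that of the `X`-vertex, so with `t x y = -(x + y)` (third colour in `Fin 3`) `l 1 a = t (r (a + 1)) (l 0 (a + 1))`,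
`l 2 a = t (l 0 a) (l 1 a)`; then `decide` over the `27 * 27` pairs `(r, l 0)` (as functions `Fin 3 → Fin 3`; or write `r`, `l 0` as triples).
`blk_ex`: over a row `r` every injective row `r'` is the top row of a block of two layers: the rows `r ∘ ρ`, `r ∘ τ_j` in one step (`ρ` rotation, `τ_j` transpositions), in two steps all six
(`decide`); so with a prescribed first layer (its top row is injective) and one arbitrary layer, two more layers reach `r'`; `blk_ex2` is two such blocks of two layers.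
`blk_con`: every block is `blk r w` for a word `w` of four letters, with rows `r ∘ σ_t`, `σ_t` depending only on the word (`lay (g ∘ r) w = g ∘ lay r w` slotwise), so common colour classes and equal
top rows can be decided for `r = id`.  The row states are numbered `0..5` for the rows `012, 021, 102, 120, 201, 210`; `nxT st w` is the next state, `mkT st w k` the set (bits `3 i + a`) of the edges of the
layer with colour `k` (both checked against `lay` by `decide`).  `trT` lists the `256` words (`64 w0 + 16 w1 + 4 w2 + w3`) with an earlier word with the same end state and a common class; `trT_ok` checks it, the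
first word of every end state is its own parent and there is only one such word for every end state.  So any two words with the same end state are connected (induction along the list).
-/

set_option autoImplicit false
set_option maxRecDepth 100000

open Finset Function

namespace Pool.Agent.PP

/-- the layer `l` fits over the row `r` -/
def LOK (r : ZMod 3 → Fin 3) (l : Fin 3 → ZMod 3 → Fin 3) : Prop :=
  (∀ i a, l (i + 1) a ≠ l i a) ∧ ∀ a, l 0 a ≠ l 1 (a - 1) ∧ l 1 (a - 1) ≠ r a ∧ r a ≠ l 0 a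

/-- the four layers over a rainbow row -/
def lay (r : ZMod 3 → Fin 3) (w : Fin 4) (i : Fin 3) (a : ZMod 3) : Fin 3 :=
  if w = 3 then (if i = 0 then r (a + 1) else if i = 1 then r a else r (a + 2))
  else
    let j : ZMod 3 := (w.val : ZMod 3)
    if i = 0 then (if a = j then r (j + 2) else r (a + 1))
    else if i = 1 then (if a = j - 1 then r (j + 1) else r a)
    else (if a = j then r (j + 1) else if a = j + 1 then r j else r a)

/-- a block of four layers over the row `r` -/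
def Blk (r : ZMod 3 → Fin 3) (l : Fin 4 → Fin 3 → ZMod 3 → Fin 3) : Prop :=
  LOK r (l 0) ∧ LOK (l 0 2) (l 1) ∧ LOK (l 1 2) (l 2) ∧ LOK (l 2 2) (l 3)

/-- next row of the row `st` and the letter `w` -/
def nxT (st w : ℕ) : ℕ := [2, 1, 5, 4, 4, 0, 3, 2, 0, 3, 4, 5, 5, 2, 1, 0, 1, 5, 2, 3, 3, 4, 0, 1].getD (4 * st + w) 0

/-- colour class `k` of the layer (bit `3 i + a`) -/
def mkT (st w k : ℕ) : ℕ := [140, 112, 259, 70, 273, 168, 280, 133, 98, 140, 273, 98, 140, 259, 112, 70, 168, 273, 280, 98, 133, 140, 98, 273, 112, 140, 259, 273, 70, 168, 133, 280, 98, 273, 140, 98, 259, 140, 112, 168, 70, 273, 98, 280, 133, 98, 140, 273, 112, 259, 140, 273, 168, 70, 133, 98, 280, 273, 98, 140, 259, 112, 140, 168, 273, 70, 98, 133, 280, 98, 273, 140].getD (3 * (4 * st + w) + k) 0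

/-- word, earlier word with the same ends and a common colour class `k` (the first word of every end row is its own parent) -/
def trT : List (ℕ × ℕ × ℕ) :=
  [(0, 0, 0), (204, 0, 0), (51, 0, 1), (72, 204, 1), (79, 204, 1), (203, 204, 1), (132, 204, 2), (188, 204, 2),
   (244, 204, 2), (18, 51, 0), (211, 51, 0), (242, 51, 0), (33, 51, 2), (47, 51, 2), (61, 51, 2), (70, 79, 0),
   (119, 79, 0), (126, 79, 0), (65, 79, 2), (10, 203, 0), (137, 203, 2), (187, 203, 2), (249, 203, 2), (160, 188, 0),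
   (152, 188, 1), (159, 188, 1), (20, 244, 0), (100, 244, 1), (231, 244, 1), (80, 211, 1), (145, 211, 2), (221, 211, 2),
   (98, 242, 1), (238, 242, 1), (130, 242, 2), (38, 47, 0), (40, 47, 1), (25, 61, 0), (5, 61, 1), (85, 119, 2),
   (90, 126, 2), (170, 187, 0), (105, 249, 1), (150, 159, 0), (165, 231, 2), (1, 1, 0), (15, 1, 0), (195, 1, 0),
   (205, 1, 0), (6, 15, 1), (55, 15, 1), (62, 15, 1), (8, 15, 2), (66, 195, 1), (128, 195, 2), (179, 195, 2),
   (240, 195, 2), (73, 205, 1), (133, 205, 2), (189, 205, 2), (245, 205, 2), (21, 55, 0), (215, 55, 0), (36, 55, 2),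
   (26, 62, 0), (222, 62, 0), (250, 62, 0), (34, 62, 2), (161, 179, 0), (175, 179, 0), (146, 179, 1), (16, 240, 0),
   (96, 240, 1), (124, 240, 1), (236, 240, 1), (123, 73, 0), (153, 189, 1), (101, 245, 1), (86, 215, 1), (95, 215, 1),
   (148, 215, 2), (106, 250, 1), (235, 250, 1), (138, 250, 2), (166, 175, 1), (168, 175, 2), (68, 124, 0), (88, 124, 2),
   (81, 95, 0), (41, 235, 0), (2, 2, 0), (206, 2, 0), (74, 206, 1), (134, 206, 2), (143, 206, 2), (183, 206, 2),
   (190, 206, 2), (199, 206, 2), (246, 206, 2), (255, 206, 2), (136, 143, 0), (129, 143, 1), (164, 183, 0), (149, 183, 1),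
   (162, 190, 0), (154, 190, 1), (4, 199, 0), (69, 199, 1), (22, 246, 0), (102, 246, 1), (24, 255, 0), (31, 255, 0),
   (59, 255, 0), (60, 255, 0), (219, 255, 0), (220, 255, 0), (248, 255, 0), (97, 255, 1), (111, 255, 1), (115, 255, 1),
   (125, 255, 1), (227, 255, 1), (237, 255, 1), (241, 255, 1), (17, 31, 1), (9, 59, 1), (42, 59, 2), (32, 60, 2),
   (89, 219, 1), (84, 220, 1), (144, 220, 2), (104, 248, 1), (64, 115, 0), (82, 115, 2), (37, 237, 0), (169, 237, 2),
   (3, 3, 0), (13, 3, 0), (193, 3, 0), (207, 3, 0), (48, 3, 1), (53, 13, 1), (177, 193, 2), (75, 207, 1),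
   (76, 207, 1), (200, 207, 1), (135, 207, 2), (142, 207, 2), (182, 207, 2), (191, 207, 2), (198, 207, 2), (247, 207, 2),
   (254, 207, 2), (208, 48, 0), (44, 48, 2), (23, 53, 0), (213, 53, 0), (163, 177, 0), (173, 177, 0), (121, 75, 0),
   (116, 76, 0), (184, 200, 2), (155, 191, 1), (156, 191, 1), (103, 247, 1), (228, 247, 1), (30, 254, 0), (58, 254, 0),
   (218, 254, 0), (110, 254, 1), (114, 254, 1), (226, 254, 1), (83, 208, 1), (43, 44, 1), (93, 213, 1), (233, 173, 2),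
   (7, 7, 0), (196, 7, 0), (14, 7, 1), (54, 7, 1), (63, 7, 1), (140, 196, 2), (180, 196, 2), (252, 196, 2),
   (194, 14, 0), (214, 54, 0), (27, 63, 0), (28, 63, 0), (56, 63, 0), (216, 63, 0), (223, 63, 0), (251, 63, 0),
   (35, 63, 2), (45, 63, 2), (49, 63, 2), (139, 140, 0), (167, 180, 0), (108, 252, 1), (112, 252, 1), (224, 252, 1),
   (67, 194, 1), (178, 194, 2), (87, 214, 1), (94, 214, 1), (147, 223, 2), (157, 223, 2), (209, 223, 2), (107, 251, 1),
   (122, 251, 1), (234, 251, 1), (185, 251, 2), (201, 251, 2), (229, 45, 0), (174, 167, 1), (77, 67, 2), (117, 87, 2),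
   (11, 11, 0), (202, 11, 0), (57, 11, 1), (12, 11, 2), (78, 202, 1), (186, 202, 2), (29, 57, 0), (217, 57, 0),
   (253, 57, 0), (192, 12, 0), (52, 12, 1), (71, 78, 0), (118, 78, 0), (127, 78, 0), (171, 186, 0), (158, 186, 1),
   (19, 29, 1), (91, 217, 1), (99, 253, 1), (109, 253, 1), (113, 253, 1), (225, 253, 1), (239, 253, 1), (243, 253, 1),
   (141, 253, 2), (181, 253, 2), (197, 253, 2), (131, 192, 2), (176, 192, 2), (212, 52, 0), (39, 52, 2), (230, 118, 1),
   (92, 127, 2), (120, 127, 2), (172, 171, 2), (232, 171, 2), (151, 158, 0), (210, 158, 2), (50, 19, 0), (46, 239, 0)]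

/-- end state of a word -/
def enT (c : ℕ) : ℕ := nxT (nxT (nxT (nxT 0 (c / 64)) (c / 16 % 4)) (c / 4 % 4)) (c % 4)

/-- colour class `k` of the block of a word -/
def clT (c k : ℕ) : ℕ × ℕ × ℕ × ℕ :=
  (mkT 0 (c / 64) k, mkT (nxT 0 (c / 64)) (c / 16 % 4) k, mkT (nxT (nxT 0 (c / 64)) (c / 16 % 4)) (c / 4 % 4) k,
    mkT (nxT (nxT (nxT 0 (c / 64)) (c / 16 % 4)) (c / 4 % 4)) (c % 4) k)

/-- check of the list, `acc` = words seen so far -/
def chT : List (ℕ × ℕ × ℕ) → List ℕ → Bool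
  | [], _ => true
  | x :: l, acc =>
    ((Nat.beq x.1 x.2.1 && acc.all fun y => !(Nat.beq (enT y) (enT x.1))) ||
      (acc.any (Nat.beq x.2.1) && Nat.beq (enT x.1) (enT x.2.1) && Nat.blt x.2.2 3 && decide (clT x.1 x.2.2 = clT x.2.1 x.2.2))) &&
    chT l (x.1 :: acc)

theorem trT_ok : chT trT [] = true := by decide +kernel

theorem trT_all : ((List.range 256).all fun c => trT.any fun x => Nat.beq x.1 c) = true := by decide +kernel

/-- function on `ZMod 3` from its values -/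
private def N3_tri (x y z : Fin 3) : ZMod 3 → Fin 3 := fun a => if a = 0 then x else if a = 1 then y else z

private theorem N3_tri_eta (f : ZMod 3 → Fin 3) : f = N3_tri (f 0) (f 1) (f 2) := by
  funext a
  fin_cases a <;> rfl

private instance N3_decLOK (r : ZMod 3 → Fin 3) (l : Fin 3 → ZMod 3 → Fin 3) : Decidable (LOK r l) := by
  unfold LOK
  infer_instance

/-- the layer over `r` with the slot `0` coloured by `m` -/
private def N3_F (r m : ZMod 3 → Fin 3) (i : Fin 3) (a : ZMod 3) : Fin 3 :=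
  if i = 0 then m a else if i = 1 then -(m (a + 1) + r (a + 1)) else -(m a + -(m (a + 1) + r (a + 1)))

private theorem N3_third : ∀ x y z : Fin 3, x ≠ y → z ≠ x → z ≠ y → z = -(x + y) := by decide

private theorem N3_d1 : ∀ x y z x' y' z' : Fin 3, x ≠ y → y ≠ z → x ≠ z → LOK (N3_tri x y z) (N3_F (N3_tri x y z) (N3_tri x' y' z')) →
    ∃ w : Fin 4, ∀ i a, N3_F (N3_tri x y z) (N3_tri x' y' z') i a = lay (N3_tri x y z) w i a := by decide +kernel

private theorem N3_d2 : ∀ x y z : Fin 3, x ≠ y → y ≠ z → x ≠ z → ∀ w : Fin 4, LOK (N3_tri x y z) (lay (N3_tri x y z) w) := by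
  decide +kernel

private theorem N3_d3 : ∀ x y z : Fin 3, x ≠ y → y ≠ z → x ≠ z → ∀ w : Fin 4, lay (N3_tri x y z) w 2 0 ≠ lay (N3_tri x y z) w 2 1 ∧
    lay (N3_tri x y z) w 2 1 ≠ lay (N3_tri x y z) w 2 2 ∧ lay (N3_tri x y z) w 2 0 ≠ lay (N3_tri x y z) w 2 2 := by
  decide +kernel

private theorem N3_d4 : ∀ x y z : Fin 3, x ≠ y → y ≠ z → x ≠ z → ∀ x' y' z' : Fin 3, x' ≠ y' → y' ≠ z' → x' ≠ z' →
    ∃ v w : Fin 4, ∀ a, lay (lay (N3_tri x y z) v 2) w 2 a = N3_tri x' y' z' a := by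
  decide +kernel

private theorem N3_ne (r : ZMod 3 → Fin 3) (hr : Injective r) : r 0 ≠ r 1 ∧ r 1 ≠ r 2 ∧ r 0 ≠ r 2 :=
  ⟨fun h => absurd (hr h) (by decide), fun h => absurd (hr h) (by decide), fun h => absurd (hr h) (by decide)⟩

private theorem N3_two (r r' : ZMod 3 → Fin 3) (hr : Injective r) (hr' : Injective r') :
    ∃ v w : Fin 4, lay (lay r v 2) w 2 = r' := by
  obtain ⟨h1, h2, h3⟩ := N3_ne r hr
  obtain ⟨h4, h5, h6⟩ := N3_ne r' hr'
  obtain ⟨v, w, h⟩ := N3_d4 _ _ _ h1 h2 h3 _ _ _ h4 h5 h6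
  rw [← N3_tri_eta r, ← N3_tri_eta r'] at h
  exact ⟨v, w, funext h⟩

theorem lay_iff (r : ZMod 3 → Fin 3) (hr : Injective r) (l : Fin 3 → ZMod 3 → Fin 3) : LOK r l ↔ ∃ w, l = lay r w := by
  obtain ⟨h1, h2, h3⟩ := N3_ne r hr
  constructor
  · intro h
    have e1 : ∀ a, l 1 a = -(l 0 (a + 1) + r (a + 1)) := by
      intro a
      obtain ⟨g1, g2, g3⟩ := h.2 (a + 1)
      have e : a + 1 - 1 = a := by ring
      rw [e] at g1 g2
      exact N3_third _ _ _ (Ne.symm g3) (Ne.symm g1) g2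
    have e2 : ∀ a, l 2 a = -(l 0 a + l 1 a) := by
      intro a
      exact N3_third _ _ _ (Ne.symm (h.1 0 a)) (Ne.symm (h.1 2 a)) (h.1 1 a)
    have e3 : l = N3_F r (l 0) := by
      funext i a
      fin_cases i
      · rfl
      · exact e1 a
      · show l 2 a = -(l 0 a + -(l 0 (a + 1) + r (a + 1)))
        rw [e2 a, e1 a]
    rw [e3] at h
    have h' := N3_d1 (r 0) (r 1) (r 2) (l 0 0) (l 0 1) (l 0 2) h1 h2 h3
    rw [← N3_tri_eta r, ← N3_tri_eta (l 0)] at h'
    obtain ⟨w, hw⟩ := h' h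
    exact ⟨w, e3.trans (funext fun i => funext fun a => hw i a)⟩
  · rintro ⟨w, rfl⟩
    have h := N3_d2 (r 0) (r 1) (r 2) h1 h2 h3 w
    rw [← N3_tri_eta r] at h
    exact h

theorem lay_inj (r : ZMod 3 → Fin 3) (hr : Injective r) (w : Fin 4) : Injective (lay r w 2) := by
  obtain ⟨h1, h2, h3⟩ := N3_ne r hr
  have h := N3_d3 (r 0) (r 1) (r 2) h1 h2 h3 w
  rw [← N3_tri_eta r] at h
  obtain ⟨g1, g2, g3⟩ := h
  intro a b hab
  fin_cases a <;> fin_cases b
  · rfl
  · exact absurd hab g1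
  · exact absurd hab g3
  · exact absurd hab g1.symm
  · rfl
  · exact absurd hab g2
  · exact absurd hab g3.symm
  · exact absurd hab g2.symm
  · rfl

theorem blk_ex (r r' : ZMod 3 → Fin 3) (hr : Injective r) (hr' : Injective r') (l0 : Fin 3 → ZMod 3 → Fin 3) (h0 : LOK r l0) :
    ∃ l, Blk r l ∧ l 0 = l0 ∧ l 3 2 = r' := by
  obtain ⟨w, rfl⟩ := (lay_iff r hr l0).1 h0
  have i1 := lay_inj r hr w
  have i2 := lay_inj _ i1 3
  obtain ⟨v, u, h⟩ := N3_two (lay (lay r w 2) 3 2) r' i2 hr'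
  have i3 := lay_inj _ i2 v
  refine ⟨![lay r w, lay (lay r w 2) 3, lay (lay (lay r w 2) 3 2) v, lay (lay (lay (lay r w 2) 3 2) v 2) u], ⟨h0, ?_, ?_, ?_⟩, rfl, h⟩
  · exact (lay_iff _ i1 _).2 ⟨3, rfl⟩
  · exact (lay_iff _ i2 _).2 ⟨v, rfl⟩
  · exact (lay_iff _ i3 _).2 ⟨u, rfl⟩

theorem blk_ex2 (r r' r'' : ZMod 3 → Fin 3) (hr : Injective r) (hr' : Injective r') (hr'' : Injective r'') :
    ∃ l, Blk r l ∧ l 1 2 = r' ∧ l 3 2 = r'' := by
  obtain ⟨v, u, h⟩ := N3_two r r' hr hr'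
  obtain ⟨v', u', h'⟩ := N3_two r' r'' hr' hr''
  have i1 := lay_inj r hr v
  have i3 := lay_inj r' hr' v'
  refine ⟨![lay r v, lay (lay r v 2) u, lay r' v', lay (lay r' v' 2) u'], ⟨?_, ?_, ?_, ?_⟩, h, h'⟩
  · exact (lay_iff _ hr _).2 ⟨v, rfl⟩
  · exact (lay_iff _ i1 _).2 ⟨u, rfl⟩
  · show LOK (lay (lay r v 2) u 2) (lay r' v')
    rw [h]
    exact (lay_iff _ hr' _).2 ⟨v', rfl⟩
  · exact (lay_iff _ i3 _).2 ⟨u', rfl⟩

/-! ### `blk_con` -/

/-- block of the word `w` over the row `r` -/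
private def bkl (r : ZMod 3 → Fin 3) (w : Fin 4 × Fin 4 × Fin 4 × Fin 4) (t : Fin 4) : Fin 3 → ZMod 3 → Fin 3 :=
  if t = 0 then lay r w.1
  else if t = 1 then lay (lay r w.1 2) w.2.1
  else if t = 2 then lay (lay (lay r w.1 2) w.2.1 2) w.2.2.1
  else lay (lay (lay (lay r w.1 2) w.2.1 2) w.2.2.1 2) w.2.2.2

/-- the word with the number `c` -/
private def dec4 (c : ℕ) : Fin 4 × Fin 4 × Fin 4 × Fin 4 :=
  (Fin.ofNat 4 (c / 64), Fin.ofNat 4 (c / 16), Fin.ofNat 4 (c / 4), Fin.ofNat 4 c)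

/-- the standard row -/
private def row0 (a : ZMod 3) : Fin 3 := a

/-- block of the word with the number `c` over the standard row -/
private def bk0 (c : ℕ) : Fin 4 → Fin 3 → ZMod 3 → Fin 3 := bkl row0 (dec4 c)

/-- equal end rows -/
private def enb (y z : ℕ) : Bool := decide (∀ a : ZMod 3, bk0 y 3 2 a = bk0 z 3 2 a)

/-- equal colour class `k` -/
private def clb (c c' : ℕ) (k : Fin 3) : Bool := decide (∀ t i a, (bk0 c t i a = k ↔ bk0 c' t i a = k))

/-- check of the list, `acc` = words seen so far (as `chT`, but read off `lay` directly) -/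
private def chS : List (ℕ × ℕ × ℕ) → List ℕ → Bool
  | [], _ => true
  | x :: l, acc =>
    ((Nat.beq x.1 x.2.1 && acc.all fun y => !(enb y x.1)) ||
      (acc.any (Nat.beq x.2.1) && enb x.1 x.2.1 && clb x.1 x.2.1 (Fin.ofNat 3 x.2.2))) &&
    chS l (x.1 :: acc)

private theorem chS_ok : chS trT [] = true := by decide +kernel

private theorem dec4_all : ∀ w0 w1 w2 w3 : Fin 4, dec4 (64 * w0 + 16 * w1 + 4 * w2 + w3) = (w0, w1, w2, w3) := by decide +kernel

private theorem lay_comp (g : Fin 3 → Fin 3) (r : ZMod 3 → Fin 3) (w : Fin 4) (i : Fin 3) : lay (g ∘ r) w i = g ∘ lay r w i := by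
  funext a
  simp only [lay, comp_apply]
  split_ifs <;> rfl

private theorem bkl_comp (g : Fin 3 → Fin 3) (r : ZMod 3 → Fin 3) (w : Fin 4 × Fin 4 × Fin 4 × Fin 4) (t : Fin 4) (i : Fin 3) (a : ZMod 3) :
    bkl (g ∘ r) w t i a = g (bkl r w t i a) := by
  unfold bkl
  split_ifs <;> simp only [lay_comp, comp_apply]

private theorem bkl_blk (r : ZMod 3 → Fin 3) (hr : Injective r) (w : Fin 4 × Fin 4 × Fin 4 × Fin 4) : Blk r (bkl r w) := by
  have h1 := lay_inj r hr w.1
  have h2 := lay_inj _ h1 w.2.1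
  have h3 := lay_inj _ h2 w.2.2.1
  exact ⟨(lay_iff r hr _).2 ⟨w.1, rfl⟩, (lay_iff _ h1 _).2 ⟨w.2.1, rfl⟩, (lay_iff _ h2 _).2 ⟨w.2.2.1, rfl⟩, (lay_iff _ h3 _).2 ⟨w.2.2.2, rfl⟩⟩

private theorem blk_bkl (r : ZMod 3 → Fin 3) (hr : Injective r) (l : Fin 4 → Fin 3 → ZMod 3 → Fin 3) (h : Blk r l) :
    ∃ c < 256, l = bkl r (dec4 c) := by
  obtain ⟨h0, h1, h2, h3⟩ := h
  obtain ⟨w0, e0⟩ := (lay_iff r hr _).1 h0
  rw [e0] at h1
  have i1 := lay_inj r hr w0
  obtain ⟨w1, e1⟩ := (lay_iff _ i1 _).1 h1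
  rw [e1] at h2
  have i2 := lay_inj _ i1 w1
  obtain ⟨w2, e2⟩ := (lay_iff _ i2 _).1 h2
  rw [e2] at h3
  have i3 := lay_inj _ i2 w2
  obtain ⟨w3, e3⟩ := (lay_iff _ i3 _).1 h3
  refine ⟨64 * w0 + 16 * w1 + 4 * w2 + w3, by omega, ?_⟩
  rw [dec4_all]
  funext t
  fin_cases t
  · exact e0
  · exact e1
  · exact e2
  · exact e3

/-- one step between words -/
private def wstp (c c' : ℕ) : Prop := enb c c' = true ∧ ∃ k, clb c c' k = true

private theorem enb_iff (c c' : ℕ) : enb c c' = true ↔ bk0 c 3 2 = bk0 c' 3 2 := by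
  rw [enb, decide_eq_true_iff]
  exact ⟨fun h => funext h, fun h a => by rw [h]⟩

private theorem chS_con : ∀ (L : List (ℕ × ℕ × ℕ)) (acc : List ℕ), chS L acc = true →
    (∀ x ∈ acc, ∀ y ∈ acc, bk0 x 3 2 = bk0 y 3 2 → Relation.EqvGen wstp x y) →
    ∀ x, (x ∈ acc ∨ ∃ p ∈ L, p.1 = x) → ∀ y, (y ∈ acc ∨ ∃ p ∈ L, p.1 = y) → bk0 x 3 2 = bk0 y 3 2 → Relation.EqvGen wstp x y
  | [], acc, _, hacc => by
    intro x hx y hy
    have hx' : x ∈ acc := by simpa using hx
    have hy' : y ∈ acc := by simpa using hy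
    exact hacc x hx' y hy'
  | p :: L, acc, hc, hacc => by
    intro x hx y hy hxy
    rw [chS, Bool.and_eq_true] at hc
    obtain ⟨hp, hc⟩ := hc
    have key : ∀ z ∈ acc, bk0 p.1 3 2 = bk0 z 3 2 → Relation.EqvGen wstp p.1 z := by
      intro z hz hpz
      rw [Bool.or_eq_true, Bool.and_eq_true, Bool.and_eq_true, Bool.and_eq_true] at hp
      rcases hp with ⟨_, h2⟩ | ⟨⟨h1, h2⟩, h3⟩
      · exfalso
        have h := List.all_eq_true.1 h2 z hz
        rw [(enb_iff z p.1).2 hpz.symm] at h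
        simp at h
      · obtain ⟨q, hq, hqe⟩ := List.any_eq_true.1 h1
        have hqe' : p.2.1 = q := Nat.eq_of_beq_eq_true hqe
        subst hqe'
        have e1 := (enb_iff _ _).1 h2
        exact (Relation.EqvGen.rel _ _ ⟨h2, _, h3⟩).trans _ _ _ (hacc _ hq z hz (e1.symm.trans hpz))
    refine chS_con L (p.1 :: acc) hc ?_ x ?_ y ?_ hxy
    · intro u hu v hv huv
      rcases List.mem_cons.1 hu with rfl | hu'
      · rcases List.mem_cons.1 hv with rfl | hv'
        · exact Relation.EqvGen.refl _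
        · exact key v hv' huv
      · rcases List.mem_cons.1 hv with rfl | hv'
        · exact (key u hu' huv.symm).symm
        · exact hacc u hu' v hv' huv
    · rcases hx with hx | ⟨q, hq, rfl⟩
      · exact Or.inl (List.mem_cons_of_mem _ hx)
      · rcases List.mem_cons.1 hq with rfl | hq
        · exact Or.inl List.mem_cons_self
        · exact Or.inr ⟨q, hq, rfl⟩
    · rcases hy with hy | ⟨q, hq, rfl⟩
      · exact Or.inl (List.mem_cons_of_mem _ hy)
      · rcases List.mem_cons.1 hq with rfl | hq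
        · exact Or.inl List.mem_cons_self
        · exact Or.inr ⟨q, hq, rfl⟩

private theorem wstp_con (c c' : ℕ) (hc : c < 256) (hc' : c' < 256) (h : bk0 c 3 2 = bk0 c' 3 2) : Relation.EqvGen wstp c c' := by
  have hall : ∀ d < 256, ∃ p ∈ trT, p.1 = d := by
    intro d hd
    have h1 := List.all_eq_true.1 trT_all d (List.mem_range.2 hd)
    obtain ⟨p, hp, hpd⟩ := List.any_eq_true.1 h1
    exact ⟨p, hp, Nat.eq_of_beq_eq_true hpd⟩
  exact chS_con trT [] chS_ok (by simp) c (Or.inr (hall c hc)) c' (Or.inr (hall c' hc')) h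

theorem blk_con (r : ZMod 3 → Fin 3) (hr : Injective r) (l l' : Fin 4 → Fin 3 → ZMod 3 → Fin 3) (h : Blk r l) (h' : Blk r l')
    (he : l' 3 2 = l 3 2) :
    Relation.EqvGen (fun x y : Fin 4 → Fin 3 → ZMod 3 → Fin 3 => (Blk r x ∧ x 3 2 = l 3 2) ∧ (Blk r y ∧ y 3 2 = l 3 2) ∧
      ∃ k, ∀ t i a, x t i a = k ↔ y t i a = k) l l' := by
  obtain ⟨c, hc, hlc⟩ := blk_bkl r hr l h
  obtain ⟨c', hc', hlc'⟩ := blk_bkl r hr l' h'
  obtain ⟨g, hg, hgr⟩ : ∃ g : Fin 3 → Fin 3, Injective g ∧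
      ∀ (c : ℕ) (t : Fin 4) (i : Fin 3) (a : ZMod 3), bkl r (dec4 c) t i a = g (bk0 c t i a) :=
    ⟨fun x : Fin 3 => r x, hr, fun c t i a => bkl_comp (fun x : Fin 3 => r x) row0 (dec4 c) t i a⟩
  have hend : ∀ u v : ℕ, bk0 u 3 2 = bk0 v 3 2 → bkl r (dec4 u) 3 2 = bkl r (dec4 v) 3 2 := by
    intro u v huv
    funext a
    rw [hgr, hgr, huv]
  have main : ∀ u v, Relation.EqvGen wstp u v → bk0 u 3 2 = bk0 v 3 2 ∧ (bkl r (dec4 u) 3 2 = l 3 2 →
      Relation.EqvGen (fun x y : Fin 4 → Fin 3 → ZMod 3 → Fin 3 => (Blk r x ∧ x 3 2 = l 3 2) ∧ (Blk r y ∧ y 3 2 = l 3 2) ∧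
        ∃ k, ∀ t i a, x t i a = k ↔ y t i a = k) (bkl r (dec4 u)) (bkl r (dec4 v))) := by
    intro u v huv
    induction huv with
    | rel u v h =>
      obtain ⟨h1, k, h2⟩ := h
      have h1' := (enb_iff _ _).1 h1
      refine ⟨h1', fun hu => Relation.EqvGen.rel _ _ ⟨⟨bkl_blk r hr _, hu⟩, ⟨bkl_blk r hr _, ?_⟩, g k, ?_⟩⟩
      · rw [← hend u v h1', hu]
      · intro t i a
        rw [hgr, hgr, hg.eq_iff, hg.eq_iff]
        exact (decide_eq_true_iff.1 h2) t i a
    | refl u => exact ⟨rfl, fun _ => Relation.EqvGen.refl _⟩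
    | symm u v _ ih => exact ⟨ih.1.symm, fun hv => (ih.2 (by rw [hend u v ih.1, hv])).symm⟩
    | trans u v w _ _ ih1 ih2 =>
      exact ⟨ih1.1.trans ih2.1, fun hu => (ih1.2 hu).trans _ _ _ (ih2.2 (by rw [← hend u v ih1.1, hu]))⟩
  have hcc : bk0 c 3 2 = bk0 c' 3 2 := by
    funext a
    apply hg
    rw [← hgr, ← hgr, ← hlc, ← hlc', he]
  have := (main c c' (wstp_con c c' hc hc' hcc)).2 (by rw [← hlc])
  rwa [← hlc, ← hlc'] at this

end Pool.Agent.PP
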