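import Pool.Agent.Lib_MP_7c0803_hon.N2
import Pool.Agent.Lib_MP_7c0803_hon.N3

/-!
# [HON-N4] Colourings of a tube with rainbow rows are equivalent

`put s m n f l`: replace the layers `n, n + 1, n + 2, n + 3` (and their translates by `m`) of `f` by `l 0, ..., l 3`.

`put_col`: the layers inside the window by `Blk`, outside by `TCol` of `f`, at the two boundaries by `he` (the top row of `l 3` is the row `n + 3` of `f`) and by `Blk (f (n - 1) 2) l`; periodicity:
`b ↦ b + m` changes `(b - n) / m` by one.  In the frame of the window: for `b = n + t + q m`, `0 ≤ t < m`: `put b i a = l t i (a - q s)` (`t < 4`) and `f b i a = f (n + t) i (a - q s)`.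
`put_ke`: `f = put s m n f l₀` for `l₀ t = f (n + t)` (a block by `TCol`), and a common class `k` of two blocks is a common class of the two colourings, so `blk_con` gives
`TKE s m f (put s m n f l)`.
`rainbow_ke`: let `f, g` have rainbow rows.  (1) With `n = -2` and `blk_ex2` (`r = f (-3) 2`, `r' = g (-1) 2`, `r'' = f 1 2`) replace `f` so that the row `-1` is that of `g`.
(2) For `j = 0, 1, ..., m - 5` (induction): `f` has the row `-1` and the layers `0, ..., j - 1` of `g`; with `n = j` and `blk_ex` (`r = g (j - 1) 2`, first layer `g j`, `r' = f (j + 3) 2`) replace `f` so that also the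
layer `j` is that of `g`; `j + 3 ≤ m - 1`, so the layers `0, ..., j - 1` are not changed, nor is the row `-1` (the row `m - 1` only occurs as the unchanged top row).
(3) `n = m - 4`: the block `l t = g (m - 4 + t)` has the same bottom row and top row (the row `m - 1` is the row `-1` with twist), and `put s m (m - 4) f l = g`.
-/

set_option autoImplicit false

open Finset Function

namespace Pool.Agent.PP

/-- replace a window of four layers -/
def put (s : ZMod 3) (m : ℕ) (n : ℤ) (f : ℤ → Fin 3 → ZMod 3 → Fin 3) (l : Fin 4 → Fin 3 → ZMod 3 → Fin 3) :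
    ℤ → Fin 3 → ZMod 3 → Fin 3 := fun b i a =>
  if (b - n) % m < 4 then l (Fin.ofNat 4 ((b - n) % m).toNat) i (a - (((b - n) / m : ℤ) : ZMod 3) * s) else f b i a

private lemma N4b_mod (m : ℕ) (n u q : ℤ) (hu0 : 0 ≤ u) (hum : u < m) :
    (n + u + q * m - n) % m = u ∧ (n + u + q * m - n) / m = q := by
  have hm : (m : ℤ) ≠ 0 := by omega
  have e : n + u + q * m - n = u + q * m := by ring
  rw [e]
  refine ⟨?_, ?_⟩
  · rw [Int.add_mul_emod_self_right, Int.emod_eq_of_lt hu0 hum]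
  · rw [Int.add_mul_ediv_right _ _ hm, Int.ediv_eq_zero_of_lt hu0 hum, zero_add]

private lemma N4b_in (s : ZMod 3) (m : ℕ) (hm : 4 ≤ m) (n : ℤ) (f : ℤ → Fin 3 → ZMod 3 → Fin 3)
    (l : Fin 4 → Fin 3 → ZMod 3 → Fin 3) (u : Fin 4) (q : ℤ) (i : Fin 3) (a : ZMod 3) :
    put s m n f l (n + (u.val : ℤ) + q * m) i a = l u i (a - (q : ZMod 3) * s) := by
  have hu := u.isLt
  obtain ⟨h1, h2⟩ := N4b_mod m n (u.val : ℤ) q (by omega) (by omega)
  unfold put
  rw [h1, h2, if_pos (by omega)]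
  have h3 : Fin.ofNat 4 ((u.val : ℤ)).toNat = u := by
    apply Fin.ext
    simp only [Int.toNat_natCast, Fin.ofNat]
    exact Nat.mod_eq_of_lt hu
  rw [h3]

private lemma N4b_out (s : ZMod 3) (m : ℕ) (n : ℤ) (f : ℤ → Fin 3 → ZMod 3 → Fin 3)
    (l : Fin 4 → Fin 3 → ZMod 3 → Fin 3) (u q : ℤ) (h4 : 4 ≤ u) (hum : u < m) (i : Fin 3) (a : ZMod 3) :
    put s m n f l (n + u + q * m) i a = f (n + u + q * m) i a := by
  obtain ⟨h1, h2⟩ := N4b_mod m n u q (by omega) hum
  unfold put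
  rw [h1, if_neg (by omega)]

private lemma N4b_per {s : ZMod 3} {m : ℕ} {f : ℤ → Fin 3 → ZMod 3 → Fin 3} (hf : TCol s m f) (q b : ℤ)
    (i : Fin 3) (a : ZMod 3) : f (b + q * m) i a = f b i (a - (q : ZMod 3) * s) := by
  induction q using Int.induction_on generalizing a with
  | zero => simp
  | succ k ih =>
    have e : b + ((k : ℤ) + 1) * m = b + (k : ℤ) * m + m := by ring
    rw [e, hf.per, ih]
    congr 1
    push_cast
    ring
  | pred k ih =>
    have h1 := hf.per (b + (-(k : ℤ) - 1) * m) i (a + s)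
    have e : b + (-(k : ℤ) - 1) * m + m = b + -(k : ℤ) * m := by ring
    rw [e, ih, add_sub_cancel_right] at h1
    rw [← h1]
    congr 1
    push_cast
    ring

private lemma N4b_lok {s : ZMod 3} {m : ℕ} {g : ℤ → Fin 3 → ZMod 3 → Fin 3} (hg : TCol s m g) (b : ℤ) :
    LOK (g (b - 1) 2) (g b) := ⟨fun i a => hg.X b i a, fun a => hg.Y b a⟩

/-- the rows below the layers of the window -/
private def N4a_rb (r : ZMod 3 → Fin 3) (l : Fin 4 → Fin 3 → ZMod 3 → Fin 3) (w : Fin 4) : ZMod 3 → Fin 3 :=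
  if w = 0 then r else if w = 1 then l 0 2 else if w = 2 then l 1 2 else l 2 2

private lemma N4a_blk {r : ZMod 3 → Fin 3} {l : Fin 4 → Fin 3 → ZMod 3 → Fin 3} (h : Blk r l) (w : Fin 4) :
    LOK (N4a_rb r l w) (l w) := by
  obtain ⟨h0, h1, h2, h3⟩ := h
  fin_cases w
  · exact h0
  · exact h1
  · exact h2
  · exact h3

/-- the top row of the window does not change -/
private lemma N4a_top (s : ZMod 3) (m : ℕ) (hm : 4 ≤ m) (n : ℤ) (f : ℤ → Fin 3 → ZMod 3 → Fin 3) (hf : TCol s m f)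
    (l : Fin 4 → Fin 3 → ZMod 3 → Fin 3) (he : l 3 2 = f (n + 3) 2) (q : ℤ) (a : ZMod 3) :
    put s m n f l (n + 3 + q * m) 2 a = f (n + 3 + q * m) 2 a := by
  have h := N4b_in s m hm n f l 3 q 2 a
  have e : (((3 : Fin 4).val : ℕ) : ℤ) = 3 := rfl
  rw [e] at h
  rw [h, he, N4b_per hf]

/-- the bottom row of the window does not change -/
private lemma N4a_bot (s : ZMod 3) (m : ℕ) (hm : 4 ≤ m) (n : ℤ) (f : ℤ → Fin 3 → ZMod 3 → Fin 3) (hf : TCol s m f)
    (l : Fin 4 → Fin 3 → ZMod 3 → Fin 3) (he : l 3 2 = f (n + 3) 2) (q : ℤ) (a : ZMod 3) :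
    put s m n f l (n - 1 + q * m) 2 a = f (n - 1) 2 (a - (q : ZMod 3) * s) := by
  rw [← N4b_per hf]
  rcases Nat.eq_or_lt_of_le hm with h0 | h0
  · have e : n - 1 + q * (m : ℤ) = n + 3 + (q - 1) * m := by
      rw [← h0]
      push_cast
      ring
    rw [e, N4a_top s m hm n f hf l he]
  · have e : n - 1 + q * (m : ℤ) = n + ((m : ℤ) - 1) + (q - 1) * m := by ring
    rw [e, N4b_out s m n f l _ _ (by omega) (by omega)]

private lemma N4a_row (s : ZMod 3) (m : ℕ) (hm : 4 ≤ m) (n : ℤ) (f : ℤ → Fin 3 → ZMod 3 → Fin 3) (hf : TCol s m f)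
    (l : Fin 4 → Fin 3 → ZMod 3 → Fin 3) (he : l 3 2 = f (n + 3) 2) (w : Fin 4) (q : ℤ) (a : ZMod 3) :
    put s m n f l (n + (w.val : ℤ) + q * m - 1) 2 a = N4a_rb (f (n - 1) 2) l w (a - (q : ZMod 3) * s) := by
  fin_cases w
  · have h := N4a_bot s m hm n f hf l he q a
    have e : n + (((0 : Fin 4).val : ℕ) : ℤ) + q * m - 1 = n - 1 + q * m := by
      have : (((0 : Fin 4).val : ℕ) : ℤ) = 0 := rfl
      rw [this]
      ring
    change put s m n f l (n + (((0 : Fin 4).val : ℕ) : ℤ) + q * m - 1) 2 a = _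
    rw [e, h]
    rfl
  · have h := N4b_in s m hm n f l 0 q 2 a
    have e : n + (((1 : Fin 4).val : ℕ) : ℤ) + q * m - 1 = n + (((0 : Fin 4).val : ℕ) : ℤ) + q * m := by
      have h1 : (((1 : Fin 4).val : ℕ) : ℤ) = 1 := rfl
      have h2 : (((0 : Fin 4).val : ℕ) : ℤ) = 0 := rfl
      rw [h1, h2]
      ring
    change put s m n f l (n + (((1 : Fin 4).val : ℕ) : ℤ) + q * m - 1) 2 a = _
    rw [e, h]
    rfl
  · have h := N4b_in s m hm n f l 1 q 2 a
    have e : n + (((2 : Fin 4).val : ℕ) : ℤ) + q * m - 1 = n + (((1 : Fin 4).val : ℕ) : ℤ) + q * m := by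
      have h1 : (((2 : Fin 4).val : ℕ) : ℤ) = 2 := rfl
      have h2 : (((1 : Fin 4).val : ℕ) : ℤ) = 1 := rfl
      rw [h1, h2]
      ring
    change put s m n f l (n + (((2 : Fin 4).val : ℕ) : ℤ) + q * m - 1) 2 a = _
    rw [e, h]
    rfl
  · have h := N4b_in s m hm n f l 2 q 2 a
    have e : n + (((3 : Fin 4).val : ℕ) : ℤ) + q * m - 1 = n + (((2 : Fin 4).val : ℕ) : ℤ) + q * m := by
      have h1 : (((3 : Fin 4).val : ℕ) : ℤ) = 3 := rfl
      have h2 : (((2 : Fin 4).val : ℕ) : ℤ) = 2 := rfl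
      rw [h1, h2]
      ring
    change put s m n f l (n + (((3 : Fin 4).val : ℕ) : ℤ) + q * m - 1) 2 a = _
    rw [e, h]
    rfl

/-- every layer is in the frame of a window or outside of the windows -/
private lemma N4a_cases (m : ℕ) (hm : 4 ≤ m) (n b : ℤ) :
    (∃ (w : Fin 4) (q : ℤ), b = n + (w.val : ℤ) + q * m) ∨ ∃ u q : ℤ, 4 ≤ u ∧ u < m ∧ b = n + u + q * m := by
  have hm0 : (0 : ℤ) < m := by omega
  have hb0 := Int.emod_nonneg (b - n) hm0.ne'
  have hb1 := Int.emod_lt_of_pos (b - n) hm0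
  have hb2 := Int.emod_add_mul_ediv (b - n) m
  obtain ⟨u, hu⟩ : ∃ u, u = (b - n) % m := ⟨_, rfl⟩
  obtain ⟨q, hq⟩ : ∃ q, q = (b - n) / m := ⟨_, rfl⟩
  rw [← hu] at hb0 hb1 hb2
  rw [← hq] at hb2
  have hbe : b = n + u + q * m := by linear_combination -hb2
  by_cases hu4 : u < 4
  · obtain ⟨w, hw⟩ : ∃ w : Fin 4, (w.val : ℤ) = u := ⟨⟨u.toNat, by omega⟩, by simp; omega⟩
    exact Or.inl ⟨w, q, by rw [hw]; exact hbe⟩
  · exact Or.inr ⟨u, q, by omega, hb1, hbe⟩

theorem put_col (s : ZMod 3) (m : ℕ) (hm : 4 ≤ m) (n : ℤ) (f : ℤ → Fin 3 → ZMod 3 → Fin 3) (hf : TCol s m f)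
    (l : Fin 4 → Fin 3 → ZMod 3 → Fin 3) (hl : Blk (f (n - 1) 2) l) (he : l 3 2 = f (n + 3) 2) : TCol s m (put s m n f l) := by
  refine ⟨?_, ?_, ?_⟩
  · intro b i a
    rcases N4a_cases m hm n b with ⟨w, q, rfl⟩ | ⟨u, q, hu, hum, rfl⟩
    · rw [N4b_in s m hm, N4b_in s m hm]
      exact (N4a_blk hl w).1 i _
    · rw [N4b_out s m n f l u q hu hum, N4b_out s m n f l u q hu hum]
      exact hf.X _ _ _
  · intro b a
    rcases N4a_cases m hm n b with ⟨w, q, rfl⟩ | ⟨u, q, hu, hum, rfl⟩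
    · rw [N4b_in s m hm, N4b_in s m hm, N4a_row s m hm n f hf l he]
      have h := (N4a_blk hl w).2 (a - (q : ZMod 3) * s)
      have e : a - 1 - (q : ZMod 3) * s = a - (q : ZMod 3) * s - 1 := by ring
      rw [e]
      exact h
    · have h1 : put s m n f l (n + u + q * m - 1) 2 a = f (n + u + q * m - 1) 2 a := by
        rcases hu.eq_or_lt with h0 | h0
        · have e : n + u + q * (m : ℤ) - 1 = n + 3 + q * m := by
            rw [← h0]
            ring
          rw [e, N4a_top s m hm n f hf l he]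
        · have e : n + u + q * (m : ℤ) - 1 = n + (u - 1) + q * m := by ring
          rw [e, N4b_out s m n f l (u - 1) q (by omega) (by omega)]
      rw [N4b_out s m n f l u q hu hum, N4b_out s m n f l u q hu hum, h1]
      exact hf.Y _ _
  · intro b i a
    rcases N4a_cases m hm n b with ⟨w, q, rfl⟩ | ⟨u, q, hu, hum, rfl⟩
    · have e : n + (w.val : ℤ) + q * m + m = n + (w.val : ℤ) + (q + 1) * m := by ring
      rw [e, N4b_in s m hm, N4b_in s m hm]
      congr 1
      push_cast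
      ring
    · have e : n + u + q * (m : ℤ) + m = n + u + (q + 1) * m := by ring
      rw [e, N4b_out s m n f l u (q + 1) hu hum, N4b_out s m n f l u q hu hum, ← e]
      exact hf.per _ _ _

theorem put_ke (s : ZMod 3) (m : ℕ) (hm : 4 ≤ m) (n : ℤ) (f : ℤ → Fin 3 → ZMod 3 → Fin 3) (hf : TCol s m f)
    (hi : ∀ b, Injective (f b 2)) (l : Fin 4 → Fin 3 → ZMod 3 → Fin 3) (hl : Blk (f (n - 1) 2) l) (he : l 3 2 = f (n + 3) 2) :
    TKE s m f (put s m n f l) := by
  have h0 : Blk (f (n - 1) 2) (fun t : Fin 4 => f (n + (t.val : ℤ))) := by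
    refine ⟨?_, ?_, ?_, ?_⟩
    · have := N4b_lok hf n
      simpa using this
    · have := N4b_lok hf (n + 1)
      rw [add_sub_cancel_right] at this
      simpa using this
    · have := N4b_lok hf (n + 2)
      have e : n + 2 - 1 = n + 1 := by ring
      rw [e] at this
      simpa using this
    · have := N4b_lok hf (n + 3)
      have e : n + 3 - 1 = n + 2 := by ring
      rw [e] at this
      simpa using this
  have e3 : (fun t : Fin 4 => f (n + (t.val : ℤ))) 3 2 = f (n + 3) 2 := rfl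
  have hcon := blk_con (f (n - 1) 2) (hi _) _ l h0 hl (he.trans e3.symm)
  have hput : put s m n f (fun t : Fin 4 => f (n + (t.val : ℤ))) = f := by
    funext b i a
    rcases N4a_cases m hm n b with ⟨w, q, rfl⟩ | ⟨u, q, hu, hum, rfl⟩
    · rw [N4b_in s m hm, N4b_per hf]
    · rw [N4b_out s m n f _ u q hu hum]
  have main : ∀ x y : Fin 4 → Fin 3 → ZMod 3 → Fin 3, Relation.EqvGen
      (fun x y : Fin 4 → Fin 3 → ZMod 3 → Fin 3 => (Blk (f (n - 1) 2) x ∧ x 3 2 = (fun t : Fin 4 => f (n + (t.val : ℤ))) 3 2) ∧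
      (Blk (f (n - 1) 2) y ∧ y 3 2 = (fun t : Fin 4 => f (n + (t.val : ℤ))) 3 2) ∧
      ∃ k, ∀ t i a, x t i a = k ↔ y t i a = k) x y → TKE s m (put s m n f x) (put s m n f y) := by
    intro x y hxy
    induction hxy with
    | rel x y h =>
      obtain ⟨⟨hx, hx3⟩, ⟨hy, hy3⟩, k, hk⟩ := h
      refine Relation.EqvGen.rel _ _ ⟨put_col s m hm n f hf x hx (hx3.trans e3), put_col s m hm n f hf y hy (hy3.trans e3), k, ?_⟩
      intro b i a
      unfold put
      split_ifs
      · exact hk _ _ _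
      · exact Iff.rfl
    | refl x => exact Relation.EqvGen.refl _
    | symm x y _ ih => exact Relation.EqvGen.symm _ _ ih
    | trans x y z _ _ ih1 ih2 => exact Relation.EqvGen.trans _ _ _ ih1 ih2
  have h2 := main _ _ hcon
  rw [hput] at h2
  exact h2

private lemma N4b_step (s : ZMod 3) (m : ℕ) (hm : 4 ≤ m) (f g : ℤ → Fin 3 → ZMod 3 → Fin 3)
    (hf : TCol s m f) (hg : TCol s m g) (hig : ∀ b, Injective (g b 2)) (hfg : f (-1) 2 = g (-1) 2) :
    ∀ j : ℕ, j ≤ m - 4 → ∃ f', TCol s m f' ∧ TKE s m f f' ∧ f' (-1) 2 = g (-1) 2 ∧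
      ∀ t : ℕ, t < j → f' t = g t := by
  intro j
  induction j with
  | zero => exact fun _ => ⟨f, hf, Relation.EqvGen.refl _, hfg, fun t ht => absurd ht (Nat.not_lt_zero t)⟩
  | succ j ih =>
    intro hj
    obtain ⟨f', h1, h2, h3, h4⟩ := ih (by omega)
    have hif : ∀ b, Injective (f' b 2) := fun b =>
      row_inj s m f' h1 (-1) b (by rw [h3]; exact hig (-1))
    have hr : f' ((j : ℤ) - 1) 2 = g ((j : ℤ) - 1) 2 := by
      rcases Nat.eq_zero_or_pos j with h0 | h0
      · subst h0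
        simpa using h3
      · have h5 := h4 (j - 1) (by omega)
        have e : (((j - 1 : ℕ)) : ℤ) = (j : ℤ) - 1 := by omega
        rw [e] at h5
        rw [h5]
    obtain ⟨l, hl1, hl2, hl3⟩ := blk_ex (g ((j : ℤ) - 1) 2) (f' ((j : ℤ) + 3) 2) (hig _) (hif _) (g j)
      (N4b_lok hg j)
    rw [← hr] at hl1
    refine ⟨put s m j f' l, put_col s m hm j f' h1 l hl1 hl3,
      h2.trans _ _ _ (put_ke s m hm j f' h1 hif l hl1 hl3), ?_, ?_⟩
    · funext a
      have e : (-1 : ℤ) = (j : ℤ) + ((m : ℤ) - 1 - j) + (-1) * m := by ring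
      rw [e, N4b_out s m j f' l _ _ (by omega) (by omega), ← e, h3]
    · intro t ht
      rcases Nat.lt_succ_iff_lt_or_eq.1 ht with h5 | h5
      · funext i a
        have e : (t : ℤ) = (j : ℤ) + ((m : ℤ) + t - j) + (-1) * m := by ring
        rw [e, N4b_out s m j f' l _ _ (by omega) (by omega), ← e, h4 t h5]
      · subst h5
        funext i a
        have h6 := N4b_in s m hm t f' l 0 0 i a
        have e : (t : ℤ) + (((0 : Fin 4).val : ℕ) : ℤ) + 0 * m = t := by simp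
        rw [e] at h6
        rw [h6, hl2]
        simp

theorem rainbow_ke (s : ZMod 3) (m : ℕ) (hm : 4 ≤ m) (f g : ℤ → Fin 3 → ZMod 3 → Fin 3) (hf : TCol s m f) (hg : TCol s m g)
    (hif : ∀ b, Injective (f b 2)) (hig : ∀ b, Injective (g b 2)) : TKE s m f g := by
  obtain ⟨l, hl1, hl2, hl3⟩ := blk_ex2 (f (-2 - 1) 2) (g (-1) 2) (f (-2 + 3) 2) (hif _) (hig _) (hif _)
  have c1 := put_col s m hm (-2) f hf l hl1 hl3
  have k1 := put_ke s m hm (-2) f hf hif l hl1 hl3
  have e1 : put s m (-2) f l (-1) 2 = g (-1) 2 := by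
    funext a
    have h6 := N4b_in s m hm (-2) f l 1 0 2 a
    have e : (-2 : ℤ) + (((1 : Fin 4).val : ℕ) : ℤ) + 0 * m = -1 := by norm_num
    rw [e] at h6
    rw [h6, hl2]
    simp
  obtain ⟨f', h1, h2, h3, h4⟩ := N4b_step s m hm _ g c1 hg hig e1 (m - 4) le_rfl
  refine k1.trans _ _ _ (h2.trans _ _ _ ?_)
  have hif' : ∀ b, Injective (f' b 2) := fun b =>
    row_inj s m f' h1 (-1) b (by rw [h3]; exact hig (-1))
  have hr : f' ((m : ℤ) - 4 - 1) 2 = g ((m : ℤ) - 4 - 1) 2 := by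
    rcases Nat.eq_or_lt_of_le hm with h0 | h0
    · subst h0
      simpa using h3
    · have h5 := h4 (m - 5) (by omega)
      have e : (((m - 5 : ℕ)) : ℤ) = (m : ℤ) - 4 - 1 := by omega
      rw [e] at h5
      rw [h5]
  have hL : ∀ k : ℤ, LOK (g (k - 1) 2) (g k) := fun k => N4b_lok hg k
  have hb : Blk (f' ((m : ℤ) - 4 - 1) 2) (fun t : Fin 4 => g ((m : ℤ) - 4 + (t.val : ℤ))) := by
    rw [hr]
    refine ⟨?_, ?_, ?_, ?_⟩
    · have := hL ((m : ℤ) - 4)
      simpa using this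
    · have := hL ((m : ℤ) - 4 + 1)
      rw [add_sub_cancel_right] at this
      simpa using this
    · have := hL ((m : ℤ) - 4 + 2)
      have e : (m : ℤ) - 4 + 2 - 1 = m - 4 + 1 := by ring
      rw [e] at this
      simpa using this
    · have := hL ((m : ℤ) - 4 + 3)
      have e : (m : ℤ) - 4 + 3 - 1 = m - 4 + 2 := by ring
      rw [e] at this
      simpa using this
  have ht : (fun t : Fin 4 => g ((m : ℤ) - 4 + (t.val : ℤ))) 3 2 = f' ((m : ℤ) - 4 + 3) 2 := by
    funext a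
    have e2 : (m : ℤ) - 4 + 3 = -1 + m := by ring
    have e3 : (m : ℤ) - 4 + (((3 : Fin 4).val : ℕ) : ℤ) = -1 + m := by
      have : ((3 : Fin 4).val : ℕ) = 3 := rfl
      rw [this]
      push_cast
      ring
    change g ((m : ℤ) - 4 + (((3 : Fin 4).val : ℕ) : ℤ)) 2 a = f' ((m : ℤ) - 4 + 3) 2 a
    rw [e2, e3, hg.per, h1.per, h3]
  have hp : put s m ((m : ℤ) - 4) f' (fun t : Fin 4 => g ((m : ℤ) - 4 + (t.val : ℤ))) = g := by
    funext b i a
    have hm0 : (0 : ℤ) < m := by omega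
    have hb0 := Int.emod_nonneg (b - ((m : ℤ) - 4)) hm0.ne'
    have hb1 := Int.emod_lt_of_pos (b - ((m : ℤ) - 4)) hm0
    have hb2 := Int.emod_add_mul_ediv (b - ((m : ℤ) - 4)) m
    obtain ⟨u, hu⟩ : ∃ u, u = (b - ((m : ℤ) - 4)) % m := ⟨_, rfl⟩
    obtain ⟨q, hq⟩ : ∃ q, q = (b - ((m : ℤ) - 4)) / m := ⟨_, rfl⟩
    rw [← hu] at hb0 hb1 hb2
    rw [← hq] at hb2
    have hbe : b = (m : ℤ) - 4 + u + q * m := by linear_combination -hb2
    by_cases hu4 : u < 4
    · obtain ⟨w, hw⟩ : ∃ w : Fin 4, (w.val : ℤ) = u := ⟨⟨u.toNat, by omega⟩, by simp; omega⟩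
      rw [hbe, ← hw, N4b_in s m hm]
      rw [N4b_per hg]
    · rw [hbe, N4b_out s m _ _ _ _ _ (by omega) (by omega)]
      have e : (m : ℤ) - 4 + u + q * m = ((u - 4).toNat : ℤ) + (q + 1) * m := by
        rw [Int.toNat_of_nonneg (by omega)]
        ring
      rw [e, N4b_per h1, N4b_per hg, h4 (u - 4).toNat (by omega)]
  have k2 := put_ke s m hm ((m : ℤ) - 4) f' h1 hif' _ hb ht
  rw [hp] at k2
  exact k2

end Pool.Agent.PP
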