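import Pool.Agent.Lib_MP_7c0803_hon.N1

/-!
# [HON-N5] A rainbow colouring and a colouring with a missing colour with a common class (`m` even)

`κ ∈ {0, 1, 2}` with `κ ≡ - s mod 3`; `p b = - min (b + 1) κ` (in `ZMod 3`, `0 ≤ b < m`).  In the layers `b < κ` (type 0) the colour `2` is on the slot `0`, in the layers `κ ≤ b < m` (type 1) on the
slot `1`.  `lF κ b i a` and `lG κ b i a` give the colours for `0 ≤ b < m`; `f b i a = lF κ (b % m) i (a - (b / m) s)`, same for `g`.  Properties (for `m` even, `m ≥ 4`; checked by a program for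
`m ≤ 12`): `f`, `g` are `TCol s m`, colour `1` is a common class, `f b 2 a ≠ 2`, `g b 2` is injective.
`X`: case distinction on the type, the parity of `b`, and `a - p b ∈ {0, 1, 2}`.  `Y`: for `0 < b < m`, `p (b - 1) = p b + 1` (type 0) or `p b` (type 1), and the same case distinction; for
`b = 0` the row `-1` is the row `m - 1` in the frame shifted by `s`: `f (-1) 2 a = lF κ (m - 1) 2 (a + s)`, `p (m - 1) + ... `: `a + s = - κ` iff `a = 0`, which is the rule `p (-1) = 0`; `m - 1` is odd, as `-1`.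
A convenient way: extend the formulas to `b = -1` (`p (-1) = 0`, odd) and check `lG κ (m - 1) 2 (a + s) = lG κ (-1) 2 a`.
-/

set_option autoImplicit false

open Finset Function

namespace Pool.Agent.PP

/-- place of the colour `1` in the row `b` -/
def lp (κ : ℕ) (b : ℤ) : ZMod 3 := -((min (b + 1) (κ : ℤ) : ℤ) : ZMod 3)

/-- the colouring without colour `2` in the rows -/
def lF (κ : ℕ) (b : ℤ) (i : Fin 3) (a : ZMod 3) : Fin 3 :=
  if b < κ then (if i = 0 then 2 else if i = 1 then (if a = lp κ b then 0 else 1) else (if a = lp κ b then 1 else 0))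
  else (if i = 1 then 2 else if i = 0 then (if a = lp κ b then 0 else 1) else (if a = lp κ b then 1 else 0))

/-- the rainbow colouring -/
def lG (κ : ℕ) (b : ℤ) (i : Fin 3) (a : ZMod 3) : Fin 3 :=
  if i = 2 then (if a = lp κ b then 1 else if a = lp κ b + (if b % 2 = 1 then 1 else 2) then 2 else 0)
  else if (κ : ℤ) ≤ b then
    (if b % 2 = 0 then
      (if i = 1 then (if a = lp κ b + 1 then 2 else 0) else (if a = lp κ b then 2 else 1))
    else
      (if i = 1 then (if a = lp κ b + 1 then 0 else 2) else (if a = lp κ b then 0 else 1)))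
  else
    (if b % 2 = 0 then
      (if i = 0 then (if a = lp κ b + 2 then 0 else 2) else (if a = lp κ b then 0 else 1))
    else
      (if i = 0 then (if a = lp κ b + 2 then 2 else 0) else (if a = lp κ b then 2 else 1)))

/-- generic form of the first colouring (`t`: type 0, `x` the distance to the place of the colour `1`) -/
def tF (t : Bool) (i : Fin 3) (x : ZMod 3) : Fin 3 :=
  if t then (if i = 0 then 2 else if i = 1 then (if x = 0 then 0 else 1) else (if x = 0 then 1 else 0))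
  else (if i = 1 then 2 else if i = 0 then (if x = 0 then 0 else 1) else (if x = 0 then 1 else 0))

/-- generic form of the second colouring (`e`: even row) -/
def tG (t e : Bool) (i : Fin 3) (x : ZMod 3) : Fin 3 :=
  if i = 2 then (if x = 0 then 1 else if x = (if e then 2 else 1) then 2 else 0)
  else if t then
    (if e then
      (if i = 0 then (if x = 2 then 0 else 2) else (if x = 0 then 0 else 1))
    else
      (if i = 0 then (if x = 2 then 2 else 0) else (if x = 0 then 2 else 1)))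
  else
    (if e then
      (if i = 1 then (if x = 1 then 2 else 0) else (if x = 0 then 2 else 1))
    else
      (if i = 1 then (if x = 1 then 0 else 2) else (if x = 0 then 0 else 1)))

lemma tF_X : ∀ (t : Bool) (i : Fin 3) (x : ZMod 3), tF t (i + 1) x ≠ tF t i x := by decide

lemma tG_X : ∀ (t e : Bool) (i : Fin 3) (x : ZMod 3), tG t e (i + 1) x ≠ tG t e i x := by decide

lemma tF_Y : ∀ (t t' : Bool) (x : ZMod 3),
    tF t 0 x ≠ tF t 1 (x - 1) ∧ tF t 1 (x - 1) ≠ tF t' 2 (x - if t then 1 else 0) ∧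
      tF t' 2 (x - if t then 1 else 0) ≠ tF t 0 x := by decide

lemma tG_Y : ∀ (t t' e : Bool) (x : ZMod 3),
    tG t e 0 x ≠ tG t e 1 (x - 1) ∧ tG t e 1 (x - 1) ≠ tG t' (!e) 2 (x - if t then 1 else 0) ∧
      tG t' (!e) 2 (x - if t then 1 else 0) ≠ tG t e 0 x := by decide

lemma tFG_rel : ∀ (t e : Bool) (i : Fin 3) (x : ZMod 3), tF t i x = 1 ↔ tG t e i x = 1 := by decide

lemma tF_two : ∀ (t : Bool) (x : ZMod 3), tF t 2 x ≠ 2 := by decide

lemma tG_inj : ∀ (t e : Bool) (x y : ZMod 3), tG t e 2 x = tG t e 2 y → x = y := by decide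

/-- the distance of `a` to the place of the colour `1` in the row `b` -/
def tX (s : ZMod 3) (m κ : ℕ) (b : ℤ) (a : ZMod 3) : ZMod 3 :=
  a - ((b / (m : ℤ) : ℤ) : ZMod 3) * s - lp κ (b % (m : ℤ))

lemma tX_sub (s : ZMod 3) (m κ : ℕ) (b : ℤ) (a c : ZMod 3) : tX s m κ b (a - c) = tX s m κ b a - c := by
  unfold tX; ring

lemma tX_per (s : ZMod 3) (m κ : ℕ) (hm : 0 < m) (b : ℤ) (a : ZMod 3) :
    tX s m κ (b + m) a = tX s m κ b (a - s) := by
  have hm' : (m : ℤ) ≠ 0 := by positivity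
  unfold tX
  rw [Int.add_emod_right, Int.add_ediv_of_dvd_right (dvd_refl _), Int.ediv_self hm']
  push_cast
  ring

lemma lp_pred (κ : ℕ) (c : ℤ) (_ : 0 < c) : lp κ (c - 1) = lp κ c + if decide (c < κ) then 1 else 0 := by
  unfold lp
  by_cases h : c < κ
  · rw [min_eq_left (by omega), min_eq_left (by omega)]
    simp only [h, decide_true, if_true]
    push_cast
    ring
  · rw [min_eq_right (by omega), min_eq_right (by omega)]
    simp [h]

lemma emod_pred_pos (m : ℕ) (hm : 0 < m) (b : ℤ) (h : 0 < b % (m : ℤ)) :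
    (b - 1) % (m : ℤ) = b % (m : ℤ) - 1 ∧ (b - 1) / (m : ℤ) = b / (m : ℤ) := by
  have hm' : (0 : ℤ) < m := by exact_mod_cast hm
  have h1 := Int.emod_lt_of_pos b hm'
  have h2 := Int.mul_ediv_add_emod b m
  have := (Int.ediv_emod_unique (a := b - 1) (b := (m : ℤ)) (r := b % (m : ℤ) - 1) (q := b / (m : ℤ)) hm').2
    ⟨by linarith, by omega, by omega⟩
  exact ⟨this.2, this.1⟩

lemma emod_pred_zero (m : ℕ) (hm : 0 < m) (b : ℤ) (h : b % (m : ℤ) = 0) :
    (b - 1) % (m : ℤ) = m - 1 ∧ (b - 1) / (m : ℤ) = b / (m : ℤ) - 1 := by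
  have hm' : (0 : ℤ) < m := by exact_mod_cast hm
  have h2 := Int.mul_ediv_add_emod b m
  have := (Int.ediv_emod_unique (a := b - 1) (b := (m : ℤ)) (r := (m : ℤ) - 1) (q := b / (m : ℤ) - 1) hm').2
    ⟨by rw [mul_sub]; linarith, by omega, by omega⟩
  exact ⟨this.2, this.1⟩

/-- the distance in the row `b - 1` -/
lemma tX_pred (s : ZMod 3) (m κ : ℕ) (hm : 3 ≤ m) (hκ : κ < 3) (hs : (κ : ZMod 3) = -s) (b : ℤ) (a : ZMod 3) :
    tX s m κ (b - 1) a = tX s m κ b a - if decide (b % (m : ℤ) < κ) then 1 else 0 := by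
  have hm0 : 0 < m := by omega
  rcases (Int.emod_nonneg b (by omega : (m : ℤ) ≠ 0)).lt_or_eq with h | h
  · obtain ⟨h1, h2⟩ := emod_pred_pos m hm0 b h
    unfold tX
    rw [h1, h2, lp_pred κ _ h]
    ring
  · obtain ⟨h1, h2⟩ := emod_pred_zero m hm0 b h.symm
    unfold tX
    rw [h1, h2, ← h]
    unfold lp
    rw [min_eq_right (by omega : (κ : ℤ) ≤ (m : ℤ) - 1 + 1)]
    push_cast
    rw [hs]
    by_cases hk : κ = 0
    · subst hk
      simp only [Nat.cast_zero] at hs ⊢
      have hs0 : s = 0 := by simpa using hs.symm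
      subst hs0
      simp
    · have : (0 : ℤ) < (κ : ℤ) := by omega
      rw [min_eq_left (by omega : (1 : ℤ) ≤ (κ : ℤ))]
      simp only [this, decide_true, if_true]
      push_cast
      ring

lemma even_pred (m : ℕ) (hm : 0 < m) (h2 : m % 2 = 0) (b : ℤ) :
    decide ((b - 1) % (m : ℤ) % 2 = 0) = !decide (b % (m : ℤ) % 2 = 0) := by
  have hm' : (0 : ℤ) < m := by exact_mod_cast hm
  have hb : b % (m : ℤ) % 2 = b % 2 := Int.emod_emod_of_dvd b (by omega)
  have hb' : (b - 1) % (m : ℤ) % 2 = (b - 1) % 2 := Int.emod_emod_of_dvd (b - 1) (by omega)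
  rw [hb, hb']
  by_cases h : b % 2 = 0
  · have : ¬ (b - 1) % 2 = 0 := by omega
    simp [h, this]
  · have : (b - 1) % 2 = 0 := by omega
    simp [h, this]

theorem tube_link (s : ZMod 3) (m : ℕ) (hm : 4 ≤ m) (h2 : m % 2 = 0) :
    ∃ f g : ℤ → Fin 3 → ZMod 3 → Fin 3, TCol s m f ∧ TCol s m g ∧ TRel f g ∧ (∀ b a, f b 2 a ≠ 2) ∧ ∀ b, Injective (g b 2) := by
  obtain ⟨κ, hκ, hs⟩ : ∃ κ : ℕ, κ < 3 ∧ (κ : ZMod 3) = -s :=
    ⟨(-s).val, ZMod.val_lt _, ZMod.natCast_zmod_val _⟩
  refine ⟨fun b i a => tF (decide (b % (m : ℤ) < κ)) i (tX s m κ b a),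
    fun b i a => tG (decide (b % (m : ℤ) < κ)) (decide (b % (m : ℤ) % 2 = 0)) i (tX s m κ b a), ?_, ?_, ?_, ?_, ?_⟩
  · refine ⟨fun b i a => tF_X _ _ _, fun b a => ?_, fun b i a => ?_⟩
    · rw [tX_sub, tX_pred s m κ (by omega) hκ hs]
      exact tF_Y _ _ _
    · rw [Int.add_emod_right, tX_per s m κ (by omega)]
  · refine ⟨fun b i a => tG_X _ _ _ _, fun b a => ?_, fun b i a => ?_⟩
    · rw [tX_sub, tX_pred s m κ (by omega) hκ hs, even_pred m (by omega) h2]
      exact tG_Y _ _ _ _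
    · rw [Int.add_emod_right, tX_per s m κ (by omega)]
  · exact ⟨1, fun b i a => tFG_rel _ _ _ _⟩
  · exact fun b a => tF_two _ _
  · intro b x y hxy
    have := tG_inj _ _ _ _ hxy
    unfold tX at this
    simpa using this

end Pool.Agent.PP
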