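import Pool.Agent.Lib_MP_7c0803_hon.N4
import Pool.Agent.Lib_MP_7c0803_hon.N5

/-!
# The tubes with an even number of layers have one Kempe class
-/

set_option autoImplicit false

open Finset Function

namespace Pool.Agent.PP

theorem tube_ke (s : ZMod 3) (m : ℕ) (hm : 4 ≤ m) (h2 : m % 2 = 0) (f : ℤ → Fin 3 → ZMod 3 → Fin 3) (hf : TCol s m f) :
    TKE s m f sc0 := by
  obtain ⟨f₀, g₀, h1, h3, h4, h5, h6⟩ := tube_link s m hm h2
  by_cases hi : Injective (f 0 2)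
  · have h7 : TKE s m f g₀ := rainbow_ke s m hm f g₀ hf h3 (fun b => row_inj s m f hf 0 b hi) h6
    have h8 : TKE s m f₀ g₀ := Relation.EqvGen.rel _ _ ⟨h1, h3, h4⟩
    exact h7.trans _ _ _ ((h8.symm _ _).trans _ _ _ (miss_ke s m f₀ h1 2 h5))
  · obtain ⟨k, hk⟩ := row_miss s m f hf 0 hi
    exact miss_ke s m f hf k hk

theorem con_tube (s : ℤ) (m : ℕ) (hm : 4 ≤ m) (h2 : m % 2 = 0) : (HT (Lt (3, 0) (s, (m : ℤ)))).Con :=
  con_of_tube s m (by omega) fun f g hf hg =>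
    (tube_ke _ m hm h2 f hf).trans _ _ _ ((tube_ke _ m hm h2 g hg).symm _ _)

end Pool.Agent.PP
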