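import Pool.Agent.Lib_MP_7c0803_hon.Certs
import Pool.Agent.Lib_MP_7c0803_hon.Dat1
import Pool.Agent.Lib_MP_7c0803_hon.Dat2
import Pool.Agent.Lib_MP_7c0803_hon.Dat3
import Pool.Agent.Lib_MP_7c0803_hon.Dat4

/-!
# [HON-S] Even index, `3 ≤ p + q ≤ 18`

`certs` has for every pair `(p, q)`, `q ≤ p`, `3 ≤ p + q ≤ 18`, except `(3, 0)`, `(2, 2)`, a checked certificate (`pairs_ok`).  If `F ≤ n`: `cert_npc`.  Otherwise `coverC` says that
for `a = v.1 % p` (then `p ∣ n + q a`, since `n = p v.2 - q v.1`) the key `(p, q, n, a)` is special, or belongs to a checked entry of `ents` (`ent_npc`), or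
there is a short vector: `v' = (a, (n + q a) / p) = v - (v.1 / p) • (p, q)`, `v' - (p, q)` or `v' - 2 • (p, q)` has norm `< p + q`; it lies in the lattice and is not `0`
(`dt (p, q) · = n ≠ 0`), against `hmin`.
-/

set_option autoImplicit false
set_option maxRecDepth 100000

namespace Pool.Agent.PP

universe u

def ents : List Ent := ents1 ++ ents2 ++ ents3 ++ ents4

theorem ents_ok : ∀ e ∈ ents, Ent.check e = true := by
  intro e he
  unfold ents at he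
  simp only [List.mem_append] at he
  rcases he with ((he | he) | he) | he
  · exact List.all_eq_true.1 ents1_ok e he
  · exact List.all_eq_true.1 ents2_ok e he
  · exact List.all_eq_true.1 ents3_ok e he
  · exact List.all_eq_true.1 ents4_ok e he

/-- norm less than `N` -/
def sn (N : ℕ) (x y : ℤ) : Bool :=
  decide (x < N) && decide (-x < N) && decide (y < N) && decide (-y < N) && decide (x + y < N) && decide (-(x + y) < N)

def shrt (p q n a : ℕ) : Bool :=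
  sn (p + q) a ((n + q * a) / p : ℕ) || sn (p + q) ((a : ℤ) - p) (((n + q * a) / p : ℕ) - (q : ℤ)) ||
    sn (p + q) ((a : ℤ) - 2 * p) (((n + q * a) / p : ℕ) - 2 * (q : ℤ))

/-- is there an entry -/
def hasE (p q n a : ℕ) : Bool := ents.any fun e => Nat.beq e.p p && Nat.beq e.q q && Nat.beq e.n n && Nat.beq e.a a

/-- the special lattices -/
def spec (p q n a : ℕ) : Bool :=
  (Nat.beq p 2 && Nat.beq q 1 && Nat.beq n 10) || (Nat.beq p 4 && Nat.beq q 0 && Nat.beq n 16 && Nat.beq a 2) ||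
    (Nat.beq p 2 && Nat.beq q 2 && Nat.beq n 16 && Nat.beq a 0)

def coverC (p q F : ℕ) : Bool :=
  (List.range F).all fun n => Nat.beq (n % 2) 1 || Nat.blt (4 * n) (3 * (p + q) ^ 2) ||
    (List.range p).all fun a => !(Nat.beq ((n + q * a) % p) 0) || spec p q n a || shrt p q n a || hasE p q n a

theorem cover_ok : (certs.all fun c => coverC c.p c.q c.F.toNat) = true := by decide +kernel

theorem cover22_ok : coverC 2 2 28 = true := by decide +kernel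

theorem pairs_ok : ((List.range 19).all fun p => (List.range (p + 1)).all fun q =>
    Nat.blt (p + q) 3 || Nat.blt 18 (p + q) || (Nat.beq p 3 && Nat.beq q 0) || (Nat.beq p 2 && Nat.beq q 2) ||
      certs.any fun c => Nat.beq c.p p && Nat.beq c.q q) = true := by decide +kernel

private lemma S1_short {p q n : ℕ} {v : ℤ × ℤ} (hd : dt ((p : ℤ), (q : ℤ)) v = n) (hn : 0 < n)
    (hmin : ∀ x ∈ Lt ((p : ℤ), (q : ℤ)) v, x ≠ 0 → ((p + q : ℕ) : ℤ) ≤ nrm x) (k x y : ℤ)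
    (hx : x = v.1 + k * p) (hy : y = v.2 + k * q) (h : sn (p + q) x y = true) : False := by
  have h1 : ((x, y) : ℤ × ℤ) ∈ Lt ((p : ℤ), (q : ℤ)) v := by
    rw [mem_Lt']
    exact ⟨k, 1, by simp only; rw [hx]; ring, by simp only; rw [hy]; ring⟩
  have h2 : ((x, y) : ℤ × ℤ) ≠ 0 := by
    intro h0
    have h3 : x = 0 := congrArg Prod.fst h0
    have h4 : y = 0 := congrArg Prod.snd h0
    unfold dt at hd
    simp only at hd
    have h5 : (p : ℤ) * v.2 - q * v.1 = 0 := by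
      have h6 : (p : ℤ) * v.2 - q * v.1 = p * y - q * x := by rw [hx, hy]; ring
      rw [h6, h3, h4]; ring
    omega
  have h6 := hmin _ h1 h2
  unfold sn at h
  simp only [Bool.and_eq_true, decide_eq_true_eq] at h
  obtain ⟨⟨⟨⟨⟨a1, a2⟩, a3⟩, a4⟩, a5⟩, a6⟩ := h
  unfold nrm at h6
  simp only at h6
  have h7 : max (max |x| |y|) |x + y| < ((p + q : ℕ) : ℤ) := by
    rw [max_lt_iff, max_lt_iff, abs_lt, abs_lt, abs_lt]
    refine ⟨⟨⟨?_, ?_⟩, ?_, ?_⟩, ?_, ?_⟩ <;> linarith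
  linarith

theorem npc_even_small (p q n : ℕ) (v : ℤ × ℤ) (hqp : q ≤ p) (h3 : 3 ≤ p + q) (h18 : p + q ≤ 18) (hx : ¬ (p = 3 ∧ q = 0))
    (h22 : ¬ (p = 2 ∧ q = 2)) (hd : dt ((p : ℤ), (q : ℤ)) v = n) (hn : 0 < n) (he : n % 2 = 0) (hb : 3 * (p + q) ^ 2 ≤ 4 * n)
    (hmin : ∀ x ∈ Lt ((p : ℤ), (q : ℤ)) v, x ≠ 0 → ((p + q : ℕ) : ℤ) ≤ nrm x) :
    NPC.{u} (Lt ((p : ℤ), (q : ℤ)) v) ∨ (p = 2 ∧ q = 1 ∧ n = 10) ∨ (p = 4 ∧ q = 0 ∧ n = 16 ∧ v.1 % 4 = 2) := by
  have hc : ∃ c ∈ certs, c.p = p ∧ c.q = q := by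
    have h1 := List.all_eq_true.1 (List.all_eq_true.1 pairs_ok p (List.mem_range.2 (by omega))) q
      (List.mem_range.2 (by omega))
    simp only [Bool.or_eq_true, Bool.and_eq_true, Nat.blt_eq, Nat.beq_eq, List.any_eq_true] at h1
    rcases h1 with (((h1 | h1) | h1) | h1) | h1
    · omega
    · omega
    · exact absurd h1 hx
    · exact absurd h1 h22
    · exact h1
  obtain ⟨c, hc, hcp, hcq⟩ := hc
  subst hcp
  subst hcq
  have hck : c.check = true := List.all_eq_true.1 certs_ok c hc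
  by_cases hF : c.F ≤ (n : ℤ)
  · left
    exact cert_npc c hck v (by rw [hd]; exact hF) ⟨((n / 2 : ℕ) : ℤ), by rw [hd]; omega⟩
  have h1 := List.all_eq_true.1 cover_ok c hc
  unfold coverC at h1
  have h2 := List.all_eq_true.1 h1 n (List.mem_range.2 (by omega))
  simp only [Bool.or_eq_true, Nat.beq_eq, Nat.blt_eq, List.all_eq_true, List.mem_range] at h2
  rcases h2 with (h2 | h2) | h2
  · omega
  · omega
  have hp : 0 < c.p := by omega
  have hpz : (0 : ℤ) < (c.p : ℤ) := by exact_mod_cast hp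
  have ha0 : 0 ≤ v.1 % (c.p : ℤ) := Int.emod_nonneg _ hpz.ne'
  have ha1 : v.1 % (c.p : ℤ) < c.p := Int.emod_lt_of_pos _ hpz
  obtain ⟨a, ha⟩ : ∃ a : ℕ, v.1 % (c.p : ℤ) = a := ⟨(v.1 % (c.p : ℤ)).toNat, (Int.toNat_of_nonneg ha0).symm⟩
  have hm := Int.emod_add_mul_ediv v.1 (c.p : ℤ)
  rw [ha] at hm
  have hd' := hd
  unfold dt at hd'
  simp only at hd'
  -- `p ∣ n + q a`
  have hb1 : ((n + c.q * a : ℕ) : ℤ) = c.p * (v.2 - c.q * (v.1 / (c.p : ℤ))) := by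
    push_cast
    have h4 : (a : ℤ) = v.1 - c.p * (v.1 / (c.p : ℤ)) := by linarith
    rw [h4, ← hd']
    ring
  have hdv : c.p ∣ n + c.q * a := by
    have : ((c.p : ℕ) : ℤ) ∣ ((n + c.q * a : ℕ) : ℤ) := ⟨_, hb1⟩
    exact_mod_cast this
  have hb2 : (((n + c.q * a) / c.p : ℕ) : ℤ) = v.2 - c.q * (v.1 / (c.p : ℤ)) := by
    obtain ⟨b, hb⟩ := hdv
    rw [hb, Nat.mul_div_cancel_left _ hp]
    rw [hb] at hb1
    push_cast at hb1
    exact mul_left_cancel₀ hpz.ne' hb1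
  have h5 := h2 a (by rw [ha] at ha1; exact_mod_cast ha1)
  rcases h5 with ((h5 | h5) | h5) | h5
  · exfalso
    rw [Bool.not_eq_true'] at h5
    rw [Nat.mod_eq_zero_of_dvd hdv] at h5
    exact absurd h5 (by decide)
  · unfold spec at h5
    simp only [Bool.or_eq_true, Bool.and_eq_true, Nat.beq_eq] at h5
    rcases h5 with (⟨⟨h6, h7⟩, h8⟩ | ⟨⟨⟨h6, h7⟩, h8⟩, h9⟩) | ⟨⟨⟨h6, h7⟩, h8⟩, h9⟩
    · exact Or.inr (Or.inl ⟨h6, h7, h8⟩)
    · refine Or.inr (Or.inr ⟨h6, h7, h8, ?_⟩)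
      rw [h6, h9] at ha
      exact_mod_cast ha
    · exact absurd ⟨h6, h7⟩ h22
  · exfalso
    unfold shrt at h5
    simp only [Bool.or_eq_true] at h5
    rw [hb2] at h5
    rcases h5 with (h5 | h5) | h5
    · exact S1_short hd hn hmin (-(v.1 / (c.p : ℤ))) _ _ (by linarith) (by ring) h5
    · exact S1_short hd hn hmin (-(v.1 / (c.p : ℤ)) - 1) _ _ (by linarith) (by ring) h5
    · exact S1_short hd hn hmin (-(v.1 / (c.p : ℤ)) - 2) _ _ (by linarith) (by ring) h5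
  · left
    unfold hasE at h5
    simp only [List.any_eq_true, Bool.and_eq_true, Nat.beq_eq] at h5
    obtain ⟨e, hem, ⟨⟨h6, h7⟩, h8⟩, h9⟩ := h5
    have h10 := ent_npc.{u} e (ents_ok e hem) v (by rw [h6, h7, h8]; exact hd) (by rw [h6, h9]; exact ha)
    rw [h6, h7] at h10
    exact h10

private lemma s2_red {p q n : ℕ} (hp : 0 < p) {v : ℤ × ℤ} (hd : dt ((p : ℤ), (q : ℤ)) v = n) {a : ℕ}
    (ha : v.1 % (p : ℤ) = a) :
    (n + q * a) % p = 0 ∧ v.2 - v.1 / p * q = (((n + q * a) / p : ℕ) : ℤ) := by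
  have e := Int.emod_add_mul_ediv v.1 p
  have hp' : (p : ℤ) ≠ 0 := by exact_mod_cast hp.ne'
  have h1 : (p : ℤ) * (v.2 - v.1 / p * q) = ((n + q * a : ℕ) : ℤ) := by
    unfold dt at hd
    push_cast
    rw [← hd, ← ha]
    linear_combination (-(q : ℤ)) * e
  have h2 : p ∣ n + q * a := by
    have : (p : ℤ) ∣ ((n + q * a : ℕ) : ℤ) := ⟨_, h1.symm⟩
    exact_mod_cast this
  refine ⟨Nat.mod_eq_zero_of_dvd h2, ?_⟩
  rw [Int.natCast_div, ← h1, Int.mul_ediv_cancel_left _ hp']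

private lemma s2_mem {p q n : ℕ} (hp : 0 < p) {v : ℤ × ℤ} (hd : dt ((p : ℤ), (q : ℤ)) v = n) (hn : 0 < n) {a : ℕ}
    (ha : v.1 % (p : ℤ) = a) (k : ℤ) :
    (((a : ℤ) - k * p, (((n + q * a) / p : ℕ) : ℤ) - k * q) : ℤ × ℤ) ∈ Lt ((p : ℤ), (q : ℤ)) v ∧
      (((a : ℤ) - k * p, (((n + q * a) / p : ℕ) : ℤ) - k * q) : ℤ × ℤ) ≠ 0 := by
  obtain ⟨_, hw⟩ := s2_red hp hd ha
  have e := Int.emod_add_mul_ediv v.1 p
  rw [ha] at e
  constructor
  · refine mem_Lt'.2 ⟨-(v.1 / p) - k, 1, ?_, ?_⟩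
    · simp only
      linear_combination -e
    · simp only
      linear_combination hw
  · intro h0
    have h1 := congrArg Prod.fst h0
    have h2 := congrArg Prod.snd h0
    simp only [Prod.fst_zero, Prod.snd_zero] at h1 h2
    unfold dt at hd
    simp only at hd
    have : (n : ℤ) = 0 := by
      linear_combination (-1 : ℤ) * hd + (q : ℤ) * e + (p : ℤ) * hw + (p : ℤ) * h2 - (q : ℤ) * h1
    have h3 : 0 < (n : ℤ) := by exact_mod_cast hn
    omega

private lemma s2_sn {N : ℕ} {x y : ℤ} (h : sn N x y = true) : nrm (x, y) < N := by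
  unfold sn at h
  simp only [Bool.and_eq_true, decide_eq_true_eq] at h
  obtain ⟨⟨⟨⟨⟨h1, h2⟩, h3⟩, h4⟩, h5⟩, h6⟩ := h
  unfold nrm
  simp only [max_lt_iff, abs_lt]
  omega

private lemma s2_shrt {p q n : ℕ} (hp : 0 < p) {v : ℤ × ℤ} (hd : dt ((p : ℤ), (q : ℤ)) v = n) (hn : 0 < n) {a : ℕ}
    (ha : v.1 % (p : ℤ) = a) (h : shrt p q n a = true) :
    ∃ x ∈ Lt ((p : ℤ), (q : ℤ)) v, x ≠ 0 ∧ nrm x < ((p + q : ℕ) : ℤ) := by
  unfold shrt at h
  rw [Bool.or_eq_true, Bool.or_eq_true] at h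
  rcases h with (h | h) | h
  · obtain ⟨h1, h2⟩ := s2_mem hp hd hn ha 0
    refine ⟨_, h1, h2, ?_⟩
    have := s2_sn h
    simpa using this
  · obtain ⟨h1, h2⟩ := s2_mem hp hd hn ha 1
    refine ⟨_, h1, h2, ?_⟩
    have := s2_sn h
    simpa using this
  · obtain ⟨h1, h2⟩ := s2_mem hp hd hn ha 2
    exact ⟨_, h1, h2, s2_sn h⟩

private lemma s2_ent {p q n a : ℕ} (h : hasE p q n a = true) {v : ℤ × ℤ}
    (hd : dt ((p : ℤ), (q : ℤ)) v = n) (ha : v.1 % (p : ℤ) = a) : NPC.{u} (Lt ((p : ℤ), (q : ℤ)) v) := by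
  unfold hasE at h
  rw [List.any_eq_true] at h
  obtain ⟨e, he, h⟩ := h
  simp only [Bool.and_eq_true, Nat.beq_eq] at h
  obtain ⟨⟨⟨h1, h2⟩, h3⟩, h4⟩ := h
  subst h1 h2 h3 h4
  exact ent_npc e (ents_ok e he) v hd ha

private lemma s2_cov {p q F n a : ℕ} (h : coverC p q F = true) (hn : n < F) (he : n % 2 = 0)
    (hb : 3 * (p + q) ^ 2 ≤ 4 * n) (ha : a < p) (hm : (n + q * a) % p = 0) :
    spec p q n a = true ∨ shrt p q n a = true ∨ hasE p q n a = true := by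
  unfold coverC at h
  rw [List.all_eq_true] at h
  have h1 := h n (List.mem_range.2 hn)
  simp only [Bool.or_eq_true, Nat.beq_eq, Nat.blt_eq, List.all_eq_true, List.mem_range] at h1
  rcases h1 with (h1 | h1) | h1
  · omega
  · omega
  · have h2 := h1 a ha
    rcases h2 with ((h2 | h2) | h2) | h2
    · rw [hm] at h2
      simp at h2
    · exact Or.inl h2
    · exact Or.inr (Or.inl h2)
    · exact Or.inr (Or.inr h2)

theorem npc_22_small (n : ℕ) (v : ℤ × ℤ) (hd : dt (2, 2) v = n) (h12 : 12 ≤ n) (h28 : n < 28)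
    (hmin : ∀ x ∈ Lt (2, 2) v, x ≠ 0 → 4 ≤ nrm x) : NPC.{u} (Lt (2, 2) v) ∨ (n = 16 ∧ v.1 % 2 = 0) := by
  obtain ⟨a, ha⟩ : ∃ a : ℕ, v.1 % ((2 : ℕ) : ℤ) = a := ⟨(v.1 % 2).toNat, by omega⟩
  have ha2 : a < 2 := by omega
  have hd' : dt (((2 : ℕ) : ℤ), ((2 : ℕ) : ℤ)) v = n := hd
  obtain ⟨hm, -⟩ := s2_red (p := 2) (q := 2) (by norm_num) hd' ha
  have he : n % 2 = 0 := by omega
  rcases s2_cov cover22_ok h28 he (by omega) ha2 hm with h | h | h
  · right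
    unfold spec at h
    simp only [Bool.or_eq_true, Bool.and_eq_true, Nat.beq_eq] at h
    omega
  · exfalso
    obtain ⟨x, hx, hx0, hx1⟩ := s2_shrt (p := 2) (q := 2) (by norm_num) hd' (by omega) ha h
    have := hmin x hx hx0
    push_cast at hx1
    omega
  · left
    exact s2_ent h hd' ha

/-- odd index, `(p, q) = (2, 1)`, `n = 9, 11` -/
theorem npc_21_odd (n : ℕ) (v : ℤ × ℤ) (hd : dt (2, 1) v = n) (h : n = 9 ∨ n = 11) : NPC.{u} (Lt (2, 1) v) := by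
  have hd' : dt (((2 : ℕ) : ℤ), ((1 : ℕ) : ℤ)) v = n := hd
  have ha : v.1 % ((2 : ℕ) : ℤ) = ((1 : ℕ) : ℤ) := by
    unfold dt at hd
    simp only at hd
    push_cast
    omega
  have hE : hasE 2 1 n 1 = true := by
    rcases h with rfl | rfl <;> decide +kernel
  exact s2_ent hE hd' ha

end Pool.Agent.PP
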