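import Pool.Agent.Lib_MP_7c0803_hon.C
import Pool.Agent.Lib_MP_7c0803_hon.F
import Pool.Agent.Lib_MP_7c0803_hon.G
import Pool.Agent.Lib_MP_7c0803_hon.H
import Pool.Agent.Lib_MP_7c0803_hon.M
import Pool.Agent.Lib_MP_7c0803_hon.Small

/-!
# Lattices in normal form
-/

set_option autoImplicit false

namespace Pool.Agent.PP

universe u

/-- the lattices with constant parity in normal form -/
def Exl (L : AddSubgroup (ℤ × ℤ)) : Prop :=
  (∃ (s : ℤ) (k : ℕ), 2 ≤ k ∧ L = Lt (3, 0) (s, 2 * k)) ∨ L = Lt (2, 2) (0, 8) ∨ L = Lt (4, 0) (2, 4) ∨ L = Lt (2, 1) (-7, 0) ∨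
    L = Lt (2, 1) (-10, 0)

theorem nf_class (u v : ℤ × ℤ) (hq : 0 ≤ u.2) (hqp : u.2 ≤ u.1) (hp : 0 < u.1) (hd : 0 < dt u v)
    (hmin : ∀ x ∈ Lt u v, x ≠ 0 → nrm u ≤ nrm x) (h3 : 3 ≤ u.1 + u.2) : NPC.{u} (Lt u v) ∨ Exl (Lt u v) := by
  have hnu : nrm u = u.1 + u.2 := nrm_pos_coord u (by omega) hq
  have hb := index_bound u v hq hqp hp hd hmin
  obtain ⟨p, q⟩ := u
  simp only at hq hqp hp h3 hb
  rcases Int.even_or_odd' (dt (p, q) v) with ⟨m, hm | hm⟩
  swap
  · -- odd index
    by_cases hx : (p, q) = ((2, 1) : ℤ × ℤ) ∧ dt (p, q) v ≤ 11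
    · obtain ⟨hpq, h11⟩ := hx
      rw [Prod.mk.injEq] at hpq
      obtain ⟨rfl, rfl⟩ := hpq
      have h7 : dt (2, 1) v = 7 ∨ dt (2, 1) v = 9 ∨ dt (2, 1) v = 11 := by omega
      rcases h7 with h7 | h7 | h7
      · right
        right; right; right; left
        rw [basis21, h7]
      · left
        exact npc_21_odd 9 v (by rw [h7]; rfl) (Or.inl rfl)
      · left
        exact npc_21_odd 11 v (by rw [h7]; rfl) (Or.inr rfl)
    · left
      exact npc_odd (p, q) v hq hqp hp hd h3 ⟨m, hm⟩ hb hx
  · -- even index
    have hn : ∃ m : ℤ, dt (p, q) v = 2 * m := ⟨m, hm⟩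
    by_cases hs : 19 ≤ p + q
    · left
      have h5 : (p - q) % 3 = 0 ∨ (p - q) % 3 = 1 ∨ (p - q) % 3 = 2 := by omega
      rcases h5 with h5 | h5 | h5
      · rcases lt_or_eq_of_le hqp with h6 | h6
        · exact npc_pos p q 3 v hq hqp hs (Or.inr ⟨rfl, h5, h6⟩) hn hb
        · subst h6
          exact npc_dia q v (by omega) hn hb
      · exact npc_pos p q 1 v hq hqp hs (Or.inl ⟨rfl, h5⟩) hn hb
      · exact npc_neg p q v hq hqp hs h5 hn hb
    · obtain ⟨P, rfl⟩ : ∃ P : ℕ, p = P := ⟨p.toNat, by omega⟩
      obtain ⟨Q, rfl⟩ : ∃ Q : ℕ, q = Q := ⟨q.toNat, by omega⟩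
      obtain ⟨N, hN⟩ : ∃ N : ℕ, dt ((P : ℤ), (Q : ℤ)) v = N := ⟨(dt ((P : ℤ), (Q : ℤ)) v).toNat, by omega⟩
      rw [hN] at hm hd hb
      have hb' : 3 * (P + Q) ^ 2 ≤ 4 * N := by exact_mod_cast hb
      by_cases h30 : P = 3 ∧ Q = 0
      · obtain ⟨rfl, rfl⟩ := h30
        right
        left
        have h6 : (3 : ℤ) * v.2 = N := by
          rw [← hN]
          unfold dt
          push_cast
          ring
        refine ⟨v.1, (v.2 / 2).toNat, by omega, ?_⟩
        congr 1
        refine Prod.ext rfl ?_
        simp only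
        omega
      by_cases h22 : P = 2 ∧ Q = 2
      · obtain ⟨rfl, rfl⟩ := h22
        have h6 : (2 : ℤ) * (v.2 - v.1) = N := by
          rw [← hN]
          unfold dt
          push_cast
          ring
        by_cases h28 : N < 28
        · rcases npc_22_small.{u} N v hN (by omega) h28 (fun x hx hx0 => by
            have := hmin x hx hx0
            rw [hnu] at this
            exact this) with h7 | ⟨h7, h8⟩
          · left
            exact h7
          · right
            right; left
            subst h7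
            show Lt (2, 2) v = _
            rw [← Lt_eq (2, 2) v 1 0 (-(v.1 / 2)) 1 (by norm_num)]
            push_cast at h6
            congr 1
            · refine Prod.ext ?_ ?_ <;> simp only <;> omega
            · refine Prod.ext ?_ ?_ <;> simp only <;> omega
        · left
          refine npc_22_large v ?_
          show 28 ≤ dt (2, 2) v
          have : dt (2, 2) v = N := hN
          omega
      · rcases npc_even_small.{u} P Q N v (by omega) (by omega) (by omega) h30 h22 hN (by omega) (by omega) hb' (fun x hx hx0 => by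
          have := hmin x hx hx0
          rw [hnu] at this
          push_cast
          exact this) with h7 | ⟨h7, h8, h9⟩ | ⟨h7, h8, h9, h10⟩
        · left
          exact h7
        · subst h7 h8 h9
          right
          right; right; right; right
          show Lt (2, 1) v = _
          rw [basis21]
          have : dt (2, 1) v = 10 := hN
          rw [this]
        · subst h7 h8 h9
          right
          right; right; left
          show Lt (4, 0) v = _
          rw [basis40]
          have h11 : dt (4, 0) v = 16 := hN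
          unfold dt at h11
          simp only at h11
          rw [h10]
          congr 1
          refine Prod.ext rfl ?_
          simp only
          omega

end Pool.Agent.PP
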