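import Pool.Agent.Lib_MP_7c0803_hon.Enum
import Pool.Agent.Lib_MP_7c0803_tor.Exc

/-!
# [HON-P] The Heawood graph and the graph with 20 vertices: constant parity, more than one class

`HT (Lt (2, 1) (-n, 0)) ≅ HG 1 (-2)` over `ZMod n` (`uiso_cyc` and `mem_21`, see `nb_F` in `Lib_MP_7c0803_tor/Fam.lean`), `n = 10` and `n = 7`; numbering `φ = ZMod.val`, `-2 = 8` resp. `5`.
`epar` is the parity of the colouring with code `n` (every digit `1, 5, 6`, i.e. `(0, 1), (1, 2), (2, 0)`, is an even `X`-vertex; `Y`-vertices likewise): all leaves have `epar = 0`, so `PC`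
(the parity `CB.par` of the colouring `efc φ n` is `epar` for proper colourings: `∑ i, sg (c (i + 1) - c i)` at a vertex is `1` if `c 1 = c 0 + 1` and `0` otherwise).
`LA`: a list of codes such that a leaf outside `LA` has no common class with a member of `LA`: the colourings with code in `LA` form a union of Kempe classes.  Call a colouring `c` good if
`∃ m ∈ LA, efc φ m = c`: for proper `c, d` with `Rel c d`, `c` good implies `d` good (by `enum_all`, `d = efc φ n` for a leaf `n`; if `n ∉ LA` the test says that `n` has no common class with `m`;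
`erl_iff`).  So goodness is invariant (induction over `Relation.EqvGen`).  `la20`: `153391689` (colouring by slots) is proper and good, `155493342` is proper; the latter is not good since its code is not in
`LA` (codes of the same colouring with digits `< 8`, `N` digits, are equal: `efc φ` is injective on codes `< 8 ^ N` with digits in `{1, 2, 3, 5, 6, 7}`; or simply check by `decide` that for all `m ∈ LA` there is a position
where the first or second colours differ).
`PC` for all `B` isomorphic to the torus: `UIso.PC` (with `Fintype` of `ZMod n × Fin 3`).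
-/

set_option autoImplicit false
set_option maxRecDepth 100000

open Finset Function

namespace Pool.Agent.PP

universe u

/-- number of even vertices modulo 2 -/
def epar (N : ℕ) (m1 m2 : ℕ → ℕ) (n : ℕ) : ℕ :=
  ((List.range N).map fun y => (if Nat.beq ((ecl (edg n y) 0 + 1) % 3) (ecl (edg n y) 1) then 1 else 0) +
    (if Nat.beq ((ecl (edg n y) 0 + 1) % 3) (ecl (edg n (m1 y)) 1) then 1 else 0)).sum % 2

def LA20 : List ℕ := [153391689, 255652815, 306783378, 357913941, 460175067, 511305630, 715827882, 766958445, 869219571, 920350134,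
  971480697, 1073741823]

def LA7 : List ℕ := [299593, 599186, 898779, 1497965, 1797558, 2097151]

/-- test of a leaf -/
def plf (N : ℕ) (m1 m2 : ℕ → ℕ) (LA : List ℕ) (n : ℕ) : Bool :=
  Nat.beq (epar N m1 m2 n) 0 && (LA.any (Nat.beq n) ||
    LA.all fun m => !(erl N n m 0 0) && !(erl N n m 1 1) && !(erl N n m 2 2))

theorem search20 : ego (fun k => (k + 1) % 10) (fun k => (k + 8) % 10) (plf 10 (fun k => (k + 9) % 10) (fun k => (k + 2) % 10) LA20) 10 0 0
    = true := by decide +kernel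

theorem search7 : ego (fun k => (k + 1) % 7) (fun k => (k + 5) % 7) (plf 7 (fun k => (k + 6) % 7) (fun k => (k + 2) % 7) LA7) 7 0 0
    = true := by decide +kernel

theorem la20 : (eok 10 (fun k => (k + 9) % 10) (fun k => (k + 2) % 10) 153391689 && LA20.any (Nat.beq 153391689) &&
    eok 10 (fun k => (k + 9) % 10) (fun k => (k + 2) % 10) 155493342 && LA20.all fun m => !(Nat.beq m 155493342)) = true := by
  decide +kernel

theorem la7 : (eok 7 (fun k => (k + 6) % 7) (fun k => (k + 2) % 7) 299593 && LA7.any (Nat.beq 299593) &&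
    eok 7 (fun k => (k + 6) % 7) (fun k => (k + 2) % 7) 304094 && LA7.all fun m => !(Nat.beq m 304094)) = true := by decide +kernel

lemma P_ecl_lt (a i : ℕ) (ha : a < 8) : ecl a i < 3 := by
  unfold ecl
  split_ifs <;> omega

lemma P_edg_lt (n x : ℕ) : edg n x < 8 := Nat.mod_lt _ (by norm_num)

lemma P_efc {A : Type} (φ : A → ℕ) (n : ℕ) (x : A) (i : Fin 3) : (efc φ n (x, i)).val = ecl (edg n (φ x)) i.val := by
  unfold efc
  rw [Fin.val_ofNat]
  exact Nat.mod_eq_of_lt (P_ecl_lt _ _ (P_edg_lt _ _))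

lemma P_beq {A : Type} (φ : A → ℕ) (n : ℕ) (x y : A) (i j : Fin 3) :
    Nat.beq ((ecl (edg n (φ x)) i.val + 1) % 3) (ecl (edg n (φ y)) j.val) = true ↔
      efc φ n (x, i) + 1 = efc φ n (y, j) := by
  rw [Nat.beq_eq, ← P_efc φ n x i, ← P_efc φ n y j, Fin.ext_iff, Fin.val_add]
  rfl

lemma P_sg3 : ∀ p q r : Fin 3, q ≠ p → r ≠ q → p ≠ r → sg (q - p) + sg (r - q) + sg (p - r) = if p + 1 = q then 1 else 0 := by
  decide

lemma P_par {A : Type} [AddCommGroup A] [Fintype A] (a b : A) (c : A × Fin 3 → Fin 3) (h : (HG a b).P c) :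
    (HG a b).par c = ∑ y : A, ((if c (y, 0) + 1 = c (y, 1) then 1 else 0) + (if c (y, 0) + 1 = c (y - a, 1) then 1 else 0)) := by
  have e1 : ∑ e, sg (c ((HG a b).s e) - c e) = ∑ y : A, (if c (y, 0) + 1 = c (y, 1) then 1 else 0) := by
    rw [Fintype.sum_prod_type]
    refine Finset.sum_congr rfl fun y _ => ?_
    rw [Fin.sum_univ_three]
    exact P_sg3 _ _ _ (h (y, 0)).1 (h (y, 1)).1 (h (y, 2)).1
  have e2 : ∑ e, sg (c ((HG a b).t e) - c e) = ∑ y : A, (if c (y, 0) + 1 = c (y - a, 1) then 1 else 0) := by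
    rw [Fintype.sum_prod_type_right, Fin.sum_univ_three]
    have f0 : ∑ x : A, sg (c ((HG a b).t (x, 0)) - c (x, 0)) = ∑ y : A, sg (c (y - a, 1) - c (y, 0)) := by
      refine Finset.sum_congr rfl fun y _ => ?_
      have : (HG a b).t (y, 0) = (y - a, 1) := by
        rw [HG_t]
        simp
      rw [this]
    have f1 : ∑ x : A, sg (c ((HG a b).t (x, 1)) - c (x, 1)) = ∑ y : A, sg (c (y - b, 2) - c (y - a, 1)) := by
      rw [← Equiv.sum_comp (Equiv.subRight a)]
      refine Finset.sum_congr rfl fun y _ => ?_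
      have : (HG a b).t (y - a, 1) = (y - b, 2) := by
        rw [HG_t]
        simp
      simp only [Equiv.subRight_apply]
      rw [this]
    have f2 : ∑ x : A, sg (c ((HG a b).t (x, 2)) - c (x, 2)) = ∑ y : A, sg (c (y, 0) - c (y - b, 2)) := by
      rw [← Equiv.sum_comp (Equiv.subRight b)]
      refine Finset.sum_congr rfl fun y _ => ?_
      have : (HG a b).t (y - b, 2) = (y, 0) := by
        rw [HG_t]
        simp
      simp only [Equiv.subRight_apply]
      rw [this]
    rw [f0, f1, f2, ← Finset.sum_add_distrib, ← Finset.sum_add_distrib]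
    refine Finset.sum_congr rfl fun y _ => ?_
    refine P_sg3 _ _ _ ?_ ?_ ?_
    · have := (h (y, 0)).2
      rw [HG_t] at this
      simpa using this
    · have := (h (y - a, 1)).2
      rw [HG_t] at this
      simpa using this
    · have := (h (y - b, 2)).2
      rw [HG_t] at this
      simpa using this
  unfold CB.par
  rw [e1, e2, ← Finset.sum_add_distrib]

lemma P_epar (n : ℕ) [NeZero n] (a b : ZMod n) (m1 m2 : ℕ → ℕ) (hm1 : ∀ x : ZMod n, m1 x.val = (x - a).val)
    (k : ℕ) (h : (HG a b).P (efc ZMod.val k)) : (HG a b).par (efc ZMod.val k) = ((epar n m1 m2 k : ℕ) : ZMod 2) := by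
  rw [P_par a b _ h]
  unfold epar
  have e0 : ∀ f : ℕ → ℕ, ((List.range n).map f).sum = ∑ y ∈ Finset.range n, f y := fun f => rfl
  rw [ZMod.natCast_mod, e0, Nat.cast_sum]
  refine Finset.sum_nbij' (fun x => x.val) (fun y => (y : ZMod n)) ?_ ?_ ?_ ?_ ?_
  · intro x _
    exact Finset.mem_range.2 (ZMod.val_lt x)
  · intro y _
    exact Finset.mem_univ _
  · intro x _
    exact ZMod.natCast_zmod_val x
  · intro y hy
    exact ZMod.val_cast_of_lt (Finset.mem_range.1 hy)
  · intro x _
    rw [hm1 x]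
    have b1 : Nat.beq ((ecl (edg k x.val) 0 + 1) % 3) (ecl (edg k x.val) 1) = true ↔
        efc ZMod.val k (x, 0) + 1 = efc ZMod.val k (x, 1) := P_beq (ZMod.val (n := n)) k x x 0 1
    have b2 : Nat.beq ((ecl (edg k x.val) 0 + 1) % 3) (ecl (edg k (x - a).val) 1) = true ↔
        efc ZMod.val k (x, 0) + 1 = efc ZMod.val k (x - a, 1) := P_beq (ZMod.val (n := n)) k x (x - a) 0 1
    rw [Nat.cast_add]
    congr 1
    · by_cases hh : efc ZMod.val k (x, 0) + 1 = efc ZMod.val k (x, 1)
      · rw [if_pos hh, if_pos (b1.2 hh), Nat.cast_one]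
      · rw [if_neg hh, if_neg (fun h' => hh (b1.1 h')), Nat.cast_zero]
    · by_cases hh : efc ZMod.val k (x, 0) + 1 = efc ZMod.val k (x - a, 1)
      · rw [if_pos hh, if_pos (b2.2 hh), Nat.cast_one]
      · rw [if_neg hh, if_neg (fun h' => hh (b2.1 h')), Nat.cast_zero]

/-- constant parity from the search -/
lemma P_gen (n : ℕ) [NeZero n] (a b : ZMod n) (n1 n2 m1 m2 : ℕ → ℕ) (hn1 : ∀ k < n, n1 k = ((k : ZMod n) + a).val)
    (hn2 : ∀ k < n, n2 k = ((k : ZMod n) + b).val) (hm1 : ∀ x : ZMod n, m1 x.val = (x - a).val) (LA : List ℕ)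
    (hs : ego n1 n2 (plf n m1 m2 LA) n 0 0 = true) : (HG a b).PC := by
  have key : ∀ c, (HG a b).P c → (HG a b).par c = 0 := by
    intro c hc
    obtain ⟨k, hk, rfl⟩ := enum_all a b n ZMod.val (fun k => (k : ZMod n)) ZMod.val_lt ZMod.natCast_zmod_val
      (fun k hk => ZMod.val_cast_of_lt hk) n1 n2 hn1 hn2 _ hs c hc
    rw [P_epar n a b m1 m2 hm1 k hc]
    unfold plf at hk
    rw [Bool.and_eq_true, Nat.beq_eq] at hk
    rw [hk.1, Nat.cast_zero]
  intro c c' hc hc'
  rw [key c hc, key c' hc']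

theorem pc_T20 (E : Type u) [Fintype E] (B : CB E) (i : Nonempty (UIso B (HT (Lt (2, 1) (-10, 0))))) : B.PC := by
  obtain ⟨i⟩ := i
  obtain ⟨j⟩ := uiso_cyc 10 1 (-2) 1 8 (by decide) (by decide) ⟨1, 0, 0, by norm_num⟩ _ (mem_21 10)
  exact (i.trans j).PC.2 (P_gen 10 1 8 _ _ _ _ (by decide) (by decide) (by decide) LA20 search20)

/-- the colourings with code in `LA` form a union of Kempe classes -/
private lemma P2_good (N : ℕ) [NeZero N] (a b : ZMod N) (n1 n2 m1 m2 : ℕ → ℕ)
    (hn1 : ∀ k < N, n1 k = ZMod.val ((k : ZMod N) + a)) (hn2 : ∀ k < N, n2 k = ZMod.val ((k : ZMod N) + b))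
    (LA : List ℕ) (hs : ego n1 n2 (plf N m1 m2 LA) N 0 0 = true) {c d : ZMod N × Fin 3 → Fin 3}
    (hd : (HG a b).P d) (hr : Rel c d) (hc : ∃ m ∈ LA, efc ZMod.val m = c) : ∃ m ∈ LA, efc ZMod.val m = d := by
  obtain ⟨n, hn, hnd⟩ := enum_all a b N ZMod.val (fun k => (k : ZMod N)) (fun x => ZMod.val_lt x)
    (fun x => ZMod.natCast_zmod_val x) (fun k hk => ZMod.val_natCast_of_lt hk) n1 n2 hn1 hn2
    (plf N m1 m2 LA) hs d hd
  obtain ⟨m, hm, hmc⟩ := hc
  obtain ⟨k, hk⟩ := hr
  unfold plf at hn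
  rw [Bool.and_eq_true, Bool.or_eq_true] at hn
  rcases hn.2 with h | h
  · rw [List.any_eq_true] at h
    obtain ⟨n', hn', h2⟩ := h
    have h3 : n = n' := Nat.eq_of_beq_eq_true h2
    subst h3
    exact ⟨n, hn', hnd⟩
  · exfalso
    rw [List.all_eq_true] at h
    have h1 := h m hm
    simp only [Bool.and_eq_true, Bool.not_eq_true'] at h1
    have h2 : erl N n m k.val k.val = true := (erl_iff N ZMod.val (fun k => (k : ZMod N)) (fun x => ZMod.val_lt x)
      (fun k hk => ZMod.val_natCast_of_lt hk) n m k k).2 (fun e => by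
        rw [hmc, hnd]
        exact (hk e).symm)
    have h3 : ∀ k : Fin 3, k = 0 ∨ k = 1 ∨ k = 2 := by decide
    rcases h3 k with h4 | h4 | h4
    · rw [h4] at h2
      exact absurd (h2.symm.trans h1.1.1) (by decide)
    · rw [h4] at h2
      exact absurd (h2.symm.trans h1.1.2) (by decide)
    · rw [h4] at h2
      exact absurd (h2.symm.trans h1.2) (by decide)

/-- two proper colourings, one with code in `LA`, the other one not -/
private lemma P2_ncon (N : ℕ) [NeZero N] (a b : ZMod N) (n1 n2 m1 m2 : ℕ → ℕ)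
    (hn1 : ∀ k < N, n1 k = ZMod.val ((k : ZMod N) + a)) (hn2 : ∀ k < N, n2 k = ZMod.val ((k : ZMod N) + b))
    (hm1 : ∀ x : ZMod N, m1 (ZMod.val x) = ZMod.val (x - a)) (hm2 : ∀ x : ZMod N, m2 (ZMod.val x) = ZMod.val (x - b))
    (LA : List ℕ) (hs : ego n1 n2 (plf N m1 m2 LA) N 0 0 = true) (p q : ℕ)
    (hp : eok N m1 m2 p = true) (hq : eok N m1 m2 q = true) (hpL : p ∈ LA)
    (hqL : (LA.all fun m => !(erl N m q 0 0)) = true) : ¬ (HG a b).Con := by
  intro hcon
  have hP := efc_P a b N ZMod.val (fun x => ZMod.val_lt x) m1 m2 hm1 hm2 p hp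
  have hQ := efc_P a b N ZMod.val (fun x => ZMod.val_lt x) m1 m2 hm1 hm2 q hq
  have hke := hcon _ _ hP hQ
  have key : ∀ c d : ZMod N × Fin 3 → Fin 3, (HG a b).KE c d →
      ((∃ m ∈ LA, efc ZMod.val m = c) ↔ ∃ m ∈ LA, efc ZMod.val m = d) := by
    intro c d h
    induction h with
    | rel x y h =>
      obtain ⟨hx, hy, hxy⟩ := h
      have hyx : Rel y x := by
        obtain ⟨k, hk⟩ := hxy
        exact ⟨k, fun e => (hk e).symm⟩
      exact ⟨P2_good N a b n1 n2 m1 m2 hn1 hn2 LA hs hy hxy, P2_good N a b n1 n2 m1 m2 hn1 hn2 LA hs hx hyx⟩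
    | refl x => exact Iff.rfl
    | symm x y _ ih => exact ih.symm
    | trans x y z _ _ ih1 ih2 => exact ih1.trans ih2
  obtain ⟨m, hm, hmq⟩ := (key _ _ hke).1 ⟨p, hpL, rfl⟩
  rw [List.all_eq_true] at hqL
  have h1 := hqL m hm
  rw [Bool.not_eq_true'] at h1
  have h2 : erl N m q (0 : Fin 3).val (0 : Fin 3).val = true := (erl_iff N ZMod.val (fun k => (k : ZMod N))
    (fun x => ZMod.val_lt x) (fun k hk => ZMod.val_natCast_of_lt hk) m q 0 0).2 (fun e => by rw [hmq])
  exact absurd (h2.symm.trans h1) (by decide)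

theorem ncon_T20 : ¬ (HT (Lt (2, 1) (-10, 0))).Con := by
  obtain ⟨i⟩ := uiso_cyc 10 1 (-2) 1 8 (by decide) (by decide) ⟨1, 0, 0, by norm_num⟩ _ (mem_21 10)
  intro h
  have hla := la20
  simp only [Bool.and_eq_true] at hla
  exact P2_ncon 10 1 8 _ _ _ _ (by decide) (by decide) (by decide) (by decide) LA20 search20 153391689 155493342
    hla.1.1.1 hla.1.2 (by decide) (by decide +kernel) (i.Con.1 h)

theorem pc_T14 (E : Type u) [Fintype E] (B : CB E) (i : Nonempty (UIso B (HT (Lt (2, 1) (-7, 0))))) : B.PC := by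
  obtain ⟨i⟩ := i
  obtain ⟨j⟩ := uiso_cyc 7 1 (-2) 1 5 (by decide) (by decide) ⟨1, 0, 0, by norm_num⟩ _ (mem_21 7)
  exact (i.trans j).PC.2 (P_gen 7 1 5 _ _ _ _ (by decide) (by decide) (by decide) LA7 search7)

theorem ncon_T14 : ¬ (HT (Lt (2, 1) (-7, 0))).Con := by
  obtain ⟨i⟩ := uiso_cyc 7 1 (-2) 1 5 (by decide) (by decide) ⟨1, 0, 0, by norm_num⟩ _ (mem_21 7)
  intro h
  have hla := la7
  simp only [Bool.and_eq_true] at hla
  exact P2_ncon 7 1 5 _ _ _ _ (by decide) (by decide) (by decide) (by decide) LA7 search7 299593 304094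
    hla.1.1.1 hla.1.2 (by decide) (by decide +kernel) (i.Con.1 h)

end Pool.Agent.PP
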