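import Pool.Agent.Lib_MP_7c0803_hon.Defs
import Pool.Agent.Lib_MP_7c0803_tor.Final

/-!
# [HON-R] Graphs and their edge sets

`Hon L`: vertices `(x, true)` (`X`) and `(x, false)` (`Y`), `x ∈ (ℤ × ℤ) ⧸ L`; `(x, true)` is adjacent to `(x, false)`, `(x + (1, 0), false)`, `(x + (0, 1), false)`.

[HON-R0] `toCB_ends`: `vx e = ((dartEquiv κ).symm (e, true)).fst`, `vy e = ((dartEquiv κ).symm (e, false)).fst`; see the proof of `mdl0` in `Lib_MP_7c0803_pp/TopA.lean` (fields `hx`, `hy`,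
`TopA_adj`) and `Graph.lean` (`dartEquiv`, `de_symm_apply`, `col_symm_apply`; every vertex is the end of an edge since its degree is three: `card_out`).

[HON-R1] `iso_of_uiso`: let `i : UIso (toCB M κ hcub) (HT L)`, `i.j e = (x, k)`.  `SO_HG_s`, `SO_HG_t`: `vx e = vx f` iff `(i.j e).1 = (i.j f).1`; `vy e = vy f` iff
`(i.j e).1 + δ k = (i.j f).1 + δ k'`.  So `v = vx e ↦ ((i.j e).1, true)`, `v = vy e ↦ ((i.j e).1 + δ k, false)` is a well defined bijection (choose an edge at every vertex; surjective since `i.j` is);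
`v, w` are adjacent iff they are `vx e`, `vy e` for some `e` (or the other way round) iff the images are adjacent.

[HON-R2] `uiso_of_iso`: let `φ : G ≃g Hon L`; `κ v = (φ v).2` is a colouring.  For an edge `e` let `φ (vx e) = (x, true)`, `φ (vy e) = (y, false)`, `y = x + δ k`; `k` is unique: the three neighbours
`x, x + (1, 0), x + (0, 1)` are different since the degree is three (`hcub` at `vx e`: the neighbour set is mapped onto the set of these three).  `j e = (x, k)`: injective (an edge is determined by its ends in a simple graph),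
surjective (`(x, k)`: the edge between `φ⁻¹ (x, true)` and `φ⁻¹ (x + δ k, false)`).  `SO` is: same end, different edge (`toCB_ends`, `SO_HG_s`, `SO_HG_t`).

[HON-R3] `girth_cb`: `Th`, `Dg`: the different edges `e, f` have the same `X`-end and the same `Y`-end: impossible in a simple graph.  `Sq`: `vx e1 = vx e4 = a`, `vy e1 = vy e2 = b`, `vx e2 = vx e3 = c`,
`vy e3 = vy e4 = d`; `h4` gives `a = c` (then `e1 = e2`) or `b = d` (then `e1 = e4`), against `nd`.
-/

set_option autoImplicit false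

open Finset Function

namespace Pool.Agent.PP

open SimpleGraph

universe u

variable {V : Type u} {G : SimpleGraph V}

/-- `p` is an `X`-vertex, `q` a `Y`-vertex, `q - p ∈ {0, (1, 0), (0, 1)}` -/
def HonRel (L : AddSubgroup (ℤ × ℤ)) (p q : ((ℤ × ℤ) ⧸ L) × Bool) : Prop :=
  p.2 = true ∧ q.2 = false ∧ (q.1 = p.1 ∨ q.1 = p.1 + (((1, 0) : ℤ × ℤ) : (ℤ × ℤ) ⧸ L) ∨ q.1 = p.1 + (((0, 1) : ℤ × ℤ) : (ℤ × ℤ) ⧸ L))

/-- the hexagonal grid on `(ℤ × ℤ) ⧸ L` -/
def Hon (L : AddSubgroup (ℤ × ℤ)) : SimpleGraph (((ℤ × ℤ) ⧸ L) × Bool) where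
  Adj p q := HonRel L p q ∨ HonRel L q p
  symm := ⟨fun _ _ h => h.symm⟩
  loopless := ⟨fun p h => by
    have h1 : p.2 = true ∧ p.2 = false := by
      rcases h with h | h <;> exact ⟨h.1, h.2.1⟩
    rw [h1.1] at h1
    exact absurd h1.2 (by decide)⟩

private lemma HR0_pow (M : Emb G) (hcub : ∀ v, (G.neighborSet v).ncard = 3) (d : G.Dart) (i : ℕ) :
    (M.rot ^ i) d = d ∨ (M.rot ^ i) d = M.rot d ∨ (M.rot ^ i) d = M.rot (M.rot d) := by
  induction i with
  | zero => left; rfl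
  | succ i ih =>
    rw [pow_succ', Equiv.Perm.mul_apply]
    rcases ih with h | h | h
    · right; left; rw [h]
    · right; right; rw [h]
    · left; rw [h, rot3 M hcub]

private lemma HR0_orb (M : Emb G) (κ : G.Coloring Bool) (hcub : ∀ v, (G.neighborSet v).ncard = 3)
    (b : Bool) (e f : G.edgeSet) :
    ((dartEquiv κ).symm (e, b)).fst = ((dartEquiv κ).symm (f, b)).fst ↔
      (f = e ∨ SO (rotB M κ b) e f) := by
  constructor
  · intro h
    obtain ⟨i, hi⟩ := M.rot_trans _ _ h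
    rcases HR0_pow M hcub ((dartEquiv κ).symm (e, b)) i with h1 | h1 | h1
    · left
      rw [h1] at hi
      have := (dartEquiv κ).symm.injective hi
      exact (congrArg Prod.fst this).symm
    · right; left
      rw [h1, rot_symm_dart] at hi
      have := (dartEquiv κ).symm.injective hi
      exact (congrArg Prod.fst this).symm
    · right; right
      rw [h1, rot_symm_dart, rot_symm_dart] at hi
      have := (dartEquiv κ).symm.injective hi
      exact (congrArg Prod.fst this).symm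
  · have key : ∀ a : G.edgeSet, ((dartEquiv κ).symm (rotB M κ b a, b)).fst =
        ((dartEquiv κ).symm (a, b)).fst := fun a => by
      rw [← rot_symm_dart]
      exact M.rot_fst _
    rintro (rfl | rfl | rfl)
    · rfl
    · exact (key e).symm
    · rw [key, key]

private lemma HR0_symm (κ : G.Coloring Bool) (e : G.edgeSet) :
    (dartEquiv κ).symm (e, false) = ((dartEquiv κ).symm (e, true)).symm := by
  rw [Equiv.symm_apply_eq, dartEquiv_apply]
  have h1 : de ((dartEquiv κ).symm (e, true)) = e := de_symm_apply κ e true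
  have h2 : κ ((dartEquiv κ).symm (e, true)).fst = true := col_symm_apply κ e true
  have h3 := κ.valid ((dartEquiv κ).symm (e, true)).adj
  refine Prod.ext ?_ ?_
  · show e = de ((dartEquiv κ).symm (e, true)).symm
    apply Subtype.ext
    show (e : Sym2 V) = ((dartEquiv κ).symm (e, true)).symm.edge
    rw [SimpleGraph.Dart.edge_symm]
    exact (congrArg Subtype.val h1).symm
  · show false = κ ((dartEquiv κ).symm (e, true)).snd
    rw [h2] at h3
    cases h4 : κ ((dartEquiv κ).symm (e, true)).snd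
    · rfl
    · exact absurd h4.symm h3

private lemma HR0_ex (κ : G.Coloring Bool) (hcub : ∀ v, (G.neighborSet v).ncard = 3) (v : V) :
    ∃ e, ((dartEquiv κ).symm (e, κ v)).fst = v := by
  have h0 : (G.neighborSet v).Nonempty := by
    rw [Set.nonempty_iff_ne_empty]
    intro h
    have := hcub v
    rw [h, Set.ncard_empty] at this
    exact absurd this (by decide)
  obtain ⟨w, hw⟩ := h0
  have hvw : G.Adj v w := hw
  refine ⟨de (⟨(v, w), hvw⟩ : G.Dart), ?_⟩
  have h1 : (dartEquiv κ) (⟨(v, w), hvw⟩ : G.Dart) = (de (⟨(v, w), hvw⟩ : G.Dart), κ v) :=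
    dartEquiv_apply κ _
  rw [← h1, Equiv.symm_apply_apply]

theorem toCB_ends (M : Emb G) (κ : G.Coloring Bool) (hcub : ∀ v, (G.neighborSet v).ncard = 3) :
    ∃ vx vy : G.edgeSet → V, (∀ e : G.edgeSet, (e : Sym2 V) = s(vx e, vy e)) ∧ (∀ e, κ (vx e) = true) ∧ (∀ e, κ (vy e) = false) ∧
      (∀ e f, vx e = vx f ↔ (f = e ∨ SO (toCB M κ hcub).s e f)) ∧ (∀ e f, vy e = vy f ↔ (f = e ∨ SO (toCB M κ hcub).t e f)) ∧
      ∀ v, (κ v = true → ∃ e, vx e = v) ∧ (κ v = false → ∃ e, vy e = v) := by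
  refine ⟨fun e => ((dartEquiv κ).symm (e, true)).fst, fun e => ((dartEquiv κ).symm (e, false)).fst,
    ?_, fun e => col_symm_apply κ e true, fun e => col_symm_apply κ e false,
    fun e f => HR0_orb M κ hcub true e f, fun e f => HR0_orb M κ hcub false e f, ?_⟩
  · intro e
    show (e : Sym2 V) = s(((dartEquiv κ).symm (e, true)).fst, ((dartEquiv κ).symm (e, false)).fst)
    rw [HR0_symm]
    have h1 : de ((dartEquiv κ).symm (e, true)) = e := de_symm_apply κ e true
    conv_lhs => rw [← h1]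
    rfl
  · intro v
    obtain ⟨e, he⟩ := HR0_ex κ hcub v
    refine ⟨fun h => ⟨e, ?_⟩, fun h => ⟨e, ?_⟩⟩
    · rw [h] at he; exact he
    · rw [h] at he; exact he

theorem iso_of_uiso (M : Emb G) (κ : G.Coloring Bool) (hcub : ∀ v, (G.neighborSet v).ncard = 3) (L : AddSubgroup (ℤ × ℤ))
    (i : Nonempty (UIso (toCB M κ hcub) (HT L))) : Nonempty (G ≃g Hon L) := by
  classical
  obtain ⟨i⟩ := i
  obtain ⟨vx, vy, hends, hκx, hκy, hx, hy, hsurj⟩ := toCB_ends M κ hcub
  have cx : ∀ e f, vx e = vx f ↔ (i.j e).1 = (i.j f).1 := by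
    intro e f
    rw [hx, i.hs]
    have h1 : SO (HT L).s (i.j e) (i.j f) ↔ ((i.j f).1 = (i.j e).1 ∧ (i.j f).2 ≠ (i.j e).2) :=
      SO_HG_s _ _ (i.j e).1 (i.j f).1 (i.j e).2 (i.j f).2
    rw [h1]
    constructor
    · rintro (h | h)
      · rw [h]
      · exact h.1.symm
    · intro h
      by_cases h2 : (i.j f).2 = (i.j e).2
      · exact Or.inl (i.j.injective (Prod.ext h.symm h2))
      · exact Or.inr ⟨h.symm, h2⟩
  set a : (ℤ × ℤ) ⧸ L := (((1, 0) : ℤ × ℤ) : (ℤ × ℤ) ⧸ L) with ha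
  set b : (ℤ × ℤ) ⧸ L := (((0, 1) : ℤ × ℤ) : (ℤ × ℤ) ⧸ L) with hb
  have cy : ∀ e f, vy e = vy f ↔ (i.j e).1 + dl a b (i.j e).2 = (i.j f).1 + dl a b (i.j f).2 := by
    intro e f
    rw [hy, i.ht]
    have h1 : SO (HT L).t (i.j e) (i.j f) ↔
        ((i.j f).1 + dl a b (i.j f).2 = (i.j e).1 + dl a b (i.j e).2 ∧ (i.j f).2 ≠ (i.j e).2) :=
      SO_HG_t _ _ (i.j e).1 (i.j f).1 (i.j e).2 (i.j f).2
    rw [h1]
    constructor
    · rintro (h | h)
      · rw [h]
      · exact h.1.symm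
    · intro h
      by_cases h2 : (i.j f).2 = (i.j e).2
      · rw [h2] at h
        exact Or.inl (i.j.injective (Prod.ext (add_right_cancel h).symm h2))
      · exact Or.inr ⟨h.symm, h2⟩
  have hF : ∀ v, ∃ p : ((ℤ × ℤ) ⧸ L) × Bool, (∀ e, vx e = v → p = ((i.j e).1, true)) ∧
      (∀ e, vy e = v → p = ((i.j e).1 + dl a b (i.j e).2, false)) ∧ p.2 = κ v := by
    intro v
    rcases hv : κ v with _ | _
    · obtain ⟨e, he⟩ := (hsurj v).2 hv
      refine ⟨((i.j e).1 + dl a b (i.j e).2, false), fun f hf => ?_, fun f hf => ?_, rfl⟩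
      · have h1 := hκx f
        rw [hf, hv] at h1
        exact absurd h1 (by decide)
      · rw [(cy e f).1 (he.trans hf.symm)]
    · obtain ⟨e, he⟩ := (hsurj v).1 hv
      refine ⟨((i.j e).1, true), fun f hf => ?_, fun f hf => ?_, rfl⟩
      · rw [(cx e f).1 (he.trans hf.symm)]
      · have h1 := hκy f
        rw [hf, hv] at h1
        exact absurd h1 (by decide)
  choose F hF1 hF2 hF3 using hF
  have Fx : ∀ e, F (vx e) = ((i.j e).1, true) := fun e => hF1 _ e rfl
  have Fy : ∀ e, F (vy e) = ((i.j e).1 + dl a b (i.j e).2, false) := fun e => hF2 _ e rfl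
  have adj1 : ∀ v w, HonRel L (F v) (F w) → G.Adj v w := by
    intro v w h
    obtain ⟨h1, h2, h3⟩ := h
    rw [hF3] at h1 h2
    obtain ⟨e, rfl⟩ := (hsurj v).1 h1
    obtain ⟨f, rfl⟩ := (hsurj w).2 h2
    rw [Fx, Fy] at h3
    have h4 : ∃ k : Fin 3, (i.j f).1 + dl a b (i.j f).2 = (i.j e).1 + dl a b k := by
      rcases h3 with h3 | h3 | h3
      · exact ⟨0, h3.trans (add_zero _).symm⟩
      · exact ⟨1, h3⟩
      · exact ⟨2, h3⟩
    obtain ⟨k, h4⟩ := h4
    have h5 : i.j (i.j.symm ((i.j e).1, k)) = ((i.j e).1, k) := i.j.apply_symm_apply _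
    have h6 : vx (i.j.symm ((i.j e).1, k)) = vx e := (cx _ _).2 (by rw [h5])
    have h7 : vy (i.j.symm ((i.j e).1, k)) = vy f := (cy _ _).2 (by rw [h5]; exact h4.symm)
    have h8 := (i.j.symm ((i.j e).1, k)).2
    rw [hends, h6, h7] at h8
    exact h8
  refine ⟨⟨Equiv.ofBijective F ⟨?_, ?_⟩, ?_⟩⟩
  · intro v w h
    have h1 : κ v = κ w := by rw [← hF3 v, ← hF3 w, h]
    rcases hv : κ v with _ | _
    · obtain ⟨e, rfl⟩ := (hsurj v).2 hv
      obtain ⟨f, rfl⟩ := (hsurj w).2 (h1.symm.trans hv)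
      rw [Fy, Fy] at h
      exact (cy e f).2 (Prod.mk.inj h).1
    · obtain ⟨e, rfl⟩ := (hsurj v).1 hv
      obtain ⟨f, rfl⟩ := (hsurj w).1 (h1.symm.trans hv)
      rw [Fx, Fx] at h
      exact (cx e f).2 (Prod.mk.inj h).1
  · rintro ⟨x, _ | _⟩
    · refine ⟨vy (i.j.symm (x, 0)), ?_⟩
      rw [Fy, i.j.apply_symm_apply]
      exact Prod.ext (add_zero _) rfl
    · refine ⟨vx (i.j.symm (x, 0)), ?_⟩
      rw [Fx, i.j.apply_symm_apply]
  · intro v w
    change (HonRel L (F v) (F w) ∨ HonRel L (F w) (F v)) ↔ G.Adj v w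
    constructor
    · rintro (h | h)
      · exact adj1 v w h
      · exact (adj1 w v h).symm
    · intro h
      have key : ∀ (v' w' : V) (e : G.edgeSet), v' = vx e → w' = vy e →
          HonRel L (F v') (F w') := by
        intro v' w' e hv' hw'
        rw [hv', hw', Fx, Fy]
        refine ⟨rfl, rfl, ?_⟩
        generalize (i.j e).2 = k
        fin_cases k
        · exact Or.inl (add_zero _)
        · exact Or.inr (Or.inl rfl)
        · exact Or.inr (Or.inr rfl)
      have h1 := hends ⟨s(v, w), h⟩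
      rcases Sym2.eq_iff.1 h1 with ⟨h2, h3⟩ | ⟨h2, h3⟩
      · exact Or.inl (key _ _ _ h2 h3)
      · exact Or.inr (key _ _ _ h3 h2)

private lemma HR2_SO_ne {E : Type*} (s : Equiv.Perm E) (s3 : ∀ e, s (s (s e)) = e) (s1 : ∀ e, s e ≠ e) {e f : E}
    (h : SO s e f) : f ≠ e := by
  rintro rfl
  rcases h with h | h
  · exact s1 f h.symm
  · have h1 := s3 f
    rw [← h] at h1
    exact s1 f h1

private lemma HR2_inj (hcub : ∀ v, (G.neighborSet v).ncard = 3) (L : AddSubgroup (ℤ × ℤ)) (φ : G ≃g Hon L) :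
    Injective (dl (((1, 0) : ℤ × ℤ) : (ℤ × ℤ) ⧸ L) (((0, 1) : ℤ × ℤ) : (ℤ × ℤ) ⧸ L)) := by
  classical
  set a : (ℤ × ℤ) ⧸ L := (((1, 0) : ℤ × ℤ) : (ℤ × ℤ) ⧸ L) with ha
  set b : (ℤ × ℤ) ⧸ L := (((0, 1) : ℤ × ℤ) : (ℤ × ℤ) ⧸ L) with hb
  have h0 := hcub (φ.symm (0, true))
  have h1 : φ '' (G.neighborSet (φ.symm (0, true))) ⊆ ((Finset.univ.image fun k : Fin 3 => (dl a b k, false) :
      Finset (((ℤ × ℤ) ⧸ L) × Bool)) : Set (((ℤ × ℤ) ⧸ L) × Bool)) := by
    rintro _ ⟨w, hw, rfl⟩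
    have h2 : G.Adj (φ.symm (0, true)) w := hw
    rw [← φ.map_adj_iff, φ.apply_symm_apply] at h2
    rw [Finset.mem_coe, Finset.mem_image]
    rcases h2 with h | h
    · obtain ⟨-, h3, h4⟩ := h
      rcases h4 with h4 | h4 | h4
      · exact ⟨0, Finset.mem_univ _, Prod.ext h4.symm h3.symm⟩
      · exact ⟨1, Finset.mem_univ _, Prod.ext ((zero_add a).symm.trans h4.symm) h3.symm⟩
      · exact ⟨2, Finset.mem_univ _, Prod.ext ((zero_add b).symm.trans h4.symm) h3.symm⟩
    · exact absurd h.2.1 (by simp)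
  have h2 : (φ '' (G.neighborSet (φ.symm (0, true)))).ncard = 3 := by
    rw [Set.ncard_image_of_injective _ φ.injective, h0]
  have h3 := Set.ncard_le_ncard h1 (Finset.finite_toSet _)
  rw [h2, Set.ncard_coe_finset] at h3
  have h4 : (Finset.univ.image fun k : Fin 3 => (dl a b k, false)).card = (Finset.univ : Finset (Fin 3)).card :=
    le_antisymm Finset.card_image_le (by simpa using h3)
  have h5 := Finset.card_image_iff.1 h4
  intro i j hij
  exact h5 (by simp) (by simp) (by simp only [hij])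

theorem uiso_of_iso (hcub : ∀ v, (G.neighborSet v).ncard = 3) (L : AddSubgroup (ℤ × ℤ)) (φ : G ≃g Hon L) :
    ∃ κ : G.Coloring Bool, ∀ M : Emb G, Nonempty (UIso (toCB M κ hcub) (HT L)) := by
  classical
  have hinj := HR2_inj hcub L φ
  set a : (ℤ × ℤ) ⧸ L := (((1, 0) : ℤ × ℤ) : (ℤ × ℤ) ⧸ L) with ha
  set b : (ℤ × ℤ) ⧸ L := (((0, 1) : ℤ × ℤ) : (ℤ × ℤ) ⧸ L) with hb
  refine ⟨SimpleGraph.Coloring.mk (fun v => (φ v).2) ?_, ?_⟩
  · intro v w h
    rw [← φ.map_adj_iff] at h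
    rcases h with h | h
    · show (φ v).2 ≠ (φ w).2
      rw [h.1, h.2.1]
      decide
    · show (φ v).2 ≠ (φ w).2
      rw [h.1, h.2.1]
      decide
  intro M
  set κ : G.Coloring Bool := SimpleGraph.Coloring.mk (fun v => (φ v).2) _ with hκdef
  obtain ⟨vx, vy, hends, hκx, hκy, hx, hy, -⟩ := toCB_ends M κ hcub
  have kx : ∀ e, (φ (vx e)).2 = true := hκx
  have ky : ∀ e, (φ (vy e)).2 = false := hκy
  have hadj : ∀ e : G.edgeSet, G.Adj (vx e) (vy e) := fun e => by
    have h := e.2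
    rw [hends] at h
    exact h
  have hk : ∀ e, ∃ k : Fin 3, (φ (vy e)).1 = (φ (vx e)).1 + dl a b k := by
    intro e
    have h := hadj e
    rw [← φ.map_adj_iff] at h
    rcases h with h | h
    · rcases h.2.2 with h3 | h3 | h3
      · exact ⟨0, h3.trans (add_zero _).symm⟩
      · exact ⟨1, h3⟩
      · exact ⟨2, h3⟩
    · exact absurd (h.1.symm.trans (ky e)) (by decide)
  choose k hk using hk
  have hxe : ∀ e f, vx e = vx f ↔ (φ (vx e)).1 = (φ (vx f)).1 := fun e f =>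
    ⟨fun h => by rw [h], fun h => φ.injective (Prod.ext h ((kx e).trans (kx f).symm))⟩
  have hye : ∀ e f, vy e = vy f ↔ (φ (vx e)).1 + dl a b (k e) = (φ (vx f)).1 + dl a b (k f) := fun e f => by
    rw [← hk, ← hk]
    exact ⟨fun h => by rw [h], fun h => φ.injective (Prod.ext h ((ky e).trans (ky f).symm))⟩
  have hef : ∀ e f : G.edgeSet, vx e = vx f → vy e = vy f → e = f := fun e f h1 h2 => by
    apply Subtype.ext
    rw [hends e, hends f, h1, h2]
  set J : G.edgeSet → ((ℤ × ℤ) ⧸ L) × Fin 3 := fun e => ((φ (vx e)).1, k e) with hJ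
  have hJi : Injective J := by
    intro e f h
    have h1 : (φ (vx e)).1 = (φ (vx f)).1 := congrArg (fun p : ((ℤ × ℤ) ⧸ L) × Fin 3 => p.1) h
    have h2 : k e = k f := congrArg (fun p : ((ℤ × ℤ) ⧸ L) × Fin 3 => p.2) h
    exact hef e f ((hxe e f).2 h1) ((hye e f).2 (by rw [h1, h2]))
  have hJs : Surjective J := by
    rintro ⟨x, i⟩
    have h1 : G.Adj (φ.symm (x, true)) (φ.symm (x + dl a b i, false)) := by
      rw [← φ.map_adj_iff, φ.apply_symm_apply, φ.apply_symm_apply]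
      refine Or.inl ⟨rfl, rfl, ?_⟩
      fin_cases i
      · exact Or.inl (add_zero _)
      · exact Or.inr (Or.inl rfl)
      · exact Or.inr (Or.inr rfl)
    refine ⟨⟨s(φ.symm (x, true), φ.symm (x + dl a b i, false)), h1⟩, ?_⟩
    set e : G.edgeSet := ⟨s(φ.symm (x, true), φ.symm (x + dl a b i, false)), h1⟩ with he
    have h2 : s(φ.symm (x, true), φ.symm (x + dl a b i, false)) = s(vx e, vy e) := hends e
    rcases Sym2.eq_iff.1 h2 with ⟨h3, h4⟩ | ⟨h3, h4⟩
    · have h5 : φ (vx e) = (x, true) := by rw [← h3, φ.apply_symm_apply]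
      have h6 : φ (vy e) = (x + dl a b i, false) := by rw [← h4, φ.apply_symm_apply]
      have h7 := hk e
      rw [h5, h6] at h7
      have h8 : i = k e := hinj (add_left_cancel h7)
      exact Prod.ext (by rw [hJ]; simp only [h5]) h8.symm
    · have h5 := ky e
      rw [← h3, φ.apply_symm_apply] at h5
      exact absurd h5 (by simp)
  refine ⟨⟨Equiv.ofBijective J ⟨hJi, hJs⟩, ?_, ?_⟩⟩
  · intro e f
    have h1 : SO (HT L).s (J e) (J f) ↔ ((J f).1 = (J e).1 ∧ (J f).2 ≠ (J e).2) :=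
      SO_HG_s _ _ (J e).1 (J f).1 (J e).2 (J f).2
    show SO (toCB M κ hcub).s e f ↔ SO (HT L).s (J e) (J f)
    rw [h1]
    constructor
    · intro h
      have h2 : vx e = vx f := (hx e f).2 (Or.inr h)
      have h3 : (φ (vx e)).1 = (φ (vx f)).1 := (hxe e f).1 h2
      refine ⟨h3.symm, fun h4 => ?_⟩
      exact HR2_SO_ne _ (toCB M κ hcub).s3 (toCB M κ hcub).s1 h (hJi (Prod.ext h3.symm h4))
    · rintro ⟨h2, h3⟩
      rcases (hx e f).1 ((hxe e f).2 h2.symm) with h4 | h4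
      · exact absurd (by rw [h4]) h3
      · exact h4
  · intro e f
    have h1 : SO (HT L).t (J e) (J f) ↔
        ((J f).1 + dl a b (J f).2 = (J e).1 + dl a b (J e).2 ∧ (J f).2 ≠ (J e).2) :=
      SO_HG_t _ _ (J e).1 (J f).1 (J e).2 (J f).2
    show SO (toCB M κ hcub).t e f ↔ SO (HT L).t (J e) (J f)
    rw [h1]
    constructor
    · intro h
      have h2 : vy e = vy f := (hy e f).2 (Or.inr h)
      have h3 := (hye e f).1 h2
      refine ⟨h3.symm, fun h4 => ?_⟩
      have h4' : k f = k e := h4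
      have h5 : (φ (vx e)).1 = (φ (vx f)).1 := by
        rw [h4'] at h3
        exact add_right_cancel h3
      exact HR2_SO_ne _ (toCB M κ hcub).t3 (toCB M κ hcub).t1 h (hJi (Prod.ext h5.symm h4))
    · rintro ⟨h2, h3⟩
      rcases (hy e f).1 ((hye e f).2 h2.symm) with h4 | h4
      · exact absurd (by rw [h4]) h3
      · exact h4

private lemma R_tri_SO {E : Type u} {s : Equiv.Perm E} {x e f : E} (h : Tri s x e f) : SO s e f := by
  rcases h with ⟨_, h2, _⟩ | ⟨h1, _, h3⟩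
  · exact Or.inl h2.symm
  · exact Or.inr (by rw [h3, h1])

theorem girth_cb (M : Emb G) (κ : G.Coloring Bool) (hcub : ∀ v, (G.neighborSet v).ncard = 3)
    (h4 : ∀ a b c d, G.Adj a b → G.Adj b c → G.Adj c d → G.Adj d a → a = c ∨ b = d) :
    IsEmpty (Th (toCB M κ hcub)) ∧ IsEmpty (Dg (toCB M κ hcub)) ∧ IsEmpty (Sq (toCB M κ hcub)) := by
  obtain ⟨vx, vy, hE, _, _, hx, hy, _⟩ := toCB_ends M κ hcub
  have inj : ∀ e f, vx e = vx f → vy e = vy f → e = f := by
    intro e f h1 h2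
    apply Subtype.ext
    rw [hE e, hE f, h1, h2]
  have adj : ∀ e, G.Adj (vx e) (vy e) := by
    intro e
    have h1 : (e : Sym2 V) ∈ G.edgeSet := e.2
    rw [hE e] at h1
    exact h1
  refine ⟨⟨fun T => ?_⟩, ⟨fun D => ?_⟩, ⟨fun Q => ?_⟩⟩
  · exact (T.ts.ne (toCB M κ hcub).s1).2.2 (inj _ _ ((hx T.e T.f).2 (Or.inr (R_tri_SO T.ts)))
      ((hy T.e T.f).2 (Or.inr (R_tri_SO T.tt))))
  · exact (D.tg.ne (toCB M κ hcub).s1).2.2 (inj _ _ ((hx D.e D.f).2 (Or.inr (R_tri_SO D.tg)))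
      ((hy D.e D.f).2 (Or.inr (R_tri_SO D.th))))
  · have ha := (hx Q.e1 Q.e4).2 (Or.inr (R_tri_SO Q.ta))
    have hb := (hy Q.e1 Q.e2).2 (Or.inr (R_tri_SO Q.tb))
    have hc := (hx Q.e3 Q.e2).2 (Or.inr (R_tri_SO Q.tc))
    have hd := (hy Q.e3 Q.e4).2 (Or.inr (R_tri_SO Q.td))
    have h1 : G.Adj (vx Q.e1) (vy Q.e1) := adj _
    have h2 : G.Adj (vy Q.e1) (vx Q.e2) := by rw [hb]; exact (adj _).symm
    have h3 : G.Adj (vx Q.e2) (vy Q.e3) := by rw [← hc]; exact adj _
    have h4' : G.Adj (vy Q.e3) (vx Q.e1) := by rw [hd, ha]; exact (adj _).symm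
    rcases h4 _ _ _ _ h1 h2 h3 h4' with h | h
    · exact (Q.tb.ne (toCB M κ hcub).t1).2.2 (inj _ _ h hb)
    · exact (Q.ta.ne (toCB M κ hcub).s1).2.2 (inj _ _ ha (by rw [h, hd]))

end Pool.Agent.PP
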