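import Pool.Agent.Lib_MP_7c0803_hon.Nf
import Pool.Agent.Lib_MP_7c0803_hon.N6
import Pool.Agent.Lib_MP_7c0803_hon.O
import Pool.Agent.Lib_MP_7c0803_hon.P
import Pool.Agent.Lib_MP_7c0803_hon.R

/-!
# Toroidal cubic bipartite graphs without 4-cycles
-/

set_option autoImplicit false

open Finset Function

namespace Pool.Agent.PP

open SimpleGraph

universe u

/-- `mp rho (Lt (4, 0) (2, 4)) = Lt (2, 2) (0, 8)` -/
lemma rho_40 : mp rho (Lt (4, 0) (2, 4)) = Lt (2, 2) (0, 8) := by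
  rw [mp_Lt]
  ext x
  rw [mem_Lt', mem_Lt']
  simp only [rho_apply]
  constructor
  · rintro ⟨i, j, h1, h2⟩
    exact ⟨-2 * i - 3 * j, i + j, by linarith, by linarith⟩
  · rintro ⟨i, j, h1, h2⟩
    exact ⟨i + 3 * j, -i - 2 * j, by linarith, by linarith⟩

/-- tubes with an even number of layers -/
def IsTube (L : AddSubgroup (ℤ × ℤ)) : Prop := ∃ (s : ℤ) (k : ℕ), 2 ≤ k ∧ L = Lt (3, 0) (s, 2 * k)

/-- a honeycomb torus of girth at least six with constant parity -/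
theorem spc_of_pc {E : Type u} [Fintype E] (B : CB E) (L : AddSubgroup (ℤ × ℤ)) (n : ℤ) (hn : 0 < n) (h1 : (n, (0 : ℤ)) ∈ L)
    (h2 : ((0 : ℤ), n) ∈ L) (h3 : ∀ x ∈ L, x ≠ 0 → 3 ≤ nrm x) (i : Nonempty (UIso B (HT L))) (hp : B.PC) :
    ∃ L', (IsTube L' ∨ L' = Lt (2, 2) (0, 8) ∨ L' = Lt (2, 1) (-7, 0) ∨ L' = Lt (2, 1) (-10, 0)) ∧ Nonempty (UIso B (HT L')) := by
  obtain ⟨u', v', hP, hq, hqp, hp0, hpos, hmin', x0, hx0, hx00, hx0n⟩ := normal_form0 L n hn h1 h2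
  have hrho : ∀ M : AddSubgroup (ℤ × ℤ), Nonempty (UIso B (HT M)) → Nonempty (UIso B (HT (mp rho M))) := fun M ⟨k⟩ => by
    obtain ⟨j⟩ := uiso_rho M
    exact ⟨k.trans j⟩
  have htau : ∀ M : AddSubgroup (ℤ × ℤ), Nonempty (UIso B (HT M)) → Nonempty (UIso B (HT (mp tau M))) := fun M ⟨k⟩ => by
    obtain ⟨j⟩ := uiso_tau M
    exact ⟨k.trans j⟩
  have hi := hP (fun M => Nonempty (UIso B (HT M))) hrho htau i
  have h4 : 3 ≤ u'.1 + u'.2 := by
    have := h3 x0 hx0 hx00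
    rw [hx0n, nrm_pos_coord u' (by omega) hq] at this
    exact this
  rcases nf_class.{u} u' v' hq hqp hp0 hpos hmin' h4 with h5 | h5
  · exact absurd hp (h5 E B hi)
  · rcases h5 with h5 | h5 | h5 | h5 | h5
    · exact ⟨_, Or.inl h5, hi⟩
    · exact ⟨_, Or.inr (Or.inl h5), hi⟩
    · have h6 := hrho _ hi
      rw [h5, rho_40] at h6
      exact ⟨_, Or.inr (Or.inl rfl), h6⟩
    · exact ⟨_, Or.inr (Or.inr (Or.inl h5)), hi⟩
    · exact ⟨_, Or.inr (Or.inr (Or.inr h5)), hi⟩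

theorem con_IsTube (L : AddSubgroup (ℤ × ℤ)) (h : IsTube L) : (HT L).Con := by
  obtain ⟨s, k, hk, rfl⟩ := h
  have h1 := con_tube s (2 * k) (by omega) (by omega)
  push_cast at h1
  exact h1

variable {V : Type u} {G : SimpleGraph V}

theorem torus_spc [Finite V] (M : Emb G) (κ : G.Coloring Bool) (hcub : ∀ v, (G.neighborSet v).ncard = 3)
    (hG : G.Connected) (htw : ∀ d, M.tw d = false) (hχ : Nat.card G.edgeSet ≤ Nat.card V + Nat.card M.Face)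
    (h4 : ∀ a b c d, G.Adj a b → G.Adj b c → G.Adj c d → G.Adj d a → a = c ∨ b = d) (hE : EvenFlips G) :
    ∃ L, (IsTube L ∨ L = Lt (2, 2) (0, 8) ∨ L = Lt (2, 1) (-7, 0) ∨ L = Lt (2, 1) (-10, 0)) ∧
      Nonempty (UIso (toCB M κ hcub) (HT L)) := by
  classical
  have : Fintype G.edgeSet := Fintype.ofFinite _
  have hp : (toCB M κ hcub).PC := (PC_iff M κ hcub).2 hE
  obtain ⟨hT, hD, hS⟩ := girth_cb M κ hcub h4
  have hC := cn_of_connected M κ hcub hG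
  have h6 := hexagons (toCB M κ hcub) (twE M κ) ((chi0_iff M κ hcub).1 hχ) hT hD hS
  have h3 := st3 (toCB M κ hcub) (twE M κ) (fun e => htw _) h6
  have hne : Nonempty G.edgeSet := by
    obtain ⟨v⟩ := hG.nonempty
    have h7 : (G.neighborSet v).Nonempty := by
      rw [← Set.ncard_pos (Set.toFinite _), hcub]
      norm_num
    obtain ⟨w, hw⟩ := h7
    exact ⟨⟨s(v, w), hw⟩⟩
  obtain ⟨L, n, hn, h1, h2, hnm, i⟩ := coord_torus (toCB M κ hcub) hC h3 hT hD hS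
  exact spc_of_pc (toCB M κ hcub) L n hn h1 h2 hnm i hp

/-- **Torus, girth six.** -/
theorem torus_girth6 [Finite V] (M : Emb G) (κ : G.Coloring Bool) (hcub : ∀ v, (G.neighborSet v).ncard = 3)
    (hG : G.Connected) (htw : ∀ d, M.tw d = false) (hχ : Nat.card G.edgeSet ≤ Nat.card V + Nat.card M.Face)
    (h4 : ∀ a b c d, G.Adj a b → G.Adj b c → G.Adj c d → G.Adj d a → a = c ∨ b = d) :
    (Kc G.lineGraph 3 = 1 ↔ (∃ (s : ℤ) (k : ℕ), 2 ≤ k ∧ Nonempty (G ≃g Hon (Lt (3, 0) (s, 2 * k)))) ∨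
      Nonempty (G ≃g Hon (Lt (2, 2) (0, 8)))) ∧
    ((EvenFlips G ∧ Kc G.lineGraph 3 ≠ 1) ↔ Nonempty (G ≃g Hon (Lt (2, 1) (-7, 0))) ∨ Nonempty (G ≃g Hon (Lt (2, 1) (-10, 0)))) := by
  classical
  have : Fintype G.edgeSet := Fintype.ofFinite _
  have hcon : ∀ L : AddSubgroup (ℤ × ℤ), (HT L).Con → Nonempty (G ≃g Hon L) → Kc G.lineGraph 3 = 1 := by
    rintro L hL ⟨φ⟩
    obtain ⟨κ', hκ⟩ := uiso_of_iso hcub L φ
    obtain ⟨i⟩ := hκ M
    exact (Kc_iff M κ' hcub).2 (i.Con.2 hL)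
  have hncon : ∀ L : AddSubgroup (ℤ × ℤ), ¬ (HT L).Con → Nonempty (G ≃g Hon L) → Kc G.lineGraph 3 ≠ 1 := by
    rintro L hL ⟨φ⟩ h
    obtain ⟨κ', hκ⟩ := uiso_of_iso hcub L φ
    obtain ⟨i⟩ := hκ M
    exact hL (i.Con.1 ((Kc_iff M κ' hcub).1 h))
  have hpc : ∀ L : AddSubgroup (ℤ × ℤ), (∀ (E : Type u) [Fintype E] (B : CB E), Nonempty (UIso B (HT L)) → B.PC) →
      Nonempty (G ≃g Hon L) → EvenFlips G := by
    rintro L hL ⟨φ⟩
    obtain ⟨κ', hκ⟩ := uiso_of_iso hcub L φ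
    exact (PC_iff M κ' hcub).1 (hL _ _ (hκ M))
  refine ⟨⟨fun h => ?_, fun h => ?_⟩, ⟨fun h => ?_, fun h => ?_⟩⟩
  · have hE : EvenFlips G := fun c c' => kc_necessary M κ hcub h c c'
    obtain ⟨L, hL, i⟩ := torus_spc M κ hcub hG htw hχ h4 hE
    have hφ := iso_of_uiso M κ hcub L i
    rcases hL with hL | hL | hL | hL
    · obtain ⟨s, k, hk, rfl⟩ := hL
      exact Or.inl ⟨s, k, hk, hφ⟩
    · subst hL
      exact Or.inr hφ
    · subst hL
      exact absurd h (hncon _ ncon_T14 hφ)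
    · subst hL
      exact absurd h (hncon _ ncon_T20 hφ)
  · rcases h with ⟨s, k, hk, h⟩ | h
    · exact hcon _ (con_IsTube _ ⟨s, k, hk, rfl⟩) h
    · exact hcon _ con_T32 h
  · obtain ⟨hE, hK⟩ := h
    obtain ⟨L, hL, i⟩ := torus_spc M κ hcub hG htw hχ h4 hE
    have hφ := iso_of_uiso M κ hcub L i
    rcases hL with hL | hL | hL | hL
    · exact absurd (hcon _ (con_IsTube _ hL) hφ) hK
    · subst hL
      exact absurd (hcon _ con_T32 hφ) hK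
    · subst hL
      exact Or.inl hφ
    · subst hL
      exact Or.inr hφ
  · rcases h with h | h
    · exact ⟨hpc _ pc_T14 h, hncon _ ncon_T14 h⟩
    · exact ⟨hpc _ pc_T20 h, hncon _ ncon_T20 h⟩

end Pool.Agent.PP
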